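import Pool.Agent.MP_c70b3b_mp.NC

open MeasureTheory ProbabilityTheory Filter Topology
open scoped symmDiff ENNReal

namespace Pool.Agent.MP_c70b3b_mp

theorem alt_sg_insert {ι : Type} [LinearOrder ι] {A : Finset ι} {a : ι} (ha : a ∉ A) (x : ι) :
    (-1 : ℝ) ^ ((insert a A).filter (· < x)).card =
      (if a < x then -1 else 1) * (-1 : ℝ) ^ (A.filter (· < x)).card := by
  rw [Finset.filter_insert]
  split_ifs with h
  · rw [Finset.card_insert_of_notMem fun h' => ha (Finset.mem_filter.1 h').1, pow_succ]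
    ring
  · rw [one_mul]

theorem alt_remove {ι : Type} [LinearOrder ι] {A : Finset ι} {a b : ι} (ha : a ∉ A) (hb : b ∉ A)
    (hab : a < b) (hA : ∀ x ∈ A, x < a ∨ b < x) (t : ι → ℝ) (ht : t a = t b) :
    alt (insert a (insert b A)) t = alt A t := by
  have ha' : a ∉ insert b A := by
    rw [Finset.mem_insert]
    rintro (h | h)
    · exact hab.ne h
    · exact ha h
  have hf : A.filter (· < b) = A.filter (· < a) := by
    refine Finset.filter_congr fun x hx => ?_
    rcases hA x hx with h | h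
    · exact ⟨fun _ => h, fun _ => h.trans hab⟩
    · exact ⟨fun h' => absurd h' h.not_gt, fun h' => absurd (h'.trans hab) h.not_gt⟩
  unfold alt
  rw [Finset.sum_insert ha', Finset.sum_insert hb]
  simp only [alt_sg_insert ha', alt_sg_insert hb]
  rw [if_neg (lt_irrefl a), if_neg hab.not_gt, if_pos hab, if_neg (lt_irrefl b), hf, ht]
  have hs : ∑ x ∈ A, (if a < x then -1 else 1) * ((if b < x then -1 else 1) *
      (-1 : ℝ) ^ (A.filter (· < x)).card) * t x =
      ∑ x ∈ A, (-1 : ℝ) ^ (A.filter (· < x)).card * t x := by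
    refine Finset.sum_congr rfl fun x hx => ?_
    rcases hA x hx with h | h
    · rw [if_neg h.not_gt, if_neg (h.trans hab).not_gt]
      ring
    · rw [if_pos (hab.trans h), if_pos h]
      ring
  rw [hs]
  ring

theorem alt_pair {ι : Type} [LinearOrder ι] (A : Finset ι) (r : ι → ι → Prop) [DecidableRel r]
    (hr : ∀ a, r a a) (hs : ∀ a b, r a b → r b a) (htr : ∀ a b c, r a b → r b c → r a c)
    (hev : ∀ a ∈ A, Even (A.filter (r a)).card)
    (hnc : ∀ a ∈ A, ∀ b ∈ A, ∀ c ∈ A, ∀ d ∈ A, a < b → b < c → c < d → r a c → r b d → r a b)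
    (hne : A.Nonempty) :
    ∃ a ∈ A, ∃ b ∈ A, a < b ∧ r a b ∧ ∀ x ∈ A, ¬ (a < x ∧ x < b) := by
  have hoth : ∀ c ∈ A, ∃ d ∈ A, d ≠ c ∧ r c d := by
    intro c hc
    by_contra hcon
    have : A.filter (r c) = {c} := by
      ext d
      rw [Finset.mem_filter, Finset.mem_singleton]
      constructor
      · rintro ⟨h1, h2⟩
        by_contra h3
        exact hcon ⟨d, h1, h3, h2⟩
      · rintro rfl
        exact ⟨hc, hr _⟩
    have h := hev c hc
    rw [this, Finset.card_singleton] at h
    exact absurd h (by decide)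
  have key : ∀ n : ℕ, ∀ a ∈ A, ∀ b ∈ A, a < b → r a b →
      (A.filter fun x => a < x ∧ x < b).card = n →
      ∃ a ∈ A, ∃ b ∈ A, a < b ∧ r a b ∧ ∀ x ∈ A, ¬ (a < x ∧ x < b) := by
    intro n
    induction n using Nat.strong_induction_on with
    | _ n ih =>
      intro a ha b hb hab hrab hn
      by_cases hall : ∀ x ∈ A, ¬ (a < x ∧ x < b)
      · exact ⟨a, ha, b, hb, hab, hrab, hall⟩
      push Not at hall
      obtain ⟨c, hc, hac, hcb⟩ := hall
      have small : ∀ u ∈ A, ∀ v ∈ A, u < v → r u v → a ≤ u → v ≤ b → (u = c ∨ v = c) →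
          ∃ a ∈ A, ∃ b ∈ A, a < b ∧ r a b ∧ ∀ x ∈ A, ¬ (a < x ∧ x < b) := by
        intro u hu v hv huv hruv hau hvb hc'
        refine ih _ ?_ u hu v hv huv hruv rfl
        rw [← hn]
        refine Finset.card_lt_card ⟨fun x hx => ?_, fun h => ?_⟩
        · rw [Finset.mem_filter] at hx ⊢
          exact ⟨hx.1, hau.trans_lt hx.2.1, hx.2.2.trans_le hvb⟩
        · have h1 := (Finset.mem_filter.1 (h (Finset.mem_filter.2 ⟨hc, hac, hcb⟩))).2
          rcases hc' with h2 | h2
          · exact h1.1.ne h2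
          · exact h1.2.ne' h2
      by_cases hrac : r a c
      · exact small a ha c hc hac hrac le_rfl hcb.le (Or.inr rfl)
      obtain ⟨d, hd, hdc, hrcd⟩ := hoth c hc
      rcases lt_or_gt_of_ne hdc with h | h
      · by_cases h2 : a ≤ d
        · exact small d hd c hc h (hs _ _ hrcd) h2 hcb.le (Or.inr rfl)
        · have h3 := hnc d hd a ha c hc b hb (not_le.1 h2) hac hcb (hs _ _ hrcd) hrab
          exact absurd (htr _ _ _ (hs _ _ h3) (hs _ _ hrcd)) hrac
      · by_cases h2 : d ≤ b
        · exact small c hc d hd h hrcd hac.le h2 (Or.inl rfl)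
        · exact absurd (hnc a ha c hc b hb d hd hac hcb (not_le.1 h2) hrab hrcd) hrac
  obtain ⟨c, hc⟩ := hne
  obtain ⟨d, hd, hdc, hrcd⟩ := hoth c hc
  rcases lt_or_gt_of_ne hdc with h | h
  · exact key _ d hd c hc h (hs _ _ hrcd) rfl
  · exact key _ c hc d hd h hrcd rfl

theorem alt_zero {ι : Type} [LinearOrder ι] (A : Finset ι) (r : ι → ι → Prop) [DecidableRel r]
    (hr : ∀ a, r a a) (hs : ∀ a b, r a b → r b a) (htr : ∀ a b c, r a b → r b c → r a c)
    (t : ι → ℝ) (ht : ∀ a ∈ A, ∀ b ∈ A, r a b → t a = t b)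
    (hev : ∀ a ∈ A, Even (A.filter (r a)).card)
    (hnc : ∀ a ∈ A, ∀ b ∈ A, ∀ c ∈ A, ∀ d ∈ A, a < b → b < c → c < d → r a c → r b d → r a b) :
    alt A t = 0 := by
  induction A using Finset.strongInduction with
  | H A ih =>
    rcases A.eq_empty_or_nonempty with rfl | hne
    · simp [alt]
    obtain ⟨a, ha, b, hb, hab, hrab, hcons⟩ := alt_pair A r hr hs htr hev hnc hne
    set A' := (A.erase a).erase b with hA'
    have hmem : ∀ x, x ∈ A' ↔ x ≠ b ∧ x ≠ a ∧ x ∈ A := fun x => by
      rw [hA', Finset.mem_erase, Finset.mem_erase]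
    have haA : a ∉ A' := fun h => ((hmem a).1 h).2.1 rfl
    have hbA : b ∉ A' := fun h => ((hmem b).1 h).1 rfl
    have hsub : ∀ x ∈ A', x ∈ A := fun x hx => ((hmem x).1 hx).2.2
    have he : A = insert a (insert b A') := by
      rw [hA', Finset.insert_erase (Finset.mem_erase.2 ⟨hab.ne', hb⟩), Finset.insert_erase ha]
    have hout : ∀ x ∈ A', x < a ∨ b < x := by
      intro x hx
      obtain ⟨h1, h2, h3⟩ := (hmem x).1 hx
      rcases lt_or_gt_of_ne h2 with h | h
      · exact Or.inl h
      · rcases lt_or_gt_of_ne h1 with h' | h'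
        · exact absurd ⟨h, h'⟩ (hcons x h3)
        · exact Or.inr h'
    have h0 : alt A' t = 0 := by
      refine ih A' ⟨hsub, fun h => haA (h ha)⟩ (fun x hx y hy => ht x (hsub x hx) y (hsub y hy))
        (fun x hx => ?_) (fun x hx y hy z hz w hw =>
          hnc x (hsub x hx) y (hsub y hy) z (hsub z hz) w (hsub w hw))
      have h1 := hev x (hsub x hx)
      rw [he, Finset.filter_insert, Finset.filter_insert] at h1
      by_cases h2 : r x a
      · have hb' : b ∉ A'.filter (r x) := fun h => hbA (Finset.mem_filter.1 h).1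
        have ha' : a ∉ insert b (A'.filter (r x)) := by
          rw [Finset.mem_insert]
          rintro (h | h)
          · exact hab.ne h
          · exact haA (Finset.mem_filter.1 h).1
        rw [if_pos h2, if_pos (htr _ _ _ h2 hrab), Finset.card_insert_of_notMem ha',
          Finset.card_insert_of_notMem hb', Nat.even_add_one, Nat.even_add_one, not_not] at h1
        exact h1
      · rw [if_neg h2, if_neg fun h => h2 (htr _ _ _ h (hs _ _ hrab))] at h1
        exact h1
    rw [he, alt_remove haA hbA hab hout t (ht a ha b hb hrab), h0]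

theorem alt_conn_mem {G : Set E} {O : Set V} {x y : V} (h : Conn G O x y) (hx : x ∈ O) :
    y ∈ O := by
  induction h with
  | refl => exact hx
  | tail _ h2 _ => exact h2.2.1

theorem alt_conn_symm {G : Set E} {O : Set V} {x y : V} (h : Conn G O x y) : Conn G O y x := by
  induction h with
  | refl => exact Relation.ReflTransGen.refl
  | tail _ h2 ih =>
    obtain ⟨h3, h4, e, he, h5⟩ := h2
    exact Relation.ReflTransGen.head ⟨h4, h3, e, he, h5.symm⟩ ih

theorem alt_conn_self {G : Set E} {O : Set V} {x y : V} (h : Conn G O x y) :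
    Conn G {z | Conn G O x z} x y := by
  induction h with
  | refl => exact Relation.ReflTransGen.refl
  | tail h1 h2 ih => exact ih.tail ⟨h1, h1.tail h2, h2.2.2⟩

theorem alt_core (N : ℕ) (τ : S) (A : Finset (Fin (8 * N))) (G : Set E) (B : V → Prop)
    (hB : ∀ i : Fin (8 * N), B (bv N i))
    (hnc : ∀ a b c d : ℕ, a < b → b < c → c < d → d < 8 * N → ∀ O O' : Set V, Disjoint O O' →
      (∀ x ∈ O, B x) → (∀ x ∈ O', B x) → bv N b ∈ O' → Conn G O (bv N a) (bv N c) →
      Conn G O' (bv N b) (bv N d) → False)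
    [DecidableRel fun a b : Fin (8 * N) =>
      Conn G {x | B x ∧ τ x = τ (bv N a)} (bv N a) (bv N b)]
    (hev : ∀ a ∈ A, Even (A.filter fun b : Fin (8 * N) =>
      Conn G {x | B x ∧ τ x = τ (bv N a)} (bv N a) (bv N b)).card) :
    alt A (fun i => sp (τ (bv N i))) = 0 := by
  have hsg : ∀ (a : Fin (8 * N)) (y : V), Conn G {x | B x ∧ τ x = τ (bv N a)} (bv N a) y →
      B y ∧ τ y = τ (bv N a) := fun a y h => alt_conn_mem h ⟨hB a, rfl⟩
  refine alt_zero A (fun a b : Fin (8 * N) =>
    Conn G {x | B x ∧ τ x = τ (bv N a)} (bv N a) (bv N b)) (fun a => Relation.ReflTransGen.refl)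
    (fun a b h => ?_) (fun a b c h h' => ?_) _ (fun a _ b _ h => ?_) hev
    (fun a _ b _ c _ d _ hab hbc hcd hac hbd => ?_)
  · rw [(hsg a _ h).2]
    exact alt_conn_symm h
  · rw [(hsg a _ h).2] at h'
    exact Relation.ReflTransGen.trans h h'
  · rw [(hsg a _ h).2]
  · by_contra hcon
    refine hnc a b c d hab hbc hcd d.2 {z | Conn G {x | B x ∧ τ x = τ (bv N a)} (bv N a) z}
      {z | Conn G {x | B x ∧ τ x = τ (bv N b)} (bv N b) z} ?_ (fun x hx => (hsg a x hx).1)
      (fun x hx => (hsg b x hx).1) Relation.ReflTransGen.refl (alt_conn_self hac)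
      (alt_conn_self hbd)
    rw [Set.disjoint_left]
    intro y h1 h2
    have h3 : τ (bv N b) = τ (bv N a) := (hsg b y h2).2.symm.trans (hsg a y h1).2
    have h4 : Conn G {x | B x ∧ τ x = τ (bv N b)} (bv N b) y := h2
    rw [h3] at h4
    exact hcon (Relation.ReflTransGen.trans h1 (alt_conn_symm h4))

theorem alt_even (N : ℕ) (τ : S) (A : Finset (Fin (8 * N))) (G G' : Set E) (B : V → Prop)
    (hG : ∀ e ∈ G', e ∈ G ∧ B e.1 ∧ B (tip e))
    (hno : ∀ U : Finset V, Closed G' τ U →
      Even (A.image (fun i : Fin (8 * N) => bv N i) ∩ U).card)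
    (s : ℤˣ) (T : Finset V) (hT : ∀ x ∈ T, B x ∧ τ x = s)
    (hfin : ∀ x ∈ T, {y | Conn G {x | B x ∧ τ x = s} x y}.Finite) (p : Fin (8 * N) → Prop)
    [DecidablePred p]
    (hp : ∀ b ∈ A, p b ↔ ∃ x ∈ T, Conn G {x | B x ∧ τ x = s} x (bv N b)) :
    Even (A.filter p).card := by
  have hF : (⋃ x ∈ (T : Set V), {y | Conn G {x | B x ∧ τ x = s} x y}).Finite :=
    T.finite_toSet.biUnion hfin
  have hm : ∀ y, y ∈ hF.toFinset ↔ ∃ x ∈ T, Conn G {x | B x ∧ τ x = s} x y := fun y => by
    simp
  have hs : ∀ y ∈ hF.toFinset, B y ∧ τ y = s := fun y hy => by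
    obtain ⟨x, hx, h⟩ := (hm y).1 hy
    exact alt_conn_mem h (hT x hx)
  have hstep : ∀ e ∈ G', ∀ x y, Ends e x y → x ∈ hF.toFinset → y ∉ hF.toFinset → B y →
      τ y = -τ x := by
    intro e he x y hxy hx hy hBy
    have h1 := hs x hx
    obtain ⟨z, hz, h⟩ := (hm x).1 hx
    by_contra hcon
    have h2 : τ y = τ x := by
      by_contra h3
      exact hcon (Int.units_ne_iff_eq_neg.1 h3)
    exact hy ((hm y).2 ⟨z, hz, h.tail ⟨h1, ⟨hBy, h2.trans h1.2⟩, e, (hG e he).1, hxy⟩⟩)
  have hcl : Closed G' τ hF.toFinset := by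
    intro e he he'
    rw [mem_cob] at he
    by_cases h1 : e.1 ∈ hF.toFinset
    · have h2 : tip e ∉ hF.toFinset := fun h => he ⟨fun _ => h, fun _ => h1⟩
      rw [bond, hstep e he' _ _ (Or.inl ⟨rfl, rfl⟩) h1 h2 (hG e he').2.2, sp_neg, mul_neg,
        sp_mul_self]
    · have h2 : tip e ∈ hF.toFinset := by
        by_contra h
        exact he ⟨fun h' => absurd h' h1, fun h' => absurd h' h⟩
      rw [bond, hstep e he' _ _ (Or.inr ⟨rfl, rfl⟩) h2 h1 (hG e he').2.1, sp_neg, neg_mul,
        sp_mul_self]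
  have h := hno _ hcl
  have e : A.image (fun i : Fin (8 * N) => bv N i) ∩ hF.toFinset =
      (A.filter p).image (fun i : Fin (8 * N) => bv N i) := by
    ext y
    rw [Finset.mem_inter, hm, Finset.mem_image, Finset.mem_image]
    constructor
    · rintro ⟨⟨b, hb, rfl⟩, h2⟩
      exact ⟨b, Finset.mem_filter.2 ⟨hb, (hp b hb).2 h2⟩, rfl⟩
    · rintro ⟨b, hb, rfl⟩
      rw [Finset.mem_filter] at hb
      exact ⟨⟨b, hb.1, rfl⟩, (hp b hb.1).1 hb.2⟩
  rwa [e, Finset.card_image_of_injective _ fun a b hab => Fin.ext (bv_inj a.2 b.2 hab)] at h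

theorem alt_sign_even {m : ℕ} (A : Finset (Fin m)) (η : Fin m → ℤˣ) (hA : Even A.card)
    (h1 : ch A η = 1) (s : ℤˣ) : Even (A.filter fun i => η i = s).card := by
  have hsp : ∀ i, sp (η i) = if η i = 1 then 1 else -1 := fun i => by
    rcases Int.units_eq_one_or (η i) with h | h <;> simp [h, sp]
  have h2 : Even (A.filter fun i => ¬ η i = 1).card := by
    simp only [ch, hsp] at h1
    rw [Finset.prod_ite, Finset.prod_const_one, one_mul, Finset.prod_const] at h1
    exact (neg_one_pow_eq_one_iff_even (by norm_num)).1 h1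
  have h3 := Finset.card_filter_add_card_filter_not (s := A) (fun i => η i = 1)
  rcases Int.units_eq_one_or s with rfl | rfl
  · rw [← h3, Nat.even_add] at hA
    exact hA.2 h2
  · have : (A.filter fun i => η i = -1) = A.filter fun i => ¬ η i = 1 :=
      Finset.filter_congr fun i _ => Int.units_ne_iff_eq_neg.symm
    rwa [this]

theorem alt_out (N : ℕ) (τ : S) (hU : UniqAll τ) (A : Finset (Fin (8 * N))) (hA : Even A.card)
    (h1 : ch A (fun i => τ (bv N i)) = 1)
    (hno : ∀ U : Finset V, Closed (touch (box N) : Set E)ᶜ τ U →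
      Even (A.image (fun i : Fin (8 * N) => bv N i) ∩ U).card) :
    alt A (fun i => sp (τ (bv N i))) = 0 := by
  classical
  have hB : ∀ i : Fin (8 * N), bv N i ∉ box N := fun i => bv_not_mem i.2
  have hG : ∀ e ∈ (touch (box N) : Set E)ᶜ, e ∈ (Set.univ : Set E) ∧ e.1 ∉ box N ∧
      tip e ∉ box N := by
    intro e he
    have h : ¬ (e.1 ∈ box N ∨ tip e ∈ box N) := fun h => he (Finset.mem_coe.2 (mem_touch.2 h))
    exact ⟨trivial, fun h' => h (Or.inl h'), fun h' => h (Or.inr h')⟩
  refine alt_core N τ A Set.univ (fun x => x ∉ box N) hB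
    (fun a b c d hab hbc hcd hd O O' hO k1 k2 hb hac hbd =>
      nc_out hab hbc hcd hd hO k1 k2 hb hac hbd) fun a ha => ?_
  set s := τ (bv N a) with hs
  by_cases hfin : {y | Conn Set.univ {x | x ∉ box N ∧ τ x = s} (bv N a) y}.Finite
  · refine alt_even N τ A Set.univ _ (fun x => x ∉ box N) hG hno s {bv N a} ?_ ?_ _ ?_
    · intro x hx
      rw [Finset.mem_singleton.1 hx]
      exact ⟨hB a, rfl⟩
    · intro x hx
      rw [Finset.mem_singleton.1 hx]
      exact hfin
    · intro b _
      simp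
  · set q : Fin (8 * N) → Prop := fun b => τ (bv N b) = s ∧
      {y | Conn Set.univ {x | x ∉ box N ∧ τ x = s} (bv N b) y}.Finite with hq
    have hfe : Even (A.filter q).card := by
      refine alt_even N τ A Set.univ _ (fun x => x ∉ box N) hG hno s
        ((A.filter q).image fun i : Fin (8 * N) => bv N i) ?_ ?_ _ ?_
      · intro x hx
        obtain ⟨b, hb, rfl⟩ := Finset.mem_image.1 hx
        exact ⟨hB b, (Finset.mem_filter.1 hb).2.1⟩
      · intro x hx
        obtain ⟨b, hb, rfl⟩ := Finset.mem_image.1 hx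
        exact (Finset.mem_filter.1 hb).2.2
      · intro b hb
        constructor
        · intro h
          exact ⟨_, Finset.mem_image_of_mem _ (Finset.mem_filter.2 ⟨hb, h⟩),
            Relation.ReflTransGen.refl⟩
        · rintro ⟨x, hx, h⟩
          obtain ⟨c, hc, rfl⟩ := Finset.mem_image.1 hx
          have hc' := (Finset.mem_filter.1 hc).2
          exact ⟨(alt_conn_mem h ⟨hB c, hc'.1⟩).2,
            hc'.2.subset fun y hy => Relation.ReflTransGen.trans h hy⟩
    have hall := alt_sign_even A (fun i => τ (bv N i)) hA h1 s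
    have hsplit : (A.filter fun i : Fin (8 * N) => τ (bv N i) = s) =
        (A.filter fun b : Fin (8 * N) =>
          Conn Set.univ {x | x ∉ box N ∧ τ x = s} (bv N a) (bv N b)) ∪ A.filter q := by
      rw [← Finset.filter_or]
      refine Finset.filter_congr fun b _ => ⟨fun h => ?_, ?_⟩
      · by_cases hb : {y | Conn Set.univ {x | x ∉ box N ∧ τ x = s} (bv N b) y}.Finite
        · exact Or.inr ⟨h, hb⟩
        · exact Or.inl (hU (box N) s _ _ ⟨⟨hB a, rfl⟩, hfin⟩ ⟨⟨hB b, h⟩, hb⟩)
      · rintro (h | h)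
        · exact (alt_conn_mem h ⟨hB a, rfl⟩).2
        · exact h.1
    have hdis : Disjoint (A.filter fun b : Fin (8 * N) =>
        Conn Set.univ {x | x ∉ box N ∧ τ x = s} (bv N a) (bv N b)) (A.filter q) := by
      rw [Finset.disjoint_filter]
      intro b _ h h'
      exact hfin (h'.2.subset fun y hy => Relation.ReflTransGen.trans (alt_conn_symm h) hy)
    rw [hsplit, Finset.card_union_of_disjoint hdis, Nat.even_add] at hall
    exact hall.2 hfe

theorem alt_in (N : ℕ) (τ : S) (A : Finset (Fin (8 * N)))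
    (hno : ∀ U : Finset V, Closed (touch (box N) : Set E) τ U →
      Even (A.image (fun i : Fin (8 * N) => bv N i) ∩ U).card) :
    alt A (fun i => sp (τ (bv N i))) = 0 := by
  classical
  refine alt_core N τ A (touch (box N) : Set E) (fun _ => True) (fun _ => trivial)
    (fun a b c d hab hbc hcd hd O O' hO _ _ hb hac hbd =>
      nc_in hab hbc hcd hd hO hb hac hbd) fun a ha => ?_
  refine alt_even N τ A (touch (box N) : Set E) _ (fun _ => True)
    (fun e he => ⟨he, trivial, trivial⟩) hno (τ (bv N a)) {bv N a} ?_ ?_ _ ?_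
  · intro x hx
    rw [Finset.mem_singleton.1 hx]
    exact ⟨trivial, rfl⟩
  · intro x _
    refine (insert x ((touch (box N)).image Prod.fst ∪ (touch (box N)).image tip)).finite_toSet.subset
      fun y hy => ?_
    rw [Finset.mem_coe, Finset.mem_insert, Finset.mem_union]
    rcases Relation.ReflTransGen.cases_tail hy with h | ⟨z, -, -, -, e, he, h | h⟩
    · exact Or.inl h
    · exact Or.inr (Or.inr (Finset.mem_image.2 ⟨e, he, h.2⟩))
    · exact Or.inr (Or.inl (Finset.mem_image.2 ⟨e, he, h.1⟩))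
  · intro b _
    simp

end Pool.Agent.MP_c70b3b_mp
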