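import Pool.Agent.MP_c70b3b_mp.Gib

open MeasureTheory ProbabilityTheory Filter Topology
open scoped symmDiff ENNReal

namespace Pool.Agent.MP_c70b3b_mp

lemma approx_gauss (a : ℝ) : gaussianReal a 1 =
    (gaussianReal 0 1).withDensity fun x => ENNReal.ofReal (Real.exp (a * x - a ^ 2 / 2)) := by
  rw [gaussianReal_of_var_ne_zero a one_ne_zero, gaussianReal_of_var_ne_zero 0 one_ne_zero,
    ← withDensity_mul _ (measurable_gaussianPDF _ _) (by fun_prop)]
  congr 1
  funext x
  simp only [gaussianPDF, Pi.mul_apply]
  rw [← ENNReal.ofReal_mul (gaussianPDFReal_nonneg _ _ _)]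
  congr 1
  simp only [gaussianPDFReal]
  rw [mul_assoc _ (Real.exp _), ← Real.exp_add]
  congr 2
  push_cast
  ring

lemma approx_cyl (e : E) (a : ℝ) (s : Finset E) (he : e ∈ s) (t : E → Set ℝ)
    (ht : ∀ i, MeasurableSet (t i)) :
    (P.withDensity fun w => ENNReal.ofReal (Real.exp (a * w e - a ^ 2 / 2))) (Set.pi s t) =
      ∏ i ∈ s, gaussianReal ((Pi.single e a : W) i) 1 (t i) := by
  have hm : MeasurableSet (Set.pi (s : Set E) t) := .pi s.countable_toSet fun i _ => ht i
  let Y : E → ℝ → ℝ≥0∞ := fun i => (t i).indicator fun x =>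
    ENNReal.ofReal (Real.exp ((Pi.single e a : W) i * x - ((Pi.single e a : W) i) ^ 2 / 2))
  have hY : ∀ i, Measurable (Y i) := fun i => Measurable.indicator (by fun_prop) (ht i)
  have h1 := lintegral_prod_eq_prod_lintegral_of_indepFun s (fun i (w : W) => Y i (w i))
    (iIndep_P.comp Y hY) (fun i => (hY i).comp (measurable_pi_apply i))
  rw [withDensity_apply _ hm, ← lintegral_indicator hm]
  have h2 : ∀ w : W, (Set.pi (s : Set E) t).indicator
      (fun w : W => ENNReal.ofReal (Real.exp (a * w e - a ^ 2 / 2))) w = ∏ i ∈ s, Y i (w i) := by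
    intro w
    by_cases hw : w ∈ Set.pi (s : Set E) t
    · rw [Set.indicator_of_mem hw, Finset.prod_eq_single e]
      · simp only [Y]
        rw [Set.indicator_of_mem (hw e he), Pi.single_eq_same]
      · intro i hi hie
        simp only [Y]
        rw [Set.indicator_of_mem (hw i hi), Pi.single_eq_of_ne hie]
        simp
      · intro h
        exact absurd he h
    · rw [Set.indicator_of_notMem hw]
      simp only [Set.mem_pi, Finset.mem_coe, not_forall] at hw
      obtain ⟨i, hi, hwi⟩ := hw
      refine (Finset.prod_eq_zero hi ?_).symm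
      simp only [Y]
      rw [Set.indicator_of_notMem hwi]
  simp_rw [h2]
  rw [h1]
  refine Finset.prod_congr rfl fun i _ => ?_
  rw [(mp_eval i).lintegral_comp (hY i), approx_gauss ((Pi.single e a : W) i),
    withDensity_apply _ (ht i), ← lintegral_indicator (ht i)]

theorem shift_formula (e : E) (a : ℝ) :
    P.map (fun w : W => w + Pi.single e a) =
      P.withDensity fun w => ENNReal.ofReal (Real.exp (a * w e - a ^ 2 / 2)) := by
  have h := Measure.infinitePi_map_pi (fun _ : E => gaussianReal 0 1)
    (f := fun i (x : ℝ) => x + (Pi.single e a : W) i) (fun i => measurable_add_const _)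
  simp only [gaussianReal_map_add_const, zero_add] at h
  refine Eq.trans h (Measure.eq_infinitePi _ fun s t ht => ?_).symm
  let t' : E → Set ℝ := fun i => if i ∈ s then t i else Set.univ
  have ht' : ∀ i, MeasurableSet (t' i) := fun i => by
    simp only [t']
    split_ifs
    · exact ht i
    · exact MeasurableSet.univ
  have h1 : Set.pi (s : Set E) t = Set.pi ((insert e s : Finset E) : Set E) t' := by
    ext w
    simp only [Set.mem_pi, Finset.mem_coe, t']
    constructor
    · intro hw i _
      split_ifs with hi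
      · exact hw i hi
      · trivial
    · intro hw i hi
      simpa [hi] using hw i (Finset.mem_insert_of_mem hi)
  rw [h1, approx_cyl e a _ (Finset.mem_insert_self e s) t' ht']
  symm
  refine Finset.prod_subset_one_on_sdiff (Finset.subset_insert e s) (fun i hi => ?_)
    (fun i hi => ?_)
  · simp [t', (Finset.mem_sdiff.mp hi).2]
  · simp [t', hi]

lemma approx_cont_cut (B : Finset E) : Continuous (cut B) := by
  refine continuous_pi fun e => ?_
  unfold cut
  split_ifs
  · exact continuous_apply e
  · exact continuous_const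

lemma approx_tendsto_cut (w : W) : Tendsto (fun B : Finset E => cut B w) atTop (𝓝 w) := by
  refine tendsto_pi_nhds.mpr fun e => tendsto_const_nhds.congr' ?_
  filter_upwards [eventually_ge_atTop ({e} : Finset E)] with B hB
  simp [cut, hB (Finset.mem_singleton_self e)]

lemma approx_clip {C x : ℝ} (hx : |x| ≤ C) (y : ℝ) : |x - max (-C) (min C y)| ≤ |x - y| := by
  obtain ⟨h1, h2⟩ := abs_le.mp hx
  rcases le_total y C with h | h
  · rw [min_eq_right h]
    rcases le_total y (-C) with h' | h'
    · rw [max_eq_left h', abs_of_nonneg (by linarith), abs_of_nonneg (by linarith)]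
      linarith
    · rw [max_eq_right h']
  · rw [min_eq_left h, max_eq_right (by linarith), abs_of_nonpos (by linarith),
      abs_of_nonpos (by linarith)]
    linarith

lemma approx_sub_le {C D x y : ℝ} (hx : |x| ≤ C) (hy : |y| ≤ D) : |(|x - y|)| ≤ C + D := by
  rw [abs_abs]
  exact (abs_sub x y).trans (add_le_add hx hy)

theorem exists_local {α : W → ℝ} (hα : Measurable α) {C : ℝ} (hb : ∀ w, |α w| ≤ C) {ε : ℝ}
    (hε : 0 < ε) : ∃ (B : Finset E) (g : W → ℝ), Continuous g ∧ DependsOn g (B : Set E) ∧
      (∀ w, |g w| ≤ C) ∧ ∫ w, |α w - g w| ∂P ≤ ε := by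
  have hC : 0 ≤ C := (abs_nonneg _).trans (hb 0)
  have hi : Integrable α P := integrable_of_bdd hα C hb
  obtain ⟨g0, hg0, hg0i⟩ := hi.exists_boundedContinuous_integral_sub_le (half_pos hε)
  let g1 : W → ℝ := fun w => max (-C) (min C (g0 w))
  have hg1 : Continuous g1 := continuous_const.max (continuous_const.min g0.continuous)
  have hb1 : ∀ w, |g1 w| ≤ C := fun w =>
    abs_le.mpr ⟨le_max_left _ _, max_le (by linarith) (min_le_left _ _)⟩
  have h1 : ∫ w, |α w - g1 w| ∂P ≤ ε / 2 := by
    refine le_trans (integral_mono_of_nonneg (Eventually.of_forall fun w => abs_nonneg _)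
      (hi.sub hg0i).norm (Eventually.of_forall fun w => approx_clip (hb w) _)) hg0
  have h2 : Tendsto (fun B : Finset E => ∫ w, |g1 w - g1 (cut B w)| ∂P) atTop
      (𝓝 (∫ _ : W, (0 : ℝ) ∂P)) := by
    refine tendsto_integral_filter_of_dominated_convergence (fun _ => C + C)
      (Eventually.of_forall fun B => ?_) (Eventually.of_forall fun B =>
        Eventually.of_forall fun w => approx_sub_le (hb1 _) (hb1 _)) (integrable_const _)
      (Eventually.of_forall fun w => ?_)
    · exact (hg1.sub (hg1.comp (approx_cont_cut B))).abs.aestronglyMeasurable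
    · have := (((hg1.tendsto w).comp (approx_tendsto_cut w)).const_sub (g1 w)).abs
      simpa using this
  rw [integral_zero] at h2
  obtain ⟨B, hB⟩ := (h2.eventually (gt_mem_nhds (half_pos hε))).exists
  have hc : Continuous fun w => g1 (cut B w) := hg1.comp (approx_cont_cut B)
  refine ⟨B, fun w => g1 (cut B w), hc, fun w w' hw => ?_, fun w => hb1 _, ?_⟩
  · have : cut B w = cut B w' := by
      funext i
      unfold cut
      split_ifs with hi
      · exact hw i hi
      · rfl
    simp only [this]
  · have i1 : Integrable (fun w => |α w - g1 w|) P :=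
      integrable_of_bdd (hα.sub hg1.measurable).abs _ fun w => approx_sub_le (hb w) (hb1 _)
    have i2 : Integrable (fun w => |g1 w - g1 (cut B w)|) P :=
      integrable_of_bdd (hg1.sub hc).abs.measurable _ fun w => approx_sub_le (hb1 w) (hb1 _)
    calc ∫ w, |α w - g1 (cut B w)| ∂P
        ≤ ∫ w, (|α w - g1 w| + |g1 w - g1 (cut B w)|) ∂P :=
          integral_mono_of_nonneg (Eventually.of_forall fun w => abs_nonneg _) (i1.add i2)
            (Eventually.of_forall fun w => abs_sub_le _ _ _)
      _ = ∫ w, |α w - g1 w| ∂P + ∫ w, |g1 w - g1 (cut B w)| ∂P := integral_add i1 i2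
      _ ≤ ε := by linarith

theorem exists_sign {h : W → ℝ} (hh : Measurable h) {C : ℝ} (hb : ∀ w, |h w| ≤ C) {ε : ℝ}
    (hε : 0 < ε) : ∃ (B : Finset E) (φ : W → ℝ), Measurable φ ∧ DependsOn φ (B : Set E) ∧
      (∀ w, φ w = 1 ∨ φ w = -1) ∧ ∫ w, |h w| ∂P - ε ≤ ∫ w, φ w * h w ∂P := by
  obtain ⟨B, g, hg, hd, hgb, hi⟩ := exists_local hh hb (half_pos hε)
  let φ : W → ℝ := fun w => if 0 ≤ g w then 1 else -1
  have hφ : Measurable φ :=
    Measurable.ite (measurableSet_le measurable_const hg.measurable) measurable_const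
      measurable_const
  have hφ1 : ∀ w, φ w = 1 ∨ φ w = -1 := fun w => by
    simp only [φ]
    split_ifs <;> simp
  refine ⟨B, φ, hφ, fun w w' hw => ?_, hφ1, ?_⟩
  · simp only [φ, hd hw]
  · have i1 : Integrable (fun w => |h w - g w|) P :=
      integrable_of_bdd (hh.sub hg.measurable).abs _ fun w => approx_sub_le (hb w) (hgb _)
    have i2 : Integrable (fun w => |h w|) P :=
      integrable_of_bdd hh.abs C fun w => by rw [abs_abs]; exact hb w
    have i3 : Integrable (fun w => φ w * h w) P :=
      integrable_of_bdd (hφ.mul hh) C fun w => by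
        rcases hφ1 w with h1 | h1 <;> simpa [h1] using hb w
    have h3 : ∫ w, (|h w| - 2 * |h w - g w|) ∂P ≤ ∫ w, φ w * h w ∂P := by
      refine integral_mono (i2.sub (i1.const_mul 2)) i3 fun w => ?_
      simp only [φ]
      split_ifs with h0
      · rcases abs_cases (h w) with h1 | h1 <;> rcases abs_cases (h w - g w) with h2 | h2 <;>
          linarith [h1.1, h1.2, h2.1, h2.2]
      · rw [not_le] at h0
        rcases abs_cases (h w) with h1 | h1 <;> rcases abs_cases (h w - g w) with h2 | h2 <;>
          linarith [h1.1, h1.2, h2.1, h2.2]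
    rw [integral_sub i2 (i1.const_mul 2), integral_const_mul] at h3
    linarith

lemma approx_shift_le {f : W → ℝ} (hf : Measurable f) {M : ℝ} (h0 : ∀ w, 0 ≤ f w)
    (hM : ∀ w, f w ≤ M) (e : E) {a : ℝ} (ha : |a| ≤ 1) {l : ℝ} (hl : 0 < l) :
    ∫ w, f (w + Pi.single e a) ∂P ≤ l * ∫ w, f w ∂P + 3 * M / l := by
  have hM0 : 0 ≤ M := (h0 0).trans (hM 0)
  have hm : Measurable fun w : W => w + Pi.single e a := measurable_add_const _
  have hq : Measurable fun w : W => Real.exp (a * w e - a ^ 2 / 2) := by fun_prop
  have i1 : Integrable f P :=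
    integrable_of_bdd hf M fun w => by rw [abs_of_nonneg (h0 w)]; exact hM w
  have i2 : Integrable (fun w : W => Real.exp (2 * a * w e)) P :=
    (mp_eval e).integrable_comp_of_integrable (integrable_exp_mul_gaussianReal (2 * a))
  have e2 : ∫ w : W, Real.exp (2 * a * w e) ∂P = Real.exp (2 * a ^ 2) := by
    have := mgf_gaussianReal (mp_eval e).map_eq (2 * a)
    rw [mgf] at this
    rw [this]
    congr 1
    push_cast
    ring
  rw [← integral_map hm.aemeasurable hf.aestronglyMeasurable, shift_formula,
    integral_withDensity_eq_integral_toReal_smul hq.ennreal_ofReal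
      (Eventually.of_forall fun w => ENNReal.ofReal_lt_top)]
  have ha2 : a ^ 2 ≤ 1 := by
    rw [← sq_abs]
    exact pow_le_one₀ (abs_nonneg a) ha
  calc ∫ w : W, (ENNReal.ofReal (Real.exp (a * w e - a ^ 2 / 2))).toReal • f w ∂P
      ≤ ∫ w : W, (l * f w + M / l * Real.exp (-a ^ 2) * Real.exp (2 * a * w e)) ∂P := by
        refine integral_mono_of_nonneg (Eventually.of_forall fun w => ?_)
          ((i1.const_mul l).add (i2.const_mul _)) (Eventually.of_forall fun w => ?_)
        · exact smul_nonneg ENNReal.toReal_nonneg (h0 w)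
        · have hq0 := Real.exp_pos (a * w e - a ^ 2 / 2)
          have hq2 : Real.exp (-a ^ 2) * Real.exp (2 * a * w e) =
              Real.exp (a * w e - a ^ 2 / 2) * Real.exp (a * w e - a ^ 2 / 2) := by
            rw [← Real.exp_add, ← Real.exp_add]
            congr 1
            ring
          simp only [ENNReal.toReal_ofReal hq0.le, smul_eq_mul]
          rw [mul_assoc, hq2]
          generalize Real.exp (a * w e - a ^ 2 / 2) = q at hq0
          have h1 := h0 w
          have h2 := hM w
          rcases le_total q l with h | h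
          · have : 0 ≤ M / l * (q * q) := by positivity
            nlinarith
          · have h3 : M * q ≤ M / l * (q * q) := by
              rw [div_mul_eq_mul_div, le_div_iff₀ hl]
              have := mul_nonneg hM0 hq0.le
              nlinarith
            have : 0 ≤ l * f w := by positivity
            nlinarith
    _ = l * ∫ w, f w ∂P + M / l * Real.exp (a ^ 2) := by
        rw [integral_add (i1.const_mul l) (i2.const_mul _), integral_const_mul, integral_const_mul,
          e2, mul_assoc, ← Real.exp_add]
        congr 3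
        ring
    _ ≤ l * ∫ w, f w ∂P + 3 * M / l := by
        have h1 : Real.exp (a ^ 2) ≤ 3 :=
          (Real.exp_le_exp.mpr ha2).trans (Real.exp_one_lt_d9.le.trans (by norm_num))
        have h2 : 0 ≤ M / l := by positivity
        have h3 : 3 * M / l = M / l * 3 := by ring
        rw [h3]
        gcongr

theorem shift_cont {α : W → ℝ} (hα : Measurable α) {C : ℝ} (hb : ∀ w, |α w| ≤ C) (e : E) {ε : ℝ}
    (hε : 0 < ε) : ∃ δ : ℝ, 0 < δ ∧ ∀ a : ℝ, |a| ≤ δ →
      ∫ w, |α (w + Pi.single e a) - α w| ∂P ≤ ε := by
  have hC : 0 ≤ C := (abs_nonneg _).trans (hb 0)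
  obtain ⟨l, hl, hl2⟩ : ∃ l : ℝ, 0 < l ∧ 3 * (C + C) / l ≤ ε / 3 := by
    refine ⟨(18 * C + 1) / ε, by positivity, ?_⟩
    rw [div_le_iff₀ (by positivity)]
    have : ε / 3 * ((18 * C + 1) / ε) = (18 * C + 1) / 3 := by field_simp
    rw [this]
    linarith
  have hη : 0 < ε / 3 / (l + 1) := by positivity
  obtain ⟨B, g, hg, -, hgb, hi⟩ := exists_local hα hb hη
  have hs : ∀ w : W, Continuous fun a : ℝ => w + Pi.single e a := fun w =>
    continuous_const.add (continuous_single (A := fun _ : E => ℝ) e)
  have h2 : Tendsto (fun a : ℝ => ∫ w, |g (w + Pi.single e a) - g w| ∂P) (𝓝 0)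
      (𝓝 (∫ _ : W, (0 : ℝ) ∂P)) := by
    refine tendsto_integral_filter_of_dominated_convergence (fun _ => C + C)
      (Eventually.of_forall fun a => ?_) (Eventually.of_forall fun a =>
        Eventually.of_forall fun w => approx_sub_le (hgb _) (hgb _)) (integrable_const _)
      (Eventually.of_forall fun w => ?_)
    · exact ((hg.comp (continuous_id.add continuous_const)).sub hg).abs.aestronglyMeasurable
    · have := (((hg.comp (hs w)).tendsto 0).sub_const (g w)).abs
      simpa using this
  rw [integral_zero] at h2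
  obtain ⟨δ, hδ, hd⟩ := Metric.eventually_nhds_iff.mp
    (h2.eventually (gt_mem_nhds (show (0 : ℝ) < ε / 3 by positivity)))
  refine ⟨min 1 (δ / 2), lt_min one_pos (half_pos hδ), fun a ha => ?_⟩
  have ha1 : |a| ≤ 1 := ha.trans (min_le_left _ _)
  have ha2 : dist a 0 < δ := by
    rw [Real.dist_eq, sub_zero]
    linarith [ha.trans (min_le_right _ _)]
  have h3 := hd ha2
  have hm : Measurable fun w : W => w + Pi.single e a := measurable_add_const _
  have hf : Measurable fun w => |α w - g w| := (hα.sub hg.measurable).abs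
  have hfb : ∀ w, |(|α w - g w|)| ≤ C + C := fun w => approx_sub_le (hb w) (hgb w)
  have h4 := approx_shift_le hf (fun w => abs_nonneg _) (fun w => (le_abs_self _).trans (hfb w))
    e ha1 hl
  have i1 : Integrable (fun w => |α (w + Pi.single e a) - g (w + Pi.single e a)|) P :=
    integrable_of_bdd (hf.comp hm) _ fun w => hfb _
  have i2 : Integrable (fun w => |g (w + Pi.single e a) - g w|) P :=
    integrable_of_bdd ((hg.measurable.comp hm).sub hg.measurable).abs _ fun w =>
      approx_sub_le (hgb _) (hgb _)
  have i3 : Integrable (fun w => |α w - g w|) P := integrable_of_bdd hf _ hfb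
  have h5 : (l + 1) * ∫ w, |α w - g w| ∂P ≤ ε / 3 := by
    rw [le_div_iff₀ (by positivity)] at hi
    linarith
  calc ∫ w, |α (w + Pi.single e a) - α w| ∂P
      ≤ ∫ w, (|α (w + Pi.single e a) - g (w + Pi.single e a)| + |g (w + Pi.single e a) - g w| +
          |α w - g w|) ∂P := by
        refine integral_mono_of_nonneg (Eventually.of_forall fun w => abs_nonneg _)
          ((i1.add i2).add i3) (Eventually.of_forall fun w => ?_)
        have h6 := abs_sub_le (α (w + Pi.single e a)) (g (w + Pi.single e a)) (α w)
        have h7 := abs_sub_le (g (w + Pi.single e a)) (g w) (α w)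
        have h8 := abs_sub_comm (g w) (α w)
        simp only
        linarith
    _ = ∫ w, |α (w + Pi.single e a) - g (w + Pi.single e a)| ∂P +
          ∫ w, |g (w + Pi.single e a) - g w| ∂P + ∫ w, |α w - g w| ∂P := by
        rw [← integral_add i1 i2]
        exact integral_add (i1.add i2) i3
    _ ≤ ε := by linarith

end Pool.Agent.MP_c70b3b_mp
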