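import Pool.Agent.MP_c70b3b_mp.FlipDef

open MeasureTheory ProbabilityTheory Filter Topology BoundedContinuousFunction
open scoped symmDiff ENNReal

namespace Pool.Agent.MP_c70b3b_mp

lemma avg_card_box (N : ℕ) : (box N).card = 4 * N ^ 2 := by
  have h : ((N : ℤ) - -(N : ℤ)).toNat = 2 * N := by omega
  rw [box, Finset.card_product, Int.card_Ico, h]
  ring

lemma avg_card_ne (n : ℕ) : (box (n + 1)).card ≠ 0 := by
  rw [avg_card_box]
  positivity

lemma avg_cancel (n : ℕ) (μ : Measure W) :
    ((box (n + 1)).card : ℝ≥0∞)⁻¹ • ∑ _z ∈ box (n + 1), μ = μ := by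
  rw [Finset.sum_const, ← Nat.cast_smul_eq_nsmul ℝ≥0∞, smul_smul,
    ENNReal.inv_mul_cancel (by exact_mod_cast avg_card_ne n) (ENNReal.natCast_ne_top _), one_smul]

theorem avg_prob (n : ℕ) (ν : Measure (W × S)) [IsProbabilityMeasure ν] :
    IsProbabilityMeasure (avg n ν) := by
  refine ⟨?_⟩
  have h : ∀ z : V, ν.map (shift z) Set.univ = 1 := fun z => by
    rw [Measure.map_apply (measurable_shift z) MeasurableSet.univ, Set.preimage_univ, measure_univ]
  rw [avg, Measure.smul_apply, Measure.finsetSum_apply]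
  simp only [h, Finset.sum_const, nsmul_eq_mul, mul_one, smul_eq_mul]
  exact ENNReal.inv_mul_cancel (by exact_mod_cast avg_card_ne n) (ENNReal.natCast_ne_top _)

theorem integral_avg (n : ℕ) (ν : Measure (W × S)) [IsProbabilityMeasure ν] (g : W × S →ᵇ ℝ) :
    ∫ p, g p ∂avg n ν =
      (∑ z ∈ box (n + 1), ∫ p, g (shift z p) ∂ν) / (box (n + 1)).card := by
  rw [avg, integral_smul_measure, integral_finsetSum_measure fun z _ => g.integrable _]
  simp only [integral_map (measurable_shift _).aemeasurable g.continuous.aestronglyMeasurable]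
  rw [ENNReal.toReal_inv, ENNReal.toReal_natCast, smul_eq_mul, div_eq_inv_mul]

theorem avg_fst (n : ℕ) {ν : Measure (W × S)} (h : ν.map Prod.fst = P) :
    (avg n ν).map Prod.fst = P := by
  have h1 : ∀ z : V, (ν.map (shift z)).map Prod.fst = P := fun z => by
    rw [Measure.map_map measurable_fst (measurable_shift z)]
    have : Prod.fst ∘ shift z = shW z ∘ Prod.fst := rfl
    rw [this, ← Measure.map_map (measurable_shW z) measurable_fst, h, (mp_shW z).map_eq]
  rw [avg, Measure.map_smul, ← Measure.mapₗ_apply_of_measurable measurable_fst, map_sum]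
  simp only [Measure.mapₗ_apply_of_measurable measurable_fst, h1]
  exact avg_cancel n P

lemma avg_en_shift (β : ℝ) (x z : V) (p : W × S) :
    en (β • (shift z p).1) (cob {x}) (shift z p).2 = en (β • p.1) (cob {x + z}) p.2 := by
  refine Finset.sum_bij' (fun e _ => shE z e) (fun e _ => shE (-z) e) ?_ ?_ ?_ ?_ ?_
  · intro e he
    rw [mem_cob] at he ⊢
    rw [tip_shE]
    simpa [shE] using he
  · intro e he
    rw [mem_cob] at he ⊢
    rw [tip_shE]
    simpa [shE, add_neg_eq_iff_eq_add] using he
  · intro e _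
    simp [shE]
  · intro e _
    simp [shE]
  · intro e _
    rw [← bond_shS]
    rfl

lemma avg_uu_shift (β : ℝ) (x z : V) (p : W × S) : uu β x (shift z p) = uu β (x + z) p := by
  simp only [uu, avg_en_shift]

lemma avg_flp_shift (x z : V) (p : W × S) :
    ((shift z p).1, flp {x} (shift z p).2) = shift z (p.1, flp {x + z} p.2) := by
  refine Prod.ext rfl (funext fun y => ?_)
  simp [flp, shift]

/-- The weight `uu` as a bounded continuous function. -/
noncomputable def avgU (β : ℝ) (x : V) : W × S →ᵇ ℝ :=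
  BoundedContinuousFunction.ofNormedAddCommGroup (uu β x) (continuous_uu β x) 1 fun p => by
    rw [Real.norm_eq_abs, abs_of_pos (uu_pos β x p)]
    exact uu_le β x p

theorem avg_flipInv {β : ℝ} (n : ℕ) {ν : Measure (W × S)} [IsProbabilityMeasure ν]
    (h : ∀ x, FlipInv β x ν) (x : V) : FlipInv β x (avg n ν) := by
  intro g
  have h1 := integral_avg n ν (g.compContinuous ⟨fun p => (p.1, flp {x} p.2),
    continuous_fst.prodMk ((continuous_flp _).comp continuous_snd)⟩ * avgU β x)
  have h2 := integral_avg n ν (g * avgU β x)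
  refine h1.trans (Eq.trans ?_ h2.symm)
  congr 1
  refine Finset.sum_congr rfl fun z _ => ?_
  have h3 := h (x + z) (g.compContinuous ⟨shift z, continuous_shift z⟩)
  simp only [← avg_uu_shift] at h3
  refine Eq.trans ?_ h3
  congr 1
  funext p
  exact congrArg (fun q => g q * uu β x (shift z p)) (avg_flp_shift x z p)

lemma avg_sum_diff {a : V → ℝ} {C : ℝ} (ha : ∀ y, |a y| ≤ C) (z : V) (N : ℕ) :
    |∑ y ∈ box N, a (z + y) - ∑ y ∈ box N, a y| ≤
      16 * C * N * (z.1.natAbs + z.2.natAbs : ℕ) := by
  set c : ℕ := z.1.natAbs + z.2.natAbs with hc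
  have hC : 0 ≤ C := (abs_nonneg _).trans (ha 0)
  have hinj : Function.Injective fun y : V => z + y := add_right_injective z
  have h1 : box (N - c) ⊆ box N := by
    intro y
    simp only [box, Finset.mem_product, Finset.mem_Ico]
    omega
  have h2 : box (N - c) ⊆ (box N).image fun y => z + y := by
    intro y hy
    refine Finset.mem_image.2 ⟨y - z, ?_, by abel⟩
    simp only [box, Finset.mem_product, Finset.mem_Ico, Prod.fst_sub, Prod.snd_sub] at hy ⊢
    omega
  have hb : ∀ B : Finset V, box (N - c) ⊆ B → B.card = 4 * N ^ 2 →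
      |∑ y ∈ B \ box (N - c), a y| ≤ 8 * C * N * c := by
    intro B hB hcard
    have h3 : (B \ box (N - c)).card ≤ 8 * N * c := by
      rw [Finset.card_sdiff_of_subset hB, hcard, avg_card_box]
      rcases le_total c N with h | h
      · obtain ⟨d, rfl⟩ := Nat.exists_eq_add_of_le h
        rw [Nat.add_sub_cancel_left, Nat.sub_le_iff_le_add]
        nlinarith
      · refine (Nat.sub_le _ _).trans ?_
        nlinarith
    have h4 : ((B \ box (N - c)).card : ℝ) ≤ 8 * N * c := by exact_mod_cast h3
    calc |∑ y ∈ B \ box (N - c), a y| ≤ ∑ y ∈ B \ box (N - c), |a y| :=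
          Finset.abs_sum_le_sum_abs _ _
      _ ≤ (B \ box (N - c)).card • C := Finset.sum_le_card_nsmul _ _ _ fun y _ => ha y
      _ ≤ 8 * C * N * c := by
          rw [nsmul_eq_mul]
          nlinarith
  rw [← Finset.sum_image (f := a) (g := fun y => z + y) (s := box N) hinj.injOn,
    ← Finset.sum_sdiff h1, ← Finset.sum_sdiff h2, add_sub_add_right_eq_sub]
  have h5 := hb _ h1 (avg_card_box N)
  have h6 := hb _ h2 (by rw [Finset.card_image_of_injective _ hinj, avg_card_box])
  refine (abs_sub _ _).trans ?_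
  linarith

theorem avg_shift (ν : Measure (W × S)) [IsProbabilityMeasure ν] (z : V) (g : W × S →ᵇ ℝ) :
    Tendsto (fun n => ∫ p, g (shift z p) ∂avg n ν - ∫ p, g p ∂avg n ν) atTop (𝓝 0) := by
  let a : V → ℝ := fun y => ∫ p, g (shift y p) ∂ν
  have ha : ∀ y, |a y| ≤ ‖g‖ := fun y => by
    have := norm_integral_le_of_norm_le_const (μ := ν) (f := fun p => g (shift y p)) (C := ‖g‖)
      (Eventually.of_forall fun p => g.norm_coe_le_norm _)
    simpa using this
  have hs : ∀ y p, shift z (shift y p) = shift (z + y) p := fun y p => by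
    simp only [shift, add_assoc]
  have he : ∀ n, ∫ p, g (shift z p) ∂avg n ν - ∫ p, g p ∂avg n ν =
      (∑ y ∈ box (n + 1), a (z + y) - ∑ y ∈ box (n + 1), a y) / (box (n + 1)).card := by
    intro n
    have h1 := integral_avg n ν (g.compContinuous ⟨shift z, continuous_shift z⟩)
    simp only [compContinuous_apply, ContinuousMap.coe_mk, hs] at h1
    rw [h1, integral_avg, sub_div]
  set c : ℕ := z.1.natAbs + z.2.natAbs with hc
  have hlim : Tendsto (fun n : ℕ => 4 * ‖g‖ * c * (1 / ((n : ℝ) + 1))) atTop (𝓝 0) := by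
    simpa using tendsto_one_div_add_atTop_nhds_zero_nat.const_mul (4 * ‖g‖ * (c : ℝ))
  refine squeeze_zero_norm (fun n => ?_) hlim
  rw [he, norm_div, Real.norm_eq_abs, Real.norm_natCast, avg_card_box,
    div_le_iff₀ (by positivity)]
  refine (avg_sum_diff ha z (n + 1)).trans (le_of_eq ?_)
  push_cast
  rw [hc]
  push_cast
  field_simp
  ring

end Pool.Agent.MP_c70b3b_mp
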