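import Pool.Agent.MP_c70b3b_mp.BK3

open MeasureTheory ProbabilityTheory Filter Topology
open scoped symmDiff ENNReal

namespace Pool.Agent.MP_c70b3b_mp

lemma bk_eps {Q μ : Measure S} [IsFiniteMeasure Q] [IsFiniteMeasure μ] (h : μ ≪ Q) {ε : ℝ≥0∞}
    (hε : ε ≠ 0) : ∃ δ > 0, ∀ s, Q s < δ → μ s < ε := by
  obtain ⟨δ, h1, h2⟩ := exists_pos_setLIntegral_lt_of_measure_lt
    (Measure.lintegral_rnDeriv_lt_top μ Q).ne hε
  exact ⟨δ, h1, fun s hs => Measure.setLIntegral_rnDeriv h s ▸ h2 s hs⟩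

lemma bk_far {k : ℤ} (hk : 0 < k) (s L : Finset V) : ∃ z : V, ∀ x ∈ s, x + k • z ∉ L := by
  classical
  obtain ⟨N, -, hN⟩ := exists_box (s ∪ L)
  refine ⟨(2 * N, 0), fun x hx hL => ?_⟩
  have h1 := mem_box.1 (hN (Finset.mem_union_left _ hx))
  have h2 := mem_box.1 (hN (Finset.mem_union_right _ hL))
  have h3 : (x + k • ((2 * N, 0) : V)).1 = x.1 + k * (2 * N) := rfl
  have h4 : (0 : ℤ) ≤ N := Int.natCast_nonneg N
  rw [h3] at h2
  nlinarith [h1.1, h2.2.1]

/-- An invariant event can not be destroyed by a local change. -/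
lemma bk_core {k : ℤ} (hk : 0 < k) (Q : Measure S) [IsProbabilityMeasure Q]
    (hinv : ∀ z : V, Q.map (shS (k • z)) = Q) (hac : ∀ x : V, Q.map (flp {x}) ≪ Q)
    {A : Set S} (hA : MeasurableSet A) (hsh : ∀ z : V, shS z ⁻¹' A = A) (L : Finset V) :
    Q (A ∩ setOn L 1 ⁻¹' Aᶜ) = 0 := by
  have key : ∀ ε : ℝ≥0∞, ε ≠ 0 → Q (A ∩ setOn L 1 ⁻¹' Aᶜ) ≤ ε + ε := fun ε hε => by
    obtain ⟨δ, hδ, h1⟩ := bk_eps (setOn_ac hac L 1) hε
    obtain ⟨η, hη, hη'⟩ : ∃ η : ℝ, 0 < η ∧ ENNReal.ofReal η < min δ ε := by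
      obtain ⟨r, -, h2, h3⟩ := ENNReal.lt_iff_exists_real_btwn.1
        (lt_min hδ (pos_iff_ne_zero.2 hε))
      exact ⟨r, ENNReal.ofReal_pos.1 h2, h3⟩
    obtain ⟨C, hC, h2⟩ := (Measure.MeasureDense.of_generateFrom_isSetAlgebra_finite Q
      isSetAlgebra_measurableCylinders generateFrom_measurableCylinders.symm).approx A hA
      (measure_ne_top _ _) η hη
    have hC' : MeasurableSet C := MeasurableSet.of_mem_measurableCylinders hC
    obtain ⟨s, T, -, rfl⟩ := (mem_measurableCylinders _).1 hC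
    obtain ⟨z, hz⟩ := bk_far hk s L
    have h3 : Q (A ∆ (shS (k • z) ⁻¹' cylinder s T)) < min δ ε := by
      rw [← hinv z, Measure.map_apply (measurable_shS _) (hA.symmDiff hC'), Set.preimage_symmDiff,
        hsh] at h2
      exact h2.trans hη'
    have h4 : ∀ τ, setOn L 1 τ ∈ shS (k • z) ⁻¹' cylinder s T ↔
        τ ∈ shS (k • z) ⁻¹' cylinder s T := fun τ => by
      have : s.restrict (shS (k • z) (setOn L 1 τ)) = s.restrict (shS (k • z) τ) :=
        funext fun x => if_neg (hz x.1 x.2)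
      rw [Set.mem_preimage, Set.mem_preimage, mem_cylinder, mem_cylinder, this]
    have h5 := h1 _ (h3.trans_le (min_le_left _ _))
    rw [Measure.map_apply (measurable_setOn _ _) (hA.symmDiff (measurable_shS _ hC'))] at h5
    refine le_trans (measure_mono (t := A ∆ (shS (k • z) ⁻¹' cylinder s T) ∪
      setOn L 1 ⁻¹' (A ∆ (shS (k • z) ⁻¹' cylinder s T))) ?_) ((measure_union_le _ _).trans
        (add_le_add (h3.le.trans (min_le_right _ _)) h5.le))
    rintro τ ⟨h6, h7⟩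
    by_cases h8 : τ ∈ shS (k • z) ⁻¹' cylinder s T
    · exact Or.inr (Or.inr ⟨(h4 τ).2 h8, h7⟩)
    · exact Or.inl (Or.inl ⟨h6, h8⟩)
  refine le_antisymm (ENNReal.le_of_forall_pos_le_add fun ε hε _ => ?_) zero_le
  have := key (ε / 2) (ENNReal.half_pos (by exact_mod_cast hε.ne')).ne'
  rwa [ENNReal.add_halves, ← zero_add (ε : ℝ≥0∞)] at this

lemma bk_out {O O' : Set V} {L : Finset V} (h : ∀ v ∈ O', v ∉ L → v ∈ O) {u : V}
    (hu : ∀ x ∈ L, ¬ Conn Set.univ O' u x) {z : V} (hz : Conn Set.univ O' u z) :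
    Conn Set.univ O u z := by
  induction hz with
  | refl => exact Relation.ReflTransGen.refl
  | @tail b c hb hbc ih =>
    exact Relation.ReflTransGen.tail ih ⟨h b hbc.1 fun h1 => hu b h1 hb,
      h c hbc.2.1 fun h1 => hu c h1 (Relation.ReflTransGen.tail hb hbc), hbc.2.2⟩

lemma bk_det {τ : S} (h2 : Many 2 {v | τ v = 1}) (h3 : ¬ Many 3 {v | τ v = 1}) :
    ∃ r, ¬ Many 2 {v | setOn (box r) 1 τ v = 1} := by
  classical
  obtain ⟨y, g1, g2⟩ := h2
  obtain ⟨r, -, hr⟩ := exists_box (Finset.univ.image y)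
  have hy : ∀ i, y i ∈ box r := fun i => hr (Finset.mem_image_of_mem y (Finset.mem_univ i))
  refine ⟨r, fun ⟨u, k1, k2⟩ => ?_⟩
  have s1 : {v | τ v = 1} ⊆ {v | setOn (box r) 1 τ v = 1} := fun v hv => by
    rw [Set.mem_ofPred_eq, setOn]
    split_ifs
    exacts [rfl, hv]
  have s2 : (box r : Set V) ⊆ {v | setOn (box r) 1 τ v = 1} := fun v hv => if_pos hv
  have s3 : ∀ v ∈ {v | setOn (box r) 1 τ v = 1}, v ∉ box r → v ∈ {v | τ v = 1} := fun v hv h => by
    rwa [Set.mem_ofPred_eq, setOn, if_neg h] at hv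
  have key : ∀ i, ∃ x ∈ box r, Conn Set.univ {v | setOn (box r) 1 τ v = 1} (u i) x := fun i => by
    by_contra hc
    have hc' : ∀ x ∈ box r, ¬ Conn Set.univ {v | setOn (box r) 1 τ v = 1} (u i) x :=
      fun x hx h => hc ⟨x, hx, h⟩
    have i1 : InfC {v | τ v = 1} (u i) :=
      ⟨s3 _ (k1 i).1 fun h => hc' _ h Relation.ReflTransGen.refl,
        (k1 i).2.mono fun z hz => bk_out s3 hc' hz⟩
    have i2 : ∀ j, ¬ Conn Set.univ {v | τ v = 1} (u i) (y j) := fun j h =>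
      hc' _ (hy j) (h.mono subset_rfl s1)
    refine h3 ⟨![y 0, y 1, u i], fun a => ?_, fun a b hab => ?_⟩
    · fin_cases a
      exacts [g1 0, g1 1, i1]
    · fin_cases a <;> fin_cases b
      exacts [absurd rfl hab, g2 0 1 (by decide), fun h => i2 0 h.symm, g2 1 0 (by decide),
        absurd rfl hab, fun h => i2 1 h.symm, i2 0, i2 1, absurd rfl hab]
  obtain ⟨a, ha, ha'⟩ := key 0
  obtain ⟨b, hb, hb'⟩ := key 1
  exact k2 0 1 (by decide)
    ((ha'.trans ((conn_box r ha hb).mono (Set.subset_univ _) s2)).trans hb'.symm)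

lemma bk_meas : MeasurableSet {τ : S | Many 2 {v | τ v = 1}} := by
  simpa using measurableSet_many 2 ∅ 1

lemma bk_two {k : ℤ} (hk : 0 < k) (Q : Measure S) [IsProbabilityMeasure Q]
    (hinv : ∀ z : V, Q.map (shS (k • z)) = Q) (hac : ∀ x : V, Q.map (flp {x}) ≪ Q) :
    Q {τ : S | Many 2 {v | τ v = 1}} = 0 := by
  have h1 : ∀ᵐ τ ∂Q, ∀ r, τ ∉ {τ : S | Many 2 {v | τ v = 1}} ∩
      setOn (box r) 1 ⁻¹' {τ : S | Many 2 {v | τ v = 1}}ᶜ := ae_all_iff.2 fun r =>
    measure_eq_zero_iff_ae_notMem.1 (bk_core hk Q hinv hac bk_meas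
      (fun z => Set.ext fun τ => many_shift 2 z {v | τ v = 1}) (box r))
  rw [measure_eq_zero_iff_ae_notMem]
  filter_upwards [h1, bk_three hk Q hinv hac] with τ h2 h3 h4
  obtain ⟨r, hr⟩ := bk_det h4 h3
  exact h2 r ⟨h4, hr⟩

lemma bk_plus {k : ℤ} (hk : 0 < k) (Q : Measure S) [IsProbabilityMeasure Q]
    (hinv : ∀ z : V, Q.map (shS (k • z)) = Q) (hac : ∀ x : V, Q.map (flp {x}) ≪ Q) :
    ∀ᵐ τ ∂Q, ∀ L : Finset V, Uniq {x | x ∉ L ∧ τ x = 1} := by
  refine ae_all_iff.2 fun L => ?_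
  have h := setOn_ac hac L (-1) (bk_two hk Q hinv hac)
  rw [Measure.map_apply (measurable_setOn _ _) bk_meas] at h
  filter_upwards [measure_eq_zero_iff_ae_notMem.1 h] with τ h1 x y hx hy
  by_contra hc
  have e : {v | setOn L (-1) τ v = 1} = {x | x ∉ L ∧ τ x = 1} := by
    ext v
    by_cases hv : v ∈ L <;> simp [setOn, hv]
  refine h1 ?_
  rw [Set.mem_preimage, Set.mem_ofPred_eq, e]
  refine ⟨![x, y], fun a => ?_, fun a b hab => ?_⟩
  · fin_cases a
    exacts [hx, hy]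
  · fin_cases a <;> fin_cases b
    exacts [absurd rfl hab, hc, fun h => hc h.symm, absurd rfl hab]

theorem bk {k : ℤ} (hk : 0 < k) (Q : Measure S) [IsProbabilityMeasure Q]
    (hinv : ∀ z : V, Q.map (shS (k • z)) = Q) (hac : ∀ x : V, Q.map (flp {x}) ≪ Q) :
    ∀ᵐ τ ∂Q, UniqAll τ := by
  have hn : Measurable fun τ : S => -τ := measurable_pi_lambda _ fun x =>
    (Measurable.of_discrete (f := fun u : ℤˣ => -u)).comp (measurable_pi_apply x)
  have : IsProbabilityMeasure (Q.map fun τ : S => -τ) :=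
    Measure.isProbabilityMeasure_map hn.aemeasurable
  have h1 := bk_plus hk (Q.map fun τ : S => -τ) (fun z => by
    rw [Measure.map_map (measurable_shS _) hn]
    conv_rhs => rw [← hinv z, Measure.map_map hn (measurable_shS _)]
    rfl) fun x => by
    have e : flp {x} ∘ (fun τ : S => -τ) = (fun τ : S => -τ) ∘ flp {x} := by
      funext τ y
      simp only [Function.comp, flp, Pi.neg_apply]
      split_ifs <;> rfl
    rw [Measure.map_map (measurable_flp _) hn, e, ← Measure.map_map hn (measurable_flp _)]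
    exact (hac x).map hn
  filter_upwards [bk_plus hk Q hinv hac, ae_of_ae_map hn.aemeasurable h1] with τ h2 h3 L s
  rcases Int.units_eq_one_or s with rfl | rfl
  · exact h2 L
  · have := h3 L
    simpa only [Pi.neg_apply, neg_eq_iff_eq_neg] using this

end Pool.Agent.MP_c70b3b_mp
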