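import Pool.Agent.MP_c70b3b_mp.BKmeas

open MeasureTheory ProbabilityTheory Filter Topology
open scoped symmDiff ENNReal

namespace Pool.Agent.MP_c70b3b_mp

lemma bk3_det {τ : S} (h : Many 3 {v | τ v = 1}) : ∃ r, Tri (setOn (box r) 1 τ) (box r) := by
  obtain ⟨y, h1, h2⟩ := h
  obtain ⟨r, -, hr⟩ := exists_box (Finset.univ.image y)
  choose y' g1 g2 g3 using fun i =>
    exists_arm (hr (Finset.mem_image_of_mem y (Finset.mem_univ i))) (h1 i)
  have e : {v | v ∉ box r ∧ setOn (box r) 1 τ v = 1} = {v | v ∉ box r ∧ v ∈ {v | τ v = 1}} := by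
    ext v
    exact and_congr_right fun hv => by rw [setOn, if_neg hv]; rfl
  refine ⟨r, fun x hx => if_pos hx, y', ?_, g3, ?_⟩
  · rw [e]
    exact g1
  · rw [e]
    exact fun i j hij hc => h2 i j hij
      (((g2 i).trans (hc.mono subset_rfl fun v hv => hv.2)).trans (g2 j).symm)

lemma bk3_conn (r : ℕ) (z : V) {x y : V} (hx : x ∈ (box r).image (· + z))
    (hy : y ∈ (box r).image (· + z)) :
    Conn Set.univ (((box r).image (· + z) : Finset V) : Set V) x y := by
  obtain ⟨x, h1, rfl⟩ := Finset.mem_image.1 hx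
  obtain ⟨y, h2, rfl⟩ := Finset.mem_image.1 hy
  refine (conn_shift z _ x y).1 ((conn_box r h1 h2).mono (Set.subset_univ _) fun v hv => ?_)
  exact Finset.mem_image_of_mem (· + z) hv

lemma bk3_null {k : ℤ} (hk : 0 < k) (Q : Measure S) [IsProbabilityMeasure Q]
    (hinv : ∀ z : V, Q.map (shS (k • z)) = Q) (r : ℕ) : Q {τ | Tri τ (box r)} = 0 := by
  classical
  obtain ⟨c, hc⟩ := exists_grid hk (box r)
  have key : ∀ n : ℕ, 0 < n → (n : ℝ) * Q.real {τ | Tri τ (box r)} ≤ 8 * c := fun n hn => by
    obtain ⟨z, h1, h2⟩ := hc n hn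
    let A : Fin n × Fin n → Set S := fun i => {τ | Tri τ ((box r).image (· + k • z i))}
    have hA : ∀ i, MeasurableSet (A i) := fun i => measurableSet_tri _
    have e1 : ∀ i, Q.real (A i) = Q.real {τ | Tri τ (box r)} := fun i => by
      conv_rhs => rw [← hinv (z i), map_measureReal_apply (measurable_shS _) (measurableSet_tri _)]
      exact congrArg _ (Set.ext fun τ => (tri_shift _ τ _).symm)
    have hi : ∀ i, Integrable ((A i).indicator (1 : S → ℝ)) Q := fun i =>
      (integrable_const 1).indicator (hA i)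
    have e2 : ∫ τ, ∑ i, (A i).indicator (1 : S → ℝ) τ ∂Q ≤ ∫ _, (8 * (c * n) : ℝ) ∂Q := by
      refine integral_mono (integrable_finsetSum _ fun i _ => hi i) (integrable_const _)
        fun τ => ?_
      have := tri_count (ι := {i // τ ∈ A i}) τ (c * n) (fun i => (box r).image (· + k • z i.1))
        (fun i j hij => Finset.disjoint_left.2 fun v hv hv' => by
          obtain ⟨x, hx, rfl⟩ := Finset.mem_image.1 hv
          obtain ⟨y, hy, e⟩ := Finset.mem_image.1 hv'
          exact h1 _ _ (fun e => hij (Subtype.ext e)) x hx y hy e.symm)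
        (fun i v hv => by
          obtain ⟨x, hx, rfl⟩ := Finset.mem_image.1 hv
          exact h2 _ x hx)
        (fun i x hx y hy => bk3_conn r _ hx hy) fun i => i.2
      rw [Fintype.card_subtype] at this
      simp only [Set.indicator_apply, Pi.one_apply, Finset.sum_boole]
      exact_mod_cast this
    rw [integral_finsetSum _ fun i _ => hi i] at e2
    simp only [integral_indicator_one (hA _), e1, Finset.sum_const, Finset.card_univ,
      Fintype.card_prod, Fintype.card_fin, nsmul_eq_mul, integral_const, probReal_univ,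
      one_smul, Nat.cast_mul] at e2
    have : (0 : ℝ) < n := by exact_mod_cast hn
    nlinarith
  rw [← measureReal_eq_zero_iff]
  by_contra h0
  have hp : 0 < Q.real {τ | Tri τ (box r)} := lt_of_le_of_ne measureReal_nonneg (Ne.symm h0)
  obtain ⟨n, hn⟩ := exists_nat_gt (8 * c / Q.real {τ | Tri τ (box r)})
  have h1 := key (n + 1) n.succ_pos
  rw [div_lt_iff₀ hp] at hn
  push_cast at h1
  nlinarith

theorem bk_three {k : ℤ} (hk : 0 < k) (Q : Measure S) [IsProbabilityMeasure Q]
    (hinv : ∀ z : V, Q.map (shS (k • z)) = Q) (hac : ∀ x : V, Q.map (flp {x}) ≪ Q) :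
    ∀ᵐ τ ∂Q, ¬ Many 3 {v | τ v = 1} := by
  have : ∀ᵐ τ ∂Q, ∀ r, ¬ Tri (setOn (box r) 1 τ) (box r) := ae_all_iff.2 fun r => by
    have h := setOn_ac hac (box r) 1 (bk3_null hk Q hinv r)
    rw [Measure.map_apply (measurable_setOn _ _) (measurableSet_tri _)] at h
    exact measure_eq_zero_iff_ae_notMem.1 h
  filter_upwards [this] with τ h1 h2
  obtain ⟨r, hr⟩ := bk3_det h2
  exact h1 r hr

end Pool.Agent.MP_c70b3b_mp
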