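import Pool.Agent.MP_c70b3b_mp.Ring

open MeasureTheory ProbabilityTheory Filter Topology
open scoped symmDiff ENNReal

namespace Pool.Agent.MP_c70b3b_mp

/-- `n` distinct infinite clusters. -/
def Many (n : ℕ) (O : Set V) : Prop :=
  ∃ y : Fin n → V, (∀ i, InfC O (y i)) ∧ ∀ i j, i ≠ j → ¬ Conn Set.univ O (y i) (y j)

/-- `L` is an open trifurcation set. -/
def Tri (τ : S) (L : Finset V) : Prop :=
  (∀ x ∈ L, τ x = 1) ∧ ∃ y : Fin 3 → V, (∀ i, InfC {v | v ∉ L ∧ τ v = 1} (y i)) ∧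
    (∀ i, ∃ x ∈ L, ∃ e, Ends e x (y i)) ∧
    ∀ i j, i ≠ j → ¬ Conn Set.univ {v | v ∉ L ∧ τ v = 1} (y i) (y j)

/-- Set the spins of `L` to `s`. -/
def setOn (L : Finset V) (s : ℤˣ) (τ : S) : S := fun x => if x ∈ L then s else τ x

lemma Conn.symm {G : Set E} {O : Set V} {x y : V} (h : Conn G O x y) : Conn G O y x := by
  unfold Conn at h ⊢
  induction h with
  | refl => exact Relation.ReflTransGen.refl
  | tail _ hbc ih =>
    obtain ⟨h1, h2, e, he, h3⟩ := hbc
    exact Relation.ReflTransGen.head ⟨h2, h1, e, he, h3.symm⟩ ih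

lemma Conn.mono {G G' : Set E} {O O' : Set V} (hG : G ⊆ G') (hO : O ⊆ O') {x y : V}
    (h : Conn G O x y) : Conn G' O' x y := by
  unfold Conn at h ⊢
  induction h with
  | refl => exact Relation.ReflTransGen.refl
  | tail _ hbc ih =>
    obtain ⟨h1, h2, e, he, h3⟩ := hbc
    exact Relation.ReflTransGen.tail ih ⟨hO h1, hO h2, e, hG he, h3⟩

lemma bkdet_hor (N : ℕ) (a b : ℤ) (n : ℕ) (h1 : -(N : ℤ) ≤ a) (h2 : a + n < N)
    (h3 : -(N : ℤ) ≤ b) (h4 : b < N) :
    Conn (touch (box N) : Set E) (box N : Set V) (a, b) (a + n, b) := by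
  induction n with
  | zero => simp only [Nat.cast_zero, add_zero]; exact Relation.ReflTransGen.refl
  | succ n ih =>
    have hm : ((a + n, b) : V) ∈ box N := by rw [mem_box]; simp only; omega
    have hm' : ((a + (n + 1 : ℕ), b) : V) ∈ box N := by rw [mem_box]; simp only; omega
    refine Relation.ReflTransGen.tail (ih (by omega)) ⟨hm, hm', ((a + n, b), false), ?_, ?_⟩
    · exact Finset.mem_coe.2 (mem_touch.2 (Or.inl hm))
    · left
      refine ⟨rfl, ?_⟩
      simp only [tip, Bool.false_eq_true, if_false, Prod.mk_add_mk, Prod.mk.injEq]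
      omega

lemma bkdet_ver (N : ℕ) (a b : ℤ) (n : ℕ) (h1 : -(N : ℤ) ≤ a) (h2 : a < N)
    (h3 : -(N : ℤ) ≤ b) (h4 : b + n < N) :
    Conn (touch (box N) : Set E) (box N : Set V) (a, b) (a, b + n) := by
  induction n with
  | zero => simp only [Nat.cast_zero, add_zero]; exact Relation.ReflTransGen.refl
  | succ n ih =>
    have hm : ((a, b + n) : V) ∈ box N := by rw [mem_box]; simp only; omega
    have hm' : ((a, b + (n + 1 : ℕ)) : V) ∈ box N := by rw [mem_box]; simp only; omega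
    refine Relation.ReflTransGen.tail (ih (by omega)) ⟨hm, hm', ((a, b + n), true), ?_, ?_⟩
    · exact Finset.mem_coe.2 (mem_touch.2 (Or.inl hm))
    · left
      refine ⟨rfl, ?_⟩
      simp only [tip, if_true, Prod.mk_add_mk, Prod.mk.injEq]
      omega

lemma conn_box (N : ℕ) {x y : V} (hx : x ∈ box N) (hy : y ∈ box N) :
    Conn (touch (box N) : Set E) (box N : Set V) x y := by
  have hx' := mem_box.1 hx
  have hy' := mem_box.1 hy
  obtain ⟨a, b⟩ := x
  obtain ⟨c, d⟩ := y
  simp only at hx' hy'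
  have h1 : Conn (touch (box N) : Set E) (box N : Set V) (a, b) (c, b) := by
    rcases le_total a c with h | h
    · have := bkdet_hor N a b (c - a).toNat (by omega) (by omega) (by omega) (by omega)
      rwa [show a + ((c - a).toNat : ℤ) = c by omega] at this
    · have := bkdet_hor N c b (a - c).toNat (by omega) (by omega) (by omega) (by omega)
      rw [show c + ((a - c).toNat : ℤ) = a by omega] at this
      exact this.symm
  have h2 : Conn (touch (box N) : Set E) (box N : Set V) (c, b) (c, d) := by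
    rcases le_total b d with h | h
    · have := bkdet_ver N c b (d - b).toNat (by omega) (by omega) (by omega) (by omega)
      rwa [show b + ((d - b).toNat : ℤ) = d by omega] at this
    · have := bkdet_ver N c d (b - d).toNat (by omega) (by omega) (by omega) (by omega)
      rw [show d + ((b - d).toNat : ℤ) = b by omega] at this
      exact this.symm
  exact Relation.ReflTransGen.trans h1 h2

/-- An infinite cluster meeting `L` contains an infinite cluster of the complement of `L`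
adjacent to `L`. -/
lemma exists_arm {O : Set V} {L : Finset V} {x : V} (hx : x ∈ L) (h : InfC O x) :
    ∃ y, InfC {v | v ∉ L ∧ v ∈ O} y ∧ Conn Set.univ O x y ∧ ∃ u ∈ L, ∃ e, Ends e u y := by
  classical
  by_contra hcon
  have key : ∀ z, Conn Set.univ O x z → z ∈ L ∨
      ∃ y, (y ∉ L ∧ y ∈ O ∧ Conn Set.univ O x y ∧ ∃ u ∈ L, ∃ e, Ends e u y) ∧
        Conn Set.univ {v | v ∉ L ∧ v ∈ O} y z := by
    intro z hz
    unfold Conn at hz
    induction hz with
    | refl => exact Or.inl hx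
    | @tail b c hab hbc ih =>
      obtain ⟨h1, h2, e, he, h3⟩ := hbc
      by_cases hc : c ∈ L
      · exact Or.inl hc
      right
      by_cases hb : b ∈ L
      · exact ⟨c, ⟨hc, h2, Relation.ReflTransGen.tail hab ⟨h1, h2, e, he, h3⟩, b, hb, e, h3⟩,
          Relation.ReflTransGen.refl⟩
      · rcases ih with ih | ⟨y, hy, hyb⟩
        · exact absurd ih hb
        · exact ⟨y, hy, Relation.ReflTransGen.tail hyb ⟨⟨hb, h1⟩, ⟨hc, h2⟩, e, he, h3⟩⟩
  have hfin : {y | y ∉ L ∧ y ∈ O ∧ Conn Set.univ O x y ∧ ∃ u ∈ L, ∃ e, Ends e u y}.Finite := by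
    refine ((touch L).image Prod.fst ∪ (touch L).image tip).finite_toSet.subset ?_
    rintro y ⟨-, -, -, u, hu, e, ⟨h1, h2⟩ | ⟨h1, h2⟩⟩
    · exact Finset.mem_coe.2 (Finset.mem_union_right _ (Finset.mem_image.2
        ⟨e, mem_touch.2 (Or.inl (h1 ▸ hu)), h2⟩))
    · exact Finset.mem_coe.2 (Finset.mem_union_left _ (Finset.mem_image.2
        ⟨e, mem_touch.2 (Or.inr (h2 ▸ hu)), h1⟩))
  apply h.2
  refine (L.finite_toSet.union (hfin.biUnion
    (t := fun y => {z | Conn Set.univ {v | v ∉ L ∧ v ∈ O} y z}) ?_)).subset ?_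
  · intro y hy
    by_contra hinf
    exact hcon ⟨y, ⟨⟨hy.1, hy.2.1⟩, hinf⟩, hy.2.2.1, hy.2.2.2⟩
  · intro z hz
    rcases key z hz with h1 | ⟨y, hy, hyz⟩
    · exact Or.inl h1
    · exact Or.inr (Set.mem_biUnion hy hyz)

lemma bkdet_mem {G : Set E} {O : Set V} {x y : V} (h : Conn G O x y) (hx : x ∈ O) : y ∈ O := by
  unfold Conn at h
  induction h with
  | refl => exact hx
  | tail _ hbc _ => exact hbc.2.1

lemma bkdet_port {N : ℕ} {a b : V} {e : E} (ha : a ∈ box N) (hb : b ∉ box N) (he : Ends e a b) :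
    ∃ k < 8 * N, b = bv N k := by
  have hcob : e ∈ cob (box N) := by
    rw [mem_cob]
    rcases he with ⟨h1, h2⟩ | ⟨h1, h2⟩ <;> rw [h1, h2] <;> tauto
  obtain ⟨k, hk, rfl⟩ := exists_port hcob
  refine ⟨k, hk, ?_⟩
  obtain ⟨u, hu, h⟩ := port_ends hk
  have hbv := bv_not_mem hk
  rcases he with ⟨h1, h2⟩ | ⟨h1, h2⟩ <;> rcases h with ⟨h3, h4⟩ | ⟨h3, h4⟩
  · exact absurd (h3 ▸ h1 ▸ ha) hbv
  · exact h2.symm.trans h4
  · exact h1.symm.trans h3
  · exact absurd (h4 ▸ h2 ▸ ha) hbv

lemma bkdet_exit {N : ℕ} {O : Set V} {x y : V} {e : E} (hy : InfC O y) (hx : x ∈ box N)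
    (he : Ends e x y) : ∃ k < 8 * N, Conn Set.univ O y (bv N k) := by
  by_cases hyb : y ∈ box N
  · by_contra hcon
    apply hy.2
    refine (box N).finite_toSet.subset ?_
    intro z hz
    have hz' : Conn Set.univ O y z := hz
    unfold Conn at hz'
    induction hz' with
    | refl => exact hyb
    | @tail b c hab hbc ih =>
      by_contra hc
      obtain ⟨h1, h2, e', he', h3⟩ := hbc
      obtain ⟨k, hk, rfl⟩ := bkdet_port (ih hab) hc h3
      exact hcon ⟨k, hk, hz⟩
  · obtain ⟨k, hk, rfl⟩ := bkdet_port hx hyb he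
    exact ⟨k, hk, Relation.ReflTransGen.refl⟩

theorem tri_count {ι : Type} [Fintype ι] (τ : S) (N : ℕ) (L : ι → Finset V)
    (hd : ∀ i j, i ≠ j → Disjoint (L i) (L j)) (hbox : ∀ i, L i ⊆ box N)
    (hc : ∀ i, ∀ x ∈ L i, ∀ y ∈ L i, Conn Set.univ (L i : Set V) x y)
    (ht : ∀ i, Tri τ (L i)) : Fintype.card ι ≤ 8 * N := by
  classical
  let O : Set V := {v | τ v = 1}
  let Oi : ι → Set V := fun i => {v | v ∉ L i ∧ τ v = 1}
  let Dall : ι → Set ℕ := fun i => {k | k < 8 * N ∧ ∃ x ∈ L i, Conn Set.univ O x (bv N k)}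
  let R : ι → ℕ → ℕ → Prop := fun i k l => Conn Set.univ (Oi i) (bv N k) (bv N l)
  let D : ι → Set ℕ := fun i => {k | k ∈ Dall i ∧ ¬ R i (sInf (Dall i)) k}
  let D' : ι → Set ℕ := fun i => {k | k ∈ D i ∧ ¬ R i (sInf (D i)) k}
  have hOi : ∀ i, Oi i ⊆ O := fun i v hv => hv.2
  have hLO : ∀ i, (L i : Set V) ⊆ O := fun i v hv => (ht i).1 v hv
  have hLi : ∀ i j, i ≠ j → (L j : Set V) ⊆ Oi i := fun i j hij v hv =>
    ⟨fun h => Finset.disjoint_left.1 (hd i j hij) h hv, (ht j).1 v hv⟩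
  have hRs : ∀ i k l, R i k l → R i l k := fun i k l h => Conn.symm h
  have hRt : ∀ i k l m, R i k l → R i l m → R i k m := fun i k l m h h' =>
    Relation.ReflTransGen.trans h h'
  have hne : ∀ i, (D' i).Nonempty := by
    intro i
    obtain ⟨h1, y, hy, hadj, hsep⟩ := ht i
    have hk : ∀ a, ∃ k ∈ Dall i, Conn Set.univ (Oi i) (y a) (bv N k) := by
      intro a
      obtain ⟨x, hx, e, he⟩ := hadj a
      obtain ⟨k, hk, hc⟩ := bkdet_exit (hy a) (hbox i hx) he
      refine ⟨k, ⟨hk, x, hx, ?_⟩, hc⟩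
      exact Relation.ReflTransGen.head ⟨h1 x hx, (hy a).1.2, e, Set.mem_univ _, he⟩
        (Conn.mono subset_rfl (hOi i) hc)
    choose k hk hck using hk
    have hsep' : ∀ a b, a ≠ b → ¬ R i (k a) (k b) := fun a b hab h =>
      hsep a b hab (Relation.ReflTransGen.trans (hck a)
        (Relation.ReflTransGen.trans h (Conn.symm (hck b))))
    by_contra hcon
    have hor : ∀ a, R i (sInf (Dall i)) (k a) ∨ R i (sInf (D i)) (k a) := by
      intro a
      by_contra h
      rw [not_or] at h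
      exact hcon ⟨k a, ⟨hk a, h.1⟩, h.2⟩
    have hno : ∀ r a b, a ≠ b → R i r (k a) → R i r (k b) → False := fun r a b hab h h' =>
      hsep' a b hab (hRt _ _ _ _ (hRs _ _ _ h) h')
    rcases hor 0 with h0 | h0 <;> rcases hor 1 with h1 | h1 <;> rcases hor 2 with h2 | h2
    all_goals first
      | exact hno _ 0 1 (by decide) h0 h1
      | exact hno _ 0 2 (by decide) h0 h2
      | exact hno _ 1 2 (by decide) h1 h2
  have hf : ∀ i, sInf (D' i) ∈ D' i := fun i => Nat.sInf_mem (hne i)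
  have hsub : ∀ i j, sInf (D' i) = sInf (D' j) → Dall i ⊆ Dall j := by
    rintro i j hij k ⟨hk, x, hx, hxk⟩
    obtain ⟨-, u, hu, hu'⟩ := (hf i).1.1
    obtain ⟨-, w, hw, hw'⟩ := (hf j).1.1
    rw [← hij] at hw'
    refine ⟨hk, w, hw, Relation.ReflTransGen.trans hw' (Relation.ReflTransGen.trans
      (Conn.symm hu') (Relation.ReflTransGen.trans ?_ hxk))⟩
    exact Conn.mono subset_rfl (hLO i) (hc i u hu x hx)
  have hcov : ∀ i j, i ≠ j → ∀ xi ∈ L i, ∀ xj ∈ L j, ∀ v, Conn Set.univ O xi v →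
      Conn Set.univ (Oi i) xj v ∨ Conn Set.univ (Oi j) xi v := by
    intro i j hij xi hxi xj hxj v hv
    unfold Conn at hv
    induction hv with
    | refl => exact Or.inr Relation.ReflTransGen.refl
    | @tail b c hab hbc ih =>
      obtain ⟨h1, h2, e, he, h3⟩ := hbc
      by_cases hcj : c ∈ L j
      · exact Or.inl (Conn.mono subset_rfl (hLi i j hij) (hc j xj hxj c hcj))
      by_cases hci : c ∈ L i
      · exact Or.inr (Conn.mono subset_rfl (hLi j i hij.symm) (hc i xi hxi c hci))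
      rcases ih with ih | ih
      · exact Or.inl (Relation.ReflTransGen.tail ih
          ⟨bkdet_mem ih (hLi i j hij hxj), ⟨hci, h2⟩, e, he, h3⟩)
      · exact Or.inr (Relation.ReflTransGen.tail ih
          ⟨bkdet_mem ih (hLi j i hij.symm hxi), ⟨hcj, h2⟩, e, he, h3⟩)
  have hcov' : ∀ i j, i ≠ j → ∀ xi ∈ L i, ∀ xj ∈ L j, ∀ k ∈ Dall i,
      Conn Set.univ (Oi i) xj (bv N k) ∨ Conn Set.univ (Oi j) xi (bv N k) := by
    rintro i j hij xi hxi xj hxj k ⟨-, x, hx, hxk⟩
    exact hcov i j hij xi hxi xj hxj _ (Relation.ReflTransGen.trans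
      (Conn.mono subset_rfl (hLO i) (hc i xi hxi x hx)) hxk)
  have hmain : ∀ i j, i ≠ j → sInf (D' i) = sInf (D' j) → ∀ xi ∈ L i, ∀ xj ∈ L j,
      Conn Set.univ (Oi j) xi (bv N (sInf (Dall j))) → False := by
    intro i j hij hfij xi hxi xj hxj hr
    have hji := hsub j i hfij.symm
    have hB : ∀ k ∈ D j, Conn Set.univ (Oi i) xj (bv N k) := by
      intro k hk
      rcases hcov' i j hij xi hxi xj hxj k (hji hk.1) with h | h
      · exact h
      · exact absurd (Relation.ReflTransGen.trans (Conn.symm hr) h) hk.2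
    have hfi := hf i
    have hDD : D j ⊆ D' i := by
      intro k hk
      have h1 : R i k (sInf (D' i)) := by
        have h2 := hB _ (hf j).1
        rw [← hfij] at h2
        exact Relation.ReflTransGen.trans (Conn.symm (hB k hk)) h2
      exact ⟨⟨hji hk.1, fun h => hfi.1.2 (hRt _ _ _ _ h h1)⟩, fun h => hfi.2 (hRt _ _ _ _ h h1)⟩
    have hm : sInf (D j) ∈ D j := Nat.sInf_mem ⟨_, (hf j).1⟩
    have h1 : sInf (D' i) ≤ sInf (D j) := Nat.sInf_le (hDD hm)
    have h2 : sInf (D j) ≤ sInf (D' j) := Nat.sInf_le (hf j).1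
    have h3 : sInf (D j) = sInf (D' j) := by omega
    apply (hf j).2
    rw [h3]
    exact Relation.ReflTransGen.refl
  have hinj : Function.Injective fun i => (⟨sInf (D' i), (hf i).1.1.1⟩ : Fin (8 * N)) := by
    intro i j hij
    have hfij : sInf (D' i) = sInf (D' j) := congrArg Fin.val hij
    by_contra hne'
    obtain ⟨-, xi, hxi, -⟩ := (hf i).1.1
    obtain ⟨-, xj, hxj, -⟩ := (hf j).1.1
    have heq : Dall i = Dall j := Set.Subset.antisymm (hsub i j hfij) (hsub j i hfij.symm)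
    have hr : sInf (Dall i) ∈ Dall i := Nat.sInf_mem ⟨_, (hf i).1.1⟩
    rcases hcov' i j hne' xi hxi xj hxj _ hr with h | h
    · exact hmain j i (Ne.symm hne') hfij.symm xj hxj xi hxi h
    · rw [heq] at h
      exact hmain i j hne' hfij xi hxi xj hxj h
  simpa using Fintype.card_le_of_injective _ hinj

end Pool.Agent.MP_c70b3b_mp
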