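import Pool.Agent.MP_c70b3b_mp.BKdet

open MeasureTheory ProbabilityTheory Filter Topology
open scoped symmDiff ENNReal

namespace Pool.Agent.MP_c70b3b_mp

/-- `n` steps of a relation. -/
def bkmeasStep (r : V → V → Prop) (x : V) : ℕ → V → Prop
  | 0, y => y = x
  | n + 1, y => ∃ z, bkmeasStep r x n z ∧ r z y

lemma bkmeas_iff (r : V → V → Prop) (x y : V) :
    Relation.ReflTransGen r x y ↔ ∃ n, bkmeasStep r x n y := by
  constructor
  · intro h
    induction h with
    | refl => exact ⟨0, rfl⟩
    | tail _ h ih => obtain ⟨n, hn⟩ := ih; exact ⟨n + 1, _, hn, h⟩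
  · rintro ⟨n, hn⟩
    induction n generalizing y with
    | zero => exact hn ▸ Relation.ReflTransGen.refl
    | succ n ih => obtain ⟨z, h1, h2⟩ := hn; exact (ih z h1).tail h2

lemma bkmeas_eq (v : V) (s : ℤˣ) : Measurable fun τ : S => τ v = s :=
  (Measurable.of_discrete (f := fun u : ℤˣ => u = s)).comp (measurable_pi_apply v)

lemma bkmeas_mem (L : Finset V) (s : ℤˣ) (v : V) :
    Measurable fun τ : S => v ∈ {v | v ∉ L ∧ τ v = s} :=
  measurable_const.and (bkmeas_eq v s)

lemma bkmeas_conn (L : Finset V) (s : ℤˣ) (x y : V) :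
    Measurable fun τ : S => Conn Set.univ {v | v ∉ L ∧ τ v = s} x y := by
  simp only [Conn, bkmeas_iff]
  refine Measurable.exists fun n => ?_
  induction n generalizing y with
  | zero => exact measurable_const
  | succ n ih =>
    exact Measurable.exists fun z => (ih z).and
      ((bkmeas_mem L s z).and ((bkmeas_mem L s y).and measurable_const))

lemma bkmeas_infC (L : Finset V) (s : ℤˣ) (x : V) :
    Measurable fun τ : S => InfC {v | v ∉ L ∧ τ v = s} x := by
  have h : ∀ A : Set V, A.Infinite ↔ ∀ F : Finset V, ∃ y, y ∈ A ∧ y ∉ F := fun A =>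
    ⟨fun h F => h.exists_notMem_finset F, fun h hA => by
      obtain ⟨y, h1, h2⟩ := h hA.toFinset
      exact h2 (hA.mem_toFinset.2 h1)⟩
  simp only [InfC, h]
  exact (bkmeas_mem L s x).and (Measurable.forall fun F => Measurable.exists fun y =>
    (bkmeas_conn L s x y).and measurable_const)

lemma measurableSet_conn (L : Finset V) (s : ℤˣ) (x y : V) :
    MeasurableSet {τ : S | Conn Set.univ {v | v ∉ L ∧ τ v = s} x y} :=
  (bkmeas_conn L s x y).setOf

lemma measurableSet_infC (L : Finset V) (s : ℤˣ) (x : V) :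
    MeasurableSet {τ : S | InfC {v | v ∉ L ∧ τ v = s} x} :=
  (bkmeas_infC L s x).setOf

lemma measurableSet_many (n : ℕ) (L : Finset V) (s : ℤˣ) :
    MeasurableSet {τ : S | Many n {v | v ∉ L ∧ τ v = s}} :=
  Measurable.setOf <| Measurable.exists fun y => (Measurable.forall fun i =>
    bkmeas_infC L s (y i)).and (Measurable.forall fun i => Measurable.forall fun j =>
      measurable_const.imp (bkmeas_conn L s (y i) (y j)).not)

lemma measurableSet_tri (L : Finset V) : MeasurableSet {τ : S | Tri τ L} :=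
  Measurable.setOf <| (Measurable.forall fun x => measurable_const.imp (bkmeas_eq x 1)).and <|
    Measurable.exists fun y => (Measurable.forall fun i => bkmeas_infC L 1 (y i)).and
      (measurable_const.and (Measurable.forall fun i => Measurable.forall fun j =>
        measurable_const.imp (bkmeas_conn L 1 (y i) (y j)).not))

lemma measurableSet_uniqAll : MeasurableSet {τ : S | UniqAll τ} :=
  Measurable.setOf <| Measurable.forall fun L => Measurable.forall fun s =>
    Measurable.forall fun x => Measurable.forall fun y =>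
      (bkmeas_infC L s x).imp ((bkmeas_infC L s y).imp (bkmeas_conn L s x y))

lemma measurable_setOn (L : Finset V) (s : ℤˣ) : Measurable (setOn L s) := by
  refine measurable_pi_lambda _ fun x => ?_
  unfold setOn
  split_ifs
  · exact measurable_const
  · exact measurable_pi_apply x

lemma bkmeas_flp_ac {Q : Measure S} (hac : ∀ x : V, Q.map (flp {x}) ≪ Q) (U : Finset V) :
    Q.map (flp U) ≪ Q := by
  induction U using Finset.induction_on with
  | empty =>
    rw [show flp ∅ = id from funext fun τ => funext fun x => by simp [flp], Measure.map_id]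
  | insert x U hx ih =>
    have h : flp (insert x U) = flp {x} ∘ flp U := by
      funext τ y
      by_cases h1 : y = x
      · simp [flp, h1, hx]
      · simp [flp, h1]
    rw [h, ← Measure.map_map (measurable_flp _) (measurable_flp _)]
    exact (ih.map (measurable_flp _)).trans (hac x)

lemma setOn_ac {Q : Measure S} (hac : ∀ x : V, Q.map (flp {x}) ≪ Q) (L : Finset V) (s : ℤˣ) :
    Q.map (setOn L s) ≪ Q := by
  refine Measure.AbsolutelyContinuous.mk fun A hA h0 => ?_
  rw [Measure.map_apply (measurable_setOn L s) hA]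
  refine measure_mono_null (t := ⋃ U : Finset V, flp U ⁻¹' A) (fun τ hτ => ?_)
    (measure_iUnion_null fun U => ?_)
  · refine Set.mem_iUnion.2 ⟨L.filter fun x => τ x ≠ s, ?_⟩
    have : flp (L.filter fun x => τ x ≠ s) τ = setOn L s τ := by
      funext x
      simp only [flp, setOn, Finset.mem_filter]
      by_cases h1 : x ∈ L
      · rcases Int.units_eq_one_or (τ x) with h | h <;>
          rcases Int.units_eq_one_or s with h' | h' <;> simp [h1, h, h']
      · simp [h1]
    rw [Set.mem_preimage, this]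
    exact hτ
  · rw [← Measure.map_apply (measurable_flp U) hA]
    exact bkmeas_flp_ac hac U h0

lemma bkmeas_ends (z : V) {x y : V} (h : ∃ e, Ends e x y) : ∃ e, Ends e (x + z) (y + z) := by
  obtain ⟨e, ⟨rfl, rfl⟩ | ⟨rfl, rfl⟩⟩ := h
  · exact ⟨shE z e, Or.inl ⟨rfl, tip_shE z e⟩⟩
  · exact ⟨shE z e, Or.inr ⟨rfl, tip_shE z e⟩⟩

lemma bkmeas_conn_add (z : V) {O O' : Set V} (h : ∀ v ∈ O, v + z ∈ O') {x y : V}
    (hc : Conn Set.univ O x y) : Conn Set.univ O' (x + z) (y + z) := by
  induction hc with
  | refl => exact Relation.ReflTransGen.refl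
  | tail _ h1 ih =>
    obtain ⟨h1, h2, e, -, h3⟩ := h1
    obtain ⟨e', h4⟩ := bkmeas_ends z ⟨e, h3⟩
    exact ih.tail ⟨h _ h1, h _ h2, e', trivial, h4⟩

lemma conn_shift (z : V) (O : Set V) (x y : V) :
    Conn Set.univ {v | v + z ∈ O} x y ↔ Conn Set.univ O (x + z) (y + z) := by
  refine ⟨bkmeas_conn_add z fun _ h => h, fun h => ?_⟩
  simpa using bkmeas_conn_add (-z) (O' := {v | v + z ∈ O}) (fun v hv => by simpa using hv) h

lemma bkmeas_infC_shift (z : V) (O : Set V) (x : V) :
    InfC {v | v + z ∈ O} x ↔ InfC O (x + z) := by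
  refine and_congr Iff.rfl ?_
  simp only [conn_shift]
  exact ⟨fun h h' => h (h'.preimage (f := (· + z)) (add_left_injective z).injOn), fun h =>
    h.preimage (f := (· + z)) fun y _ => ⟨y - z, sub_add_cancel y z⟩⟩

lemma many_shift (n : ℕ) (z : V) (O : Set V) : Many n {v | v + z ∈ O} ↔ Many n O := by
  simp only [Many, bkmeas_infC_shift, conn_shift]
  exact ⟨fun ⟨y, h⟩ => ⟨fun i => y i + z, h⟩, fun ⟨y, h⟩ => ⟨fun i => y i - z, by simpa using h⟩⟩

lemma tri_shift (z : V) (τ : S) (L : Finset V) :
    Tri (shS z τ) L ↔ Tri τ (L.image (· + z)) := by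
  have h : {v | v ∉ L ∧ shS z τ v = 1} =
      {v | v + z ∈ {v | v ∉ L.image (· + z) ∧ τ v = 1}} := by
    ext v
    simp [shS]
  unfold Tri
  rw [h]
  simp only [bkmeas_infC_shift, conn_shift]
  refine and_congr (by simp only [Finset.forall_mem_image, shS]) ⟨?_, ?_⟩
  · rintro ⟨y, h1, h2, h3⟩
    refine ⟨fun i => y i + z, h1, fun i => ?_, h3⟩
    obtain ⟨x, hx, h4⟩ := h2 i
    exact ⟨x + z, Finset.mem_image_of_mem _ hx, bkmeas_ends z h4⟩
  · rintro ⟨y, h1, h2, h3⟩
    refine ⟨fun i => y i - z, by simpa only [sub_add_cancel] using h1, fun i => ?_,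
      by simpa only [sub_add_cancel] using h3⟩
    obtain ⟨x, hx, h4⟩ := h2 i
    obtain ⟨x, hx', rfl⟩ := Finset.mem_image.1 hx
    exact ⟨x, hx', by simpa only [add_neg_cancel_right, ← sub_eq_add_neg, add_sub_cancel_right]
      using bkmeas_ends (-z) h4⟩

end Pool.Agent.MP_c70b3b_mp
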