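import Pool.Agent.MP_c70b3b_mp.Core

open MeasureTheory ProbabilityTheory
open scoped symmDiff ENNReal

namespace Pool.Agent.MP_c70b3b_mp

lemma sp_mul (u v : ℤˣ) : sp (u * v) = sp u * sp v := by simp [sp]
lemma sp_neg (u : ℤˣ) : sp (-u) = -sp u := by simp [sp]
lemma sp_one : sp 1 = 1 := by simp [sp]
lemma sp_cases (u : ℤˣ) : sp u = 1 ∨ sp u = -1 := by
  rcases Int.units_eq_one_or u with h | h <;> simp [h, sp]
lemma sp_mul_self (u : ℤˣ) : sp u * sp u = 1 := by rcases sp_cases u with h | h <;> simp [h]
lemma abs_sp (u : ℤˣ) : |sp u| = 1 := by rcases sp_cases u with h | h <;> simp [h]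
lemma sp_inj {u v : ℤˣ} (h : sp u = sp v) : u = v := by
  apply Units.ext; unfold sp at h; exact_mod_cast h
lemma bond_cases (σ : S) (e : E) : bond σ e = 1 ∨ bond σ e = -1 := by
  rw [bond, ← sp_mul]; exact sp_cases _
lemma abs_bond (σ : S) (e : E) : |bond σ e| = 1 := by rcases bond_cases σ e with h | h <;> simp [h]
lemma bond_mul (σ τ : S) (e : E) : bond (σ * τ) e = bond σ e * bond τ e := by
  simp only [bond, Pi.mul_apply, sp_mul]; ring
lemma abs_chr (A : Finset V) (σ : S) : |chr A σ| = 1 := by
  simp [chr, Finset.abs_prod, abs_sp]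
lemma chr_mul (A : Finset V) (σ τ : S) : chr A (σ * τ) = chr A σ * chr A τ := by
  simp [chr, sp_mul, Finset.prod_mul_distrib]
lemma tip_ne (e : E) : tip e ≠ e.1 := by
  rcases e with ⟨⟨a, b⟩, _ | _⟩ <;> simp [tip]
lemma tip_shE (z : V) (e : E) : tip (shE z e) = tip e + z := by
  rcases e with ⟨x, _ | _⟩ <;> simp [tip, shE] <;> abel

lemma mem_touch {U : Finset V} {e : E} : e ∈ touch U ↔ e.1 ∈ U ∨ tip e ∈ U := by
  rcases e with ⟨x, b⟩
  simp only [touch, Finset.mem_union, Finset.mem_product, Finset.mem_univ, and_true,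
    Finset.mem_image, Prod.mk.injEq, tip]
  constructor
  · rintro ((h | ⟨y, hy, rfl, rfl⟩) | ⟨y, hy, rfl, rfl⟩)
    · exact Or.inl h
    · right; simpa using hy
    · right; simpa using hy
  · rintro (h | h)
    · exact Or.inl (Or.inl h)
    · cases b
      · exact Or.inl (Or.inr ⟨_, h, by simp, rfl⟩)
      · exact Or.inr ⟨_, h, by simp, rfl⟩

lemma mem_cob {U : Finset V} {e : E} : e ∈ cob U ↔ ¬ (e.1 ∈ U ↔ tip e ∈ U) := by
  simp only [cob, Finset.mem_filter, mem_touch]; tauto

lemma sp_flp (U : Finset V) (σ : S) (x : V) :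
    sp (flp U σ x) = if x ∈ U then -sp (σ x) else sp (σ x) := by
  unfold flp; split_ifs <;> simp [sp_neg]

lemma bond_flp (U : Finset V) (σ : S) (e : E) :
    bond (flp U σ) e = if e ∈ cob U then -bond σ e else bond σ e := by
  simp only [bond, sp_flp, mem_cob]
  by_cases h1 : e.1 ∈ U <;> by_cases h2 : tip e ∈ U <;> simp [h1, h2]

lemma chr_flp (A U : Finset V) (σ : S) :
    chr A (flp U σ) = (-1) ^ (A ∩ U).card * chr A σ := by
  have : ∀ x, sp (flp U σ x) = (if x ∈ U then -1 else 1) * sp (σ x) := fun x => by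
    rw [sp_flp]; split_ifs <;> simp
  simp only [chr, this, Finset.prod_mul_distrib]
  congr 1
  rw [Finset.prod_ite, Finset.prod_const_one, mul_one, Finset.prod_const, Finset.filter_mem_eq_inter]

lemma flp_flp (U : Finset V) (σ : S) : flp U (flp U σ) = σ := by
  funext x; unfold flp; split_ifs <;> simp

lemma flp_flp' (U U' : Finset V) (σ : S) : flp U (flp U' σ) = flp (U ∆ U') σ := by
  funext x; unfold flp
  by_cases h : x ∈ U <;> by_cases h' : x ∈ U' <;> simp [h, h', Finset.mem_symmDiff]

lemma flp_mul_flp (U : Finset V) (σ τ : S) : flp U σ * flp U τ = σ * τ := by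
  funext x; simp only [Pi.mul_apply, flp]; split_ifs <;> simp

lemma cob_symmDiff (U U' : Finset V) : cob (U ∆ U') = cob U ∆ cob U' := by
  ext e; simp only [mem_cob, Finset.mem_symmDiff]; tauto

lemma measurable_flp (U : Finset V) : Measurable (flp U) := by
  refine measurable_pi_lambda _ fun x => ?_
  unfold flp; split_ifs
  · exact (Measurable.of_discrete (f := fun u : ℤˣ => -u)).comp (measurable_pi_apply x)
  · exact measurable_pi_apply x

lemma measurable_sp (x : V) : Measurable fun σ : S => sp (σ x) :=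
  (Measurable.of_discrete (f := sp)).comp (measurable_pi_apply x)

lemma measurable_bond (e : E) : Measurable fun σ : S => bond σ e :=
  (measurable_sp _).mul (measurable_sp _)

lemma measurable_chr (A : Finset V) : Measurable (chr A) :=
  Finset.measurable_prod _ fun x _ => measurable_sp x

lemma measurable_en (K : W) (F : Finset E) : Measurable (en K F) :=
  Finset.measurable_sum _ fun e _ => (measurable_bond e).const_mul _

lemma measurable_en2 (β : ℝ) (F : Finset E) : Measurable fun p : W × S => en (β • p.1) F p.2 :=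
  Finset.measurable_sum _ fun e _ =>
    (((measurable_pi_apply e).comp measurable_fst).const_smul β).mul
      ((measurable_bond e).comp measurable_snd)

lemma abs_en_le (K : W) (F : Finset E) (σ : S) : |en K F σ| ≤ ∑ e ∈ F, |K e| :=
  (Finset.abs_sum_le_sum_abs _ _).trans (le_of_eq (by simp [abs_mul, abs_bond]))

lemma measurable_mul2 : Measurable fun p : S × S => p.1 * p.2 := by
  refine measurable_pi_lambda _ fun x => ?_
  have h1 : Measurable fun p : S × S => p.1 x := (measurable_pi_apply x).comp measurable_fst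
  have h2 : Measurable fun p : S × S => p.2 x := (measurable_pi_apply x).comp measurable_snd
  have h3 : Measurable fun q : ℤˣ × ℤˣ => q.1 * q.2 := Measurable.of_discrete
  exact h3.comp (h1.prodMk h2)

lemma measurable_shW (z : V) : Measurable (shW z) :=
  measurable_pi_lambda _ fun _ => measurable_pi_apply _
lemma measurable_shS (z : V) : Measurable (shS z) :=
  measurable_pi_lambda _ fun _ => measurable_pi_apply _
lemma measurable_gauge (g : S) : Measurable (gauge g) :=
  measurable_pi_lambda _ fun e => (measurable_pi_apply e).const_mul _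

lemma bond_shS (z : V) (σ : S) (e : E) : bond (shS z σ) e = bond σ (shE z e) := by
  simp only [bond, shS, tip_shE]; rfl

lemma dl_sum_symm {α : Type*} [DecidableEq α] (f : α → ZMod 2) (G G' : Finset α) :
    ∑ e ∈ G ∆ G', f e = ∑ e ∈ G, f e + ∑ e ∈ G', f e := by
  have h2 : ∀ a : ZMod 2, a + a = 0 := by decide
  rw [symmDiff_def, Finset.sup_eq_union, Finset.sum_union disjoint_sdiff_sdiff,
    ← Finset.sum_sdiff (Finset.inter_subset_left (s₁ := G) (s₂ := G')),
    ← Finset.sum_sdiff (Finset.inter_subset_right (s₁ := G) (s₂ := G')),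
    Finset.sdiff_inter_self_left, Finset.sdiff_inter_self_right]
  linear_combination (-1 : ZMod 2) * h2 (∑ e ∈ G ∩ G', f e)

lemma fbd_symmDiff (G G' : Finset E) (p : V) : fbd (G ∆ G') p = fbd G p + fbd G' p :=
  dl_sum_symm _ _ _
lemma vbd_symmDiff (G G' : Finset E) (p : V) : vbd (G ∆ G') p = vbd G p + vbd G' p :=
  dl_sum_symm _ _ _
lemma fbd_singleton (e : E) (p : V) : fbd {e} p = dl (fA e) p + dl (fB e) p := by simp [fbd]
lemma vbd_singleton (e : E) (p : V) : vbd {e} p = dl e.1 p + dl (tip e) p := by simp [vbd]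

lemma iIndep_P : iIndepFun (fun (e : E) (w : W) => w e) P :=
  iIndepFun_infinitePi (X := fun _ x => x) fun _ => measurable_id

lemma mp_eval (e : E) : MeasurePreserving (fun w : W => w e) P (gaussianReal 0 1) :=
  measurePreserving_eval_infinitePi _ e

lemma mp_shW (z : V) : MeasurePreserving (shW z) P P := by
  refine ⟨measurable_shW z, ?_⟩
  let q : E ≃ E := Equiv.prodCongr (Equiv.addRight (-z)) (Equiv.refl _)
  have h := Measure.infinitePi_map_piCongrLeft (fun _ : E => gaussianReal 0 1) q
  unfold P
  convert h using 2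
  funext w e
  obtain ⟨e, rfl⟩ := q.surjective e
  rw [MeasurableEquiv.piCongrLeft_apply_apply]
  simp [shW, q]

lemma mp_gauge (g : S) : MeasurePreserving (gauge g) P P := by
  refine ⟨measurable_gauge g, ?_⟩
  unfold P
  have h := Measure.infinitePi_map_pi (fun _ : E => gaussianReal 0 1)
    (f := fun e (t : ℝ) => bond g e * t) (fun e => measurable_const_mul _)
  refine h.trans ?_
  congr 1; funext e
  rcases bond_cases g e with h1 | h1
  · simp [h1]
  · simp only [h1, neg_mul, one_mul]
    simpa using gaussianReal_map_neg (μ := 0) (v := 1)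

end Pool.Agent.MP_c70b3b_mp
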