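import Pool.Agent.MP_c70b3b_mp.CliffAbs

open MeasureTheory ProbabilityTheory Filter Topology
open scoped symmDiff ENNReal

namespace Pool.Agent.MP_c70b3b_mp

section cliffAux

variable {m : ℕ}

/-- The flipped set of a Clifford generator. -/
def cliffS (a : Fin m × Bool) : Finset (Fin m) := if a.2 then Finset.Iic a.1 else Finset.Iio a.1

/-- The square of a Clifford generator. -/
def cliffE (a : Fin m × Bool) : ℝ := if a.2 then -1 else 1

/-- The sign of a flip. -/
def cliffSg (I : Finset (Fin m)) (i : Fin m) : ℝ := if i ∈ I then -1 else 1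

/-- Clifford generators acting on functions of the boundary spins. -/
def cliffG (a : Fin m × Bool) : ((Fin m → ℤˣ) → ℝ) →ₗ[ℝ] ((Fin m → ℤˣ) → ℝ) where
  toFun f := fun η => sp (η a.1) * f (fl (cliffS a) η)
  map_add' f g := by funext η; simp [mul_add]
  map_smul' c f := by funext η; simp only [Pi.smul_apply, smul_eq_mul, RingHom.id_apply]; ring

/-- Pairing with a weight. -/
def cliffN (n : (Fin m → ℤˣ) → ℝ) : ((Fin m → ℤˣ) → ℝ) →ₗ[ℝ] ℝ where
  toFun f := ∑ η, n η * f η
  map_add' f g := by simp [mul_add, Finset.sum_add_distrib]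
  map_smul' c f := by
    simp only [Pi.smul_apply, smul_eq_mul, RingHom.id_apply, Finset.mul_sum]
    exact Finset.sum_congr rfl fun η _ => by ring

lemma cliffG_apply (a : Fin m × Bool) (f : (Fin m → ℤˣ) → ℝ) (η : Fin m → ℤˣ) :
    cliffG a f η = sp (η a.1) * f (fl (cliffS a) η) := rfl

lemma cliffN_apply (n f : (Fin m → ℤˣ) → ℝ) : cliffN n f = ∑ η, n η * f η := rfl

lemma cliff_sp_fl (I : Finset (Fin m)) (η : Fin m → ℤˣ) (i : Fin m) :
    sp (fl I η i) = cliffSg I i * sp (η i) := by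
  unfold fl cliffSg; split_ifs <;> simp [sp_neg]

lemma cliff_fl_fl (I J : Finset (Fin m)) (η : Fin m → ℤˣ) : fl I (fl J η) = fl (I ∆ J) η := by
  funext x; unfold fl
  by_cases h : x ∈ I <;> by_cases h' : x ∈ J <;> simp [h, h', Finset.mem_symmDiff]

lemma cliff_fl_empty (η : Fin m → ℤˣ) : fl ∅ η = η := by
  funext x; simp [fl]

lemma cliff_fl_self (I : Finset (Fin m)) (η : Fin m → ℤˣ) : fl I (fl I η) = η := by
  rw [cliff_fl_fl, symmDiff_self, Finset.bot_eq_empty, cliff_fl_empty]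

lemma cliff_fl_neg (I : Finset (Fin m)) (η : Fin m → ℤˣ) : fl I (-η) = -fl I η := by
  funext x; unfold fl
  by_cases h : x ∈ I <;> simp [h]

lemma cliff_sg_self (a : Fin m × Bool) : cliffSg (cliffS a) a.1 = cliffE a := by
  rcases a with ⟨i, _ | _⟩ <;> simp [cliffSg, cliffS, cliffE]

lemma cliffE_sq (a : Fin m × Bool) : cliffE a * cliffE a = 1 := by
  rcases a with ⟨i, _ | _⟩ <;> simp [cliffE]

lemma cliffG_G (a b : Fin m × Bool) (f : (Fin m → ℤˣ) → ℝ) (η : Fin m → ℤˣ) :
    cliffG a (cliffG b f) η = cliffSg (cliffS a) b.1 *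
      (sp (η a.1) * sp (η b.1) * f (fl (cliffS a ∆ cliffS b) η)) := by
  rw [cliffG_apply, cliffG_apply, cliff_sp_fl, cliff_fl_fl, symmDiff_comm]; ring

lemma cliff_sg_add {a b : Fin m × Bool} (h : a ≠ b) :
    cliffSg (cliffS a) b.1 + cliffSg (cliffS b) a.1 = 0 := by
  rcases a with ⟨i, c⟩
  rcases b with ⟨j, d⟩
  rcases lt_trichotomy i j with hij | rfl | hij
  · have h1 : j ∉ cliffS (i, c) := by cases c <;> simp [cliffS, hij, hij.le]
    have h2 : i ∈ cliffS (j, d) := by cases d <;> simp [cliffS, hij, hij.le]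
    simp [cliffSg, h1, h2]
  · cases c <;> cases d <;> simp_all [cliffSg, cliffS]
  · have h1 : j ∈ cliffS (i, c) := by cases c <;> simp [cliffS, hij, hij.le]
    have h2 : i ∉ cliffS (j, d) := by cases d <;> simp [cliffS, hij, hij.le]
    simp [cliffSg, h1, h2]

lemma cliffG_anti (a b : Fin m × Bool) (v : (Fin m → ℤˣ) → ℝ) :
    cliffG a (cliffG b v) + cliffG b (cliffG a v) = (if a = b then 2 * cliffE a else 0) • v := by
  funext η
  simp only [Pi.add_apply, Pi.smul_apply, smul_eq_mul, cliffG_G]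
  split_ifs with h
  · subst h
    rw [symmDiff_self, Finset.bot_eq_empty, cliff_fl_empty, sp_mul_self, cliff_sg_self]; ring
  · rw [symmDiff_comm (cliffS b)]
    linear_combination (sp (η a.1) * sp (η b.1) * v (fl (cliffS a ∆ cliffS b) η)) * cliff_sg_add h

lemma cliff_ch_fl (I U : Finset (Fin m)) (η : Fin m → ℤˣ) :
    ch I (fl U η) = (∏ i ∈ I, cliffSg U i) * ch I η := by
  simp only [ch, cliff_sp_fl, Finset.prod_mul_distrib]

lemma cliff_prod_mul (t : Fin m → ℝ) (ht : ∀ i, t i * t i = 1) (I J : Finset (Fin m)) :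
    (∏ i ∈ I, t i) * ∏ i ∈ J, t i = ∏ i ∈ I ∆ J, t i := by
  have e : ∀ U : Finset (Fin m), ∏ i ∈ U, t i = ∏ i, if i ∈ U then t i else 1 := fun U => by
    rw [Finset.prod_ite_mem, Finset.univ_inter]
  rw [e I, e J, e (I ∆ J), ← Finset.prod_mul_distrib]
  refine Finset.prod_congr rfl fun i _ => ?_
  by_cases h : i ∈ I <;> by_cases h' : i ∈ J <;> simp [h, h', Finset.mem_symmDiff, ht]

lemma cliffSg_sq (U : Finset (Fin m)) (i : Fin m) : cliffSg U i * cliffSg U i = 1 := by
  unfold cliffSg; split_ifs <;> simp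

lemma cliffG_ch (a : Fin m × Bool) (I : Finset (Fin m)) :
    cliffG a (ch I) = (∏ i ∈ I, cliffSg (cliffS a) i) • ch (I ∆ {a.1}) := by
  funext η
  have e := cliff_prod_mul (fun i => sp (η i)) (fun i => sp_mul_self _) I {a.1}
  rw [Finset.prod_singleton] at e
  rw [cliffG_apply, cliff_ch_fl, Pi.smul_apply, smul_eq_mul, ch, ch, ← e]; ring

lemma cliff_prod_sg (U I : Finset (Fin m)) :
    ∏ i ∈ I, cliffSg U i = (-1) ^ (I.filter (· ∈ U)).card := by
  unfold cliffSg
  rw [Finset.prod_ite, Finset.prod_const_one, mul_one, Finset.prod_const]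

lemma cliff_sum_sg (A : Finset (Fin m)) (i : Fin m) :
    ∑ b : Bool, cliffE (i, b) * ∏ j ∈ A, cliffSg (cliffS (i, b)) j =
      if i ∈ A then 2 * (-1 : ℝ) ^ (A.filter (· < i)).card else 0 := by
  rw [Fintype.sum_bool, cliff_prod_sg, cliff_prod_sg]
  have e0 : A.filter (· ∈ cliffS (i, false)) = A.filter (· < i) := by
    ext j; simp [cliffS]
  rw [e0]
  split_ifs with h
  · have e1 : A.filter (· ∈ cliffS (i, true)) = insert i (A.filter (· < i)) := by
      ext j
      simp only [cliffS, if_true, Finset.mem_filter, Finset.mem_Iic, Finset.mem_insert]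
      constructor
      · rintro ⟨h1, h2⟩
        rcases h2.eq_or_lt with h3 | h3
        · exact Or.inl h3
        · exact Or.inr ⟨h1, h3⟩
      · rintro (rfl | ⟨h1, h2⟩)
        · exact ⟨h, le_rfl⟩
        · exact ⟨h1, h2.le⟩
    rw [e1, Finset.card_insert_of_notMem (by simp)]
    simp only [cliffE, if_true, Bool.false_eq_true, if_false]
    ring
  · have e1 : A.filter (· ∈ cliffS (i, true)) = A.filter (· < i) := by
      ext j
      simp only [cliffS, if_true, Finset.mem_filter, Finset.mem_Iic]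
      constructor
      · rintro ⟨h1, h2⟩
        exact ⟨h1, lt_of_le_of_ne h2 (by rintro rfl; exact h h1)⟩
      · rintro ⟨h1, h2⟩
        exact ⟨h1, h2.le⟩
    rw [e1]
    simp [cliffE]

/-- The basic bilinear form. -/
noncomputable def cliffQ (φ ψ : ((Fin m → ℤˣ) → ℝ) →ₗ[ℝ] ℝ) :
    ((Fin m → ℤˣ) → ℝ) →ₗ[ℝ] ((Fin m → ℤˣ) → ℝ) →ₗ[ℝ] ℝ :=
  ∑ a : Fin m × Bool, cliffE a • (LinearMap.mul ℝ ℝ).compl₁₂ (φ ∘ₗ cliffG a) (ψ ∘ₗ cliffG a)

lemma cliffQ_apply (φ ψ : ((Fin m → ℤˣ) → ℝ) →ₗ[ℝ] ℝ) (u v : (Fin m → ℤˣ) → ℝ) :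
    cliffQ φ ψ u v = ∑ a, cliffE a * (φ (cliffG a u) * ψ (cliffG a v)) := by
  simp [cliffQ, LinearMap.sum_apply]

lemma cliffQ_ch (φ ψ : ((Fin m → ℤˣ) → ℝ) →ₗ[ℝ] ℝ) (I J : Finset (Fin m)) :
    cliffQ φ ψ (ch I) (ch J) =
      2 * alt (I ∆ J) fun a => φ (ch (I ∆ {a})) * ψ (ch (J ∆ {a})) := by
  rw [cliffQ_apply, Fintype.sum_prod_type]
  have e : ∀ i : Fin m, ∑ b : Bool, cliffE (i, b) * (φ (cliffG (i, b) (ch I)) *
      ψ (cliffG (i, b) (ch J))) = if i ∈ I ∆ J then
        2 * ((-1 : ℝ) ^ ((I ∆ J).filter (· < i)).card *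
          (φ (ch (I ∆ {i})) * ψ (ch (J ∆ {i})))) else 0 := by
    intro i
    have e1 : ∀ b : Bool, cliffE (i, b) * (φ (cliffG (i, b) (ch I)) *
        ψ (cliffG (i, b) (ch J))) = (cliffE (i, b) * ∏ j ∈ I ∆ J, cliffSg (cliffS (i, b)) j) *
          (φ (ch (I ∆ {i})) * ψ (ch (J ∆ {i}))) := by
      intro b
      rw [cliffG_ch, cliffG_ch, map_smul, map_smul, smul_eq_mul, smul_eq_mul,
        ← cliff_prod_mul _ (cliffSg_sq _)]
      ring
    simp only [e1]
    rw [← Finset.sum_mul, cliff_sum_sg]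
    split_ifs <;> ring
  simp only [e]
  rw [Finset.sum_ite_mem, Finset.univ_inter, alt, Finset.mul_sum]

lemma cliff_plu {n n' : (Fin m → ℤˣ) → ℝ} (h : Plu n n') {I J : Finset (Fin m)}
    (hIJ : Even (I ∆ J).card) :
    cliffQ (cliffN n) (cliffN n') (ch I) (ch J) +
      cliffQ (cliffN n') (cliffN n) (ch I) (ch J) = 0 := by
  have e := h I J hIJ
  rw [cliffQ_ch, cliffQ_ch, ← mul_add]
  simp only [alt, mul_add, Finset.sum_add_distrib] at e ⊢
  simp only [cliffN_apply]
  simp only [hat] at e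
  linear_combination 2 * e

lemma cliff_ch_neg (I : Finset (Fin m)) (η : Fin m → ℤˣ) :
    ch I (-η) = (-1) ^ I.card * ch I η := by
  simp only [ch, Pi.neg_apply, sp_neg]
  rw [Finset.prod_neg]

lemma cliff_fourier (g : (Fin m → ℤˣ) → ℝ) :
    g = ∑ I : Finset (Fin m), ((2 ^ m : ℝ)⁻¹ * hat g I) • ch I := by
  funext η
  simp only [Finset.sum_apply, Pi.smul_apply, smul_eq_mul, hat, Finset.mul_sum, Finset.sum_mul]
  rw [Finset.sum_comm]
  have e : ∀ η' : Fin m → ℤˣ, ∑ I : Finset (Fin m), (2 ^ m : ℝ)⁻¹ * (g η' * ch I η') * ch I η =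
      if η' = η then g η else 0 := by
    intro η'
    have e1 : ∑ I : Finset (Fin m), ch I η' * ch I η = ∏ i, (1 + sp (η' i) * sp (η i)) := by
      rw [Finset.prod_one_add, Finset.powerset_univ]
      exact Finset.sum_congr rfl fun I _ => by rw [ch, ch, Finset.prod_mul_distrib]
    have e2 : ∑ I : Finset (Fin m), (2 ^ m : ℝ)⁻¹ * (g η' * ch I η') * ch I η =
        (2 ^ m : ℝ)⁻¹ * g η' * ∑ I : Finset (Fin m), ch I η' * ch I η := by
      rw [Finset.mul_sum]; exact Finset.sum_congr rfl fun I _ => by ring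
    rw [e2, e1]
    split_ifs with h
    · subst h
      simp only [sp_mul_self, Finset.prod_const, Finset.card_univ, Fintype.card_fin]
      norm_num
      field_simp
    · obtain ⟨i, hi⟩ := Function.ne_iff.1 h
      rw [Finset.prod_eq_zero (Finset.mem_univ i), mul_zero]
      rcases Int.units_eq_one_or (η' i) with h1 | h1 <;>
        rcases Int.units_eq_one_or (η i) with h2 | h2 <;> simp_all [sp]
  simp only [e]
  simp

lemma cliff_lin (L : ((Fin m → ℤˣ) → ℝ) →ₗ[ℝ] ℝ) (s : ℝ) (g : (Fin m → ℤˣ) → ℝ)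
    (hg : ∀ η, g (-η) = s * g η) (hL : ∀ I : Finset (Fin m), (-1) ^ I.card = s → L (ch I) = 0) :
    L g = 0 := by
  rw [cliff_fourier g, map_sum]
  refine Finset.sum_eq_zero fun I _ => ?_
  rw [map_smul, smul_eq_mul]
  by_cases h : (-1 : ℝ) ^ I.card = s
  · rw [hL I h, mul_zero]
  · have e1 : hat g I = s * (-1) ^ I.card * hat g I := by
      conv_lhs => rw [hat, ← Equiv.sum_comp (Equiv.neg _)]
      simp only [Equiv.neg_apply, hg, cliff_ch_neg, hat, Finset.mul_sum]
      exact Finset.sum_congr rfl fun η _ => by ring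
    have e2 : ((-1 : ℝ) ^ I.card) * (-1) ^ I.card = 1 := by
      rw [← mul_pow]; simp
    have e3 : ((-1 : ℝ) ^ I.card - s) * hat g I = 0 := by
      linear_combination (-1 : ℝ) ^ I.card * e1 + s * hat g I * e2
    rw [(mul_eq_zero.1 e3).resolve_left (sub_ne_zero.2 h)]; simp

lemma cliff_lin0 (L : ((Fin m → ℤˣ) → ℝ) →ₗ[ℝ] ℝ) (g : (Fin m → ℤˣ) → ℝ)
    (hL : ∀ I : Finset (Fin m), L (ch I) = 0) : L g = 0 := by
  rw [cliff_fourier g, map_sum]
  exact Finset.sum_eq_zero fun I _ => by rw [map_smul, hL, smul_zero]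

lemma cliff_even_iff (I J : Finset (Fin m)) :
    (-1 : ℝ) ^ I.card * (-1) ^ J.card = (-1) ^ (I ∆ J).card := by
  simpa using cliff_prod_mul (fun _ => (-1 : ℝ)) (fun _ => by simp) I J

lemma cliffG_par (a : Fin m × Bool) {s : ℝ} {g : (Fin m → ℤˣ) → ℝ}
    (hg : ∀ η, g (-η) = s * g η) (η : Fin m → ℤˣ) : cliffG a g (-η) = -s * cliffG a g η := by
  rw [cliffG_apply, cliffG_apply, cliff_fl_neg, hg, Pi.neg_apply, sp_neg]; ring

lemma cliff_wd_par {z : (Fin m → ℤˣ) → ℝ} (hz : ∀ η, z (-η) = z η) (l : List (Fin m × Bool))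
    (η : Fin m → ℤˣ) : wd cliffG l z (-η) = (-1) ^ l.length * wd cliffG l z η := by
  induction l generalizing η with
  | nil => simp [wd, hz]
  | cons a l ih =>
    have e := cliffG_par a ih η
    simp only [wd, List.foldr_cons, List.length_cons] at e ⊢
    rw [e]; ring

lemma cliff_plu_odd {n n' : (Fin m → ℤˣ) → ℝ} (h : Plu n n') {u v : (Fin m → ℤˣ) → ℝ}
    (hu : ∀ η, u (-η) = -1 * u η) (hv : ∀ η, v (-η) = -1 * v η) :
    cliffQ (cliffN n) (cliffN n') u v + cliffQ (cliffN n') (cliffN n) u v = 0 := by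
  refine cliff_lin ((cliffQ (cliffN n) (cliffN n') + cliffQ (cliffN n') (cliffN n)).flip v)
    (-1) u hu fun I hI => ?_
  refine cliff_lin ((cliffQ (cliffN n) (cliffN n') + cliffQ (cliffN n') (cliffN n)) (ch I))
    (-1) v hv fun J hJ => ?_
  refine cliff_plu h ?_
  have e := cliff_even_iff I J
  rw [hI, hJ] at e
  exact (neg_one_pow_eq_one_iff_even (R := ℝ) (by norm_num)).1 (by linarith)

lemma cliffN_odd {z g : (Fin m → ℤˣ) → ℝ} (hz : ∀ η, z (-η) = z η)
    (hg : ∀ η, g (-η) = -1 * g η) : cliffN z g = 0 := by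
  have e : cliffN z g = -cliffN z g := by
    conv_lhs => rw [cliffN_apply, ← Equiv.sum_comp (Equiv.neg _)]
    simp only [Equiv.neg_apply, hz, hg, cliffN_apply, ← Finset.sum_neg_distrib]
    exact Finset.sum_congr rfl fun η _ => by ring
  linarith

lemma cliffQ_self {z : (Fin m → ℤˣ) → ℝ} (h3 : Plu z z) (hz : ∀ η, z (-η) = z η)
    (u v : (Fin m → ℤˣ) → ℝ) : cliffQ (cliffN z) (cliffN z) u v = 0 := by
  refine cliff_lin0 ((cliffQ (cliffN z) (cliffN z)).flip v) u fun I => ?_
  refine cliff_lin0 (cliffQ (cliffN z) (cliffN z) (ch I)) v fun J => ?_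
  have hev : ∀ U : Finset (Fin m), Even U.card → ∀ a, cliffN z (cliffG a (ch U)) = 0 :=
    fun U hU a => cliffN_odd hz fun η => by
      have e := cliffG_par a (cliff_ch_neg U) η
      rwa [hU.neg_one_pow] at e
  rcases Nat.even_or_odd I.card with hI | hI
  · rw [cliffQ_apply]; simp [hev I hI]
  rcases Nat.even_or_odd J.card with hJ | hJ
  · rw [cliffQ_apply]; simp [hev J hJ]
  have e := cliff_even_iff I J
  rw [hI.neg_one_pow, hJ.neg_one_pow] at e
  have := cliff_plu h3 ((neg_one_pow_eq_one_iff_even (R := ℝ) (by norm_num)).1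
    (show (-1 : ℝ) ^ (I ∆ J).card = 1 by linarith))
  linarith

lemma cliffN_G (u z : (Fin m → ℤˣ) → ℝ) (a : Fin m × Bool) :
    cliffN u (cliffG a z) = cliffE a * cliffN z (cliffG a u) := by
  rw [cliffN_apply, cliffN_apply, Finset.mul_sum,
    ← Equiv.sum_comp (Function.Involutive.toPerm _ (cliff_fl_self (cliffS a)))]
  refine Finset.sum_congr rfl fun η _ => ?_
  simp only [Function.Involutive.coe_toPerm, cliffG_apply, cliff_fl_self, cliff_sp_fl,
    cliff_sg_self]
  ring

lemma cliff_hZ {z : (Fin m → ℤˣ) → ℝ} (h3 : Plu z z) (hz : ∀ η, z (-η) = z η)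
    (φ : ((Fin m → ℤˣ) → ℝ) →ₗ[ℝ] ℝ) :
    ∑ a, (cliffE a * φ (cliffG a z)) • cliffG a z = 0 := by
  funext η
  have e1 : ∀ f, φ f = cliffN (fun η' => φ fun j => if η' = j then 1 else 0) f := fun f => by
    rw [LinearMap.pi_apply_eq_sum_univ φ f, cliffN_apply]
    exact Finset.sum_congr rfl fun η' _ => by rw [smul_eq_mul, mul_comm]
  have e2 : ∀ f : (Fin m → ℤˣ) → ℝ, f η = cliffN (fun η' => if η' = η then 1 else 0) f :=
    fun f => by simp [cliffN_apply]
  have e3 := cliffQ_self h3 hz (fun η' => φ fun j => if η' = j then 1 else 0)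
    (fun η' => if η' = η then 1 else 0)
  rw [cliffQ_apply] at e3
  rw [Finset.sum_apply, Pi.zero_apply, ← e3]
  refine Finset.sum_congr rfl fun a _ => ?_
  rw [Pi.smul_apply, smul_eq_mul, e1 (cliffG a z), e2 (cliffG a z), cliffN_G, cliffN_G _ z a]
  linear_combination (cliffE a * cliffN z (cliffG a fun η' => φ fun j => if η' = j then 1 else 0) *
    cliffN z (cliffG a fun η' => if η' = η then 1 else 0)) * cliffE_sq a

/-- All words of the parity of `p` applied to `f` are killed by `D`. -/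
def cliffK (D : ((Fin m → ℤˣ) → ℝ) →ₗ[ℝ] ℝ) (p : ℕ) (f : (Fin m → ℤˣ) → ℝ) : Prop :=
  ∀ l : List (Fin m × Bool), Even (l.length + p) → D (wd cliffG l f) = 0

lemma cliffK_G {D : ((Fin m → ℤˣ) → ℝ) →ₗ[ℝ] ℝ} {p : ℕ} {f : (Fin m → ℤˣ) → ℝ}
    (h : cliffK D p f) (a : Fin m × Bool) : cliffK D (p + 1) (cliffG a f) := by
  intro l hl
  have e := h (l ++ [a]) (by
    rw [List.length_append, List.length_singleton, add_assoc, add_comm 1]; exact hl)
  simpa [wd] using e

lemma cliffK_fl {D : ((Fin m → ℤˣ) → ℝ) →ₗ[ℝ] ℝ} {p : ℕ} (U : Finset (Fin m)) :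
    ∀ {f : (Fin m → ℤˣ) → ℝ}, cliffK D p f → cliffK D p fun η => f (fl U η) := by
  induction U using Finset.induction_on with
  | empty => intro f h; simpa only [cliff_fl_empty] using h
  | insert i U hi ih =>
    intro f h
    have e1 := cliffK_G (cliffK_G (ih h) (i, true)) (i, false)
    have e2 : cliffG (i, false) (cliffG (i, true) fun η => f (fl U η)) =
        fun η => f (fl (insert i U) η) := by
      funext η
      rw [cliffG_G, sp_mul_self, cliff_fl_fl]
      have e3 : U ∆ (cliffS (i, false) ∆ cliffS (i, true)) = insert i U := by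
        ext j
        rcases lt_trichotomy j i with hj | rfl | hj
        · simp [cliffS, Finset.mem_symmDiff, hj, hj.le, hj.ne]
        · simp [cliffS, Finset.mem_symmDiff, hi]
        · simp [cliffS, Finset.mem_symmDiff, hj.ne', not_lt.2 hj.le, not_le.2 hj]
      rw [e3]
      simp [cliffSg, cliffS]
    rw [e2] at e1
    intro l hl
    exact e1 l (by rw [← add_assoc, ← add_assoc, add_assoc _ 1 1]; exact hl.add (by decide))

lemma cliffK_ch {D : ((Fin m → ℤˣ) → ℝ) →ₗ[ℝ] ℝ} {f : (Fin m → ℤˣ) → ℝ} (h : cliffK D 0 f)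
    (I : Finset (Fin m)) : cliffK D I.card fun η => ch I η * f η := by
  induction I using Finset.induction_on with
  | empty => simpa [ch] using h
  | insert i I hi ih =>
    have e1 := cliffK_G (cliffK_fl (Finset.Iio i) ih) (i, false)
    have e2 : (cliffG (i, false) fun η => ch I (fl (Finset.Iio i) η) * f (fl (Finset.Iio i) η)) =
        fun η => ch (insert i I) η * f η := by
      funext η
      rw [cliffG_apply]
      simp only [cliffS, Bool.false_eq_true, if_false, cliff_fl_self, ch, Finset.prod_insert hi]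
      ring
    rw [e2] at e1
    rwa [Finset.card_insert_of_notMem hi]

end cliffAux

theorem cliff_fin {m : ℕ} (n n' z : (Fin m → ℤˣ) → ℝ) (h1 : Plu n n) (h2 : Plu n n')
    (h3 : Plu z z) (hz : ∀ η, z (-η) = z η) (hpos : ∀ η, 0 < z η) (hn : ∑ η, n η * z η ≠ 0)
    (h0 : ∑ η, (n η - n' η) * z η = 0)
    (hb : ∀ (i j : Fin m) (I J : Finset (Fin m)), (I = Finset.Iio i ∨ I = Finset.Iic i) →
      (J = Finset.Iio j ∨ J = Finset.Iic j) →
      ∑ η, (n η - n' η) * (sp (η i) * sp (η j) * z (fl (I ∆ J) η)) = 0)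
    (f : (Fin m → ℤˣ) → ℝ) (hf : ∀ η, f (-η) = f η) : ∑ η, (n η - n' η) * f η = 0 := by
  have hS : ∀ a : Fin m × Bool, cliffS a = Finset.Iio a.1 ∨ cliffS a = Finset.Iic a.1 := by
    rintro ⟨i, _ | _⟩ <;> simp [cliffS]
  have hD : ∀ g, cliffN (fun η => n η - n' η) g = cliffN n g - cliffN n' g := fun g => by
    simp only [cliffN_apply, sub_mul, Finset.sum_sub_distrib]
  have hK : cliffK (cliffN fun η => n η - n' η) 0 z := by
    intro l hl
    refine cliff_abs cliffG cliffE cliffE_sq cliffG_anti (cliffN n) _ z hn h0 (fun a b => ?_)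
      (cliff_hZ h3 hz) (fun l hl b => ?_) l hl
    · have e := hb a.1 b.1 _ _ (hS a) (hS b)
      simp only [cliffN_apply, cliffG_G]
      rw [← mul_zero (cliffSg (cliffS a) b.1), ← e, Finset.mul_sum]
      exact Finset.sum_congr rfl fun η _ => by ring
    · have hu : ∀ η, wd cliffG l z (-η) = -1 * wd cliffG l z η := fun η => by
        rw [cliff_wd_par hz, hl.neg_one_pow]
      have hv : ∀ η, cliffG b z (-η) = -1 * cliffG b z η :=
        cliffG_par b (s := 1) fun η => by rw [hz, one_mul]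
      have e1 := cliff_plu_odd h1 hu hv
      have e2 := cliff_plu_odd h2 hu hv
      simp only [cliffQ_apply, ← Finset.sum_add_distrib] at e1 e2
      have e3 := congrArg₂ (· - ·) e1 e2
      simp only [← Finset.sum_sub_distrib, sub_self] at e3
      rw [← e3]
      exact Finset.sum_congr rfl fun a _ => by simp only [hD]; ring
  have e := cliff_lin (cliffN fun η => (n η - n' η) * z η) 1 (fun η => f η / z η)
    (fun η => by rw [hf, hz, one_mul]) fun I hI => by
      have e1 := cliffK_ch hK I [] (by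
        simpa using (neg_one_pow_eq_one_iff_even (R := ℝ) (by norm_num)).1 hI)
      rw [← e1]
      exact Finset.sum_congr rfl fun η _ => by simp only [wd, List.foldr_nil]; ring
  rw [← e]
  exact Finset.sum_congr rfl fun η _ => by
    have := (hpos η).ne'
    field_simp

end Pool.Agent.MP_c70b3b_mp
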