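import Pool.Agent.MP_c70b3b_mp.Basic

open MeasureTheory ProbabilityTheory Filter Topology
open scoped symmDiff ENNReal

namespace Pool.Agent.MP_c70b3b_mp

def wd {M ι : Type} [AddCommGroup M] [Module ℝ M] (γ : ι → M →ₗ[ℝ] M) (l : List ι) (Z : M) : M :=
  l.foldr (fun a v => γ a v) Z

theorem cliffAbs_low {M ι : Type} [AddCommGroup M] [Module ℝ M] (γ : ι → M →ₗ[ℝ] M)
    (T : M →ₗ[ℝ] M) (s : ι → ℝ) (Z : M) (h0 : T Z = 0)
    (h1 : ∀ b v, T (γ b v) = s b • v - γ b (T v)) (l : List ι) :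
    ∀ φ : M →ₗ[ℝ] ℝ, (∀ l' : List ι, l'.length + 1 = l.length → φ (wd γ l' Z) = 0) →
      φ (T (wd γ l Z)) = 0 := by
  induction l with
  | nil =>
    intro φ _
    have e : wd γ [] Z = Z := rfl
    rw [e, h0, map_zero]
  | cons b l ih =>
    intro φ hφ
    have e : wd γ (b :: l) Z = γ b (wd γ l Z) := rfl
    have h2 := ih (φ ∘ₗ γ b) fun l' hl' => hφ (b :: l') (by simp only [List.length_cons]; omega)
    rw [LinearMap.comp_apply] at h2
    rw [e, h1, map_sub, map_smul, hφ l rfl, h2]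
    simp

theorem cliff_abs {M ι : Type} [AddCommGroup M] [Module ℝ M] [Fintype ι] [DecidableEq ι]
    (γ : ι → M →ₗ[ℝ] M) (ε : ι → ℝ) (hε : ∀ a, ε a * ε a = 1)
    (hγ : ∀ a b v, γ a (γ b v) + γ b (γ a v) = (if a = b then 2 * ε a else 0) • v)
    (N D : M →ₗ[ℝ] ℝ) (Z : M) (hN : N Z ≠ 0) (hD : D Z = 0) (hD2 : ∀ a b, D (γ a (γ b Z)) = 0)
    (hZ : ∀ φ : M →ₗ[ℝ] ℝ, ∑ a, (ε a * φ (γ a Z)) • γ a Z = 0)
    (hQ : ∀ l : List ι, Odd l.length → ∀ b, ∑ a, ε a * (N (γ a (wd γ l Z)) * D (γ a (γ b Z)) +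
      D (γ a (wd γ l Z)) * N (γ a (γ b Z))) = 0)
    (l : List ι) (hl : Even l.length) : D (wd γ l Z) = 0 := by
  have key : ∀ (n : ι → ℝ) (b : ι) (v : M),
      ∑ a, (ε a * n a) • (γ a (γ b v) + γ b (γ a v)) = (2 * n b) • v := by
    intro n b v
    rw [Finset.sum_eq_single b]
    · rw [hγ, if_pos rfl, smul_smul]
      congr 1
      linear_combination 2 * n b * hε b
    · intro a _ hab
      rw [hγ, if_neg hab, zero_smul, smul_zero]
    · simp
  obtain ⟨n, hn⟩ := hl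
  induction n generalizing l with
  | zero =>
    obtain rfl : l = [] := List.length_eq_zero_iff.1 hn
    exact hD
  | succ n ih =>
    obtain _ | ⟨c, l⟩ := l
    · exact hD
    have hl : l.length = n + n + 1 := by
      simp only [List.length_cons] at hn
      omega
    obtain ⟨T, hT⟩ : ∃ T : M →ₗ[ℝ] M, ∀ v, T v = ∑ a, (ε a * N (γ c (γ a Z))) • γ a v :=
      ⟨∑ a, (ε a * N (γ c (γ a Z))) • γ a, fun v => by simp [LinearMap.sum_apply]⟩
    have h0 : T Z = 0 := by
      rw [hT]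
      exact hZ (N ∘ₗ γ c)
    have h1 : ∀ b v, T (γ b v) = (2 * N (γ c (γ b Z))) • v - γ b (T v) := by
      intro b v
      rw [← key (fun a => N (γ c (γ a Z))) b v, hT, hT, map_sum, ← Finset.sum_sub_distrib]
      refine Finset.sum_congr rfl fun a _ => ?_
      rw [map_smul, smul_add, add_sub_cancel_right]
    have h2 := cliffAbs_low γ T _ Z h0 h1 l D fun l' hl' => ih l' (by omega)
    have h3 := hQ l ⟨n, by omega⟩ c
    simp only [hD2, mul_zero, zero_add] at h3
    rw [hT, map_sum] at h2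
    have h4 : ∑ a, ε a * (D (γ a (wd γ l Z)) * N (γ a (γ c Z) + γ c (γ a Z))) = 0 := by
      rw [← add_zero (0 : ℝ)]
      nth_rewrite 1 [← h3]
      rw [← h2, ← Finset.sum_add_distrib]
      refine Finset.sum_congr rfl fun a _ => ?_
      rw [map_add, map_smul, smul_eq_mul]
      ring
    rw [Finset.sum_eq_single c] at h4
    · rw [hγ, if_pos rfl, map_smul, smul_eq_mul] at h4
      have h5 : D (γ c (wd γ l Z)) * N Z = 0 := by
        linear_combination (1 / 2) * h4 - D (γ c (wd γ l Z)) * N Z * hε c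
      exact (mul_eq_zero.1 h5).resolve_right hN
    · intro a _ hac
      rw [hγ, if_neg hac, zero_smul, map_zero, mul_zero, mul_zero]
    · simp

end Pool.Agent.MP_c70b3b_mp
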