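import Pool.Agent.MP_c70b3b_mp.Basic

open MeasureTheory ProbabilityTheory Filter Topology
open scoped symmDiff ENNReal

set_option linter.unusedVariables false

namespace Pool.Agent.MP_c70b3b_mp

lemma mem_box {N : ℕ} {x : V} :
    x ∈ box N ↔ -(N : ℤ) ≤ x.1 ∧ x.1 < N ∧ -(N : ℤ) ≤ x.2 ∧ x.2 < N := by
  simp [box, and_assoc]

lemma bv_not_mem {N k : ℕ} (hk : k < 8 * N) : bv N k ∉ box N := by
  rw [mem_box]; unfold bv; split_ifs <;> simp

lemma bv_inj {N k l : ℕ} (hk : k < 8 * N) (hl : l < 8 * N) (h : bv N k = bv N l) : k = l := by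
  unfold bv at h; split_ifs at h <;> simp only [Prod.mk.injEq] at h <;> omega

lemma port_inj {N k l : ℕ} (hk : k < 8 * N) (hl : l < 8 * N) (h : port N k = port N l) :
    k = l := by
  unfold port at h
  split_ifs at h <;> simp only [Prod.mk.injEq, Bool.true_eq_false, Bool.false_eq_true, and_false,
    and_true] at h <;> omega

lemma port_ends {N k : ℕ} (hk : k < 8 * N) : ∃ u ∈ box N, Ends (port N k) (bv N k) u := by
  unfold port bv Ends
  split_ifs
  · exact ⟨((k : ℤ) - N, -(N : ℤ)), by rw [mem_box]; simp; omega, Or.inl ⟨rfl, by simp [tip]⟩⟩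
  · exact ⟨((N : ℤ) - 1, (k : ℤ) - 3 * N), by rw [mem_box]; simp; omega,
      Or.inr ⟨rfl, by simp [tip]⟩⟩
  · exact ⟨(5 * (N : ℤ) - 1 - k, (N : ℤ) - 1), by rw [mem_box]; simp; omega,
      Or.inr ⟨rfl, by simp [tip]⟩⟩
  · exact ⟨(-(N : ℤ), 7 * (N : ℤ) - 1 - k), by rw [mem_box]; simp; omega,
      Or.inl ⟨rfl, by simp [tip]⟩⟩

lemma port_mem_cob {N k : ℕ} (hk : k < 8 * N) : port N k ∈ cob (box N) := by
  obtain ⟨u, hu, h | h⟩ := port_ends hk <;> rw [mem_cob, h.1, h.2] <;>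
    have := bv_not_mem hk <;> tauto

lemma exists_port {N : ℕ} {e : E} (he : e ∈ cob (box N)) : ∃ k < 8 * N, e = port N k := by
  rcases e with ⟨⟨a, b⟩, c⟩
  rw [mem_cob, mem_box, mem_box] at he
  cases c
  · simp only [tip, Bool.false_eq_true, if_false, Prod.fst_add, Prod.snd_add] at he
    by_cases h : a = N - 1
    · refine ⟨(b + 3 * N).toNat, by omega, ?_⟩
      unfold port; split_ifs <;> simp only [Prod.mk.injEq, and_true] <;> omega
    · refine ⟨(7 * N - 1 - b).toNat, by omega, ?_⟩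
      unfold port; split_ifs <;> simp only [Prod.mk.injEq, and_true] <;> omega
  · simp only [tip, if_true, Prod.fst_add, Prod.snd_add] at he
    by_cases h : b = N - 1
    · refine ⟨(5 * N - 1 - a).toNat, by omega, ?_⟩
      unfold port; split_ifs <;> simp only [Prod.mk.injEq, and_true] <;> omega
    · refine ⟨(a + N).toNat, by omega, ?_⟩
      unfold port; split_ifs <;> simp only [Prod.mk.injEq, and_true] <;> omega

lemma port_faces {N k : ℕ} (hk : k < 8 * N) :
    (fA (port N k) = rf N k ∧ fB (port N k) = rf N (k + 1)) ∨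
    (fB (port N k) = rf N k ∧ fA (port N k) = rf N (k + 1)) := by
  unfold port rf fA fB
  split_ifs <;> simp_all [Prod.ext_iff] <;> omega

lemma fbd_port {N k : ℕ} (hk : k < 8 * N) (p : V) :
    fbd {port N k} p = dl (rf N k) p + dl (rf N (k + 1)) p := by
  rw [fbd_singleton]
  rcases port_faces hk with ⟨h1, h2⟩ | ⟨h1, h2⟩ <;> rw [h1, h2]
  exact add_comm _ _

lemma corner_rf {N k : ℕ} (hk : k < 8 * N) :
    Corner (bv N k) (rf N k) ∧ Corner (bv N k) (rf N (k + 1)) := by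
  unfold Corner bv rf
  split_ifs <;> simp [Prod.ext_iff] <;> omega

lemma card_cob_box (N : ℕ) : (cob (box N)).card ≤ 8 * N := by
  have : cob (box N) ⊆ (Finset.range (8 * N)).image (port N) := fun e he => by
    obtain ⟨k, hk, rfl⟩ := exists_port he
    exact Finset.mem_image_of_mem _ (Finset.mem_range.2 hk)
  exact (Finset.card_le_card this).trans (Finset.card_image_le.trans (by simp))

lemma exists_box (A : Finset V) : ∃ N : ℕ, 0 < N ∧ A ⊆ box N := by
  refine ⟨A.sup (fun x => x.1.natAbs + x.2.natAbs) + 1, by omega, fun x hx => ?_⟩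
  have := Finset.le_sup (f := fun x : V => x.1.natAbs + x.2.natAbs) hx
  rw [mem_box]; omega

/-- `n²` disjoint translates of `A` by vectors of `k ℤ²` inside a box of size `c n`. -/
lemma exists_grid {k : ℤ} (hk : 0 < k) (A : Finset V) :
    ∃ c : ℕ, ∀ n : ℕ, 0 < n → ∃ z : Fin n × Fin n → V,
      (∀ i j, i ≠ j → ∀ x ∈ A, ∀ y ∈ A, x + k • z i ≠ y + k • z j) ∧
      ∀ i, ∀ x ∈ A, x + k • z i ∈ box (c * n) := by
  obtain ⟨r, -, hr⟩ := exists_box A
  obtain ⟨k, rfl⟩ := Int.eq_ofNat_of_zero_le hk.le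
  have hk1 : (1 : ℤ) ≤ k := by omega
  refine ⟨k * (2 * r) + r, fun n hn => ⟨fun i => (2 * r * (i.1 : ℤ), 2 * r * (i.2 : ℤ)), ?_, ?_⟩⟩
  · have key : ∀ (a b : ℤ) (u v : ℕ), -(r : ℤ) ≤ a → a < r → -(r : ℤ) ≤ b → b < r →
        a + k * (2 * r * (u : ℤ)) = b + k * (2 * r * (v : ℤ)) → u = v := by
      intro a b u v h1 h2 h3 h4 h
      by_contra hne
      have hr0 : (0 : ℤ) ≤ r := by omega
      have hk' : (2 * r : ℤ) ≤ k * (2 * r) := by nlinarith
      rcases Nat.lt_or_gt_of_ne hne with hl | hl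
      · have : (u : ℤ) + 1 ≤ v := by omega
        nlinarith
      · have : (v : ℤ) + 1 ≤ u := by omega
        nlinarith
    intro i j hij x hx y hy h
    have hx := mem_box.1 (hr hx); have hy := mem_box.1 (hr hy)
    simp only [Prod.ext_iff, Prod.fst_add, Prod.snd_add, Prod.smul_fst, Prod.smul_snd,
      smul_eq_mul] at h
    exact hij (Prod.ext (Fin.ext (key _ _ _ _ hx.1 hx.2.1 hy.1 hy.2.1 h.1))
      (Fin.ext (key _ _ _ _ hx.2.2.1 hx.2.2.2 hy.2.2.1 hy.2.2.2 h.2)))
  · have key : ∀ (a : ℤ) (u : ℕ), -(r : ℤ) ≤ a → a < r → u < n →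
        -(((k * (2 * r) + r) * n : ℕ) : ℤ) ≤ a + k * (2 * r * (u : ℤ)) ∧
        a + k * (2 * r * (u : ℤ)) < (((k * (2 * r) + r) * n : ℕ) : ℤ) := by
      intro a u h1 h2 hu
      have hu' : (u : ℤ) + 1 ≤ n := by omega
      have h0 : (0 : ℤ) ≤ k * (2 * r) := by positivity
      have h3 : (0 : ℤ) ≤ u := by positivity
      have h4 : (0 : ℤ) ≤ r := by positivity
      push_cast
      constructor <;> nlinarith
    intro i x hx
    have hx := mem_box.1 (hr hx)
    rw [mem_box]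
    simp only [Prod.fst_add, Prod.snd_add, Prod.smul_fst, Prod.smul_snd, smul_eq_mul]
    have a := key _ _ hx.1 hx.2.1 i.1.2
    have b := key _ _ hx.2.2.1 hx.2.2.2 i.2.2
    exact ⟨a.1, a.2, b.1, b.2⟩

end Pool.Agent.MP_c70b3b_mp
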