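import Pool.Agent.MP_c70b3b_mp.Gib
import Pool.Agent.MP_c70b3b_mp.Ring

open MeasureTheory ProbabilityTheory Filter Topology
open scoped symmDiff ENNReal

namespace Pool.Agent.MP_c70b3b_mp

lemma clu_dens (K : W) (U : Finset V) :
    Measurable fun σ : S => ENNReal.ofReal (Real.exp (-2 * en K (cob U) σ)) :=
  ((measurable_en K (cob U)).const_mul _).exp.ennreal_ofReal

lemma clu_flip {K : W} {ρ ρ' : Measure S} (h : Gibbs K ρ) (h' : Gibbs K ρ') (U : Finset V)
    {g : S × S → ℝ} (hg : Measurable g) :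
    ∫ p, g (flp U p.1, flp U p.2) ∂ρ.prod ρ' =
      ∫ p, g p * Real.exp (-2 * (en K (cob U) p.1 + en K (cob U) p.2)) ∂ρ.prod ρ' := by
  have := h.1
  have := h'.1
  have hm : Measurable (Prod.map (flp U) (flp U) : S × S → S × S) :=
    (measurable_flp U).prodMap (measurable_flp U)
  have e1 : ∫ p, g (flp U p.1, flp U p.2) ∂ρ.prod ρ' =
      ∫ p, g p ∂(ρ.prod ρ').map (Prod.map (flp U) (flp U)) := by
    rw [integral_map hm.aemeasurable hg.aestronglyMeasurable]; rfl
  have hd : Measurable fun z : S × S => ENNReal.ofReal (Real.exp (-2 * en K (cob U) z.1)) *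
      ENNReal.ofReal (Real.exp (-2 * en K (cob U) z.2)) :=
    ((clu_dens K U).comp measurable_fst).mul ((clu_dens K U).comp measurable_snd)
  rw [e1, ← Measure.map_prod_map _ _ (measurable_flp U) (measurable_flp U), h.map_flp, h'.map_flp,
    prod_withDensity (clu_dens K U) (clu_dens K U),
    integral_withDensity_eq_integral_toReal_smul hd
      (Eventually.of_forall fun z => ENNReal.mul_lt_top ENNReal.ofReal_lt_top
        ENNReal.ofReal_lt_top)]
  refine integral_congr_ae (Eventually.of_forall fun p => ?_)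
  simp only [ENNReal.toReal_mul, ENNReal.toReal_ofReal (Real.exp_pos _).le, smul_eq_mul]
  rw [← Real.exp_add, mul_comm]
  congr 2; ring

lemma clu_en (G : Set E) {K : W} (hK : ∀ e, e ∉ G → K e = 0) {σ σ' : S} {U : Finset V}
    (hc : Closed G (σ * σ') U) : en K (cob U) σ + en K (cob U) σ' = 0 := by
  unfold en
  rw [← Finset.sum_add_distrib]
  refine Finset.sum_eq_zero fun e he => ?_
  by_cases hG : e ∈ G
  · have h1 := hc e he hG
    rw [bond_mul] at h1
    rcases bond_cases σ e with h2 | h2 <;> rcases bond_cases σ' e with h3 | h3 <;>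
      rw [h2, h3] at h1 ⊢ <;> first | ring1 | (exfalso; linarith)
  · rw [hK e hG]; ring

lemma clu_one (G : Set E) {K : W} (hK : ∀ e, e ∉ G → K e = 0) {ρ ρ' : Measure S}
    (h : Gibbs K ρ) (h' : Gibbs K ρ') (A U : Finset V) {X : S → ℝ} (hX : Measurable X)
    (hU : ∀ τ, X τ ≠ 0 → Closed G τ U ∧ Odd (A ∩ U).card) :
    ∫ p, chr A p.1 * X (p.1 * p.2) ∂ρ.prod ρ' = 0 := by
  by_cases ho : Odd (A ∩ U).card
  · have hg : Measurable fun p : S × S => chr A p.1 * X (p.1 * p.2) :=
      ((measurable_chr A).comp measurable_fst).mul (hX.comp measurable_mul2)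
    have e := clu_flip h h' U hg
    simp only [chr_flp, flp_mul_flp, ho.neg_one_pow] at e
    have e2 : ∀ p : S × S, chr A p.1 * X (p.1 * p.2) *
        Real.exp (-2 * (en K (cob U) p.1 + en K (cob U) p.2)) = chr A p.1 * X (p.1 * p.2) := by
      intro p
      by_cases h0 : X (p.1 * p.2) = 0
      · simp [h0]
      · rw [clu_en G hK (hU _ h0).1]; simp
    simp only [e2] at e
    simp only [neg_mul, one_mul, integral_neg] at e
    linarith
  · have : ∀ τ, X τ = 0 := fun τ => by
      by_contra h0; exact ho (hU τ h0).2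
    simp [this]

lemma clu_meas (G : Set E) (A U : Finset V) :
    MeasurableSet {τ : S | Closed G τ U ∧ Odd (A ∩ U).card} := by
  have h1 : MeasurableSet {τ : S | Closed G τ U} := by
    have : {τ : S | Closed G τ U} = ⋂ e ∈ cob U, {τ : S | e ∈ G → bond τ e = -1} := by
      ext τ; simp [Closed]
    rw [this]
    refine Finset.measurableSet_biInter _ fun e _ => ?_
    by_cases hG : e ∈ G
    · simp only [hG, true_implies]
      exact measurable_bond e (measurableSet_singleton _)
    · simp [hG]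
  by_cases ho : Odd (A ∩ U).card
  · simpa [ho] using h1
  · simp [ho]

theorem cluster_zero (G : Set E) {K : W} (hK : ∀ e, e ∉ G → K e = 0) {ρ ρ' : Measure S}
    (h : Gibbs K ρ) (h' : Gibbs K ρ') (A : Finset V) {X : S → ℝ} (hX : Measurable X) (C : ℝ)
    (hb : ∀ τ, |X τ| ≤ C)
    (hae : ∀ᵐ p ∂ρ.prod ρ', X (p.1 * p.2) ≠ 0 →
      ∃ U : Finset V, Closed G (p.1 * p.2) U ∧ Odd (A ∩ U).card) :
    ∫ p, chr A p.1 * X (p.1 * p.2) ∂ρ.prod ρ' = 0 := by
  have := h.1
  have := h'.1
  obtain ⟨u, hu⟩ := exists_surjective_nat (Finset V)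
  let D : ℕ → Set S := fun n => {τ : S | Closed G τ (u n) ∧ Odd (A ∩ u n).card}
  have hD : ∀ n, MeasurableSet (D n) := fun n => clu_meas G A (u n)
  have hD' : ∀ n, MeasurableSet (disjointed D n) := fun n => MeasurableSet.disjointed hD n
  let T : ℕ → Set (S × S) := fun n => (fun p : S × S => p.1 * p.2) ⁻¹' disjointed D n
  have hT : ∀ n, MeasurableSet (T n) := fun n => measurable_mul2 (hD' n)
  have hg : Measurable fun p : S × S => chr A p.1 * X (p.1 * p.2) :=
    ((measurable_chr A).comp measurable_fst).mul (hX.comp measurable_mul2)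
  have hi : Integrable (fun p : S × S => chr A p.1 * X (p.1 * p.2)) (ρ.prod ρ') :=
    integrable_of_bdd hg C fun p => by rw [abs_mul, abs_chr, one_mul]; exact hb _
  have hdis : Pairwise (Function.onFun Disjoint T) := fun i j hij =>
    Disjoint.preimage _ (disjoint_disjointed D hij)
  have e1 : ∫ p, chr A p.1 * X (p.1 * p.2) ∂ρ.prod ρ' =
      ∫ p in ⋃ n, T n, chr A p.1 * X (p.1 * p.2) ∂ρ.prod ρ' := by
    symm
    refine setIntegral_eq_integral_of_ae_compl_eq_zero ?_
    filter_upwards [hae] with p hp hn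
    by_cases h0 : X (p.1 * p.2) = 0
    · simp [h0]
    · exfalso
      obtain ⟨U, hU⟩ := hp h0
      obtain ⟨n, rfl⟩ := hu U
      apply hn
      have : p.1 * p.2 ∈ ⋃ n, disjointed D n := by
        rw [iUnion_disjointed]; exact Set.mem_iUnion.2 ⟨n, hU⟩
      obtain ⟨m, hm⟩ := Set.mem_iUnion.1 this
      exact Set.mem_iUnion.2 ⟨m, hm⟩
  rw [e1, integral_iUnion hT hdis hi.integrableOn]
  have e2 : ∀ n, ∫ p in T n, chr A p.1 * X (p.1 * p.2) ∂ρ.prod ρ' = 0 := by
    intro n
    rw [← integral_indicator (hT n)]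
    have := clu_one G hK h h' A (u n) (hX.indicator (hD' n)) (fun τ hτ =>
      disjointed_subset D n (Set.mem_of_indicator_ne_zero hτ))
    rw [← this]
    refine integral_congr_ae (Eventually.of_forall fun p => ?_)
    by_cases hp : p.1 * p.2 ∈ disjointed D n
    · have hp' : p ∈ T n := hp
      simp only [Set.indicator_of_mem hp, Set.indicator_of_mem hp']
    · have hp' : p ∉ T n := hp
      simp only [Set.indicator_of_notMem hp, Set.indicator_of_notMem hp', mul_zero]
  simp [e2]

lemma clu_mphi (N : ℕ) : Measurable fun (σ : S) (i : Fin (8 * N)) => σ (bv N i) :=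
  measurable_pi_lambda _ fun _ => measurable_pi_apply _

lemma hat_ring (N : ℕ) (ρ : Measure S) [IsFiniteMeasure ρ] (I : Finset (Fin (8 * N))) :
    hat (ring N ρ) I = ∫ σ, ch I (fun i => σ (bv N i)) ∂ρ := by
  have hm : Measurable (ch I) := Measurable.of_discrete
  rw [← integral_map (clu_mphi N).aemeasurable hm.aestronglyMeasurable,
    integral_fintype Integrable.of_finite]
  unfold hat ring
  refine Finset.sum_congr rfl fun η _ => ?_
  rw [map_measureReal_apply (clu_mphi N) (measurableSet_singleton _), smul_eq_mul]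
  congr 2
  ext σ; simp [funext_iff]

lemma clu_ch_sq {m : ℕ} (I : Finset (Fin m)) (η : Fin m → ℤˣ) : ch I η * ch I η = 1 := by
  simp [ch, ← Finset.prod_mul_distrib, sp_mul_self]

lemma clu_ch_mul {m : ℕ} (I : Finset (Fin m)) (η η' : Fin m → ℤˣ) :
    ch I (η * η') = ch I η * ch I η' := by
  simp [ch, sp_mul, Finset.prod_mul_distrib]

lemma clu_ch_symm {m : ℕ} (I J : Finset (Fin m)) (η : Fin m → ℤˣ) :
    ch (I ∆ J) η = ch I η * ch J η := by
  have key : ∀ A : Finset (Fin m), ch A η = ∏ i, if i ∈ A then sp (η i) else 1 := fun A => by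
    rw [Finset.prod_ite_mem, Finset.univ_inter]; rfl
  simp only [key, ← Finset.prod_mul_distrib]
  refine Finset.prod_congr rfl fun i _ => ?_
  by_cases h1 : i ∈ I <;> by_cases h2 : i ∈ J <;> simp [h1, h2, Finset.mem_symmDiff, sp_mul_self]

lemma clu_ch_one {m : ℕ} (a : Fin m) (η : Fin m → ℤˣ) : ch {a} η = sp (η a) := by simp [ch]

lemma clu_alg {m : ℕ} (I J : Finset (Fin m)) (a : Fin m) (s s' : Fin m → ℤˣ) :
    ch (I ∆ {a}) s * ch (J ∆ {a}) s' + ch (J ∆ {a}) s * ch (I ∆ {a}) s' =
      ch (I ∆ J) s * (ch J (s * s') * (1 + ch (I ∆ J) (s * s')) * sp ((s * s') a)) := by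
  simp only [clu_ch_symm, clu_ch_mul, clu_ch_one, Pi.mul_apply, sp_mul]
  have h1 := clu_ch_sq I s
  have h2 := clu_ch_sq J s
  have h3 := clu_ch_sq J s'
  linear_combination (-(ch I s * ch J s' * sp (s a) * sp (s' a)) -
      ch I s * ch I s * ch J s * ch J s' * ch J s' * ch I s' * sp (s a) * sp (s' a)) * h2 -
    (ch J s * ch J s' * ch J s' * ch I s' * sp (s a) * sp (s' a)) * h1 -
    (ch J s * ch I s' * sp (s a) * sp (s' a)) * h3

lemma clu_int (N : ℕ) {ρ ρ' : Measure S} [IsFiniteMeasure ρ] [IsFiniteMeasure ρ']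
    (Y : (Fin (8 * N) → ℤˣ) × (Fin (8 * N) → ℤˣ) → ℝ) :
    Integrable (fun p : S × S => Y (fun i => p.1 (bv N i), fun i => p.2 (bv N i))) (ρ.prod ρ') := by
  have hY : Measurable Y := Measurable.of_discrete
  refine integrable_of_bdd (hY.comp (((clu_mphi N).comp measurable_fst).prodMk
    ((clu_mphi N).comp measurable_snd))) (∑ q, |Y q|) fun p => ?_
  exact Finset.single_le_sum (f := fun q => |Y q|) (fun _ _ => abs_nonneg _) (Finset.mem_univ _)

theorem plu_of_alt (N : ℕ) (G : Set E) {K : W} (hK : ∀ e, e ∉ G → K e = 0) {ρ ρ' : Measure S}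
    (h : Gibbs K ρ) (h' : Gibbs K ρ')
    (hae : ∀ᵐ p ∂ρ.prod ρ', ∀ A : Finset (Fin (8 * N)), Even A.card →
      ch A (fun i => (p.1 * p.2) (bv N i)) = 1 →
      (∀ U : Finset V, Closed G (p.1 * p.2) U →
        Even (A.image (fun i : Fin (8 * N) => bv N i) ∩ U).card) →
      alt A (fun i => sp ((p.1 * p.2) (bv N i))) = 0) :
    Plu (ring N ρ) (ring N ρ') := by
  have := h.1
  have := h'.1
  intro I J hev
  let Y : (Fin (8 * N) → ℤˣ) → ℝ := fun t =>
    ch J t * (1 + ch (I ∆ J) t) * alt (I ∆ J) (fun i => sp (t i))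
  have hY : Measurable Y := Measurable.of_discrete
  have hz := cluster_zero G hK h h' ((I ∆ J).image fun i : Fin (8 * N) => bv N i)
    (X := fun τ => Y fun i => τ (bv N i)) (hY.comp (clu_mphi N)) (∑ q, |Y q|)
    (fun τ => Finset.single_le_sum (f := fun q => |Y q|) (fun _ _ => abs_nonneg _)
      (Finset.mem_univ _)) (by
      filter_upwards [hae] with p hp h0
      by_contra hn
      apply h0
      have h1 := clu_ch_sq (I ∆ J) fun i => (p.1 * p.2) (bv N i)
      rcases mul_self_eq_one_iff.1 h1 with h2 | h2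
      · have h3 := hp (I ∆ J) hev h2 fun U hU => by
          by_contra h4
          exact hn ⟨U, hU, Nat.not_even_iff_odd.1 h4⟩
        simp only [Y, h3, mul_zero]
      · simp only [Y, h2]; ring)
  have hchr : ∀ σ : S, chr ((I ∆ J).image fun i : Fin (8 * N) => bv N i) σ =
      ch (I ∆ J) fun i => σ (bv N i) := fun σ => by
    unfold chr ch
    rw [Finset.prod_image fun i _ j _ hij => Fin.ext (bv_inj i.2 j.2 hij)]
  have ht : ∀ a : Fin (8 * N),
      hat (ring N ρ) (I ∆ {a}) * hat (ring N ρ') (J ∆ {a}) +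
        hat (ring N ρ') (I ∆ {a}) * hat (ring N ρ) (J ∆ {a}) =
      ∫ p, ch (I ∆ J) (fun i => p.1 (bv N i)) * (ch J (fun i => (p.1 * p.2) (bv N i)) *
        (1 + ch (I ∆ J) (fun i => (p.1 * p.2) (bv N i))) * sp ((p.1 * p.2) (bv N a)))
        ∂ρ.prod ρ' := by
    intro a
    rw [hat_ring, hat_ring, hat_ring, hat_ring, mul_comm (∫ σ, _ ∂ρ'), ← integral_prod_mul,
      ← integral_prod_mul, ← integral_add
        (clu_int N fun q => ch (I ∆ {a}) q.1 * ch (J ∆ {a}) q.2)
        (clu_int N fun q => ch (J ∆ {a}) q.1 * ch (I ∆ {a}) q.2)]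
    exact integral_congr_ae (Eventually.of_forall fun p => clu_alg I J a _ _)
  rw [← hz]
  unfold alt
  simp only [ht, ← integral_const_mul]
  refine (integral_finsetSum _ fun a _ => clu_int N fun q =>
    (-1 : ℝ) ^ ((I ∆ J).filter (· < a)).card * (ch (I ∆ J) q.1 * (ch J (q.1 * q.2) *
      (1 + ch (I ∆ J) (q.1 * q.2)) * sp ((q.1 * q.2) a)))).symm.trans ?_
  refine integral_congr_ae (Eventually.of_forall fun p => ?_)
  simp only [hchr, Y, alt, Finset.mul_sum]
  refine Finset.sum_congr rfl fun a _ => ?_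
  have e : ((fun i : Fin (8 * N) => p.1 (bv N i)) * fun i : Fin (8 * N) => p.2 (bv N i)) =
      fun i : Fin (8 * N) => (p.1 * p.2) (bv N i) := rfl
  rw [e]
  ring

end Pool.Agent.MP_c70b3b_mp
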