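import Pool.Agent.MP_c70b3b_mp.Defs

open MeasureTheory ProbabilityTheory
open scoped symmDiff

namespace Pool.Agent.MP_c70b3b_mp

/-- EA spin glass measure at inverse temperature `β`. -/
def IsEA (β : ℝ) (ν : Measure (((ℤ × ℤ) × Bool → ℝ) × (ℤ × ℤ → ℤˣ))) : Prop :=
  IsProbabilityMeasure ν ∧
  ν.map Prod.fst = Measure.infinitePi (fun _ => gaussianReal 0 1) ∧
  ∀ (C : Finset (ℤ × ℤ)) (η : C → ℤˣ),
    ν[Set.indicator {p | ∀ x : C, p.2 x = η x} (fun _ => (1 : ℝ)) |
      MeasurableSpace.comap (fun p => (p.1, fun x : {x // x ∉ C} => p.2 x)) inferInstance]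
      =ᵐ[ν] boltz β C η

lemma isEA_iff {β : ℝ} {ν : Measure (((ℤ × ℤ) × Bool → ℝ) × (ℤ × ℤ → ℤˣ))} :
    IsEA β ν ↔ IsEAOn β Set.univ ν :=
  ⟨fun h => ⟨h.1, h.2.1, fun C η _ => h.2.2 C η⟩,
    fun h => ⟨h.1, h.2.1, fun C η => h.2.2 C η (Set.subset_univ _)⟩⟩

abbrev V : Type := ℤ × ℤ
abbrev E : Type := V × Bool
abbrev W : Type := E → ℝ
abbrev S : Type := V → ℤˣ

instance : MeasurableSingletonClass ℤˣ := ⟨fun u => ⟨{(u : ℤ)}, MeasurableSet.of_discrete, by
  ext v; simp [Units.ext_iff]⟩⟩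

instance : DiscreteMeasurableSpace ℤˣ := inferInstance

instance : StandardBorelSpace S := inferInstance

/-- The law of the couplings. -/
noncomputable def P : Measure W := Measure.infinitePi (fun _ => gaussianReal 0 1)

instance : IsProbabilityMeasure P := by unfold P; infer_instance

/-- A spin as a real number. -/
def sp (u : ℤˣ) : ℝ := ((u : ℤ) : ℝ)

def bond (σ : S) (e : E) : ℝ := sp (σ e.1) * sp (σ (tip e))

def chr (A : Finset V) (σ : S) : ℝ := ∏ x ∈ A, sp (σ x)

/-- Flip the spins of `U`. -/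
def flp (U : Finset V) (σ : S) : S := fun x => if x ∈ U then -σ x else σ x

/-- Edges with at least one end in `U`. -/
def touch (U : Finset V) : Finset E :=
  (U ×ˢ Finset.univ) ∪ U.image (fun x => (x - (1, 0), false)) ∪ U.image (fun x => (x - (0, 1), true))

/-- Edges with exactly one end in `U`. -/
def cob (U : Finset V) : Finset E := (touch U).filter fun e => ¬ (e.1 ∈ U ↔ tip e ∈ U)

noncomputable def en (K : W) (F : Finset E) (σ : S) : ℝ := ∑ e ∈ F, K e * bond σ e

/-- `K` on `F`, zero elsewhere. -/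
def cut (F : Finset E) (K : W) : W := fun e => if e ∈ F then K e else 0

/-- Finite measure with the spin-flip (DLR) identity for couplings `K` (weight `exp (en K ..)`). -/
def Gibbs (K : W) (ρ : Measure S) : Prop :=
  IsFiniteMeasure ρ ∧ ∀ x : V, ρ.map (flp {x}) =
    ρ.withDensity fun σ => ENNReal.ofReal (Real.exp (-2 * en K (cob {x}) σ))

/-- Multiply by the weight `exp (en K F)`. -/
noncomputable def tilt (K : W) (F : Finset E) (ρ : Measure S) : Measure S :=
  ρ.withDensity fun σ => ENNReal.ofReal (Real.exp (en K F σ))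

/-- Uniform product measure on spins. -/
noncomputable def unif : Measure S :=
  Measure.infinitePi fun _ => (uniformOn (Set.univ : Set ℤˣ))

def shW (z : V) (w : W) : W := fun e => w (e.1 + z, e.2)
def shS (z : V) (σ : S) : S := fun x => σ (x + z)
def shE (z : V) (e : E) : E := (e.1 + z, e.2)

/-- Gauge transformation of couplings. -/
def gauge (g : S) (w : W) : W := fun e => bond g e * w e

/-- A covariant Gibbs kernel. -/
structure CovGibbs (β : ℝ) (k : ℤ) (κ : Kernel W S) : Prop where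
  markov : IsMarkovKernel κ
  gibbs : ∀ᵐ w ∂P, Gibbs (β • w) (κ w)
  cov : ∀ z : V, ∀ᵐ w ∂P, κ (shW (k • z) w) = (κ w).map (shS (k • z))

/-- The two faces of an edge; face `p` is the unit square with lower left corner `p`. -/
def fA (e : E) : V := e.1
def fB (e : E) : V := if e.2 then e.1 - (1, 0) else e.1 - (0, 1)

def dl (a b : V) : ZMod 2 := if a = b then 1 else 0

/-- Boundary mod 2 on faces (edges read as dual edges). -/
def fbd (G : Finset E) (p : V) : ZMod 2 := ∑ e ∈ G, (dl (fA e) p + dl (fB e) p)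

/-- Boundary mod 2 on vertices. -/
def vbd (G : Finset E) (x : V) : ZMod 2 := ∑ e ∈ G, (dl e.1 x + dl (tip e) x)

/-- `x` is a corner of the face `p`. -/
def Corner (x p : V) : Prop := p = x ∨ p = x - (1, 0) ∨ p = x - (0, 1) ∨ p = x - (1, 1)

/-- Kadanoff-Ceva bilinear. -/
noncomputable def kc (K : W) (ρ : Measure S) (x y : V) (G : Finset E) : ℝ :=
  ∫ σ, sp (σ x) * sp (σ y) * Real.exp (-2 * en K G σ) ∂ρ

/-- All Kadanoff-Ceva bilinears agree. -/
def KCeq (K : W) (ρ ρ' : Measure S) : Prop :=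
  ∀ x p y q : V, ∀ G : Finset E, Corner x p → Corner y q →
    (∀ r, fbd G r = dl p r + dl q r) → kc K ρ x y G = kc K ρ' x y G

def Ends (e : E) (x y : V) : Prop := (e.1 = x ∧ tip e = y) ∨ (e.1 = y ∧ tip e = x)

/-- Connection inside `O` through edges of `G`. -/
def Conn (G : Set E) (O : Set V) : V → V → Prop :=
  Relation.ReflTransGen fun a b => a ∈ O ∧ b ∈ O ∧ ∃ e ∈ G, Ends e a b

def InfC (O : Set V) (x : V) : Prop := x ∈ O ∧ {y | Conn Set.univ O x y}.Infinite

/-- At most one infinite cluster. -/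
def Uniq (O : Set V) : Prop := ∀ x y, InfC O x → InfC O y → Conn Set.univ O x y

/-- Uniqueness of the infinite cluster of each sign outside every finite set. -/
def UniqAll (τ : S) : Prop := ∀ (L : Finset V) (s : ℤˣ), Uniq {x | x ∉ L ∧ τ x = s}

/-- Every edge of `G` leaving `U` joins opposite signs of `τ`. -/
def Closed (G : Set E) (τ : S) (U : Finset V) : Prop := ∀ e ∈ cob U, e ∈ G → bond τ e = -1

/-- The `8 N` outer neighbours of the box, counterclockwise. -/
def bv (N k : ℕ) : V :=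
  if k < 2 * N then ((k : ℤ) - N, -(N : ℤ) - 1)
  else if k < 4 * N then ((N : ℤ), (k : ℤ) - 3 * N)
  else if k < 6 * N then (5 * (N : ℤ) - 1 - k, (N : ℤ))
  else (-(N : ℤ) - 1, 7 * (N : ℤ) - 1 - k)

/-- The edge from `bv N k` into the box. -/
def port (N k : ℕ) : E :=
  if k < 2 * N then (((k : ℤ) - N, -(N : ℤ) - 1), true)
  else if k < 4 * N then (((N : ℤ) - 1, (k : ℤ) - 3 * N), false)
  else if k < 6 * N then ((5 * (N : ℤ) - 1 - k, (N : ℤ) - 1), true)
  else ((-(N : ℤ) - 1, 7 * (N : ℤ) - 1 - k), false)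

/-- Ring faces: `port N k` separates `rf N k` from `rf N (k+1)`. -/
def rf (N k : ℕ) : V :=
  if k < 2 * N then ((k : ℤ) - N - 1, -(N : ℤ) - 1)
  else if k < 4 * N then ((N : ℤ) - 1, (k : ℤ) - 3 * N - 1)
  else if k < 6 * N then (5 * (N : ℤ) - 1 - k, (N : ℤ) - 1)
  else (-(N : ℤ) - 1, 7 * (N : ℤ) - 1 - k)

/-- Alternating sum of `t` along `A`. -/
noncomputable def alt {ι : Type*} [LinearOrder ι] (A : Finset ι) (t : ι → ℝ) : ℝ :=
  ∑ a ∈ A, (-1 : ℝ) ^ (A.filter (· < a)).card * t a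

/-- Character of boundary configurations. -/
def ch {m : ℕ} (I : Finset (Fin m)) (η : Fin m → ℤˣ) : ℝ := ∏ i ∈ I, sp (η i)

def fl {m : ℕ} (I : Finset (Fin m)) (η : Fin m → ℤˣ) : Fin m → ℤˣ :=
  fun i => if i ∈ I then -η i else η i

noncomputable def hat {m : ℕ} (n : (Fin m → ℤˣ) → ℝ) (I : Finset (Fin m)) : ℝ :=
  ∑ η, n η * ch I η

/-- Polarised Pfaffian (Pluecker) relations. -/
def Plu {m : ℕ} (n n' : (Fin m → ℤˣ) → ℝ) : Prop :=
  ∀ I J : Finset (Fin m), Even (I ∆ J).card →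
    alt (I ∆ J) (fun a => hat n (I ∆ {a}) * hat n' (J ∆ {a}) + hat n' (I ∆ {a}) * hat n (J ∆ {a})) = 0

/-- Law of the ring spins. -/
noncomputable def ring (N : ℕ) (ρ : Measure S) (η : Fin (8 * N) → ℤˣ) : ℝ :=
  ρ.real {σ | ∀ i : Fin (8 * N), σ (bv N i) = η i}

/-- The medial lattice: `gate (a, b)` is the edge with midpoint `(1,0) + a (1,1) + b (-1,1)`
in doubled coordinates. -/
def gate (g : V) : E :=
  if (g.1 + g.2) % 2 = 0 then (((g.1 - g.2) / 2, (g.1 + g.2) / 2), false)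
  else (((1 + g.1 - g.2) / 2, (g.1 + g.2 - 1) / 2), true)

/-- `log |sinh (2 β w)|`. -/
noncomputable def ls (β t : ℝ) : ℝ := Real.log |Real.sinh (2 * (β * t))|

end Pool.Agent.MP_c70b3b_mp
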