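import Mathlib

open MeasureTheory ProbabilityTheory

namespace Pool.Agent.MP_c70b3b_mp

/-- An edge `(x, b)` joins `x` to `tip (x, b)`. -/
def tip (e : (ℤ × ℤ) × Bool) : ℤ × ℤ := if e.2 then e.1 + (0, 1) else e.1 + (1, 0)

/-- `C` together with its neighbours. -/
def clo (C : Finset (ℤ × ℤ)) : Finset (ℤ × ℤ) :=
  C ∪ C.biUnion fun x => {x + (1, 0), x - (1, 0), x + (0, 1), x - (0, 1)}

/-- The Hamiltonian: sum over the edges with both ends in `clo C`. -/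
noncomputable def ham (C : Finset (ℤ × ℤ)) (w : (ℤ × ℤ) × Bool → ℝ) (σ : ℤ × ℤ → Units ℤ) : ℝ :=
  -∑ e ∈ (clo C ×ˢ (Finset.univ : Finset Bool)).filter (fun e => tip e ∈ clo C),
    w e * ((σ e.1 : ℤ) : ℝ) * ((σ (tip e) : ℤ) : ℝ)

/-- `η` on `C`, `σ` outside. -/
def glue (C : Finset (ℤ × ℤ)) (η : C → Units ℤ) (σ : ℤ × ℤ → Units ℤ) : ℤ × ℤ → Units ℤ :=
  fun x => if h : x ∈ C then η ⟨x, h⟩ else σ x

/-- Boltzmann-Gibbs probability of `η` on `C` with couplings `p.1` and boundary spins `p.2`. -/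
noncomputable def boltz (β : ℝ) (C : Finset (ℤ × ℤ)) (η : C → Units ℤ)
    (p : ((ℤ × ℤ) × Bool → ℝ) × (ℤ × ℤ → Units ℤ)) : ℝ :=
  Real.exp (-β * ham C p.1 (glue C η p.2)) / ∑ ζ : C → Units ℤ, Real.exp (-β * ham C p.1 (glue C ζ p.2))

/-- Joint law with Gaussian couplings and the Boltzmann-Gibbs conditional laws for all finite
`C ⊆ L`. For `L = univ` this is an EA spin glass measure. -/
def IsEAOn (β : ℝ) (L : Set (ℤ × ℤ))
    (ν : Measure (((ℤ × ℤ) × Bool → ℝ) × (ℤ × ℤ → Units ℤ))) : Prop :=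
  IsProbabilityMeasure ν ∧
  ν.map Prod.fst = Measure.infinitePi (fun _ => gaussianReal 0 1) ∧
  ∀ (C : Finset (ℤ × ℤ)) (η : C → Units ℤ), (C : Set (ℤ × ℤ)) ⊆ L →
    ν[Set.indicator {p | ∀ x : C, p.2 x = η x} (fun _ => (1 : ℝ)) |
      MeasurableSpace.comap (fun p => (p.1, fun x : {x // x ∉ C} => p.2 x)) inferInstance]
      =ᵐ[ν] boltz β C η

/-- Translation of couplings and spins. -/
def shift (z : ℤ × ℤ) (p : ((ℤ × ℤ) × Bool → ℝ) × (ℤ × ℤ → Units ℤ)) :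
    ((ℤ × ℤ) × Bool → ℝ) × (ℤ × ℤ → Units ℤ) :=
  (fun e => p.1 (e.1 + z, e.2), fun x => p.2 (x + z))

/-- Invariance under a sublattice `k ℤ²`. -/
def IsPeriodic (ν : Measure (((ℤ × ℤ) × Bool → ℝ) × (ℤ × ℤ → Units ℤ))) : Prop :=
  ∃ k : ℤ, 0 < k ∧ ∀ z : ℤ × ℤ, ν.map (shift (k • z)) = ν

/-- The box `[-N, N)²`. -/
noncomputable def box (N : ℕ) : Finset (ℤ × ℤ) :=
  Finset.Ico (-(N : ℤ)) N ×ˢ Finset.Ico (-(N : ℤ)) N

end Pool.Agent.MP_c70b3b_mp
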