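import Pool.Agent.MP_c70b3b_mp.Basic

open MeasureTheory ProbabilityTheory Filter Topology
open scoped symmDiff ENNReal

namespace Pool.Agent.MP_c70b3b_mp

lemma dual_const (g : ℤ → ZMod 2) (h : ∀ i, g i = g (i + 1)) (n : ℤ) (hn : g n = 0) (i : ℤ) :
    g i = 0 := by
  have h0 : ∀ k, g k = g 0 := fun k => by
    induction k using Int.induction_on with
    | zero => rfl
    | succ k ih => rw [← h, ih]
    | pred k ih => rw [h, sub_add_cancel, ih]
  rw [h0 i, ← h0 n, hn]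

lemma dual_core (a b : V → ZMod 2) (N : ℤ)
    (hs : ∀ i j, N < |i| ∨ N < |j| → a (i, j) = 0 ∧ b (i, j) = 0)
    (h : ∀ i j, a (i, j) + b (i + 1, j) + a (i, j + 1) + b (i, j) = 0) :
    ∃ U : Finset V, ∀ i j, (a (i, j) = 1 ↔ ¬ ((i, j) ∈ U ↔ (i + 1, j) ∈ U)) ∧
      (b (i, j) = 1 ↔ ¬ ((i, j) ∈ U ↔ (i, j + 1) ∈ U)) := by
  have h2 : ∀ x : ZMod 2, x + x = 0 := by decide
  set f : ℤ → ℤ → ZMod 2 := fun i j => ∑ k ∈ Finset.Icc i N, a (k, j) with hf
  have f0 : ∀ i j, N < i → f i j = 0 := fun i j hi => by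
    simp only [hf, Finset.Icc_eq_empty_of_lt hi, Finset.sum_empty]
  have f1 : ∀ i j, f i j = a (i, j) + f (i + 1) j := fun i j => by
    rcases le_or_gt i N with hi | hi
    · simp only [hf]
      rw [← Finset.insert_Icc_add_one_left_eq_Icc hi, Finset.sum_insert (by simp)]
    · rw [f0 i j hi, f0 (i + 1) j (by omega), (hs i j (Or.inl (hi.trans_le (le_abs_self i)))).1,
        add_zero]
  have f2 : ∀ j i, f i j + f i (j + 1) + b (i, j) = 0 := fun j =>
    dual_const (fun i => f i j + f i (j + 1) + b (i, j))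
      (fun i => by
        rw [f1 i j, f1 i (j + 1)]
        linear_combination h i j - h2 (b (i + 1, j)))
      (N + 1) (by
        simp only [f0 (N + 1) _ (by omega),
          (hs (N + 1) j (Or.inl ((lt_add_one N).trans_le (le_abs_self _)))).2, add_zero])
  have f3 : ∀ i j, N < |j| → f i j = 0 := fun i j hj =>
    Finset.sum_eq_zero fun k _ => (hs k j (Or.inr hj)).1
  have f4 : ∀ i j, N < |i| → f i j = 0 := fun i j hi =>
    dual_const (f i) (fun j => by
      have h3 := f2 j i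
      rw [(hs i j (Or.inl hi)).2] at h3
      linear_combination h3 - h2 (f i (j + 1))) (N + 1)
      (f3 i _ ((lt_add_one N).trans_le (le_abs_self _))) j
  refine ⟨(Finset.Icc (-N) N ×ˢ Finset.Icc (-N) N).filter fun p => f p.1 p.2 = 1, fun i j => ?_⟩
  have hU : ∀ i j, ((i, j) ∈ (Finset.Icc (-N) N ×ˢ Finset.Icc (-N) N).filter
      fun p => f p.1 p.2 = 1) ↔ f i j = 1 := fun i j => by
    simp only [Finset.mem_filter, Finset.mem_product, Finset.mem_Icc, ← abs_le]
    refine ⟨fun h => h.2, fun h => ⟨⟨not_lt.1 fun h' => ?_, not_lt.1 fun h' => ?_⟩, h⟩⟩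
    · rw [f4 i j h'] at h; exact absurd h (by decide)
    · rw [f3 i j h'] at h; exact absurd h (by decide)
  have k1 : ∀ x y z : ZMod 2, x = z + y → (z = 1 ↔ ¬ (x = 1 ↔ y = 1)) := by decide
  have k2 : ∀ x y z : ZMod 2, x + y + z = 0 → (z = 1 ↔ ¬ (x = 1 ↔ y = 1)) := by decide
  rw [hU, hU, hU]
  exact ⟨k1 _ _ _ (f1 i j), k2 _ _ _ (f2 j i)⟩

/-- Indicator of an edge set mod 2. -/
def dualInd (G : Finset E) (e : E) : ZMod 2 := if e ∈ G then 1 else 0

lemma dual_ind_sum (G : Finset E) (e : E) :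
    dualInd G e = ∑ e' ∈ G, if e' = e then 1 else 0 := by
  rw [Finset.sum_ite_eq', dualInd]

lemma dual_ind_one (G : Finset E) (e : E) : dualInd G e = 1 ↔ e ∈ G := by
  unfold dualInd
  split_ifs with h <;> simp [h]

lemma dual_bound (G : Finset E) : ∃ N : ℤ, ∀ i j c, N < |i| + 1 ∨ N < |j| + 1 →
    dualInd G ((i, j), c) = 0 := by
  obtain ⟨N, hN⟩ := (G.image fun e => max |e.1.1| |e.1.2|).bddAbove
  refine ⟨N + 1, fun i j c h => if_neg fun hG => ?_⟩
  have h1 : max |i| |j| ≤ N := hN (Finset.mem_coe.2 (Finset.mem_image_of_mem _ hG))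
  rw [max_le_iff] at h1
  omega

lemma dual_fbd (G : Finset E) (i j : ℤ) : fbd G (i, j) = dualInd G ((i, j), false) +
    dualInd G ((i + 1, j), true) + dualInd G ((i, j + 1), false) + dualInd G ((i, j), true) := by
  simp only [dual_ind_sum, ← Finset.sum_add_distrib, fbd]
  refine Finset.sum_congr rfl ?_
  rintro ⟨⟨x, y⟩, _ | _⟩ -
  · simp [dl, fA, fB, sub_eq_iff_eq_add]
  · simp [dl, fA, fB, sub_eq_iff_eq_add, add_comm]

lemma dual_vbd (G : Finset E) (i j : ℤ) : vbd G (i + 1, j + 1) = dualInd G ((i + 1, j), true) +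
    dualInd G ((i + 1, j + 1), false) + dualInd G ((i + 1, j + 1), true) +
      dualInd G ((i, j + 1), false) := by
  simp only [dual_ind_sum, ← Finset.sum_add_distrib, vbd]
  refine Finset.sum_congr rfl ?_
  rintro ⟨⟨x, y⟩, _ | _⟩ -
  · simp [dl, tip]
  · simp [dl, tip, add_comm]

theorem exists_cob (G : Finset E) (h : ∀ p, fbd G p = 0) : ∃ U : Finset V, cob U = G := by
  obtain ⟨N, hN⟩ := dual_bound G
  obtain ⟨U, hU⟩ := dual_core (fun p => dualInd G (p, false)) (fun p => dualInd G (p, true)) N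
    (fun i j hij => ⟨hN i j _ (by omega), hN i j _ (by omega)⟩)
    fun i j => by rw [← dual_fbd, h]
  refine ⟨U, Finset.ext ?_⟩
  rintro ⟨⟨i, j⟩, _ | _⟩
  · rw [mem_cob, ← dual_ind_one, (hU i j).1]
    simp [tip]
  · rw [mem_cob, ← dual_ind_one, (hU i j).2]
    simp [tip]

theorem exists_faces (C : Finset E) (h : ∀ x, vbd C x = 0) :
    ∃ Φ : Finset V, ∀ e, e ∈ C ↔ ¬ (fA e ∈ Φ ↔ fB e ∈ Φ) := by
  obtain ⟨N, hN⟩ := dual_bound C
  have ha : ∀ i : ℤ, |i| ≤ |i + 1| + 1 := fun i => by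
    simpa using abs_add_le (i + 1) (-1)
  obtain ⟨U, hU⟩ := dual_core (fun p => dualInd C ((p.1 + 1, p.2), true))
    (fun p => dualInd C ((p.1, p.2 + 1), false)) N
    (fun i j hij => ⟨hN (i + 1) j _ (by have := ha i; omega),
      hN i (j + 1) _ (by have := ha j; omega)⟩)
    fun i j => by rw [← dual_vbd, h]
  refine ⟨U, ?_⟩
  rintro ⟨⟨i, j⟩, _ | _⟩
  · have h1 := (hU i (j - 1)).2
    simp only [sub_add_cancel, dual_ind_one] at h1
    rw [h1, iff_comm (a := (i, j - 1) ∈ U)]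
    simp [fA, fB]
  · have h1 := (hU (i - 1) j).1
    simp only [sub_add_cancel, dual_ind_one] at h1
    rw [h1, iff_comm (a := (i - 1, j) ∈ U)]
    simp [fA, fB]

lemma dual_trans {p q s : V} (h1 : ∃ G : Finset E, ∀ r, fbd G r = dl p r + dl q r)
    (h2 : ∃ G : Finset E, ∀ r, fbd G r = dl q r + dl s r) :
    ∃ G : Finset E, ∀ r, fbd G r = dl p r + dl s r := by
  obtain ⟨G, hG⟩ := h1
  obtain ⟨G', hG'⟩ := h2
  have h3 : ∀ x : ZMod 2, x + x = 0 := by decide
  exact ⟨G ∆ G', fun r => by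
    rw [fbd_symmDiff, hG, hG']
    linear_combination h3 (dl q r)⟩

lemma dual_line (c : ℤ → V)
    (h : ∀ k, ∃ G : Finset E, ∀ r, fbd G r = dl (c (k + 1)) r + dl (c k) r) (k : ℤ) :
    ∃ G : Finset E, ∀ r, fbd G r = dl (c k) r + dl (c 0) r := by
  have h3 : ∀ x : ZMod 2, x + x = 0 := by decide
  induction k using Int.induction_on with
  | zero => exact ⟨∅, fun r => by simp [fbd, h3]⟩
  | succ k ih => exact dual_trans (h k) ih
  | pred k ih =>
    refine dual_trans ?_ ih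
    obtain ⟨G, hG⟩ := h (-(k : ℤ) - 1)
    exact ⟨G, fun r => by rw [hG, sub_add_cancel, add_comm]⟩

theorem exists_dual_path (p q : V) : ∃ G : Finset E, ∀ r, fbd G r = dl p r + dl q r := by
  obtain ⟨a, b⟩ := p
  obtain ⟨c, d⟩ := q
  have h1 := dual_line (fun k => (c + k, b))
    (fun k => ⟨{((c + (k + 1), b), true)}, fun r => by
      rw [fbd_singleton]; simp [fA, fB, add_sub_assoc]⟩) (a - c)
  have h2 := dual_line (fun k => (c, d + k))
    (fun k => ⟨{((c, d + (k + 1)), false)}, fun r => by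
      rw [fbd_singleton]; simp [fA, fB, add_sub_assoc]⟩) (b - d)
  simp only [add_sub_cancel, add_zero] at h1 h2
  exact dual_trans h1 h2

theorem chain_of_conn {G : Set E} {O : Set V} {x y : V} (h : Conn G O x y) :
    ∃ C : Finset E, (∀ e ∈ C, e ∈ G ∧ e.1 ∈ O ∧ tip e ∈ O) ∧
      ∀ v, vbd C v = dl x v + dl y v := by
  have h3 : ∀ x : ZMod 2, x + x = 0 := by decide
  induction h with
  | refl => exact ⟨∅, by simp, fun v => by simp [vbd, h3]⟩
  | @tail b c _ hbc ih =>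
    obtain ⟨C, hC, hv⟩ := ih
    obtain ⟨hb, hc, e, he, hE⟩ := hbc
    refine ⟨C ∆ {e}, fun e' he' => ?_, fun v => ?_⟩
    · rcases Finset.mem_symmDiff.1 he' with h | h
      · exact hC e' h.1
      · rw [Finset.mem_singleton.1 h.1]
        rcases hE with ⟨h1, h2⟩ | ⟨h1, h2⟩
        · exact ⟨he, h1 ▸ hb, h2 ▸ hc⟩
        · exact ⟨he, h1 ▸ hc, h2 ▸ hb⟩
    · rw [vbd_symmDiff, hv, vbd_singleton]
      rcases hE with ⟨h1, h2⟩ | ⟨h1, h2⟩ <;> rw [h1, h2] <;> linear_combination h3 (dl b v)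

end Pool.Agent.MP_c70b3b_mp
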