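import Pool.Agent.MP_c70b3b_mp.Tilt

open MeasureTheory ProbabilityTheory Filter Topology
open scoped symmDiff ENNReal

namespace Pool.Agent.MP_c70b3b_mp

variable {ι : Type} [DecidableEq ι] {e : ι → E} {B : ι → Finset E} {φ : ι → W → ℝ}

omit [DecidableEq ι] in
lemma edgeavg_one (I : Finset ι) (p : ℝ) :
    ∑ T ∈ I.powerset, p ^ T.card * (1 - p) ^ (I.card - T.card) = 1 := by
  rw [Finset.sum_pow_mul_eq_add_pow]
  simp

lemma edgeavg_sum (I : Finset ι) (p : ℝ) (f : ι → Finset ι → ℝ) :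
    ∑ T ∈ I.powerset, p ^ T.card * (1 - p) ^ (I.card - T.card) * ∑ i ∈ T, f i T =
      p * ∑ i ∈ I, ∑ T ∈ (I.erase i).powerset,
        p ^ T.card * (1 - p) ^ ((I.erase i).card - T.card) * f i (insert i T) := by
  have h1 : ∀ T ∈ I.powerset, p ^ T.card * (1 - p) ^ (I.card - T.card) * ∑ i ∈ T, f i T =
      ∑ i ∈ I, if i ∈ T then p ^ T.card * (1 - p) ^ (I.card - T.card) * f i T else 0 := by
    intro T hT
    rw [← Finset.sum_filter, Finset.filter_mem_eq_inter,
      Finset.inter_eq_right.2 (Finset.mem_powerset.1 hT), Finset.mul_sum]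
  rw [Finset.sum_congr rfl h1, Finset.sum_comm, Finset.mul_sum]
  refine Finset.sum_congr rfl fun i hi => ?_
  have h2 : I.powerset = (insert i (I.erase i)).powerset := by rw [Finset.insert_erase hi]
  rw [h2, Finset.sum_powerset_insert (Finset.notMem_erase i I), Finset.mul_sum]
  have h3 : ∑ T ∈ (I.erase i).powerset,
      (if i ∈ T then p ^ T.card * (1 - p) ^ (I.card - T.card) * f i T else 0) = 0 := by
    refine Finset.sum_eq_zero fun T hT => if_neg fun hiT => ?_
    exact Finset.notMem_erase i I (Finset.mem_powerset.1 hT hiT)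
  rw [h3, zero_add]
  refine Finset.sum_congr rfl fun T hT => ?_
  have hiT : i ∉ T := fun hiT => Finset.notMem_erase i I (Finset.mem_powerset.1 hT hiT)
  rw [if_pos (Finset.mem_insert_self i T), Finset.card_insert_of_notMem hiT,
    Finset.card_erase_of_mem hi]
  have h4 : I.card - (T.card + 1) = I.card - 1 - T.card := by omega
  rw [h4]
  ring

lemma edgeavg_count (h : Blocks e B φ) (J : Finset ι) (Bg : Finset E) :
    ∑ j ∈ J, (if e j ∈ Bg then (1 : ℝ) else 0) ≤ Bg.card := by
  rw [Finset.sum_boole]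
  have : (J.filter fun j => e j ∈ Bg).card ≤ Bg.card := by
    refine Finset.card_le_card_of_injOn e (fun j hj => ?_) (fun j _ k _ hjk => ?_)
    · exact (Finset.mem_filter.1 hj).2
    · by_contra hne
      exact Finset.disjoint_left.1 (h.disj j k hne) (h.mem j) (hjk ▸ h.mem k)
  exact_mod_cast this

lemma edgeavg_mean (h : Blocks e B φ) {p : ℝ} (hp0 : 0 ≤ p) (J : Finset ι) (Bg : Finset E) :
    ∑ T ∈ J.powerset, p ^ T.card * (1 - p) ^ (J.card - T.card) *
      ∑ j ∈ T, (if e j ∈ Bg then (1 : ℝ) else 0) ≤ p * Bg.card := by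
  rw [edgeavg_sum J p (fun j _ => if e j ∈ Bg then (1 : ℝ) else 0)]
  refine mul_le_mul_of_nonneg_left ?_ hp0
  refine le_trans (le_of_eq ?_) (edgeavg_count h J Bg)
  refine Finset.sum_congr rfl fun j _ => ?_
  rw [← Finset.sum_mul, edgeavg_one, one_mul]

lemma edgeavg_loc (δ : ℝ) {T : Finset ι} {i : ι} (hi : i ∉ T) {g : W → ℝ}
    (hg1 : ∀ w, |g w| ≤ 1) (Bg : Finset E) (hd : DependsOn g (Bg : Set E)) (w : W) :
    |g (mv e φ δ (insert i T) w) - g (mv e φ δ {i} w)| ≤
      2 * ∑ j ∈ T, (if e j ∈ Bg then (1 : ℝ) else 0) := by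
  have hnn : ∀ j ∈ T, (0 : ℝ) ≤ if e j ∈ Bg then (1 : ℝ) else 0 := fun j _ => by
    split_ifs <;> norm_num
  by_cases hx : ∃ j ∈ T, e j ∈ Bg
  · obtain ⟨j, hj, hjB⟩ := hx
    have h1 := Finset.single_le_sum hnn hj
    rw [if_pos hjB] at h1
    have h2 := abs_sub (g (mv e φ δ (insert i T) w)) (g (mv e φ δ {i} w))
    have h3 := hg1 (mv e φ δ (insert i T) w)
    have h4 := hg1 (mv e φ δ {i} w)
    linarith
  · have heq : g (mv e φ δ (insert i T) w) = g (mv e φ δ {i} w) := by
      refine hd fun x hx' => ?_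
      have hx0 : ∑ j ∈ T, (Pi.single (e j) (δ * φ j w) : W) x = 0 := by
        refine Finset.sum_eq_zero fun j hj => ?_
        refine Pi.single_eq_of_ne (fun hxe => hx ⟨j, hj, ?_⟩) _
        rw [← hxe]; exact hx'
      simp only [mv, Finset.sum_insert hi, Finset.sum_singleton, Pi.add_apply, Finset.sum_apply,
        hx0, add_zero]
    rw [heq, sub_self, abs_zero]
    exact mul_nonneg (by norm_num) (Finset.sum_nonneg hnn)

lemma edgeavg_int {f : W → ℝ} (hf : Measurable f) (h2 : ∀ w, |f w| ≤ 2) : Integrable f P :=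
  Integrable.of_bound hf.aestronglyMeasurable 2 (Eventually.of_forall fun w => h2 w)

/-- Sparse random moves elsewhere do not change the mean of `a ∘ mv` much: `g` is a local
approximation of `a` and at most `c` of the moved edges lie in its support. -/
theorem mv_avg (h : Blocks e B φ) (δ : ℝ) {p : ℝ} (hp0 : 0 ≤ p) (hp1 : p ≤ 1) (J : Finset ι)
    {i : ι} (hi : i ∉ J) {a g : W → ℝ} (ha : Measurable a) (hg : Measurable g)
    (ha1 : ∀ w, |a w| ≤ 1) (hg1 : ∀ w, |g w| ≤ 1) (Bg : Finset E) (hd : DependsOn g (Bg : Set E))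
    {l : ℝ} (hl : 0 < l) :
    ∑ T ∈ J.powerset, p ^ T.card * (1 - p) ^ (J.card - T.card) *
        ∫ w, |a (mv e φ δ (insert i T) w) - a (mv e φ δ {i} w)| ∂P ≤
      2 * (l * ∫ w, |a w - g w| ∂P + 2 * (4 * Real.exp (δ ^ 2)) *
        Real.exp (J.card * p ^ 2 * (4 * Real.exp (δ ^ 2))) / l) + 2 * p * Bg.card := by
  set F : W → ℝ := fun w => |a w - g w| with hF
  have hFm : Measurable F := (ha.sub hg).abs
  have hF0 : ∀ w, 0 ≤ F w := fun w => abs_nonneg _
  have hF2 : ∀ w, F w ≤ 2 := fun w => by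
    have h1 := abs_sub (a w) (g w)
    have h2 := ha1 w
    have h3 := hg1 w
    simp only [hF]; linarith
  have hFa : ∀ w, |F w| ≤ 2 := fun w => by rw [abs_of_nonneg (hF0 w)]; exact hF2 w
  have hint : ∀ T : Finset ι, Integrable (fun w => F (mv e φ δ T w)) P := fun T =>
    edgeavg_int (hFm.comp (measurable_mv h δ T)) fun w => hFa _
  have hA := mv_bound h δ hp0 hp1 J hi hFm hF0 hF2 hl
  have hB := mv_bound h δ hp0 hp1 ∅ (Finset.notMem_empty i) hFm hF0 hF2 hl
  have hC := edgeavg_mean h hp0 J Bg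
  have hone := edgeavg_one J p
  have hB' : ∫ w, F (mv e φ δ {i} w) ∂P ≤ l * ∫ w, F w ∂P + 2 * (4 * Real.exp (δ ^ 2)) *
        Real.exp (J.card * p ^ 2 * (4 * Real.exp (δ ^ 2))) / l := by
    simp only [Finset.powerset_empty, Finset.sum_singleton, Finset.card_empty, pow_zero,
      Nat.sub_self, one_mul, Nat.cast_zero, zero_mul, Real.exp_zero, mul_one,
      LawfulSingleton.insert_empty_eq] at hB
    refine hB.trans ?_
    have h1 : (1 : ℝ) ≤ Real.exp (J.card * p ^ 2 * (4 * Real.exp (δ ^ 2))) :=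
      Real.one_le_exp (by positivity)
    have h2 : 2 * (4 * Real.exp (δ ^ 2)) ≤ 2 * (4 * Real.exp (δ ^ 2)) *
        Real.exp (J.card * p ^ 2 * (4 * Real.exp (δ ^ 2))) :=
      le_mul_of_one_le_right (by positivity) h1
    have h3 := div_le_div_of_nonneg_right h2 hl.le
    linarith
  have hterm : ∀ T ∈ J.powerset, p ^ T.card * (1 - p) ^ (J.card - T.card) *
        ∫ w, |a (mv e φ δ (insert i T) w) - a (mv e φ δ {i} w)| ∂P ≤
      p ^ T.card * (1 - p) ^ (J.card - T.card) * ∫ w, F (mv e φ δ (insert i T) w) ∂P +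
      2 * (p ^ T.card * (1 - p) ^ (J.card - T.card) *
        ∑ j ∈ T, (if e j ∈ Bg then (1 : ℝ) else 0)) +
      p ^ T.card * (1 - p) ^ (J.card - T.card) * ∫ w, F (mv e φ δ {i} w) ∂P := by
    intro T hT
    have hiT : i ∉ T := fun hh => hi (Finset.mem_powerset.1 hT hh)
    have hw : 0 ≤ p ^ T.card * (1 - p) ^ (J.card - T.card) :=
      mul_nonneg (pow_nonneg hp0 _) (pow_nonneg (sub_nonneg.2 hp1) _)
    have hle : ∫ w, |a (mv e φ δ (insert i T) w) - a (mv e φ δ {i} w)| ∂P ≤
        ∫ w, (F (mv e φ δ (insert i T) w) + 2 * ∑ j ∈ T, (if e j ∈ Bg then (1 : ℝ) else 0) +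
          F (mv e φ δ {i} w)) ∂P := by
      refine integral_mono_of_nonneg (Eventually.of_forall fun w => abs_nonneg _)
        (((hint _).add (integrable_const _)).add (hint _)) (Eventually.of_forall fun w => ?_)
      have h1 := edgeavg_loc (e := e) (φ := φ) δ hiT hg1 Bg hd w
      have h2 := abs_sub_le (a (mv e φ δ (insert i T) w)) (g (mv e φ δ (insert i T) w))
        (a (mv e φ δ {i} w))
      have h3 := abs_sub_le (g (mv e φ δ (insert i T) w)) (g (mv e φ δ {i} w))
        (a (mv e φ δ {i} w))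
      have h4 := abs_sub_comm (g (mv e φ δ {i} w)) (a (mv e φ δ {i} w))
      simp only [hF]
      linarith
    have hi2 : Integrable (fun w => F (mv e φ δ (insert i T) w) +
        2 * ∑ j ∈ T, (if e j ∈ Bg then (1 : ℝ) else 0)) P := (hint _).add (integrable_const _)
    rw [integral_add hi2 (hint _),
      integral_add (hint _) (integrable_const _), integral_const, probReal_univ, one_smul] at hle
    have := mul_le_mul_of_nonneg_left hle hw
    linarith
  refine (Finset.sum_le_sum hterm).trans ?_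
  rw [Finset.sum_add_distrib, Finset.sum_add_distrib, ← Finset.mul_sum, ← Finset.sum_mul, hone]
  linarith

/-- Bernoulli average of a sum over the selected indices. -/
theorem bern_sum (I : Finset ι) (p : ℝ) (f : ι → Finset ι → ℝ) :
    ∑ T ∈ I.powerset, p ^ T.card * (1 - p) ^ (I.card - T.card) * ∑ i ∈ T, f i T =
      p * ∑ i ∈ I, ∑ T ∈ (I.erase i).powerset,
        p ^ T.card * (1 - p) ^ ((I.erase i).card - T.card) * f i (insert i T) := by
  exact edgeavg_sum I p f

theorem bern_one (I : Finset ι) (p : ℝ) :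
    ∑ T ∈ I.powerset, p ^ T.card * (1 - p) ^ (I.card - T.card) = 1 := by
  exact edgeavg_one I p

end Pool.Agent.MP_c70b3b_mp
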