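import Pool.Agent.MP_c70b3b_mp.EdgeDet
import Pool.Agent.MP_c70b3b_mp.EdgeAvg

open MeasureTheory ProbabilityTheory Filter Topology
open scoped symmDiff ENNReal

namespace Pool.Agent.MP_c70b3b_mp

/-- The mean of the bond at `e`. -/
noncomputable def edgeAl (κ : Kernel W S) (e : E) (w : W) : ℝ := ∫ σ, bond σ e ∂κ w

/-- The first absolute moment of a coupling. -/
noncomputable def edgeG : ℝ := ∫ x, |x| ∂gaussianReal 0 1

lemma edge_meas (κ : Kernel W S) (e : E) : Measurable (edgeAl κ e) :=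
  ((measurable_bond e).stronglyMeasurable.integral_kernel (κ := κ)).measurable

lemma edge_abs (κ : Kernel W S) [IsMarkovKernel κ] (e : E) (w : W) : |edgeAl κ e w| ≤ 1 := by
  have := norm_integral_le_of_norm_le_const (μ := κ w) (f := fun σ => bond σ e) (C := 1)
    (Eventually.of_forall fun σ => (abs_bond σ e).le)
  simpa [edgeAl] using this

lemma edge_cov {κ : Kernel W S} {z : V} {w : W} (hc : κ (shW z w) = (κ w).map (shS z)) (e : E) :
    ∫ σ, bond σ (shE z e) ∂κ w = edgeAl κ e (shW z w) := by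
  rw [edgeAl, hc, integral_map (measurable_shS z).aemeasurable
    (measurable_bond e).aestronglyMeasurable]
  simp only [bond_shS]

lemma edge_sh (z : V) {f : W → ℝ} (hf : Measurable f) :
    ∫ w, f (shW z w) ∂P = ∫ w, f w ∂P := by
  rw [← integral_map (measurable_shW z).aemeasurable hf.aestronglyMeasurable, (mp_shW z).map_eq]

lemma edge_abs_int (e : E) : Integrable (fun w : W => |w e|) P ∧ ∫ w : W, |w e| ∂P = edgeG := by
  have h : Integrable (fun x : ℝ => |x|) (gaussianReal 0 1) :=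
    ((memLp_id_gaussianReal 1).integrable le_rfl).abs
  refine ⟨(mp_eval e).integrable_comp_of_integrable h, ?_⟩
  rw [edgeG, ← (mp_eval e).map_eq]
  exact (integral_map (φ := fun w : W => w e) (f := fun x : ℝ => |x|)
    (measurable_pi_apply e).aemeasurable continuous_abs.measurable.aestronglyMeasurable).symm

lemma edge_G_nonneg : 0 ≤ edgeG := integral_nonneg fun _ => abs_nonneg _

section
variable {ι : Type} [DecidableEq ι] {e : ι → E} {B : ι → Finset E} {φ : ι → W → ℝ}

lemma edge_inj (h : Blocks e B φ) : Function.Injective e := fun i j hij => by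
  by_contra hne
  exact Finset.disjoint_left.1 (h.disj i j hne) (h.mem i) (hij ▸ h.mem j)

lemma edge_mv_mem (h : Blocks e B φ) (δ : ℝ) {T : Finset ι} {i : ι} (hi : i ∈ T) (w : W) :
    mv e φ δ T w (e i) = w (e i) + δ * φ i w := by
  rw [mv, Pi.add_apply, Finset.sum_apply, Finset.sum_eq_single_of_mem i hi
    fun j _ hj => Pi.single_eq_of_ne (fun hij => hj (edge_inj h hij).symm) _, Pi.single_eq_same]

omit [DecidableEq ι] in
lemma edge_mv_not (δ : ℝ) {T : Finset ι} {a : E} (ha : a ∉ T.image e) (w : W) :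
    mv e φ δ T w a = w a := by
  rw [mv, Pi.add_apply, Finset.sum_apply, Finset.sum_eq_zero fun j hj =>
    Pi.single_eq_of_ne (fun hij => ha (Finset.mem_image.2 ⟨j, hj, hij.symm⟩)) _, add_zero]

omit [DecidableEq ι] in
lemma edge_phi (h : Blocks e B φ) (i : ι) (w : W) : |φ i w| = 1 := by
  rcases h.sgn i w with h | h <;> simp [h]

end

lemma edge_bdd {φ a b : W → ℝ} (hφ : Measurable φ) (ha : Measurable a) (hb : Measurable b)
    (h1 : ∀ w, |φ w| = 1) (h2 : ∀ w, |a w| ≤ 1) (h3 : ∀ w, |b w| ≤ 1) :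
    Integrable (fun w => φ w * (a w - b w)) P :=
  integrable_of_bdd (hφ.mul (ha.sub hb)) 2 fun w => by
    rw [abs_mul, h1, one_mul]
    linarith [abs_sub (a w) (b w), h2 w, h3 w]

lemma edge_bdd' {a b : W → ℝ} (ha : Measurable a) (hb : Measurable b)
    (h2 : ∀ w, |a w| ≤ 1) (h3 : ∀ w, |b w| ≤ 1) : Integrable (fun w => |a w - b w|) P :=
  integrable_of_bdd (ha.sub hb).abs 2 fun w => by
    rw [abs_abs]
    linarith [abs_sub (a w) (b w), h2 w, h3 w]

/-- Replacing `b` by `b'` costs at most the distance in mean. -/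
lemma edge_swap {φ a b b' : W → ℝ} (hφ : Measurable φ) (ha : Measurable a) (hb : Measurable b)
    (hb' : Measurable b') (h1 : ∀ w, |φ w| = 1) (h2 : ∀ w, |a w| ≤ 1) (h3 : ∀ w, |b w| ≤ 1)
    (h4 : ∀ w, |b' w| ≤ 1) :
    ∫ w, φ w * (a w - b w) ∂P - ∫ w, |b' w - b w| ∂P ≤ ∫ w, φ w * (a w - b' w) ∂P := by
  rw [← integral_sub (edge_bdd hφ ha hb h1 h2 h3) (edge_bdd' hb' hb h4 h3)]
  refine integral_mono ((edge_bdd hφ ha hb h1 h2 h3).sub (edge_bdd' hb' hb h4 h3))
    (edge_bdd hφ ha hb' h1 h2 h4) fun w => ?_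
  have := le_abs_self (φ w * (b' w - b w))
  rw [abs_mul, h1, one_mul] at this
  dsimp only
  linarith

/-- The surface bound. -/
lemma edge_up {β : ℝ} (hβ : 0 < β) {k : ℤ} {κ κ' : Kernel W S} (h : CovGibbs β k κ)
    (h' : CovGibbs β k κ') (e : E) {ι : Type} [DecidableEq ι] [Countable ι] {z : ι → V}
    {B : ι → Finset E} {φ : ι → W → ℝ} (hB : Blocks (fun i => shE (k • z i) e) B φ) (N : ℕ)
    (hN : ∀ i, e.1 + k • z i ∈ box N ∧ tip e + k • z i ∈ box N) (δ : ℝ) (T : Finset ι) :
    δ * ∑ i ∈ T, ∫ w, φ i w * (edgeAl κ e (shW (k • z i) w) -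
      edgeAl κ' e (shW (k • z i) (mv (fun i => shE (k • z i) e) φ δ T w))) ∂P ≤
      32 * N * edgeG := by
  have := h.markov
  have := h'.markov
  set ee : ι → E := fun i => shE (k • z i) e with hee
  have hq := mv_qmp hB δ T
  have hm := measurable_mv hB δ T
  have hI : ∀ i ∈ T, Integrable (fun w => φ i w * (edgeAl κ e (shW (k • z i) w) -
      edgeAl κ' e (shW (k • z i) (mv ee φ δ T w)))) P := fun i _ =>
    edge_bdd (hB.meas i) ((edge_meas κ e).comp (measurable_shW _))
      ((edge_meas κ' e).comp ((measurable_shW _).comp hm)) (edge_phi hB i)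
      (fun _ => edge_abs κ e _) (fun _ => edge_abs κ' e _)
  have key : ∀ᵐ w ∂P, δ * ∑ i ∈ T, φ i w * (edgeAl κ e (shW (k • z i) w) -
      edgeAl κ' e (shW (k • z i) (mv ee φ δ T w))) ≤ 4 * ∑ a ∈ cob (box N), |w a| := by
    filter_upwards [h.gibbs, hq.ae h'.gibbs, ae_all_iff.2 fun i => h.cov (z i),
      hq.ae (ae_all_iff.2 fun i => h'.cov (z i))] with w g1 g2 c1 c2
    have e1 : β • mv ee φ δ T w = β • w + cut (T.image ee) (β • (mv ee φ δ T w - w)) := by
      funext a
      simp only [Pi.add_apply, Pi.smul_apply, cut, Pi.sub_apply, smul_eq_mul]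
      split_ifs with ha
      · ring
      · rw [edge_mv_not δ ha, add_zero]
    rw [e1] at g2
    have h1 := edge_det N (β • w) (β • (mv ee φ δ T w - w)) (T.image ee) (by
      intro a ha
      obtain ⟨i, -, rfl⟩ := Finset.mem_image.1 ha
      rw [hee, tip_shE]
      exact hN i) (κ w) (κ' (mv ee φ δ T w)) g1 g2
    rw [Finset.sum_image (edge_inj hB).injOn] at h1
    have h2 : ∑ i ∈ T, (β • (mv ee φ δ T w - w)) (ee i) *
        (∫ σ, bond σ (ee i) ∂κ w - ∫ σ, bond σ (ee i) ∂κ' (mv ee φ δ T w)) =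
        β * (δ * ∑ i ∈ T, φ i w * (edgeAl κ e (shW (k • z i) w) -
          edgeAl κ' e (shW (k • z i) (mv ee φ δ T w)))) := by
      rw [Finset.mul_sum, Finset.mul_sum]
      refine Finset.sum_congr rfl fun i hi => ?_
      rw [Pi.smul_apply, Pi.sub_apply, edge_mv_mem hB δ hi, ← edge_cov (c1 i), ← edge_cov (c2 i),
        smul_eq_mul]
      ring
    have h3 : ∑ a ∈ cob (box N), |(β • w) a| = β * ∑ a ∈ cob (box N), |w a| := by
      rw [Finset.mul_sum]
      exact Finset.sum_congr rfl fun a _ => by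
        rw [Pi.smul_apply, smul_eq_mul, abs_mul, abs_of_pos hβ]
    rw [h2, h3, mul_left_comm 4 β] at h1
    exact le_of_mul_le_mul_left h1 hβ
  have h4 := integral_mono_ae ((integrable_finsetSum T hI).const_mul δ)
    ((integrable_finsetSum (cob (box N)) fun a _ => (edge_abs_int a).1).const_mul 4) key
  rw [integral_const_mul, integral_const_mul, integral_finsetSum T hI,
    integral_finsetSum _ fun a _ => (edge_abs_int a).1,
    Finset.sum_congr rfl fun a _ => (edge_abs_int a).2, Finset.sum_const, nsmul_eq_mul] at h4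
  have h5 : ((cob (box N)).card : ℝ) ≤ 8 * N := by exact_mod_cast card_cob_box N
  nlinarith [edge_G_nonneg]

lemma edge_sh_single (z : V) (e : E) (w : W) (t : ℝ) :
    shW z (w + Pi.single (shE z e) t) = shW z w + Pi.single e t := by
  funext a
  have : shW z (w + Pi.single (shE z e) t) a =
      w (shE z a) + (Pi.single (shE z e) t : W) (shE z a) := rfl
  rw [this, Pi.add_apply]
  congr 1
  by_cases h : a = e
  · rw [h, Pi.single_eq_same, Pi.single_eq_same]
  · rw [Pi.single_eq_of_ne h, Pi.single_eq_of_ne]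
    intro h1
    simp only [shE, Prod.mk.injEq, add_left_inj] at h1
    exact h (Prod.ext h1.1 h1.2)

/-- The volume bound. -/
lemma edge_low {κ κ' : Kernel W S} [IsMarkovKernel κ] [IsMarkovKernel κ'] (e : E) {ι : Type}
    [DecidableEq ι] {z : ι → V} {B : ι → Finset E} {φ : W → ℝ} (hφ : Measurable φ)
    (hB : Blocks (fun i => shE (z i) e) B fun i w => φ (shW (z i) w)) (δ : ℝ) {c : ℝ}
    (hc : c ≤ ∫ w, φ w * (edgeAl κ e w - edgeAl κ' e (w + Pi.single e (δ * φ w))) ∂P)
    {p : ℝ} (hp0 : 0 ≤ p) (hp1 : p ≤ 1) (J : Finset ι) {i : ι} (hi : i ∉ J) {g : W → ℝ}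
    (hg : Measurable g) (hg1 : ∀ w, |g w| ≤ 1) (Bg : Finset E) (hd : DependsOn g (Bg : Set E))
    {l : ℝ} (hl : 0 < l) :
    c - (2 * (l * ∫ w, |edgeAl κ' e w - g w| ∂P + 2 * (4 * Real.exp (δ ^ 2)) *
        Real.exp (J.card * p ^ 2 * (4 * Real.exp (δ ^ 2))) / l) + 2 * p * Bg.card) ≤
      ∑ T ∈ J.powerset, p ^ T.card * (1 - p) ^ (J.card - T.card) *
        ∫ w, φ (shW (z i) w) * (edgeAl κ e (shW (z i) w) - edgeAl κ' e (shW (z i)
          (mv (fun i => shE (z i) e) (fun i w => φ (shW (z i) w)) δ (insert i T) w))) ∂P := by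
  have ms := measurable_shW (z i)
  have h1 := mv_avg hB δ hp0 hp1 J hi (a := fun w => edgeAl κ' e (shW (z i) w))
    (g := fun w => g (shW (z i) w)) ((edge_meas κ' e).comp ms) (hg.comp ms)
    (fun _ => edge_abs κ' e _) (fun _ => hg1 _) (Bg.image (shE (z i)))
    (fun w w' hw => hd fun a ha => hw (shE (z i) a)
      (Finset.mem_coe.2 (Finset.mem_image_of_mem _ ha))) hl
  rw [edge_sh (z i) (f := fun w => |edgeAl κ' e w - g w|) ((edge_meas κ' e).sub hg).abs] at h1
  have h2 : ((Bg.image (shE (z i))).card : ℝ) ≤ Bg.card := by exact_mod_cast Finset.card_image_le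
  have mψ : Measurable fun w : W => w + Pi.single e (δ * φ w) := by
    refine measurable_pi_lambda _ fun a => (measurable_pi_apply a).add ?_
    by_cases h : a = e
    · simp only [h, Pi.single_eq_same]
      exact hφ.const_mul δ
    · simp only [Pi.single_eq_of_ne h]
      exact measurable_const
  replace hc := hc.trans_eq (edge_sh (z i) (f := fun w => φ w * (edgeAl κ e w -
    edgeAl κ' e (w + Pi.single e (δ * φ w))))
    (hφ.mul ((edge_meas κ e).sub ((edge_meas κ' e).comp mψ)))).symm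
  set ee : ι → E := fun i => shE (z i) e with hee
  set φφ : ι → W → ℝ := fun i w => φ (shW (z i) w) with hφφ
  have h3 : ∀ w, shW (z i) w + Pi.single e (δ * φ (shW (z i) w)) =
      shW (z i) (mv ee φφ δ {i} w) := fun w => by
    rw [mv, Finset.sum_singleton, edge_sh_single]
  simp only [h3] at hc
  have h4 : ∀ T ∈ J.powerset, p ^ T.card * (1 - p) ^ (J.card - T.card) * c -
      p ^ T.card * (1 - p) ^ (J.card - T.card) * ∫ w, |edgeAl κ' e (shW (z i)
        (mv ee φφ δ (insert i T) w)) - edgeAl κ' e (shW (z i) (mv ee φφ δ {i} w))| ∂P ≤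
      p ^ T.card * (1 - p) ^ (J.card - T.card) * ∫ w, φ (shW (z i) w) *
        (edgeAl κ e (shW (z i) w) - edgeAl κ' e (shW (z i) (mv ee φφ δ (insert i T) w))) ∂P := by
    intro T _
    rw [← mul_sub]
    refine mul_le_mul_of_nonneg_left ?_
      (mul_nonneg (pow_nonneg hp0 _) (pow_nonneg (sub_nonneg.2 hp1) _))
    exact (sub_le_sub_right hc _).trans (edge_swap (hφ.comp ms) ((edge_meas κ e).comp ms)
      ((edge_meas κ' e).comp (ms.comp (measurable_mv hB δ _)))
      ((edge_meas κ' e).comp (ms.comp (measurable_mv hB δ _))) (edge_phi hB i)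
      (fun _ => edge_abs κ e _) (fun _ => edge_abs κ' e _) (fun _ => edge_abs κ' e _))
  have h5 := Finset.sum_le_sum h4
  rw [Finset.sum_sub_distrib, ← Finset.sum_mul, bern_one, one_mul] at h5
  nlinarith

/-- A local sign and a small move that keep a definite gap. -/
lemma edge_gap {a b : W → ℝ} (ha : Measurable a) (hb : Measurable b) (ha1 : ∀ w, |a w| ≤ 1)
    (hb1 : ∀ w, |b w| ≤ 1) (e : E) {c : ℝ} (hc : 0 < c) (hc' : c ≤ ∫ w, |a w - b w| ∂P) :
    ∃ (B : Finset E) (φ : W → ℝ) (δ : ℝ), e ∈ B ∧ Measurable φ ∧ DependsOn φ (B : Set E) ∧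
      (∀ w, φ w = 1 ∨ φ w = -1) ∧ 0 < δ ∧
      c / 2 ≤ ∫ w, φ w * (a w - b (w + Pi.single e (δ * φ w))) ∂P := by
  obtain ⟨B, φ, hφ, hd, hs, h1⟩ := exists_sign (h := fun w => a w - b w) (ha.sub hb) (C := 2)
    (fun w => by linarith [abs_sub (a w) (b w), ha1 w, hb1 w]) (ε := c / 4) (by positivity)
  obtain ⟨δ, hδ, h2⟩ := shift_cont hb hb1 e (ε := c / 8) (by positivity)
  refine ⟨insert e B, φ, δ, Finset.mem_insert_self _ _, hφ,
    hd.mono (Finset.coe_subset.2 (Finset.subset_insert _ _)), hs, hδ, ?_⟩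
  have mψ : Measurable fun w : W => w + Pi.single e (δ * φ w) := by
    refine measurable_pi_lambda _ fun a => (measurable_pi_apply a).add ?_
    by_cases h : a = e
    · simp only [h, Pi.single_eq_same]
      exact hφ.const_mul δ
    · simp only [Pi.single_eq_of_ne h]
      exact measurable_const
  have h3 := edge_swap hφ ha hb (hb.comp mψ) (fun w => by rcases hs w with h | h <;> simp [h])
    ha1 hb1 (fun _ => hb1 _)
  have i1 := edge_bdd' (hb.comp (measurable_add_const (Pi.single e δ : W))) hb (fun _ => hb1 _) hb1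
  have i2 := edge_bdd' (hb.comp (measurable_add_const (Pi.single e (-δ) : W))) hb
    (fun _ => hb1 _) hb1
  have h4 : ∫ w, |b (w + Pi.single e (δ * φ w)) - b w| ∂P ≤
      ∫ w, |b (w + Pi.single e δ) - b w| + |b (w + Pi.single e (-δ)) - b w| ∂P := by
    refine integral_mono (edge_bdd' (hb.comp mψ) hb (fun _ => hb1 _) hb1) (i1.add i2) fun w => ?_
    dsimp only
    rcases hs w with h | h
    · rw [h, mul_one]
      exact le_add_of_nonneg_right (abs_nonneg _)
    · rw [h, mul_neg_one]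
      exact le_add_of_nonneg_left (abs_nonneg _)
  have h5 := integral_add i1 i2
  have h6 := h2 δ (abs_of_pos hδ).le
  have h7 := h2 (-δ) (by rw [abs_neg, abs_of_pos hδ])
  simp only [Function.comp_apply] at h1 h3 h5
  linarith

theorem edge_eq {β : ℝ} (hβ : 0 < β) {k : ℤ} (hk : 0 < k) {κ κ' : Kernel W S}
    (h : CovGibbs β k κ) (h' : CovGibbs β k κ') (e : E) :
    ∀ᵐ w ∂P, ∫ σ, bond σ e ∂κ w = ∫ σ, bond σ e ∂κ' w := by
  have := h.markov
  have := h'.markov
  have m := edge_meas κ e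
  have m' := edge_meas κ' e
  suffices h0 : ∫ w, |edgeAl κ e w - edgeAl κ' e w| ∂P ≤ 0 by
    have := (integral_eq_zero_iff_of_nonneg (fun _ => abs_nonneg _)
      (edge_bdd' m m' (edge_abs κ e) (edge_abs κ' e))).1
      (le_antisymm h0 (integral_nonneg fun _ => abs_nonneg _))
    filter_upwards [this] with w hw
    exact sub_eq_zero.1 (abs_eq_zero.1 hw)
  by_contra hc
  rw [not_le] at hc
  obtain ⟨B, φ, δ, heB, hφ, hd, hs, hδ, hgap⟩ :=
    edge_gap m m' (edge_abs κ e) (edge_abs κ' e) e hc le_rfl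
  generalize ∫ w, |edgeAl κ e w - edgeAl κ' e w| ∂P = c at hc hgap
  obtain ⟨c0, hgrid⟩ := exists_grid hk (B.image Prod.fst ∪ B.image tip)
  have hG := edge_G_nonneg
  obtain ⟨M, hM0, hM⟩ : ∃ M : ℝ, 0 < M ∧ 32 * c0 * edgeG < δ * M * (c / 4) := by
    refine ⟨128 * c0 * edgeG / (δ * c) + 1, by positivity, ?_⟩
    have : δ * (128 * c0 * edgeG / (δ * c) + 1) * (c / 4) = 32 * c0 * edgeG + δ * c / 4 := by
      field_simp
      ring
    rw [this]
    exact lt_add_of_pos_right _ (by positivity)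
  set a : ℝ := 4 * Real.exp (δ ^ 2) with ha
  have ha0 : 0 < a := by positivity
  obtain ⟨l, hl0, hl⟩ : ∃ l : ℝ, 0 < l ∧ 2 * a * Real.exp (M ^ 2 * a) / l ≤ c / 32 := by
    refine ⟨64 * a * Real.exp (M ^ 2 * a) / c, by positivity, le_of_eq ?_⟩
    field_simp
    ring
  obtain ⟨Bg, g, hg, hgd, hg1, hge⟩ := exists_local m' (edge_abs κ' e) (ε := c / (32 * l))
    (by positivity)
  obtain ⟨n, hn⟩ := exists_nat_ge (max M (32 * M * Bg.card / c))
  have hn1 : M ≤ n := (le_max_left _ _).trans hn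
  have hn2 : 32 * M * Bg.card / c ≤ n := (le_max_right _ _).trans hn
  have hn0 : (0 : ℝ) < n := hM0.trans_le hn1
  obtain ⟨z, hz1, hz2⟩ := hgrid n (by exact_mod_cast hn0)
  have hB : Blocks (fun i => shE (k • z i) e) (fun i => B.image (shE (k • z i)))
      fun i w => φ (shW (k • z i) w) := by
    refine ⟨fun i j hij => Finset.disjoint_left.2 fun x hx hy => ?_,
      fun i => Finset.mem_image_of_mem _ heB, fun i => hφ.comp (measurable_shW _),
      fun i w w' hw => hd fun a ha => hw (shE (k • z i) a)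
        (Finset.mem_coe.2 (Finset.mem_image_of_mem _ ha)), fun i w => hs _⟩
    obtain ⟨b, hb, rfl⟩ := Finset.mem_image.1 hx
    obtain ⟨b', hb', hbb⟩ := Finset.mem_image.1 hy
    exact hz1 i j hij b.1 (Finset.mem_union_left _ (Finset.mem_image_of_mem _ hb)) b'.1
      (Finset.mem_union_left _ (Finset.mem_image_of_mem _ hb')) (congrArg Prod.fst hbb).symm
  set p : ℝ := M / n with hp
  have hp0 : 0 ≤ p := by positivity
  have hp1 : p ≤ 1 := (div_le_one hn0).2 hn1
  have hpn : p * n = M := div_mul_cancel₀ _ hn0.ne'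
  set X : Fin n × Fin n → Finset (Fin n × Fin n) → ℝ := fun i T =>
    ∫ w, φ (shW (k • z i) w) * (edgeAl κ e (shW (k • z i) w) - edgeAl κ' e (shW (k • z i)
      (mv (fun i => shE (k • z i) e) (fun i w => φ (shW (k • z i) w)) δ T w))) ∂P with hX
  have up : ∀ T, δ * ∑ i ∈ T, X i T ≤ 32 * (c0 * n : ℕ) * edgeG := fun T =>
    edge_up hβ h h' e hB (c0 * n) (fun i =>
      ⟨hz2 i _ (Finset.mem_union_left _ (Finset.mem_image_of_mem _ heB)),
        hz2 i _ (Finset.mem_union_right _ (Finset.mem_image_of_mem _ heB))⟩) δ T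
  have low : ∀ i ∈ (Finset.univ : Finset (Fin n × Fin n)), c / 4 ≤
      ∑ T ∈ (Finset.univ.erase i).powerset,
        p ^ T.card * (1 - p) ^ ((Finset.univ.erase i).card - T.card) * X i (insert i T) := by
    intro i _
    refine le_trans ?_ (edge_low e (z := fun i => k • z i) hφ hB δ hgap hp0 hp1 _
      (Finset.notMem_erase i _) hg.measurable hg1 Bg hgd hl0)
    have c1 : ((Finset.univ.erase i).card : ℝ) ≤ n ^ 2 := by
      have := Finset.card_erase_le (s := (Finset.univ : Finset (Fin n × Fin n))) (a := i)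
      rw [Finset.card_univ, Fintype.card_prod, Fintype.card_fin, ← sq] at this
      exact_mod_cast this
    have c2 : ((Finset.univ.erase i).card : ℝ) * p ^ 2 ≤ M ^ 2 := by
      rw [← hpn, mul_pow, mul_comm]
      exact mul_le_mul_of_nonneg_left c1 (sq_nonneg _)
    have c3 : 2 * a * Real.exp ((Finset.univ.erase i).card * p ^ 2 * a) / l ≤ c / 32 := by
      refine le_trans ?_ hl
      gcongr
    have c4 : l * ∫ w, |edgeAl κ' e w - g w| ∂P ≤ c / 32 := by
      refine (mul_le_mul_of_nonneg_left hge hl0.le).trans (le_of_eq ?_)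
      field_simp
    have c5 : 2 * p * Bg.card ≤ c / 16 := by
      rw [div_le_iff₀ hc] at hn2
      refine le_of_mul_le_mul_right ?_ hn0
      calc 2 * p * Bg.card * n = 2 * (p * n) * Bg.card := by ring
        _ ≤ c / 16 * n := by rw [hpn]; linarith
    linarith
  have h1 := Finset.sum_le_sum low
  rw [Finset.sum_const, Finset.card_univ, Fintype.card_prod, Fintype.card_fin, nsmul_eq_mul] at h1
  have h2 := mul_le_mul_of_nonneg_left h1 hp0
  rw [← bern_sum] at h2
  have h3 : δ * ∑ T ∈ (Finset.univ : Finset (Fin n × Fin n)).powerset,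
      p ^ T.card * (1 - p) ^ ((Finset.univ : Finset (Fin n × Fin n)).card - T.card) *
        ∑ i ∈ T, X i T ≤ 32 * (c0 * n : ℕ) * edgeG := by
    refine le_of_le_of_eq ?_ ((congrArg (· * (32 * ((c0 * n : ℕ) : ℝ) * edgeG))
      (bern_one (Finset.univ : Finset (Fin n × Fin n)) p)).trans (one_mul _))
    rw [Finset.sum_mul, Finset.mul_sum]
    refine Finset.sum_le_sum fun T _ => ?_
    rw [mul_left_comm]
    exact mul_le_mul_of_nonneg_left (up T)
      (mul_nonneg (pow_nonneg hp0 _) (pow_nonneg (sub_nonneg.2 hp1) _))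
  have h4 := (mul_le_mul_of_nonneg_left h2 hδ.le).trans h3
  push_cast at h4
  have h5 : δ * (p * (n * n * (c / 4))) = δ * M * (c / 4) * n := by rw [← hpn]; ring
  rw [h5] at h4
  nlinarith

end Pool.Agent.MP_c70b3b_mp
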