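import Pool.Agent.MP_c70b3b_mp.Gib
import Pool.Agent.MP_c70b3b_mp.Ring

open MeasureTheory ProbabilityTheory Filter Topology
open scoped symmDiff ENNReal

namespace Pool.Agent.MP_c70b3b_mp

lemma edgedet_inner (L : Finset V) (K : W) (σ : S) :
    ∑ U ∈ L.powerset, Real.exp (en K (touch L \ cob L) (flp U σ)) =
      ∑ U ∈ L.powerset, Real.exp (en K (touch L \ cob L) (flp U 1)) := by
  classical
  rw [← gib_sum_flp L (fun σ => Real.exp (en K (touch L \ cob L) σ))
    (U := L.filter fun x => σ x ≠ 1) (Finset.filter_subset _ _) 1]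
  refine Finset.sum_congr rfl fun U _ => ?_
  congr 1
  refine Finset.sum_congr rfl fun e he => ?_
  have h1 := mem_touch.1 (Finset.mem_sdiff.1 he).1
  have h2 := (Finset.mem_sdiff.1 he).2
  rw [mem_cob, not_not] at h2
  have k : ∀ x ∈ L, flp U σ x = flp U (flp (L.filter fun x => σ x ≠ 1) 1) x := by
    intro x hx
    rcases Int.units_eq_one_or (σ x) with h | h <;> simp [flp, hx, h]
  simp only [bond]
  rw [k _ (by tauto), k _ (by tauto)]

lemma edgedet_split (L : Finset V) (K : W) (σ : S) :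
    |en K (touch L) σ - en K (touch L \ cob L) σ| ≤ ∑ e ∈ cob L, |K e| := by
  have : en K (touch L) σ - en K (touch L \ cob L) σ = en K (cob L) σ := by
    unfold en
    rw [← Finset.sum_sdiff (cob_subset_touch (Finset.Subset.refl L))]; ring
  rw [this]; exact abs_en_le _ _ _

lemma edgedet_half (L : Finset V) (K K' : W) (B : ℝ) (hB : ∑ e ∈ cob L, |K e| ≤ B)
    (hB' : ∑ e ∈ cob L, |K' e| ≤ B) (ρ : Measure S) [IsProbabilityMeasure ρ] (h : Gibbs K ρ) :
    Real.exp (∫ σ, en (K' - K) (touch L) σ ∂ρ) ≤ Real.exp (2 * B) *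
      ((∑ U ∈ L.powerset, Real.exp (en K' (touch L \ cob L) (flp U 1))) /
        ∑ U ∈ L.powerset, Real.exp (en K (touch L \ cob L) (flp U 1))) := by
  have hm := measurable_en (K' - K) (touch L)
  have hb : ∀ σ, |Real.exp (en (K' - K) (touch L) σ)| ≤
      Real.exp (∑ e ∈ touch L, |(K' - K) e|) := fun σ => by
    rw [abs_of_pos (Real.exp_pos _)]
    exact Real.exp_le_exp.2 ((le_abs_self _).trans (abs_en_le _ _ _))
  have h1 : Real.exp (∫ σ, en (K' - K) (touch L) σ ∂ρ) ≤
      ∫ σ, Real.exp (en (K' - K) (touch L) σ) ∂ρ :=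
    convexOn_exp.map_integral_le Real.continuous_exp.continuousOn isClosed_univ
      (Eventually.of_forall fun _ => Set.mem_univ _)
      (integrable_of_bdd hm _ (abs_en_le _ _)) (integrable_of_bdd hm.exp _ hb)
  refine h1.trans ?_
  rw [h.avg L hm.exp _ hb]
  have hp : ∀ (K : W) (F : Finset E) (σ : S),
      0 < ∑ U ∈ L.powerset, Real.exp (en K F (flp U σ)) := fun K F σ =>
    Finset.sum_pos (fun _ _ => Real.exp_pos _) ⟨∅, by simp⟩
  have hc : ∀ (f : S → ℝ) (c : ℝ), (∀ σ, 0 ≤ f σ) → (∀ σ, f σ ≤ c) → ∫ σ, f σ ∂ρ ≤ c :=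
    fun f c h0 h1 => (integral_mono_of_nonneg (Eventually.of_forall h0)
      (integrable_const c) (Eventually.of_forall h1)).trans (le_of_eq (by simp))
  refine hc _ _ (fun σ => by positivity) fun σ => ?_
  have e1 : ∀ τ, Real.exp (en (K' - K) (touch L) τ) * Real.exp (en K (touch L) τ) =
      Real.exp (en K' (touch L) τ) := fun τ => by
    rw [← Real.exp_add, ← en_add, sub_add_cancel]
  simp only [e1]
  rw [← edgedet_inner L K σ, ← edgedet_inner L K' σ, ← mul_div_assoc,
    div_le_div_iff₀ (hp _ _ _) (hp _ _ _)]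
  have u1 : ∑ U ∈ L.powerset, Real.exp (en K' (touch L) (flp U σ)) ≤
      Real.exp B * ∑ U ∈ L.powerset, Real.exp (en K' (touch L \ cob L) (flp U σ)) := by
    rw [Finset.mul_sum]
    refine Finset.sum_le_sum fun U _ => ?_
    rw [← Real.exp_add]
    have := abs_le.1 (edgedet_split L K' (flp U σ))
    exact Real.exp_le_exp.2 (by linarith)
  have u2 : ∑ U ∈ L.powerset, Real.exp (en K (touch L \ cob L) (flp U σ)) ≤
      Real.exp B * ∑ U ∈ L.powerset, Real.exp (en K (touch L) (flp U σ)) := by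
    rw [Finset.mul_sum]
    refine Finset.sum_le_sum fun U _ => ?_
    rw [← Real.exp_add]
    have := abs_le.1 (edgedet_split L K (flp U σ))
    exact Real.exp_le_exp.2 (by linarith)
  refine (mul_le_mul u1 u2 (hp _ _ _).le (by positivity)).trans (le_of_eq ?_)
  rw [two_mul, Real.exp_add]; ring

theorem edge_det (N : ℕ) (K D : W) (F : Finset E) (hF : ∀ e ∈ F, e.1 ∈ box N ∧ tip e ∈ box N)
    (ρ ρ' : Measure S) [IsProbabilityMeasure ρ] [IsProbabilityMeasure ρ'] (h : Gibbs K ρ)
    (h' : Gibbs (K + cut F D) ρ') :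
    ∑ e ∈ F, D e * (∫ σ, bond σ e ∂ρ - ∫ σ, bond σ e ∂ρ') ≤ 4 * ∑ e ∈ cob (box N), |K e| := by
  have hc : ∀ e ∈ cob (box N), cut F D e = 0 := fun e he => by
    have : e ∉ F := fun hf => (mem_cob.1 he) (iff_of_true (hF e hf).1 (hF e hf).2)
    simp [cut, this]
  have hB' : ∑ e ∈ cob (box N), |(K + cut F D) e| ≤ ∑ e ∈ cob (box N), |K e| :=
    le_of_eq (Finset.sum_congr rfl fun e he => by simp [hc e he])
  have hFt : F ⊆ touch (box N) := fun e he => mem_touch.2 (Or.inl (hF e he).1)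
  have h1 := edgedet_half (box N) K (K + cut F D) _ le_rfl hB' ρ h
  have h2 := edgedet_half (box N) (K + cut F D) K _ hB' le_rfl ρ' h'
  have hp : ∀ (K : W), 0 < ∑ U ∈ (box N).powerset,
      Real.exp (en K (touch (box N) \ cob (box N)) (flp U 1)) := fun K =>
    Finset.sum_pos (fun _ _ => Real.exp_pos _) ⟨∅, by simp⟩
  have h3 := mul_le_mul h1 h2 (Real.exp_pos _).le (by have := hp K; have := hp (K + cut F D); positivity)
  rw [mul_mul_mul_comm, div_mul_div_cancel₀ (hp _).ne', div_self (hp _).ne', mul_one,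
    ← Real.exp_add, ← Real.exp_add, Real.exp_le_exp] at h3
  have e1 : ∀ σ, en (K + cut F D - K) (touch (box N)) σ = en D F σ := fun σ => by
    rw [add_sub_cancel_left, en_cut D hFt]
  have e2 : ∀ σ, en (K - (K + cut F D)) (touch (box N)) σ = -en D F σ := fun σ => by
    rw [← e1]; simp only [en, ← Finset.sum_neg_distrib]
    exact Finset.sum_congr rfl fun e _ => by simp only [Pi.sub_apply]; ring
  have e3 : ∀ (r : Measure S) [IsProbabilityMeasure r],
      ∫ σ, en D F σ ∂r = ∑ e ∈ F, D e * ∫ σ, bond σ e ∂r := by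
    intro r _
    unfold en
    rw [integral_finsetSum _ fun e _ =>
      (integrable_of_bdd (measurable_bond e) 1 fun σ => (abs_bond σ e).le).const_mul _]
    simp_rw [integral_const_mul]
  simp only [e1, e2, integral_neg, e3] at h3
  simp only [mul_sub, Finset.sum_sub_distrib]
  linarith

end Pool.Agent.MP_c70b3b_mp
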