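import Pool.Agent.MP_c70b3b_mp.FlipB

open MeasureTheory ProbabilityTheory Filter Topology BoundedContinuousFunction
open scoped symmDiff ENNReal

namespace Pool.Agent.MP_c70b3b_mp

lemma lim_key {μ : ℕ → ProbabilityMeasure (W × S)} {ν : ProbabilityMeasure (W × S)}
    (hν : MapClusterPt ν atTop μ) {Φ : ProbabilityMeasure (W × S) → ℝ} (hΦ : Continuous Φ)
    {c : ℝ} (h : Tendsto (fun n => Φ (μ n)) atTop (𝓝 c)) : Φ ν = c := by
  have h1 : MapClusterPt (Φ ν) atTop (Φ ∘ μ) := hν.continuousAt_comp hΦ.continuousAt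
  have h2 : ClusterPt (Φ ν) (𝓝 c) := ClusterPt.mono h1 h
  exact eq_of_nhds_neBot h2

/-- A bounded continuous function times the weight `uu`. -/
noncomputable def limMul (β : ℝ) (x : V) (g : W × S →ᵇ ℝ) (T : W × S → W × S)
    (hT : Continuous T) : W × S →ᵇ ℝ :=
  BoundedContinuousFunction.ofNormedAddCommGroup (fun p => g (T p) * uu β x p)
    ((g.continuous.comp hT).mul (continuous_uu β x)) ‖g‖ (fun p => by
      rw [norm_mul, Real.norm_of_nonneg (uu_pos β x p).le]
      calc ‖g (T p)‖ * uu β x p ≤ ‖g‖ * 1 :=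
            mul_le_mul (g.norm_coe_le_norm _) (uu_le β x p) (uu_pos β x p).le (norm_nonneg _)
        _ = ‖g‖ := mul_one _)

lemma limMul_apply (β : ℝ) (x : V) (g : W × S →ᵇ ℝ) (T : W × S → W × S)
    (hT : Continuous T) (p : W × S) : limMul β x g T hT p = g (T p) * uu β x p := rfl

lemma lim_flip_cont (x : V) : Continuous fun p : W × S => (p.1, flp {x} p.2) :=
  continuous_fst.prodMk ((continuous_flp _).comp continuous_snd)

theorem compact_closure (μ : ℕ → ProbabilityMeasure (W × S))
    (h1 : ∀ n, (μ n : Measure (W × S)).map Prod.fst = P) : IsCompact (closure (Set.range μ)) := by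
  refine isCompact_closure_of_isTightMeasureSet (IsTightMeasureSet.prodMk ?_ ?_)
  · refine (isTightMeasureSet_singleton (μ := P)).subset ?_
    rintro _ ⟨_, ⟨_, ⟨n, rfl⟩, rfl⟩, rfl⟩
    exact h1 n
  · exact IsTightMeasureSet.of_compactSpace

lemma lim_fst (μ : ℕ → ProbabilityMeasure (W × S))
    (h1 : ∀ n, (μ n : Measure (W × S)).map Prod.fst = P) {ν : ProbabilityMeasure (W × S)}
    (hν : MapClusterPt ν atTop μ) : (ν : Measure (W × S)).map Prod.fst = P := by
  refine ext_of_forall_integral_eq_of_IsFiniteMeasure fun f => ?_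
  rw [integral_map measurable_fst.aemeasurable f.continuous.aestronglyMeasurable]
  let g : W × S →ᵇ ℝ := f.compContinuous ⟨Prod.fst, continuous_fst⟩
  refine lim_key hν (ProbabilityMeasure.continuous_integral_boundedContinuousFunction g)
    (c := ∫ w, f w ∂P) ?_
  refine tendsto_const_nhds.congr fun n => ?_
  rw [← h1 n, integral_map measurable_fst.aemeasurable f.continuous.aestronglyMeasurable]
  rfl

lemma lim_flip {β : ℝ} (μ : ℕ → ProbabilityMeasure (W × S)) (x : V)
    (h2 : ∀ᶠ n in atTop, FlipInv β x (μ n)) {ν : ProbabilityMeasure (W × S)}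
    (hν : MapClusterPt ν atTop μ) : FlipInv β x ν := by
  intro g
  have hc := (ProbabilityMeasure.continuous_integral_boundedContinuousFunction
    (limMul β x g _ (lim_flip_cont x))).sub
    (ProbabilityMeasure.continuous_integral_boundedContinuousFunction
    (limMul β x g _ continuous_id))
  have := lim_key hν hc (c := 0) (tendsto_const_nhds.congr' (by
    filter_upwards [h2] with n hn
    exact (sub_eq_zero.2 (hn g)).symm))
  exact sub_eq_zero.1 this

theorem isEA_of_cluster {β : ℝ} (μ : ℕ → ProbabilityMeasure (W × S))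
    (h1 : ∀ n, (μ n : Measure (W × S)).map Prod.fst = P)
    (h2 : ∀ x, ∀ᶠ n in atTop, FlipInv β x (μ n)) {ν : ProbabilityMeasure (W × S)}
    (hν : MapClusterPt ν atTop μ) : IsEA β ν :=
  isEA_of_flipInv (lim_fst μ h1 hν) fun x => lim_flip μ x (h2 x) hν

theorem inv_of_cluster (μ : ℕ → ProbabilityMeasure (W × S)) (z : V)
    (h : ∀ g : W × S →ᵇ ℝ, Tendsto (fun n => ∫ p, g (shift z p) ∂(μ n : Measure (W × S)) -
      ∫ p, g p ∂(μ n : Measure (W × S))) atTop (𝓝 0))
    {ν : ProbabilityMeasure (W × S)} (hν : MapClusterPt ν atTop μ) :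
    (ν : Measure (W × S)).map (shift z) = ν := by
  refine ext_of_forall_integral_eq_of_IsFiniteMeasure fun g => ?_
  rw [integral_map (measurable_shift z).aemeasurable g.continuous.aestronglyMeasurable]
  have hc := (ProbabilityMeasure.continuous_integral_boundedContinuousFunction
    (g.compContinuous ⟨shift z, continuous_shift z⟩)).sub
    (ProbabilityMeasure.continuous_integral_boundedContinuousFunction g)
  exact sub_eq_zero.1 (lim_key hν hc (c := 0) (h g))

/-- Partition function. -/
noncomputable def limZ (β : ℝ) (F : Finset E) (w : W) : ℝ≥0∞ :=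
  ∫⁻ σ, ENNReal.ofReal (Real.exp (en (β • w) F σ)) ∂unif

lemma lim_meas (β : ℝ) (F : Finset E) :
    Measurable fun p : W × S => ENNReal.ofReal (Real.exp (en (β • p.1) F p.2)) :=
  (measurable_en2 β F).exp.ennreal_ofReal

lemma limZ_meas (β : ℝ) (F : Finset E) : Measurable (limZ β F) :=
  (lim_meas β F).lintegral_prod_right'

lemma limZ_eq (β : ℝ) (F : Finset E) (w : W) : limZ β F w = tilt (β • w) F unif Set.univ := by
  simp [limZ, tilt]

lemma limZ_ne_top (β : ℝ) (F : Finset E) (w : W) : limZ β F w ≠ ⊤ := by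
  rw [limZ_eq]
  have := (gibbs_unif.tilt (β • w) F).1
  exact measure_ne_top _ _

lemma limZ_ne_zero (β : ℝ) (F : Finset E) (w : W) : limZ β F w ≠ 0 := by
  have h : ENNReal.ofReal (Real.exp (-∑ e ∈ F, |(β • w) e|)) ≤ limZ β F w := by
    calc ENNReal.ofReal (Real.exp (-∑ e ∈ F, |(β • w) e|))
        = ∫⁻ _, ENNReal.ofReal (Real.exp (-∑ e ∈ F, |(β • w) e|)) ∂unif := by simp
      _ ≤ limZ β F w := lintegral_mono fun σ => ENNReal.ofReal_le_ofReal
          (Real.exp_le_exp.2 (neg_le_of_abs_le (abs_en_le (β • w) F σ)))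
  exact (lt_of_lt_of_le (ENNReal.ofReal_pos.2 (Real.exp_pos _)) h).ne'

/-- Finite volume Gibbs kernel. -/
noncomputable def limK (β : ℝ) (F : Finset E) : Kernel W S :=
  Kernel.withDensity (Kernel.const W unif)
    fun w σ => (limZ β F w)⁻¹ * ENNReal.ofReal (Real.exp (en (β • w) F σ))

lemma limK_apply (β : ℝ) (F : Finset E) (w : W) :
    limK β F w = (limZ β F w)⁻¹ • tilt (β • w) F unif := by
  have hm : Measurable (Function.uncurry
      fun (w : W) (σ : S) => (limZ β F w)⁻¹ * ENNReal.ofReal (Real.exp (en (β • w) F σ))) :=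
    ((limZ_meas β F).inv.comp measurable_fst).mul (lim_meas β F)
  rw [limK, Kernel.withDensity_apply _ hm, Kernel.const_apply, tilt,
    ← withDensity_smul _ (measurable_en (β • w) F).exp.ennreal_ofReal]
  rfl

instance limK_markov (β : ℝ) (F : Finset E) : IsMarkovKernel (limK β F) := ⟨fun w => ⟨by
  rw [limK_apply, Measure.smul_apply, ← limZ_eq, smul_eq_mul]
  exact ENNReal.inv_mul_cancel (limZ_ne_zero β F w) (limZ_ne_top β F w)⟩⟩

lemma lim_en_eq (K : W) {F G : Finset E} (h : G ⊆ F) (σ : S) :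
    en (0 + cut F K) G σ = en K G σ := by
  unfold en
  refine Finset.sum_congr rfl fun e he => ?_
  simp [cut, h he]

lemma limK_flip (β : ℝ) {F : Finset E} {x : V} (hx : cob {x} ⊆ F) :
    FlipInv β x (P ⊗ₘ limK β F) := by
  refine flipInv_of_kernel _ (Eventually.of_forall fun w => ?_)
  have h := (gibbs_unif.tilt (β • w) F).2 x
  simp only [lim_en_eq _ hx] at h
  rw [limK_apply, Measure.map_smul, h, withDensity_smul_measure]

lemma lim_box (x : V) : ∀ᶠ n : ℕ in atTop, x ∈ box n := by
  filter_upwards [eventually_gt_atTop (x.1.natAbs + x.2.natAbs)] with n hn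
  simp only [box, Finset.mem_product, Finset.mem_Ico]
  omega

theorem exists_isEA (β : ℝ) : ∃ ν, IsEA β ν := by
  let μ : ℕ → ProbabilityMeasure (W × S) := fun n =>
    ⟨P ⊗ₘ limK β (touch (box n)), inferInstance⟩
  have h1 : ∀ n, (μ n : Measure (W × S)).map Prod.fst = P := fun n =>
    Measure.fst_compProd P (limK β (touch (box n)))
  have h2 : ∀ x, ∀ᶠ n in atTop, FlipInv β x (μ n) := fun x => by
    filter_upwards [lim_box x] with n hn
    exact limK_flip β (cob_subset_touch (Finset.singleton_subset_iff.2 hn))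
  obtain ⟨ν, -, hν⟩ := (compact_closure μ h1).exists_mapClusterPt (f := atTop) (u := μ)
    (tendsto_principal.2 (Eventually.of_forall fun n => subset_closure ⟨n, rfl⟩))
  exact ⟨ν, isEA_of_cluster μ h1 h2 hν⟩

end Pool.Agent.MP_c70b3b_mp
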