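import Pool.Agent.MP_c70b3b_mp.Main
import Pool.Agent.MP_c70b3b_mp.Lim
import Pool.Agent.MP_c70b3b_mp.Avg

open MeasureTheory ProbabilityTheory Filter Topology BoundedContinuousFunction
open scoped symmDiff ENNReal

namespace Pool.Agent.MP_c70b3b_mp

lemma final_diff {a : ℕ → V → ℝ} {C : ℝ} (ha : ∀ n y, |a n y| ≤ C) (z : V) :
    Tendsto (fun n => (∑ y ∈ box (n + 1), a n (z + y) - ∑ y ∈ box (n + 1), a n y) /
      (box (n + 1)).card) atTop (𝓝 0) := by
  set c : ℕ := z.1.natAbs + z.2.natAbs with hc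
  have hlim : Tendsto (fun n : ℕ => 4 * C * c * (1 / ((n : ℝ) + 1))) atTop (𝓝 0) := by
    simpa using tendsto_one_div_add_atTop_nhds_zero_nat.const_mul (4 * C * (c : ℝ))
  refine squeeze_zero_norm (fun n => ?_) hlim
  rw [norm_div, Real.norm_eq_abs, Real.norm_natCast, avg_card_box, div_le_iff₀ (by positivity)]
  refine (avg_sum_diff (ha n) z (n + 1)).trans (le_of_eq ?_)
  push_cast
  rw [hc]
  push_cast
  field_simp
  ring

lemma final_abs (ν : Measure (W × S)) [IsProbabilityMeasure ν] (g : W × S →ᵇ ℝ)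
    (T : W × S → W × S) : |∫ p, g (T p) ∂ν| ≤ ‖g‖ := by
  have := norm_integral_le_of_norm_le_const (μ := ν) (f := fun p => g (T p)) (C := ‖g‖)
    (Eventually.of_forall fun p => g.norm_coe_le_norm _)
  simpa using this

lemma final_shift (ν : ℕ → Measure (W × S)) [∀ n, IsProbabilityMeasure (ν n)] (z : V)
    (g : W × S →ᵇ ℝ) :
    Tendsto (fun n => ∫ p, g (shift z p) ∂avg n (ν n) - ∫ p, g p ∂avg n (ν n)) atTop (𝓝 0) := by
  have hs : ∀ y p, shift z (shift y p) = shift (z + y) p := fun y p => by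
    simp only [shift, add_assoc]
  refine (final_diff (a := fun n y => ∫ p, g (shift y p) ∂ν n)
    (fun n y => final_abs (ν n) g _) z).congr fun n => ?_
  have h1 := integral_avg n (ν n) (g.compContinuous ⟨shift z, continuous_shift z⟩)
  simp only [compContinuous_apply, ContinuousMap.coe_mk, hs] at h1
  rw [h1, integral_avg, sub_div]

lemma final_flip {β : ℝ} (ν : ℕ → Measure (W × S)) [∀ n, IsProbabilityMeasure (ν n)]
    (h : ∀ n, ∀ y ∈ box (n + 1), FlipInv β y (ν n)) (x : V) (g : W × S →ᵇ ℝ) :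
    Tendsto (fun n => ∫ p, limMul β x g _ (lim_flip_cont x) p ∂avg n (ν n) -
      ∫ p, limMul β x g _ continuous_id p ∂avg n (ν n)) atTop (𝓝 0) := by
  let a : ℕ → V → ℝ := fun n y =>
    ∫ p, limMul β x g _ (lim_flip_cont x) (shift (y - x) p) ∂ν n -
      ∫ p, limMul β x g _ continuous_id (shift (y - x) p) ∂ν n
  have ha : ∀ n y, |a n y| ≤ ‖limMul β x g _ (lim_flip_cont x)‖ +
      ‖limMul β x g _ continuous_id‖ := fun n y =>
    (abs_sub _ _).trans (add_le_add (final_abs _ _ _) (final_abs _ _ _))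
  have h0 : ∀ n, ∀ y ∈ box (n + 1), a n y = 0 := by
    intro n y hy
    have h3 := h n y hy (g.compContinuous ⟨shift (y - x), continuous_shift _⟩)
    have e : y = x + (y - x) := by abel
    simp only [a, limMul_apply, avg_uu_shift, avg_flp_shift, ← e, sub_eq_zero]
    exact h3
  refine (final_diff ha x).congr fun n => ?_
  rw [Finset.sum_eq_zero (h0 n), sub_zero, integral_avg, integral_avg, ← sub_div,
    ← Finset.sum_sub_distrib]
  simp only [a, add_sub_cancel_left]

theorem final {β : ℝ} (hβ : 0 ≤ β) : ∃ ν, IsEAOn β Set.univ ν ∧ (∀ z, ν.map (shift z) = ν) ∧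
    (∀ ν', IsEAOn β Set.univ ν' → IsPeriodic ν' → ν' = ν) ∧
    ∀ μ : ℕ → Measure (W × S), (∀ n, IsEAOn β (box n) (μ n)) → ∀ g : W × S →ᵇ ℝ,
      Tendsto (fun n : ℕ => (∑ z ∈ box n, ∫ p, g (shift z p) ∂μ n) / (box n).card)
        atTop (𝓝 (∫ p, g p ∂ν)) := by
  have key : ∀ ν' : ℕ → Measure (W × S), (∀ n, IsEAOn β (box (n + 1)) (ν' n)) →
      ∃ μ : ℕ → ProbabilityMeasure (W × S),
      (∀ n, (μ n : Measure (W × S)) = avg n (ν' n)) ∧ IsCompact (closure (Set.range μ)) ∧
      ∀ ν : ProbabilityMeasure (W × S), MapClusterPt ν atTop μ →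
        IsEA β ν ∧ ∀ z, (ν : Measure (W × S)).map (shift z) = ν := by
    intro ν' h
    have := fun n => (h n).1
    let μ : ℕ → ProbabilityMeasure (W × S) := fun n => ⟨avg n (ν' n), avg_prob n (ν' n)⟩
    have h1 : ∀ n, (μ n : Measure (W × S)).map Prod.fst = P := fun n => avg_fst n (h n).2.1
    refine ⟨μ, fun _ => rfl, compact_closure μ h1, fun ν hν =>
      ⟨isEA_of_flipInv (lim_fst μ h1 hν) fun x g => ?_,
       fun z => inv_of_cluster μ z (final_shift ν' z) hν⟩⟩
    have hc := (ProbabilityMeasure.continuous_integral_boundedContinuousFunction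
      (limMul β x g _ (lim_flip_cont x))).sub
      (ProbabilityMeasure.continuous_integral_boundedContinuousFunction
      (limMul β x g _ continuous_id))
    exact sub_eq_zero.1 (lim_key hν hc (c := 0)
      (final_flip ν' (fun n y hy => flipa_of_map (setup_flip' (h n) y hy)) x g))
  obtain ⟨ν0, h0⟩ := exists_isEA β
  obtain ⟨μ0, -, hc0, hk0⟩ := key (fun _ => ν0) fun _ => ⟨h0.1, h0.2.1, fun C η _ => h0.2.2 C η⟩
  obtain ⟨ν, -, hν⟩ := hc0.exists_mapClusterPt (f := atTop) (u := μ0)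
    (le_principal_iff.2 (mem_map.2 (Eventually.of_forall fun n => subset_closure ⟨n, rfl⟩)))
  obtain ⟨hEA, hinv⟩ := hk0 ν hν
  have hu : ∀ ν', IsEA β ν' → IsPeriodic ν' → ν' = ν := fun ν' h p =>
    periodic_unique hβ h hEA p ⟨1, one_pos, fun z => hinv _⟩
  refine ⟨ν, isEA_iff.1 hEA, hinv, fun ν' h => hu ν' (isEA_iff.2 h), fun ν' h g => ?_⟩
  have := fun n => (h n).1
  obtain ⟨μ, hμ, hc, hk⟩ := key (fun n => ν' (n + 1)) fun n => h (n + 1)
  have ht : Tendsto μ atTop (𝓝 ν) :=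
    hc.tendsto_nhds_of_unique_mapClusterPt
      (Eventually.of_forall fun n => subset_closure ⟨n, rfl⟩) fun ν1 _ h1 =>
        Subtype.ext (hu _ (hk ν1 h1).1 ⟨1, one_pos, fun z => (hk ν1 h1).2 _⟩)
  have := ProbabilityMeasure.tendsto_iff_forall_integral_tendsto.1 ht g
  rw [← tendsto_add_atTop_iff_nat 1]
  simpa only [hμ, integral_avg] using this

end Pool.Agent.MP_c70b3b_mp
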