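import Pool.Agent.MP_c70b3b_mp.Gib

open MeasureTheory ProbabilityTheory Filter Topology
open scoped symmDiff ENNReal

namespace Pool.Agent.MP_c70b3b_mp

/-- Forget the spin at `x`. -/
def setupPi (x : V) (p : W × S) : W × ({y // y ∉ ({x} : Finset V)} → ℤˣ) :=
  (p.1, fun y => p.2 y)

/-- Put the spin `s` at `x`. -/
def setupPut (x : V) (s : ℤˣ) (p : W × ({y // y ∉ ({x} : Finset V)} → ℤˣ)) : W × S :=
  (p.1, fun y => if h : y ∈ ({x} : Finset V) then s else p.2 ⟨y, h⟩)

/-- Replace the spin at `x` by `s`. -/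
def setupR (x : V) (s : ℤˣ) (p : W × S) : W × S := (p.1, glue {x} (fun _ => s) p.2)

/-- The density of the flipped measure. -/
noncomputable def setupD (β : ℝ) (x : V) (p : W × S) : ℝ≥0∞ :=
  ENNReal.ofReal (Real.exp (-2 * en (β • p.1) (cob {x}) p.2))

lemma setup_mPi (x : V) : Measurable (setupPi x) :=
  measurable_fst.prodMk (measurable_pi_lambda _ fun y =>
    (measurable_pi_apply y.1).comp measurable_snd)

lemma setup_mPut (x : V) (s : ℤˣ) : Measurable (setupPut x s) := by
  refine measurable_fst.prodMk (measurable_pi_lambda _ fun y => ?_)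
  split_ifs with h
  · exact measurable_const
  · exact (measurable_pi_apply _).comp measurable_snd

lemma setup_mR (x : V) (s : ℤˣ) : Measurable (setupR x s) :=
  (setup_mPut x s).comp (setup_mPi x)

lemma setup_mD (β : ℝ) (x : V) : Measurable (setupD β x) :=
  ((measurable_en2 β _).const_mul _).exp.ennreal_ofReal

lemma setup_mA (x : V) (s : ℤˣ) : MeasurableSet {p : W × S | p.2 x = s} :=
  (show Measurable fun p : W × S => p.2 x from (measurable_pi_apply x).comp measurable_snd)
    (measurableSet_singleton s)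

lemma setup_nonneg (β : ℝ) (C : Finset V) (η : C → ℤˣ) (p : W × S) : 0 ≤ boltz β C η p :=
  div_nonneg (Real.exp_pos _).le (Finset.sum_nonneg fun _ _ => (Real.exp_pos _).le)

lemma setup_key {β : ℝ} {ν : Measure (W × S)} {L : Set V} (h : IsEAOn β L ν) (x : V)
    (hx : x ∈ L) (s t : ℤˣ)
    {f : W × S → ℝ≥0∞} (hf : Measurable f) :
    ∫⁻ p in {p : W × S | p.2 x = s}, f (setupR x t p) ∂ν =
      ∫⁻ p, ENNReal.ofReal (boltz β {x} (fun _ => s) p) * f (setupR x t p) ∂ν := by
  have := h.1
  have h1 := h.2.2 {x} (fun _ => s) (by simpa using hx)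
  have hA : {p : W × S | ∀ y : ({x} : Finset V), p.2 y = s} = {p | p.2 x = s} := by
    ext p
    simp
  rw [hA] at h1
  have hm := (setup_mPi x).comap_le
  have hi : Integrable (boltz β {x} fun _ => s) ν := integrable_condExp.congr h1
  have h2 : (ν.restrict {p : W × S | p.2 x = s}).map (setupPi x) =
      (ν.withDensity fun p => ENNReal.ofReal (boltz β {x} (fun _ => s) p)).map (setupPi x) := by
    ext B hB
    have hB' := setup_mPi x hB
    rw [Measure.map_apply (setup_mPi x) hB, Measure.map_apply (setup_mPi x) hB,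
      Measure.restrict_apply hB', withDensity_apply _ hB',
      ← ofReal_integral_eq_lintegral_ofReal hi.integrableOn
        (Eventually.of_forall fun p => setup_nonneg _ _ _ p),
      ← setIntegral_congr_ae hB' (h1.mono fun p hp _ => hp)]
    erw [setIntegral_condExp hm ((integrable_const (1 : ℝ)).indicator (setup_mA x s)) ⟨B, hB, rfl⟩]
    rw [setIntegral_indicator (setup_mA x s), setIntegral_const, smul_eq_mul, mul_one,
      ofReal_measureReal]
  have h3 := congrArg (fun μ => ∫⁻ p, f (setupPut x t p) ∂μ) h2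
  have hf' : Measurable fun p => f (setupPut x t p) := hf.comp (setup_mPut x t)
  rw [lintegral_map hf' (setup_mPi x), lintegral_map hf' (setup_mPi x),
    lintegral_withDensity_eq_lintegral_mul₀ hi.1.aemeasurable.ennreal_ofReal
      (show Measurable fun p => f (setupPut x t (setupPi x p)) from
        hf'.comp (setup_mPi x)).aemeasurable] at h3
  exact h3

lemma setup_ham (β : ℝ) (x : V) (w : W) (σ : S) :
    -β * ham {x} w (flp {x} σ) = -β * ham {x} w σ + -2 * en (β • w) (cob {x}) σ := by
  have hs : cob {x} ⊆ (clo {x} ×ˢ (Finset.univ : Finset Bool)).filter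
      (fun e => tip e ∈ clo {x}) := by
    rintro ⟨y, b⟩ he
    rw [mem_cob] at he
    simp only [Finset.mem_filter, Finset.mem_product, Finset.mem_univ, and_true, clo,
      Finset.mem_union, Finset.mem_singleton, Finset.singleton_biUnion, Finset.mem_insert] at he ⊢
    by_cases h1 : y = x
    · subst h1
      cases b <;> simp [tip]
    · have h2 : tip (y, b) = x := by tauto
      subst h2
      cases b <;> simp [tip]
  have h1 : ∀ τ : S, ham {x} w τ = -∑ e ∈ (clo {x} ×ˢ (Finset.univ : Finset Bool)).filter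
      (fun e => tip e ∈ clo {x}), w e * bond τ e := fun τ => by
    simp only [ham, bond, sp, mul_assoc]
  rw [h1, h1, ← Finset.sum_sdiff hs, ← Finset.sum_sdiff hs, en,
    Finset.sum_congr rfl fun e he => by rw [bond_flp, if_neg (Finset.mem_sdiff.1 he).2],
    Finset.sum_congr (s₁ := cob {x}) rfl fun e he => by rw [bond_flp, if_pos he]]
  simp only [mul_neg, Finset.sum_neg_distrib, Pi.smul_apply, smul_eq_mul, mul_assoc,
    ← Finset.mul_sum]
  ring

lemma setup_boltz (β : ℝ) (x : V) (s : ℤˣ) (p : W × S) :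
    ENNReal.ofReal (boltz β {x} (fun _ => -s) p) =
      ENNReal.ofReal (boltz β {x} (fun _ => s) p) * setupD β x (setupR x s p) := by
  have h1 : glue {x} (fun _ => -s) p.2 = flp {x} (glue {x} (fun _ => s) p.2) := by
    funext y
    simp only [glue, flp]
    split_ifs <;> rfl
  rw [setupD, ← ENNReal.ofReal_mul (setup_nonneg _ _ _ _), boltz, boltz, h1, setup_ham,
    Real.exp_add, div_mul_eq_mul_div]
  rfl

lemma setup_split (ν : Measure (W × S)) (x : V) (s : ℤˣ) (f : W × S → ℝ≥0∞) :
    ∫⁻ p, f p ∂ν = ∫⁻ p in {p : W × S | p.2 x = s}, f p ∂ν +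
      ∫⁻ p in {p : W × S | p.2 x = -s}, f p ∂ν := by
  rw [← lintegral_add_compl f (setup_mA x s)]
  congr 3
  ext p
  simp [Int.units_ne_iff_eq_neg]

lemma setup_flip' {β : ℝ} {ν : Measure (W × S)} {L : Set V} (h : IsEAOn β L ν) (x : V)
    (hx : x ∈ L) :
    ν.map (Prod.map id (flp {x})) = ν.withDensity (setupD β x) := by
  have hT : Measurable (Prod.map id (flp {x}) : W × S → W × S) :=
    measurable_id.prodMap (measurable_flp _)
  have key : ∀ {f : W × S → ℝ≥0∞}, Measurable f → ∀ s : ℤˣ,
      ∫⁻ p in {p : W × S | p.2 x = -s}, f (Prod.map id (flp {x}) p) ∂ν =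
        ∫⁻ p in {p : W × S | p.2 x = s}, (setupD β x * f) p ∂ν := by
    intro f hf s
    have h1 : ∀ p ∈ {p : W × S | p.2 x = -s}, f (Prod.map id (flp {x}) p) = f (setupR x s p) := by
      intro p hp
      refine congrArg f (Prod.ext rfl (funext fun y => ?_))
      simp only [Prod.map_snd, flp, setupR, glue, Finset.mem_singleton]
      split_ifs with hy
      · rw [hy, hp, neg_neg]
      · rfl
    have h2 : ∀ p ∈ {p : W × S | p.2 x = s},
        (setupD β x * f) p = (setupD β x * f) (setupR x s p) := by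
      intro p hp
      refine congrArg _ (Prod.ext rfl (funext fun y => ?_))
      simp only [setupR, glue, Finset.mem_singleton]
      split_ifs with hy
      · rw [hy, hp]
      · rfl
    rw [setLIntegral_congr_fun (setup_mA x _) h1, setLIntegral_congr_fun (setup_mA x _) h2,
      setup_key h x hx _ s hf, setup_key h x hx _ s ((setup_mD β x).mul hf)]
    simp only [setup_boltz, Pi.mul_apply, mul_assoc]
  refine Measure.ext_of_lintegral _ fun f hf => ?_
  rw [lintegral_map hf hT, lintegral_withDensity_eq_lintegral_mul _ (setup_mD β x) hf,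
    setup_split ν x 1, setup_split ν x 1 (setupD β x * f), key hf 1, ← key hf (-1), neg_neg,
    add_comm]

lemma setup_flip {β : ℝ} {ν : Measure (W × S)} (h : IsEA β ν) (x : V) :
    ν.map (Prod.map id (flp {x})) = ν.withDensity (setupD β x) :=
  setup_flip' (isEA_iff.1 h) x (Set.mem_univ x)

lemma setup_gibbs {β : ℝ} {κ : Kernel W S} [IsMarkovKernel κ] (h : IsEA β (P ⊗ₘ κ)) (x : V) :
    ∀ᵐ w ∂P, (κ w).map (flp {x}) =
      (κ w).withDensity fun σ => ENNReal.ofReal (Real.exp (-2 * en (β • w) (cob {x}) σ)) := by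
  have hD := setup_mD β x
  have hg : Measurable fun p => (1 + setupD β x p)⁻¹ := (hD.const_add 1).inv
  have h0 : ∀ p, 1 + setupD β x p ≠ 0 := fun p => by simp
  have ht : ∀ p, 1 + setupD β x p ≠ ∞ := fun p => by simp [setupD]
  have := Kernel.IsMarkovKernel.map κ (measurable_flp {x})
  have : IsFiniteKernel ((κ.map (flp {x})).withDensity fun w σ => (1 + setupD β x (w, σ))⁻¹) :=
    Kernel.isFiniteKernel_withDensity_of_bounded _ ENNReal.one_ne_top fun w σ =>
      ENNReal.inv_le_one.2 le_self_add
  have : IsFiniteKernel (κ.withDensity fun w σ =>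
      setupD β x (w, σ) * (1 + setupD β x (w, σ))⁻¹) :=
    Kernel.isFiniteKernel_withDensity_of_bounded _ ENNReal.one_ne_top fun w σ =>
      (mul_le_mul_left le_add_self _).trans_eq (ENNReal.mul_inv_cancel (h0 _) (ht _))
  have h1 : P ⊗ₘ ((κ.map (flp {x})).withDensity fun w σ => (1 + setupD β x (w, σ))⁻¹) =
      P ⊗ₘ (κ.withDensity fun w σ => setupD β x (w, σ) * (1 + setupD β x (w, σ))⁻¹) := by
    rw [Measure.compProd_withDensity hg, Measure.compProd_withDensity (hD.mul hg),
      Measure.compProd_map (measurable_flp _), setup_flip h x, ← withDensity_mul _ hD hg]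
    rfl
  filter_upwards [Kernel.ae_eq_of_compProd_eq h1] with w hw
  rw [Kernel.withDensity_apply _ hg, Kernel.withDensity_apply _ (hD.mul hg),
    Kernel.map_apply _ (measurable_flp _)] at hw
  have hD' : Measurable fun σ => setupD β x (w, σ) := hD.comp measurable_prodMk_left
  have h2 := congrArg (fun μ : Measure S => μ.withDensity fun σ => 1 + setupD β x (w, σ)) hw
  have hg' : Measurable fun σ => (1 + setupD β x (w, σ))⁻¹ := (hD'.const_add 1).inv
  have hp : Measurable fun σ => setupD β x (w, σ) * (1 + setupD β x (w, σ))⁻¹ := hD'.mul hg'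
  rw [← withDensity_mul _ hg' (hD'.const_add 1), ← withDensity_mul _ hp (hD'.const_add 1)] at h2
  have h3 : ((fun σ => (1 + setupD β x (w, σ))⁻¹) * fun σ => 1 + setupD β x (w, σ)) = 1 :=
    funext fun σ => ENNReal.inv_mul_cancel (h0 _) (ht _)
  rw [h3, withDensity_one] at h2
  refine h2.trans (congrArg _ (funext fun σ => ?_))
  rw [Pi.mul_apply, mul_assoc, ENNReal.inv_mul_cancel (h0 _) (ht _), mul_one]
  rfl

lemma setup_cov {κ : Kernel W S} [IsMarkovKernel κ] (z : V)
    (h : (P ⊗ₘ κ).map (shift z) = P ⊗ₘ κ) : ∀ᵐ w ∂P, κ (shW z w) = (κ w).map (shS z) := by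
  have := Kernel.IsMarkovKernel.map κ (measurable_shS z)
  have hT : Measurable (shift z) := (measurable_shW z).prodMap (measurable_shS z)
  have h1 : P ⊗ₘ (κ.comap (shW z) (measurable_shW z)) = P ⊗ₘ (κ.map (shS z)) := by
    refine Measure.ext_prod fun {A B} hA hB => ?_
    have hA' := measurable_shW (-z) hA
    have h2 : A = shW z ⁻¹' (shW (-z) ⁻¹' A) := by
      ext w
      have : shW (-z) (shW z w) = w := by
        funext e
        simp [shW]
      simp [this]
    have h3 := congrArg (fun μ : Measure (W × S) => μ ((shW (-z) ⁻¹' A) ×ˢ B)) h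
    rw [Measure.map_apply hT (hA'.prod hB)] at h3
    have h4 : shift z ⁻¹' ((shW (-z) ⁻¹' A) ×ˢ B) = A ×ˢ (shS z ⁻¹' B) := by
      conv_rhs => rw [h2]
      rfl
    rw [h4, Measure.compProd_apply_prod hA (measurable_shS z hB),
      Measure.compProd_apply_prod hA' hB,
      ← (mp_shW z).setLIntegral_comp_preimage hA' (κ.measurable_coe hB), ← h2] at h3
    rw [Measure.compProd_apply_prod hA hB, Measure.compProd_apply_prod hA hB]
    simp only [Kernel.comap_apply, Kernel.map_apply' _ (measurable_shS z) _ hB]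
    exact h3.symm
  filter_upwards [Kernel.ae_eq_of_compProd_eq h1] with w hw
  rwa [Kernel.comap_apply, Kernel.map_apply _ (measurable_shS z)] at hw

theorem exists_kernel {β : ℝ} {k : ℤ} {ν : Measure (W × S)} (h : IsEA β ν)
    (hk : ∀ z : V, ν.map (shift (k • z)) = ν) :
    ∃ κ : Kernel W S, CovGibbs β k κ ∧ ν = P ⊗ₘ κ := by
  have := h.1
  have h1 : ν = P ⊗ₘ ν.condKernel := by
    have h2 : ν.fst = P := h.2.1
    rw [← h2, Measure.disintegrate]
  refine ⟨ν.condKernel, ⟨inferInstance, ?_, fun z => setup_cov _ (h1 ▸ hk z)⟩, h1⟩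
  filter_upwards [ae_all_iff.2 fun x => setup_gibbs (h1 ▸ h) x] with w hw
  exact ⟨inferInstance, hw⟩

end Pool.Agent.MP_c70b3b_mp
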