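import Pool.Agent.MP_c70b3b_mp.FlipDef
import Pool.Agent.MP_c70b3b_mp.Setup

open MeasureTheory ProbabilityTheory Filter Topology BoundedContinuousFunction
open scoped symmDiff ENNReal

namespace Pool.Agent.MP_c70b3b_mp

lemma flipa_cont (x : V) : Continuous (Prod.map id (flp {x}) : W × S → W × S) :=
  continuous_id.prodMap (continuous_flp _)

lemma flipa_meas (x : V) : Measurable (Prod.map id (flp {x}) : W × S → W × S) :=
  measurable_id.prodMap (measurable_flp _)

lemma flipa_inv (x : V) (p : W × S) :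
    Prod.map id (flp {x}) (Prod.map id (flp {x}) p) = p :=
  Prod.ext rfl (flp_flp _ _)

lemma flipa_uu (β : ℝ) (x : V) (p : W × S) :
    uu β x (Prod.map id (flp {x}) p) * Real.exp (-2 * en (β • p.1) (cob {x}) p.2) = uu β x p := by
  have h : en (β • p.1) (cob {x}) (flp {x} p.2) = -en (β • p.1) (cob {x}) p.2 := by
    rw [en_flp _ subset_rfl]; ring
  simp only [uu, Prod.map_fst, Prod.map_snd, id, h, neg_neg]
  rw [div_mul_eq_mul_div, ← Real.exp_add, add_comm (Real.exp _) (Real.exp _)]
  congr 2; ring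

lemma flipa_of_map {β : ℝ} {x : V} {ν : Measure (W × S)}
    (h : ν.map (Prod.map id (flp {x})) = ν.withDensity (setupD β x)) : FlipInv β x ν := by
  intro g
  have hG : Measurable fun q : W × S => g q * uu β x (Prod.map id (flp {x}) q) :=
    (g.continuous.mul ((continuous_uu β x).comp (flipa_cont x))).measurable
  have h1 := integral_map (μ := ν) (flipa_meas x).aemeasurable hG.aestronglyMeasurable
  simp only [flipa_inv] at h1
  refine h1.symm.trans ?_
  rw [h, integral_withDensity_eq_integral_toReal_smul (setup_mD β x)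
    (Eventually.of_forall fun _ => ENNReal.ofReal_lt_top)]
  congr 1; funext p
  rw [setupD, ENNReal.toReal_ofReal (Real.exp_pos _).le, smul_eq_mul, mul_comm, mul_assoc, flipa_uu]

lemma flipa_map_of {β : ℝ} {x : V} {ν : Measure (W × S)} [IsFiniteMeasure ν]
    (h : FlipInv β x ν) : ν.map (Prod.map id (flp {x})) = ν.withDensity (setupD β x) := by
  have hu : Measurable fun p => ENNReal.ofReal (uu β x p) :=
    (continuous_uu β x).measurable.ennreal_ofReal
  have h0 : ∀ p, ENNReal.ofReal (uu β x p) ≠ 0 := fun p =>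
    (ENNReal.ofReal_pos.2 (uu_pos β x p)).ne'
  have : IsFiniteMeasure (ν.withDensity fun p => ENNReal.ofReal (uu β x p)) := by
    refine isFiniteMeasure_withDensity_ofReal (Integrable.hasFiniteIntegral ?_)
    refine integrable_of_bdd (continuous_uu β x).measurable 1 fun p => ?_
    rw [abs_of_pos (uu_pos β x p)]
    exact uu_le β x p
  have hI : ∀ g : W × S → ℝ, ∫ p, g p ∂(ν.withDensity fun p => ENNReal.ofReal (uu β x p)) =
      ∫ p, g p * uu β x p ∂ν := fun g => by
    rw [integral_withDensity_eq_integral_toReal_smul hu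
      (Eventually.of_forall fun _ => ENNReal.ofReal_lt_top)]
    congr 1; funext p
    rw [ENNReal.toReal_ofReal (uu_pos β x p).le, smul_eq_mul, mul_comm]
  have h1 : (ν.withDensity fun p => ENNReal.ofReal (uu β x p)).map (Prod.map id (flp {x})) =
      ν.withDensity fun p => ENNReal.ofReal (uu β x p) := by
    refine ext_of_forall_integral_eq_of_IsFiniteMeasure fun g => ?_
    rw [integral_map (flipa_meas x).aemeasurable g.continuous.measurable.aestronglyMeasurable,
      hI, hI]
    exact h g
  refine Measure.ext_of_lintegral _ fun f hf => ?_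
  have hF : Measurable fun q => f q * (ENNReal.ofReal (uu β x (Prod.map id (flp {x}) q)))⁻¹ :=
    hf.mul (hu.comp (flipa_meas x)).inv
  have h2 := congrArg (fun μ => ∫⁻ q, f q *
    (ENNReal.ofReal (uu β x (Prod.map id (flp {x}) q)))⁻¹ ∂μ) h1
  have hF' : Measurable fun q => f (Prod.map id (flp {x}) q) * (ENNReal.ofReal (uu β x q))⁻¹ :=
    (hf.comp (flipa_meas x)).mul hu.inv
  simp only [lintegral_map hF (flipa_meas x), flipa_inv] at h2
  rw [lintegral_withDensity_eq_lintegral_mul _ hu hF,
    lintegral_withDensity_eq_lintegral_mul _ hu hF'] at h2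
  rw [lintegral_map hf (flipa_meas x), lintegral_withDensity_eq_lintegral_mul _ (setup_mD β x) hf]
  convert h2 using 3 with p p
  · rw [Pi.mul_apply, mul_left_comm, ENNReal.mul_inv_cancel (h0 _) ENNReal.ofReal_ne_top, mul_one]
  · rw [Pi.mul_apply, Pi.mul_apply, ← flipa_uu β x p, ENNReal.ofReal_mul (uu_pos _ _ _).le,
      mul_assoc, mul_comm (ENNReal.ofReal (uu _ _ _)), mul_assoc, mul_assoc,
      ENNReal.inv_mul_cancel (h0 _) ENNReal.ofReal_ne_top, mul_one]
    rfl

lemma flipa_gibbs {β : ℝ} {κ : Kernel W S} [IsMarkovKernel κ] {x : V}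
    (h : (P ⊗ₘ κ).map (Prod.map id (flp {x})) = (P ⊗ₘ κ).withDensity (setupD β x)) :
    ∀ᵐ w ∂P, (κ w).map (flp {x}) =
      (κ w).withDensity fun σ => ENNReal.ofReal (Real.exp (-2 * en (β • w) (cob {x}) σ)) := by
  have hD := setup_mD β x
  have hg : Measurable fun p => (1 + setupD β x p)⁻¹ := (hD.const_add 1).inv
  have h0 : ∀ p, 1 + setupD β x p ≠ 0 := fun p => by simp
  have ht : ∀ p, 1 + setupD β x p ≠ ∞ := fun p => by simp [setupD]
  have := Kernel.IsMarkovKernel.map κ (measurable_flp {x})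
  have : IsFiniteKernel ((κ.map (flp {x})).withDensity fun w σ => (1 + setupD β x (w, σ))⁻¹) :=
    Kernel.isFiniteKernel_withDensity_of_bounded _ ENNReal.one_ne_top fun w σ =>
      ENNReal.inv_le_one.2 le_self_add
  have : IsFiniteKernel (κ.withDensity fun w σ =>
      setupD β x (w, σ) * (1 + setupD β x (w, σ))⁻¹) :=
    Kernel.isFiniteKernel_withDensity_of_bounded _ ENNReal.one_ne_top fun w σ =>
      (mul_le_mul_left le_add_self _).trans_eq (ENNReal.mul_inv_cancel (h0 _) (ht _))
  have h1 : P ⊗ₘ ((κ.map (flp {x})).withDensity fun w σ => (1 + setupD β x (w, σ))⁻¹) =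
      P ⊗ₘ (κ.withDensity fun w σ => setupD β x (w, σ) * (1 + setupD β x (w, σ))⁻¹) := by
    rw [Measure.compProd_withDensity hg, Measure.compProd_withDensity (hD.mul hg),
      Measure.compProd_map (measurable_flp _), h, ← withDensity_mul _ hD hg]
    rfl
  filter_upwards [Kernel.ae_eq_of_compProd_eq h1] with w hw
  rw [Kernel.withDensity_apply _ hg, Kernel.withDensity_apply _ (hD.mul hg),
    Kernel.map_apply _ (measurable_flp _)] at hw
  have hD' : Measurable fun σ => setupD β x (w, σ) := hD.comp measurable_prodMk_left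
  have h2 := congrArg (fun μ : Measure S => μ.withDensity fun σ => 1 + setupD β x (w, σ)) hw
  have hg' : Measurable fun σ => (1 + setupD β x (w, σ))⁻¹ := (hD'.const_add 1).inv
  have hp : Measurable fun σ => setupD β x (w, σ) * (1 + setupD β x (w, σ))⁻¹ := hD'.mul hg'
  rw [← withDensity_mul _ hg' (hD'.const_add 1), ← withDensity_mul _ hp (hD'.const_add 1)] at h2
  have h3 : ((fun σ => (1 + setupD β x (w, σ))⁻¹) * fun σ => 1 + setupD β x (w, σ)) = 1 :=
    funext fun σ => ENNReal.inv_mul_cancel (h0 _) (ht _)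
  rw [h3, withDensity_one] at h2
  refine h2.trans (congrArg _ (funext fun σ => ?_))
  rw [Pi.mul_apply, mul_assoc, ENNReal.inv_mul_cancel (h0 _) (ht _), mul_one]
  rfl

theorem flipInv_of_kernel {β : ℝ} {x : V} (κ : Kernel W S) [IsMarkovKernel κ]
    (h : ∀ᵐ w ∂P, (κ w).map (flp {x}) = (κ w).withDensity
      fun σ => ENNReal.ofReal (Real.exp (-2 * en (β • w) (cob {x}) σ))) :
    FlipInv β x (P ⊗ₘ κ) := by
  refine flipa_of_map (Measure.ext_of_lintegral _ fun f hf => ?_)
  rw [lintegral_map hf (flipa_meas x), lintegral_withDensity_eq_lintegral_mul _ (setup_mD β x) hf,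
    Measure.lintegral_compProd (f := fun p => f (Prod.map id (flp {x}) p))
      (hf.comp (flipa_meas x)), Measure.lintegral_compProd ((setup_mD β x).mul hf)]
  refine lintegral_congr_ae (h.mono fun w hw => ?_)
  exact (gib_lint (gib_meas _ _ _)).1 hw (fun σ => f (w, σ)) (hf.comp measurable_prodMk_left)

theorem flipInv_of_isEA {β : ℝ} {ν : Measure (W × S)} (h : IsEA β ν) (x : V) :
    FlipInv β x ν :=
  flipa_of_map (setup_flip h x)

theorem gibbs_of_flipInv {β : ℝ} (κ : Kernel W S) [IsMarkovKernel κ]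
    (h : ∀ x, FlipInv β x (P ⊗ₘ κ)) : ∀ᵐ w ∂P, Gibbs (β • w) (κ w) := by
  filter_upwards [ae_all_iff.2 fun x => flipa_gibbs (flipa_map_of (h x))] with w hw
  exact ⟨inferInstance, hw⟩

end Pool.Agent.MP_c70b3b_mp
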