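import Pool.Agent.MP_c70b3b_mp.FlipA

open MeasureTheory ProbabilityTheory Filter Topology BoundedContinuousFunction
open scoped symmDiff ENNReal

namespace Pool.Agent.MP_c70b3b_mp

lemma flipb_sum (C : Finset V) (σ : S) (F : S → ℝ) :
    ∑ U ∈ C.powerset, F (flp U σ) = ∑ ζ : C → ℤˣ, F (glue C ζ σ) := by
  have h1 : ∀ U ∈ C.powerset, glue C (fun x => flp U σ x) σ = flp U σ := fun U hU => by
    funext x
    simp only [glue]
    split_ifs with hx
    · rfl
    · rw [flp, if_neg fun h => hx (Finset.mem_powerset.1 hU h)]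
  refine Finset.sum_bij' (fun U _ x => flp U σ x) (fun ζ _ => C.filter fun x => glue C ζ σ x ≠ σ x)
    (fun _ _ => Finset.mem_univ _) (fun _ _ => Finset.mem_powerset.2 (Finset.filter_subset _ _))
    (fun U hU => ?_) (fun ζ _ => ?_) fun U hU => by rw [h1 U hU]
  · ext x
    rw [h1 U hU, Finset.mem_filter, flp]
    by_cases hx : x ∈ U
    · simp [hx, Finset.mem_powerset.1 hU hx]
    · simp [hx]
  · funext x
    simp only [flp, glue, Finset.mem_filter, x.2, true_and, dif_pos]
    split_ifs with hx
    · exact (Int.units_ne_iff_eq_neg.1 hx).symm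
    · exact (not_not.1 hx).symm

lemma flipb_ham (β : ℝ) (C : Finset V) (w : W) (σ : S) : ∃ c : ℝ, ∀ ζ : C → ℤˣ,
    -β * ham C w (glue C ζ σ) = en (β • w) (touch C) (glue C ζ σ) + c := by
  have hs : touch C ⊆ (clo C ×ˢ (Finset.univ : Finset Bool)).filter (fun e => tip e ∈ clo C) := by
    rintro ⟨y, b⟩ he
    simp only [Finset.mem_filter, Finset.mem_product, Finset.mem_univ, and_true, clo,
      Finset.mem_union, Finset.mem_singleton, Finset.mem_biUnion, Finset.mem_insert]
    rcases mem_touch.1 he with h | h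
    · exact ⟨Or.inl h, Or.inr ⟨_, h, by cases b <;> simp [tip]⟩⟩
    · exact ⟨Or.inr ⟨_, h, by cases b <;> simp [tip]⟩, Or.inl h⟩
  refine ⟨en (β • w) ((clo C ×ˢ (Finset.univ : Finset Bool)).filter
    (fun e => tip e ∈ clo C) \ touch C) σ, fun ζ => ?_⟩
  have h1 : ∀ e ∈ (clo C ×ˢ (Finset.univ : Finset Bool)).filter
      (fun e => tip e ∈ clo C) \ touch C, (β • w) e * bond σ e =
        (β • w) e * bond (glue C ζ σ) e := fun e he => by
    have h2 := not_or.1 fun h => (Finset.mem_sdiff.1 he).2 (mem_touch.2 h)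
    simp only [bond, glue, dif_neg h2.1, dif_neg h2.2]
  rw [en, en, Finset.sum_congr rfl h1, add_comm, Finset.sum_sdiff hs, ham, neg_mul_neg,
    Finset.mul_sum]
  simp only [bond, sp, Pi.smul_apply, smul_eq_mul, mul_assoc]

lemma flipb_boltz (β : ℝ) (C : Finset V) (η : C → ℤˣ) (w : W) (σ : S) :
    boltz β C η (w, σ) = Real.exp (en (β • w) (touch C) (glue C η σ)) /
      ∑ ζ : C → ℤˣ, Real.exp (en (β • w) (touch C) (glue C ζ σ)) := by
  obtain ⟨c, hc⟩ := flipb_ham β C w σ
  simp only [boltz, hc, Real.exp_add, ← Finset.sum_mul]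
  exact mul_div_mul_right _ _ (Real.exp_pos c).ne'

lemma flipb_meas (β : ℝ) (C : Finset V) (η : C → ℤˣ) : Measurable (boltz β C η) := by
  have h1 : ∀ ζ : C → ℤˣ, Measurable fun p : W × S =>
      Real.exp (en (β • p.1) (touch C) (glue C ζ p.2)) := fun ζ => by
    have h2 : Measurable (glue C ζ) := by
      refine measurable_pi_lambda _ fun x => ?_
      unfold glue
      split_ifs
      · exact measurable_const
      · exact measurable_pi_apply x
    exact ((measurable_en2 β _).comp (measurable_fst.prodMk (h2.comp measurable_snd))).exp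
  rw [show boltz β C η = _ from funext fun p : W × S => flipb_boltz β C η p.1 p.2]
  exact (h1 η).div (Finset.measurable_sum _ fun ζ _ => h1 ζ)

lemma flipb_le (β : ℝ) (C : Finset V) (η : C → ℤˣ) (p : W × S) : |boltz β C η p| ≤ 1 := by
  rw [abs_of_nonneg (setup_nonneg β C η p)]
  exact div_le_one_of_le₀ (Finset.single_le_sum (f := fun ζ : C → ℤˣ =>
    Real.exp (-β * ham C p.1 (glue C ζ p.2))) (fun _ _ => (Real.exp_pos _).le) (Finset.mem_univ η))
    (Finset.sum_nonneg fun _ _ => (Real.exp_pos _).le)

theorem isEA_of_kernel {β : ℝ} (κ : Kernel W S) [IsMarkovKernel κ]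
    (h : ∀ᵐ w ∂P, Gibbs (β • w) (κ w)) : IsEA β (P ⊗ₘ κ) := by
  classical
  refine ⟨inferInstance, Measure.fst_compProd P κ, fun C η => ?_⟩
  have hπ : Measurable fun p : W × S => (p.1, fun x : {x // x ∉ C} => p.2 x) :=
    measurable_fst.prodMk (measurable_pi_lambda _ fun y =>
      (measurable_pi_apply y.1).comp measurable_snd)
  have hA : MeasurableSet {p : W × S | ∀ x : C, p.2 x = η x} := by
    rw [Set.ofPred_forall]
    exact MeasurableSet.iInter fun x => setup_mA x.1 (η x)
  have hf : Measurable (Set.indicator {p : W × S | ∀ x : C, p.2 x = η x} fun _ => (1 : ℝ)) :=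
    measurable_const.indicator hA
  have hi : Integrable (boltz β C η) (P ⊗ₘ κ) :=
    integrable_of_bdd (flipb_meas β C η) 1 (flipb_le β C η)
  have hi' := (integrable_const (μ := P ⊗ₘ κ) (1 : ℝ)).indicator hA
  refine (ae_eq_condExp_of_forall_setIntegral_eq hπ.comap_le hi' (fun s _ _ => hi.integrableOn)
    ?_ ?_).symm
  · rintro _ ⟨B, hB, rfl⟩ -
    have hB' := hπ hB
    rw [← integral_indicator hB', ← integral_indicator hB',
      Measure.integral_compProd (hi.indicator hB'), Measure.integral_compProd (hi'.indicator hB')]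
    refine integral_congr_ae (h.mono fun w hw => ?_)
    refine Eq.trans (integral_congr_ae (Eventually.of_forall fun σ => ?_))
      (hw.avg C ((hf.indicator hB').comp measurable_prodMk_left) 1 fun σ => ?_).symm
    · have h1 : ∀ ζ : C → ℤˣ, (fun x : {x // x ∉ C} => glue C ζ σ x) = fun x => σ x.1 :=
        fun ζ => funext fun x => dif_neg x.2
      have h2 : ∀ ζ : C → ℤˣ, (∀ x : C, glue C ζ σ x = η x) ↔ ζ = η := fun ζ => by
        simp only [glue, Finset.coe_mem, dif_pos, funext_iff]
      simp only [Function.comp]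
      rw [flipb_sum C σ fun τ => Real.exp (en (β • w) (touch C) τ),
        flipb_sum C σ fun τ => Set.indicator _ _ (w, τ) * Real.exp (en (β • w) (touch C) τ)]
      simp only [Set.indicator_apply, Set.mem_preimage, Set.mem_ofPred_eq, h1, h2, flipb_boltz]
      split_ifs <;> simp
    · simp only [Function.comp, Set.indicator_apply]
      split_ifs <;> simp
  · have h1 : Measurable fun p : W × ({x // x ∉ C} → ℤˣ) =>
        ((p.1, fun x => if h : x ∈ C then 1 else p.2 ⟨x, h⟩) : W × S) := by
      refine measurable_fst.prodMk (measurable_pi_lambda _ fun y => ?_)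
      split_ifs with h
      · exact measurable_const
      · exact (measurable_pi_apply _).comp measurable_snd
    have h2 := (((flipb_meas β C η).comp h1).comp (comap_measurable
      fun p : W × S => (p.1, fun x : {x // x ∉ C} => p.2 x))).stronglyMeasurable
    refine (h2.aestronglyMeasurable (μ := P ⊗ₘ κ)).congr (Eventually.of_forall fun p => ?_)
    have h3 : ∀ ζ : C → ℤˣ, glue C ζ (fun x => if x ∈ C then 1 else p.2 x) = glue C ζ p.2 :=
      fun ζ => funext fun x => by
        simp only [glue]
        split_ifs <;> rfl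
    simp only [Function.comp, boltz, dite_eq_ite, h3]

theorem isEA_of_flipInv {β : ℝ} {ν : Measure (W × S)} [IsProbabilityMeasure ν]
    (h1 : ν.map Prod.fst = P) (h : ∀ x, FlipInv β x ν) : IsEA β ν := by
  have h2 : ν = P ⊗ₘ ν.condKernel := by
    have h3 : ν.fst = P := h1
    rw [← h3, Measure.disintegrate]
  rw [h2]
  exact isEA_of_kernel _ (gibbs_of_flipInv _ fun x => h2 ▸ h x)

end Pool.Agent.MP_c70b3b_mp
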