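import Pool.Agent.MP_c70b3b_mp.Gib
import Pool.Agent.MP_c70b3b_mp.Ring

open MeasureTheory ProbabilityTheory Filter Topology BoundedContinuousFunction
open scoped symmDiff ENNReal

namespace Pool.Agent.MP_c70b3b_mp

instance : DiscreteTopology ℤˣ := inferInstance
instance : BorelSpace ℤˣ := inferInstance
instance : BorelSpace (W × S) := inferInstance
instance : PolishSpace (W × S) := {}

/-- Bounded continuous weight making the flip at `x` measure preserving. -/
noncomputable def uu (β : ℝ) (x : V) (p : W × S) : ℝ :=
  Real.exp (-en (β • p.1) (cob {x}) p.2) /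
    (Real.exp (en (β • p.1) (cob {x}) p.2) + Real.exp (-en (β • p.1) (cob {x}) p.2))

/-- The flip identity at `x`, tested on bounded continuous functions. -/
def FlipInv (β : ℝ) (x : V) (ν : Measure (W × S)) : Prop :=
  ∀ g : W × S →ᵇ ℝ, ∫ p, g (p.1, flp {x} p.2) * uu β x p ∂ν = ∫ p, g p * uu β x p ∂ν

lemma continuous_sp (x : V) : Continuous fun σ : S => sp (σ x) :=
  (continuous_of_discreteTopology (f := sp)).comp (continuous_apply x)

lemma continuous_en2 (β : ℝ) (F : Finset E) : Continuous fun p : W × S => en (β • p.1) F p.2 :=
  continuous_finsetSum _ fun e _ =>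
    (((continuous_apply e).comp continuous_fst).const_smul β).mul
      (((continuous_sp _).mul (continuous_sp _)).comp continuous_snd)

lemma continuous_flp (U : Finset V) : Continuous (flp U) := by
  refine continuous_pi fun x => ?_
  unfold flp; split_ifs
  · exact (continuous_of_discreteTopology (f := fun u : ℤˣ => -u)).comp (continuous_apply x)
  · exact continuous_apply x

lemma continuous_uu (β : ℝ) (x : V) : Continuous (uu β x) :=
  (continuous_en2 β _).neg.rexp.div
    ((continuous_en2 β _).rexp.add (continuous_en2 β _).neg.rexp) fun _ => by positivity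

lemma uu_pos (β : ℝ) (x : V) (p : W × S) : 0 < uu β x p := by unfold uu; positivity

lemma uu_le (β : ℝ) (x : V) (p : W × S) : uu β x p ≤ 1 := by
  unfold uu
  rw [div_le_one (by positivity)]
  exact le_add_of_nonneg_left (Real.exp_pos _).le

lemma continuous_shift (z : V) : Continuous (shift z) :=
  (continuous_pi fun _ => (continuous_apply _).comp continuous_fst).prodMk
    (continuous_pi fun _ => (continuous_apply _).comp continuous_snd)

lemma measurable_shift (z : V) : Measurable (shift z) := (continuous_shift z).measurable

/-- Spatial average of the translates over the box `[-(n+1), n+1)²`. -/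
noncomputable def avg (n : ℕ) (ν : Measure (W × S)) : Measure (W × S) :=
  ((box (n + 1)).card : ℝ≥0∞)⁻¹ • ∑ z ∈ box (n + 1), ν.map (shift z)

end Pool.Agent.MP_c70b3b_mp
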