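import Pool.Agent.MP_c70b3b_mp.Basic

open MeasureTheory ProbabilityTheory Filter Topology
open scoped symmDiff ENNReal

namespace Pool.Agent.MP_c70b3b_mp

lemma integrable_of_bdd {α : Type*} [MeasurableSpace α] {ρ : Measure α} [IsFiniteMeasure ρ]
    {g : α → ℝ} (hg : Measurable g) (C : ℝ) (hb : ∀ σ, |g σ| ≤ C) : Integrable g ρ :=
  Integrable.of_bound hg.aestronglyMeasurable C (Eventually.of_forall hb)

lemma en_flp (K : W) {F : Finset E} {U : Finset V} (hU : cob U ⊆ F) (σ : S) :
    en K F (flp U σ) = en K F σ - 2 * en K (cob U) σ := by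
  unfold en
  rw [← Finset.sum_sdiff hU, ← Finset.sum_sdiff hU (f := fun e => K e * bond σ e)]
  have h1 : ∑ e ∈ F \ cob U, K e * bond (flp U σ) e = ∑ e ∈ F \ cob U, K e * bond σ e :=
    Finset.sum_congr rfl fun e he => by rw [bond_flp, if_neg (Finset.mem_sdiff.1 he).2]
  have h2 : ∑ e ∈ cob U, K e * bond (flp U σ) e = -∑ e ∈ cob U, K e * bond σ e := by
    rw [← Finset.sum_neg_distrib]
    exact Finset.sum_congr rfl fun e he => by rw [bond_flp, if_pos he]; ring
  rw [h1, h2]; ring

lemma gib_meas (K : W) (c : ℝ) (F : Finset E) :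
    Measurable fun σ => ENNReal.ofReal (Real.exp (c * en K F σ)) :=
  ((measurable_en K F).const_mul c).exp.ennreal_ofReal

lemma gib_lint {ρ : Measure S} {U : Finset V} {d : S → ℝ≥0∞} (hd : Measurable d) :
    ρ.map (flp U) = ρ.withDensity d ↔
      ∀ g : S → ℝ≥0∞, Measurable g → ∫⁻ σ, g (flp U σ) ∂ρ = ∫⁻ σ, d σ * g σ ∂ρ := by
  constructor
  · intro h g hg
    rw [← lintegral_map hg (measurable_flp U), h, lintegral_withDensity_eq_lintegral_mul _ hd hg]
    rfl
  · intro h
    ext s hs
    have := h (s.indicator 1) (measurable_one.indicator hs)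
    rw [← lintegral_map (measurable_one.indicator hs) (measurable_flp U),
      lintegral_indicator_one hs] at this
    rw [this, withDensity_apply _ hs, ← lintegral_indicator hs]
    congr 1; funext σ
    by_cases h : σ ∈ s <;> simp [h]

lemma gib_cocycle (K : W) (U U' : Finset V) (σ : S) :
    en K (cob (U ∆ U')) σ = en K (cob U') σ + en K (cob U) (flp U' σ) := by
  have h1 := en_flp K (F := cob U ∪ cob U') (U := U ∆ U')
    (by rw [cob_symmDiff]; exact symmDiff_le_sup) σ
  have h2 := en_flp K (F := cob U ∪ cob U') (U := U) Finset.subset_union_left (flp U' σ)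
  have h3 := en_flp K (F := cob U ∪ cob U') (U := U') Finset.subset_union_right σ
  rw [flp_flp'] at h2
  linarith

lemma Gibbs.map_flp {K : W} {ρ : Measure S} (h : Gibbs K ρ) (U : Finset V) :
    ρ.map (flp U) = ρ.withDensity fun σ => ENNReal.ofReal (Real.exp (-2 * en K (cob U) σ)) := by
  induction U using Finset.induction_on with
  | empty =>
    have h1 : flp ∅ = id := by funext σ x; simp [flp]
    have h2 : cob ∅ = ∅ := by ext e; simp [mem_cob]
    simp [h1, h2, en]
  | insert x U hx ih =>
    have e1 : insert x U = U ∆ {x} := by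
      ext y; simp only [Finset.mem_insert, Finset.mem_symmDiff, Finset.mem_singleton]
      by_cases hy : y = x <;> simp [hy, hx]
    rw [gib_lint (gib_meas K _ _)] at ih ⊢
    have hx := (gib_lint (gib_meas K _ _)).1 (h.2 x)
    intro g hg
    rw [e1]
    simp_rw [← flp_flp']
    have e2 : ∀ σ, flp U (flp {x} σ) = flp {x} (flp U σ) := fun σ => by
      rw [flp_flp', flp_flp', symmDiff_comm]
    simp_rw [e2]
    rw [ih (fun σ => g (flp {x} σ)) (hg.comp (measurable_flp _))]
    have := hx (fun σ => ENNReal.ofReal (Real.exp (-2 * en K (cob U) (flp {x} σ))) * g σ)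
      (((gib_meas K _ _).comp (measurable_flp _)).mul hg)
    simp only [flp_flp] at this
    rw [this]
    congr 1; funext σ
    rw [← mul_assoc, ← ENNReal.ofReal_mul (Real.exp_pos _).le, ← Real.exp_add, gib_cocycle]
    congr 3; ring

lemma gib_integral (ρ : Measure S) {d : S → ℝ} (hd : Measurable d) (g : S → ℝ) :
    ∫ σ, g σ ∂(ρ.withDensity fun σ => ENNReal.ofReal (Real.exp (d σ))) =
      ∫ σ, g σ * Real.exp (d σ) ∂ρ := by
  rw [integral_withDensity_eq_integral_toReal_smul hd.exp.ennreal_ofReal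
    (Eventually.of_forall fun _ => ENNReal.ofReal_lt_top)]
  congr 1; funext σ
  rw [ENNReal.toReal_ofReal (Real.exp_pos _).le, smul_eq_mul, mul_comm]

lemma Gibbs.integral_flp {K : W} {ρ : Measure S} (h : Gibbs K ρ) (U : Finset V) {g : S → ℝ}
    (hg : Measurable g) :
    ∫ σ, g (flp U σ) ∂ρ = ∫ σ, g σ * Real.exp (-2 * en K (cob U) σ) ∂ρ := by
  rw [← integral_map (measurable_flp U).aemeasurable hg.aestronglyMeasurable, h.map_flp,
    gib_integral _ ((measurable_en K _).const_mul _)]

lemma Gibbs.ac {K : W} {ρ : Measure S} (h : Gibbs K ρ) (U : Finset V) : ρ.map (flp U) ≪ ρ := by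
  rw [h.map_flp]; exact withDensity_absolutelyContinuous _ _

lemma integral_tilt (K : W) (F : Finset E) (ρ : Measure S) (g : S → ℝ) :
    ∫ σ, g σ ∂tilt K F ρ = ∫ σ, g σ * Real.exp (en K F σ) ∂ρ :=
  gib_integral ρ (measurable_en K F) g

lemma tilt_ac (K : W) (F : Finset E) (ρ : Measure S) : tilt K F ρ ≪ ρ :=
  withDensity_absolutelyContinuous _ _

lemma en_add (K K' : W) (F : Finset E) (σ : S) : en (K + K') F σ = en K F σ + en K' F σ := by
  simp [en, add_mul, Finset.sum_add_distrib]

lemma en_cut (K : W) {F F' : Finset E} (h : F ⊆ F') (σ : S) : en (cut F K) F' σ = en K F σ := by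
  unfold en cut
  rw [← Finset.sum_subset h (fun e _ he => by simp [he])]
  exact Finset.sum_congr rfl fun e he => by simp [he]

lemma Gibbs.tilt {K : W} {ρ : Measure S} (h : Gibbs K ρ) (K' : W) (F : Finset E) :
    Gibbs (K + cut F K') (tilt K' F ρ) := by
  have := h.1
  have hm : Measurable fun σ => ENNReal.ofReal (Real.exp (en K' F σ)) :=
    (measurable_en K' F).exp.ennreal_ofReal
  refine ⟨?_, fun x => ?_⟩
  · refine isFiniteMeasure_withDensity_ofReal (Integrable.hasFiniteIntegral ?_)
    refine integrable_of_bdd (measurable_en K' F).exp (Real.exp (∑ e ∈ F, |K' e|)) fun σ => ?_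
    rw [abs_of_pos (Real.exp_pos _)]
    exact Real.exp_le_exp.2 ((le_abs_self _).trans (abs_en_le _ _ _))
  · rw [gib_lint (gib_meas _ _ _)]
    intro g hg
    unfold MP_c70b3b_mp.tilt
    rw [lintegral_withDensity_eq_lintegral_mul _ hm (g := fun σ => g (flp {x} σ))
        (hg.comp (measurable_flp _)),
      lintegral_withDensity_eq_lintegral_mul _ hm (g := fun σ => ENNReal.ofReal
        (Real.exp (-2 * en (K + cut F K') (cob {x}) σ)) * g σ) ((gib_meas _ _ _).mul hg)]
    have := (gib_lint (gib_meas K _ _)).1 (h.2 x)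
      (fun σ => ENNReal.ofReal (Real.exp (en K' F (flp {x} σ))) * g σ)
      ((hm.comp (measurable_flp _)).mul hg)
    simp only [flp_flp] at this
    simp only [Pi.mul_apply]
    refine this.trans ?_
    congr 1; funext σ
    rw [← mul_assoc, ← mul_assoc, ← ENNReal.ofReal_mul (Real.exp_pos _).le,
      ← ENNReal.ofReal_mul (Real.exp_pos _).le, ← Real.exp_add, ← Real.exp_add, en_add]
    have h1 := en_flp (cut F K') (F := F ∪ cob {x}) (U := {x}) Finset.subset_union_right σ
    rw [en_cut K' Finset.subset_union_left, en_cut K' Finset.subset_union_left] at h1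
    congr 3; linarith

instance : IsProbabilityMeasure unif := by unfold unif; infer_instance

lemma gib_unif_neg : (uniformOn (Set.univ : Set ℤˣ)).map (fun u => -u) = uniformOn Set.univ := by
  refine Measure.ext_of_singleton fun u => ?_
  rw [Measure.map_apply Measurable.of_discrete (measurableSet_singleton _)]
  have : (fun u : ℤˣ => -u) ⁻¹' {u} = {-u} := by ext v; simp [neg_eq_iff_eq_neg]
  rw [this, uniformOn_univ, uniformOn_univ]; simp

lemma gibbs_unif : Gibbs 0 unif := by
  refine ⟨inferInstance, fun x => ?_⟩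
  have h := Measure.infinitePi_map_pi (fun _ : V => uniformOn (Set.univ : Set ℤˣ))
    (f := fun y (u : ℤˣ) => if y ∈ ({x} : Finset V) then -u else u)
    (fun _ => Measurable.of_discrete)
  simp only [en, Pi.zero_apply, zero_mul, Finset.sum_const_zero, mul_zero, Real.exp_zero,
    ENNReal.ofReal_one]
  refine h.trans ?_
  rw [show (fun _ : S => (1 : ℝ≥0∞)) = 1 from rfl, withDensity_one]
  unfold unif
  congr 1; funext y
  split_ifs
  · exact gib_unif_neg
  · exact Measure.map_id

lemma unif_neg : unif.map (fun σ : S => -σ) = unif := by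
  have h := Measure.infinitePi_map_pi (fun _ : V => uniformOn (Set.univ : Set ℤˣ))
    (f := fun _ (u : ℤˣ) => -u) (fun _ => Measurable.of_discrete)
  refine h.trans ?_
  unfold unif
  congr 1; funext y
  exact gib_unif_neg

lemma unif_cyl (A : Finset V) (η : S) :
    unif.real {σ | ∀ x ∈ A, σ x = η x} = (1 / 2) ^ A.card := by
  have : {σ : S | ∀ x ∈ A, σ x = η x} = Set.pi (A : Set V) fun x => {η x} := by
    ext σ; simp [Set.mem_pi]
  rw [this, Measure.real, unif, Measure.infinitePi_pi _ fun _ _ => measurableSet_singleton _]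
  simp [uniformOn_univ]

lemma gib_sum_flp (L : Finset V) (f : S → ℝ) {U : Finset V} (hU : U ⊆ L) (σ : S) :
    ∑ U' ∈ L.powerset, f (flp U' (flp U σ)) = ∑ U' ∈ L.powerset, f (flp U' σ) := by
  have hm : ∀ U' ∈ L.powerset, U' ∆ U ∈ L.powerset := fun U' h =>
    Finset.mem_powerset.2 (symmDiff_le_sup.trans (sup_le (Finset.mem_powerset.1 h) hU))
  refine Finset.sum_nbij' (· ∆ U) (· ∆ U) hm hm (fun _ _ => symmDiff_symmDiff_cancel_right _ _)
    (fun _ _ => symmDiff_symmDiff_cancel_right _ _) fun U' _ => by rw [flp_flp']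

lemma cob_subset_touch {U L : Finset V} (hU : U ⊆ L) : cob U ⊆ touch L := fun e he => by
  have := mem_touch.1 (Finset.mem_filter.1 he).1
  exact mem_touch.2 (this.imp (fun h => hU h) (fun h => hU h))

/-- Finite volume DLR equation. -/
lemma Gibbs.avg {K : W} {ρ : Measure S} (h : Gibbs K ρ) (L : Finset V) {g : S → ℝ}
    (hg : Measurable g) (C : ℝ) (hb : ∀ σ, |g σ| ≤ C) :
    ∫ σ, g σ ∂ρ = ∫ σ, (∑ U ∈ L.powerset, g (flp U σ) * Real.exp (en K (touch L) (flp U σ))) /
      (∑ U ∈ L.powerset, Real.exp (en K (touch L) (flp U σ))) ∂ρ := by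
  have := h.1
  set Z : S → ℝ := fun σ => ∑ U ∈ L.powerset, Real.exp (en K (touch L) (flp U σ)) with hZ
  have hZp : ∀ σ, 0 < Z σ := fun σ =>
    Finset.sum_pos (fun _ _ => Real.exp_pos _) ⟨∅, by simp⟩
  have hZm : Measurable Z :=
    Finset.measurable_sum _ fun U _ => ((measurable_en _ _).comp (measurable_flp U)).exp
  have hle : ∀ U ∈ L.powerset, ∀ σ, Real.exp (en K (touch L) (flp U σ)) / Z σ ≤ 1 := fun U hU σ =>
    (div_le_one (hZp σ)).2 (Finset.single_le_sum
      (f := fun U => Real.exp (en K (touch L) (flp U σ))) (fun _ _ => (Real.exp_pos _).le) hU)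
  have hI : ∀ U ∈ L.powerset, ∀ f : S → ℝ, Measurable f → (∀ σ, |f σ| ≤ C) →
      Integrable (fun σ => f σ * Real.exp (en K (touch L) (flp U σ)) / Z σ) ρ := by
    intro U hU f hf hfb
    refine integrable_of_bdd
      ((hf.mul ((measurable_en _ _).comp (measurable_flp U)).exp).div hZm) C fun σ => ?_
    rw [mul_div_assoc, abs_mul, abs_of_pos (div_pos (Real.exp_pos _) (hZp σ))]
    exact (mul_le_of_le_one_right (abs_nonneg _) (hle U hU σ)).trans (hfb σ)
  have key : ∀ U ∈ L.powerset,
      ∫ σ, g (flp U σ) * Real.exp (en K (touch L) (flp U σ)) / Z σ ∂ρ =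
      ∫ σ, g σ * Real.exp (en K (touch L) (flp U σ)) / Z σ ∂ρ := by
    intro U hU
    have hU' := Finset.mem_powerset.1 hU
    have h1 := h.integral_flp U (g := fun σ => g σ * Real.exp (en K (touch L) σ) / Z σ)
      ((hg.mul (measurable_en _ _).exp).div hZm)
    have h2 : ∀ σ, Z (flp U σ) = Z σ := fun σ =>
      gib_sum_flp L (fun σ => Real.exp (en K (touch L) σ)) hU' σ
    simp only [h2] at h1
    rw [h1]
    congr 1; funext σ
    rw [en_flp K (cob_subset_touch hU'), sub_eq_add_neg, Real.exp_add, neg_mul]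
    ring
  simp_rw [Finset.sum_div]
  change _ = ∫ σ, ∑ U ∈ L.powerset, g (flp U σ) * Real.exp (en K (touch L) (flp U σ)) / Z σ ∂ρ
  rw [integral_finsetSum _ fun U hU => hI U hU (fun σ => g (flp U σ))
      (hg.comp (measurable_flp U)) fun σ => hb _,
    Finset.sum_congr rfl key, ← integral_finsetSum _ fun U hU => hI U hU g hg hb]
  congr 1; funext σ
  rw [← Finset.sum_div, ← Finset.mul_sum, mul_div_assoc, div_self (hZp σ).ne', mul_one]

lemma gib_ind (A : Finset V) (η σ : S) :
    Set.indicator {σ : S | ∀ x ∈ A, σ x = η x} (1 : S → ℝ) σ =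
      (1 / 2) ^ A.card * ∑ B ∈ A.powerset, chr B η * chr B σ := by
  simp_rw [← chr_mul]
  have : ∑ B ∈ A.powerset, chr B (η * σ) = ∏ x ∈ A, (1 + sp ((η * σ) x)) := by
    rw [Finset.prod_one_add]; rfl
  rw [this]
  by_cases h : ∀ x ∈ A, σ x = η x
  · rw [Set.indicator_of_mem (by exact h), Finset.prod_congr rfl (g := fun _ => (2 : ℝ))
      fun x hx => by rw [Pi.mul_apply, h x hx, sp_mul, sp_mul_self]; norm_num]
    simp [← mul_pow]
  · rw [Set.indicator_of_notMem (by exact h)]
    push Not at h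
    obtain ⟨x, hx, hne⟩ := h
    rw [Finset.prod_eq_zero hx, mul_zero]
    rw [Pi.mul_apply, sp_mul]
    rcases sp_cases (σ x) with h1 | h1 <;> rcases sp_cases (η x) with h2 | h2 <;>
      first | exact absurd (sp_inj (h1.trans h2.symm)) hne | simp [h1, h2]

lemma ext_chr {ρ ρ' : Measure S} [IsFiniteMeasure ρ] [IsFiniteMeasure ρ']
    (h : ∀ A : Finset V, ∫ σ, chr A σ ∂ρ = ∫ σ, chr A σ ∂ρ') : ρ = ρ' := by
  have hm : ∀ (A : Finset V) (η : S), MeasurableSet {σ : S | ∀ x ∈ A, σ x = η x} := by
    intro A η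
    have : {σ : S | ∀ x ∈ A, σ x = η x} = Set.pi (A : Set V) fun x => {η x} := by
      ext σ; simp [Set.mem_pi]
    rw [this]; exact MeasurableSet.pi A.countable_toSet fun _ _ => measurableSet_singleton _
  have key : ∀ (A : Finset V) (η : S),
      ρ {σ : S | ∀ x ∈ A, σ x = η x} = ρ' {σ : S | ∀ x ∈ A, σ x = η x} := by
    intro A η
    have k : ∀ (r : Measure S) [IsFiniteMeasure r], r.real {σ : S | ∀ x ∈ A, σ x = η x} =
        (1 / 2) ^ A.card * ∑ B ∈ A.powerset, chr B η * ∫ σ, chr B σ ∂r := by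
      intro r _
      rw [← integral_indicator_one (hm A η)]
      simp_rw [gib_ind]
      rw [integral_const_mul, integral_finsetSum _ fun B _ =>
        (integrable_of_bdd (measurable_chr B) 1 fun σ => (abs_chr B σ).le).const_mul _]
      simp_rw [integral_const_mul]
    rw [← measureReal_eq_measureReal_iff, k ρ, k ρ']
    simp_rw [h]
  have hA : ∀ A : Finset V, ρ.map A.restrict = ρ'.map A.restrict := by
    intro A
    refine Measure.ext_of_singleton fun η => ?_
    rw [Measure.map_apply (Finset.measurable_restrict A) (measurableSet_singleton _),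
      Measure.map_apply (Finset.measurable_restrict A) (measurableSet_singleton _)]
    have : (A.restrict : S → _) ⁻¹' {η} = {σ : S | ∀ x ∈ A, σ x = glue A η 1 x} := by
      ext σ
      simp only [Set.mem_preimage, Set.mem_singleton_iff, Set.mem_setOf_eq, funext_iff, glue]
      exact ⟨fun h x hx => by rw [dif_pos hx]; exact h ⟨x, hx⟩,
        fun h x => by have := h x.1 x.2; rwa [dif_pos x.2] at this⟩
    rw [this, key]
  exact IsProjectiveLimit.unique (P := fun A : Finset V => ρ.map A.restrict) (fun _ => rfl)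
    (fun A => (hA A).symm)

end Pool.Agent.MP_c70b3b_mp
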