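import Pool.Agent.MP_c70b3b_mp.GlueF
import Pool.Agent.MP_c70b3b_mp.Clu
import Pool.Agent.MP_c70b3b_mp.Alt
import Pool.Agent.MP_c70b3b_mp.Cliff

open MeasureTheory ProbabilityTheory Filter Topology
open scoped symmDiff ENNReal

namespace Pool.Agent.MP_c70b3b_mp

lemma glue_ends {N : ℕ} {e : E} (he : e ∈ touch (box N)) :
    e.1 ∈ {x | x ∈ box N ∨ ∃ k < 8 * N, x = bv N k} ∧
      tip e ∈ {x | x ∈ box N ∨ ∃ k < 8 * N, x = bv N k} := by
  by_cases hc : e ∈ cob (box N)
  · obtain ⟨k, hk, rfl⟩ := exists_port hc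
    obtain ⟨u, hu, h | h⟩ := port_ends hk
    · exact ⟨Or.inr ⟨k, hk, h.1⟩, Or.inl (h.2 ▸ hu)⟩
    · exact ⟨Or.inl (h.1 ▸ hu), Or.inr ⟨k, hk, h.2⟩⟩
  · rw [mem_cob, not_not] at hc
    rw [mem_touch] at he
    exact ⟨Or.inl (by tauto), Or.inl (by tauto)⟩

lemma glue_en_dep {N : ℕ} (K : W) {G : Finset E} (hG : G ⊆ touch (box N)) {σ τ : S}
    (h : ∀ x ∈ {x | x ∈ box N ∨ ∃ k < 8 * N, x = bv N k}, σ x = τ x) :
    en K G σ = en K G τ := by
  refine Finset.sum_congr rfl fun e he => ?_
  obtain ⟨h1, h2⟩ := glue_ends (hG he)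
  simp only [bond, h _ h1, h _ h2]

lemma glue_zero (K : W) (F : Finset E) {e : E} (he : e ∈ F) : (K + cut F (-K)) e = 0 := by
  simp [cut, he]

lemma glue_en_neg (K : W) (F : Finset E) (σ : S) : en (-K) F σ = -en K F σ := by
  simp [en]

lemma glue_main (N : ℕ) {K : W} {ρ : Measure S} (h : Gibbs K ρ) {g : S → ℝ}
    (hg : Measurable g) (hd : DependsOn g {x | x ∈ box N ∨ ∃ k < 8 * N, x = bv N k}) :
    ∫ σ, g σ ∂ρ = 2 ^ (8 * N) * ∑ η, ring N (tilt (-K) (touch (box N)) ρ) η *
      ∫ σ in {σ : S | ∀ i : Fin (8 * N), σ (bv N i) = η i},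
        g σ * Real.exp (en K (touch (box N)) σ) ∂unif := by
  rw [← glue_formula N (fun e he => glue_zero K _ he) (h.tilt (-K) _)
    (g := fun σ => g σ * Real.exp (en K (touch (box N)) σ)) (hg.mul (measurable_en K _).exp) fun σ τ hst => by
      simp only [hd hst, glue_en_dep K subset_rfl hst], integral_tilt]
  refine integral_congr_ae (Eventually.of_forall fun σ => ?_)
  simp only [glue_en_neg, mul_assoc, ← Real.exp_add, add_neg_cancel, Real.exp_zero, mul_one]

lemma glue_z (N : ℕ) (K : W) (η : Fin (8 * N) → ℤˣ) :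
    ring N (tilt K (touch (box N)) unif) η =
      ∫ σ in {σ : S | ∀ i : Fin (8 * N), σ (bv N i) = η i},
        1 * Real.exp (en K (touch (box N)) σ) ∂unif := by
  have h := ring_flip N K ∅ η
  have e : fl ∅ η = η := by funext i; simp [fl]
  rw [e] at h
  simpa [en] using h

lemma glue_meas (N : ℕ) (η : Fin (8 * N) → ℤˣ) :
    MeasurableSet {σ : S | ∀ i : Fin (8 * N), σ (bv N i) = η i} := by
  rw [Set.ofPred_forall]
  refine MeasurableSet.iInter fun i => ?_
  have hm : Measurable fun σ : S => σ (bv N i) := measurable_pi_apply _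
  exact hm (measurableSet_singleton (η i))

lemma glue_port_inj (N : ℕ) : Function.Injective fun i : Fin (8 * N) => port N i :=
  fun i j h => Fin.ext (port_inj i.2 j.2 h)

lemma glue_tel (a : ℕ → ZMod 2) (n : ℕ) :
    ∑ k ∈ Finset.range n, (a k + a (k + 1)) = a 0 + a n := by
  have h2 : ∀ a : ZMod 2, a + a = 0 := by decide
  induction n with
  | zero => simp [h2]
  | succ n ih => rw [Finset.sum_range_succ, ih]; linear_combination h2 (a n)

lemma glue_fbd (N : ℕ) (I : Finset (Fin (8 * N))) (r : V) :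
    fbd (I.image fun i : Fin (8 * N) => port N i) r =
      ∑ k ∈ I.map Fin.valEmbedding, (dl (rf N k) r + dl (rf N (k + 1)) r) := by
  rw [fbd, Finset.sum_image fun i _ j _ h => glue_port_inj N h, Finset.sum_map]
  refine Finset.sum_congr rfl fun i _ => ?_
  rw [← fbd_singleton, fbd_port i.2]; rfl

lemma glue_face (N : ℕ) (i : Fin (8 * N)) {I : Finset (Fin (8 * N))}
    (hI : I = Finset.Iio i ∨ I = Finset.Iic i) : ∃ p, Corner (bv N i) p ∧
      ∀ r, fbd (I.image fun i : Fin (8 * N) => port N i) r = dl (rf N 0) r + dl p r := by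
  rcases hI with rfl | rfl
  · refine ⟨_, (corner_rf i.2).1, fun r => ?_⟩
    rw [glue_fbd, Fin.map_valEmbedding_Iio, Nat.Iio_eq_range]
    exact glue_tel (fun k => dl (rf N k) r) _
  · refine ⟨_, (corner_rf i.2).2, fun r => ?_⟩
    rw [glue_fbd, Fin.map_valEmbedding_Iic, ← Nat.range_succ_eq_Iic]
    exact glue_tel (fun k => dl (rf N k) r) _

lemma glue_kc (N : ℕ) {K : W} {ρ : Measure S} (h : Gibbs K ρ) (i j : Fin (8 * N))
    (I : Finset (Fin (8 * N))) :
    kc K ρ (bv N i) (bv N j) (I.image fun i : Fin (8 * N) => port N i) =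
      2 ^ (8 * N) * ∑ η, ring N (tilt (-K) (touch (box N)) ρ) η *
        (sp (η i) * sp (η j) * ring N (tilt K (touch (box N)) unif) (fl I η)) := by
  have hG : (I.image fun i : Fin (8 * N) => port N i) ⊆ touch (box N) := fun e he => by
    obtain ⟨k, -, rfl⟩ := Finset.mem_image.1 he
    exact (Finset.mem_filter.1 (port_mem_cob k.2)).1
  rw [kc, glue_main N h (g := fun σ => sp (σ (bv N i)) * sp (σ (bv N j)) *
      Real.exp (-2 * en K (I.image fun i : Fin (8 * N) => port N i) σ)) (((measurable_sp _).mul (measurable_sp _)).mul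
    ((measurable_en K _).const_mul _).exp) fun σ τ hst => by
      simp only [hst _ (Or.inr ⟨_, i.2, rfl⟩), hst _ (Or.inr ⟨_, j.2, rfl⟩),
        glue_en_dep K hG hst]]
  congr 1
  refine Finset.sum_congr rfl fun η _ => ?_
  congr 1
  rw [ring_flip, ← integral_const_mul]
  refine setIntegral_congr_fun (glue_meas N η) fun σ hσ => ?_
  simp only [hσ i, hσ j, mul_assoc]

lemma glue_even (N : ℕ) (K : W) {A : Finset V} (hA : Even A.card) (η : Fin (8 * N) → ℤˣ) :
    ∫ σ in {σ : S | ∀ i : Fin (8 * N), σ (bv N i) = (-η) i},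
        chr A σ * Real.exp (en K (touch (box N)) σ) ∂unif =
      ∫ σ in {σ : S | ∀ i : Fin (8 * N), σ (bv N i) = η i},
        chr A σ * Real.exp (en K (touch (box N)) σ) ∂unif := by
  have hm : Measurable fun σ : S => -σ := measurable_pi_lambda _ fun x =>
    (Measurable.of_discrete (f := fun u : ℤˣ => -u)).comp (measurable_pi_apply x)
  conv_lhs => rw [← unif_neg]
  rw [setIntegral_map (f := fun σ => chr A σ * Real.exp (en K (touch (box N)) σ)) (glue_meas N _)
    ((measurable_chr A).mul (measurable_en K _).exp).aestronglyMeasurable hm.aemeasurable]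
  have e1 : (fun σ : S => -σ) ⁻¹' {σ : S | ∀ i : Fin (8 * N), σ (bv N i) = (-η) i} =
      {σ : S | ∀ i : Fin (8 * N), σ (bv N i) = η i} := by
    ext σ; simp
  rw [e1]
  refine integral_congr_ae (Eventually.of_forall fun σ => ?_)
  have e2 : chr A (-σ) = chr A σ := by
    simp only [chr, Pi.neg_apply, sp_neg]
    rw [Finset.prod_neg, hA.neg_one_pow, one_mul]
  have e3 : en K (touch (box N)) (-σ) = en K (touch (box N)) σ := by
    simp [en, bond, sp_neg]
  simp only [e2, e3]

theorem even_eq {K : W} {ρ ρ' : Measure S} [IsProbabilityMeasure ρ] [IsProbabilityMeasure ρ']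
    (h : Gibbs K ρ) (h' : Gibbs K ρ') (hkc : KCeq K ρ ρ')
    (u1 : ∀ᵐ p ∂ρ.prod ρ, UniqAll (p.1 * p.2)) (u2 : ∀ᵐ p ∂ρ.prod ρ', UniqAll (p.1 * p.2))
    (A : Finset V) (hA : Even A.card) : ∫ σ, chr A σ ∂ρ = ∫ σ, chr A σ ∂ρ' := by
  obtain ⟨N, -, hN⟩ := exists_box A
  have plu : ∀ {μ : Measure S} [IsProbabilityMeasure μ], Gibbs K μ →
      (∀ᵐ p ∂ρ.prod μ, UniqAll (p.1 * p.2)) →
      Plu (ring N (tilt (-K) (touch (box N)) ρ)) (ring N (tilt (-K) (touch (box N)) μ)) := by
    intro μ _ hμ u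
    have := (hμ.tilt (-K) (touch (box N))).1
    refine plu_of_alt N (touch (box N) : Set E)ᶜ
      (fun e he => glue_zero K _ (by simpa using he)) (h.tilt (-K) _) (hμ.tilt (-K) _) ?_
    filter_upwards [((tilt_ac (-K) _ ρ).prod (tilt_ac (-K) _ μ)).ae_le u] with p hp B hB h1 hno
    exact alt_out N _ hp B hB h1 hno
  have pz : Plu (ring N (tilt K (touch (box N)) unif)) (ring N (tilt K (touch (box N)) unif)) :=
    plu_of_alt N (touch (box N) : Set E) (K := 0 + cut (touch (box N)) K)
      (fun e he => by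
        have : e ∉ touch (box N) := he
        simp [cut, this])
      (gibbs_unif.tilt K _) (gibbs_unif.tilt K _)
      (Eventually.of_forall fun p B _ _ hno => alt_in N _ B hno)
  have one : ∀ {μ : Measure S} [IsProbabilityMeasure μ], Gibbs K μ →
      (2 : ℝ) ^ (8 * N) * ∑ η, ring N (tilt (-K) (touch (box N)) μ) η *
        ring N (tilt K (touch (box N)) unif) η = 1 := by
    intro μ _ hμ
    have := glue_main N hμ (g := fun _ => 1) measurable_const fun _ _ _ => rfl
    simp only [← glue_z] at this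
    rw [← this]; simp
  have h2 : (2 : ℝ) ^ (8 * N) ≠ 0 := by positivity
  have hd : DependsOn (chr A) {x | x ∈ box N ∨ ∃ k < 8 * N, x = bv N k} := fun σ τ hst =>
    Finset.prod_congr rfl fun x hx => by rw [hst x (Or.inl (hN hx))]
  have key := cliff_fin _ _ _ (plu h u1) (plu h' u2) pz (ring_neg N K) (ring_pos N K)
    (fun h0 => by simpa [h0] using one h)
    (by
      simp only [sub_mul, Finset.sum_sub_distrib]
      exact sub_eq_zero.2 (mul_left_cancel₀ h2 ((one h).trans (one h').symm)))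
    (fun i j I J hI hJ => by
      obtain ⟨p, hp, fp⟩ := glue_face N i hI
      obtain ⟨q, hq, fq⟩ := glue_face N j hJ
      have e := hkc _ p _ q ((I ∆ J).image fun i : Fin (8 * N) => port N i) hp hq fun r => by
        have h3 : ∀ a : ZMod 2, a + a = 0 := by decide
        rw [Finset.image_symmDiff _ _ (glue_port_inj N), fbd_symmDiff, fp, fq]
        linear_combination h3 (dl (rf N 0) r)
      rw [glue_kc N h, glue_kc N h'] at e
      simp only [sub_mul, Finset.sum_sub_distrib]
      exact sub_eq_zero.2 (mul_left_cancel₀ h2 e))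
    (fun η => ∫ σ in {σ : S | ∀ i : Fin (8 * N), σ (bv N i) = η i},
      chr A σ * Real.exp (en K (touch (box N)) σ) ∂unif) (glue_even N K hA)
  rw [glue_main N h (measurable_chr A) hd, glue_main N h' (measurable_chr A) hd]
  simp only [sub_mul, Finset.sum_sub_distrib] at key
  rw [sub_eq_zero.1 key]

end Pool.Agent.MP_c70b3b_mp
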