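import Pool.Agent.MP_c70b3b_mp.Gib
import Pool.Agent.MP_c70b3b_mp.Ring

open MeasureTheory ProbabilityTheory Filter Topology
open scoped symmDiff ENNReal

namespace Pool.Agent.MP_c70b3b_mp

lemma gluef_meas (N : ℕ) (η : Fin (8 * N) → ℤˣ) :
    MeasurableSet {σ : S | ∀ i : Fin (8 * N), σ (bv N i) = η i} := by
  have : {σ : S | ∀ i : Fin (8 * N), σ (bv N i) = η i} =
      ⋂ i : Fin (8 * N), (fun σ : S => σ (bv N i)) ⁻¹' {η i} := by ext σ; simp
  rw [this]
  exact MeasurableSet.iInter fun i => measurable_pi_apply _ (measurableSet_singleton _)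

lemma gluef_mphi (N : ℕ) : Measurable fun (σ : S) (i : Fin (8 * N)) => σ (bv N i) :=
  measurable_pi_lambda _ fun _ => measurable_pi_apply _

/-- A configuration with prescribed ring spins. -/
noncomputable def gluefExt (N : ℕ) (η : Fin (8 * N) → ℤˣ) : S :=
  fun x => if h : ∃ i : Fin (8 * N), bv N i = x then η h.choose else 1

lemma gluef_ext (N : ℕ) (η : Fin (8 * N) → ℤˣ) (i : Fin (8 * N)) :
    gluefExt N η (bv N i) = η i := by
  have h : ∃ j : Fin (8 * N), bv N j = bv N i := ⟨i, rfl⟩
  rw [gluefExt, dif_pos h]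
  congr 1
  exact Fin.ext (bv_inj h.choose.2 i.2 h.choose_spec)

lemma gluef_unif (N : ℕ) (η : Fin (8 * N) → ℤˣ) :
    unif.real {σ : S | ∀ i : Fin (8 * N), σ (bv N i) = η i} = (1 / 2) ^ (8 * N) := by
  have h := unif_cyl (Finset.univ.image fun i : Fin (8 * N) => bv N i) (gluefExt N η)
  rw [Finset.card_image_of_injective _ fun i j h => Fin.ext (bv_inj i.2 j.2 h), Finset.card_univ,
    Fintype.card_fin] at h
  rw [← h]; congr 1; ext σ
  simp [gluef_ext]

lemma gluef_bdd {g : S → ℝ} (D : Finset V) (hd : DependsOn g (D : Set V)) :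
    ∃ C, ∀ σ, |g σ| ≤ C := by
  obtain ⟨C, hC⟩ := (Set.finite_range fun η : D → ℤˣ => |g (glue D η 1)|).bddAbove
  refine ⟨C, fun σ => ?_⟩
  have : g σ = g (glue D (fun x => σ x) 1) := hd fun x hx => by
    simp only [glue]; rw [dif_pos (Finset.mem_coe.1 hx)]
  rw [this]; exact hC ⟨_, rfl⟩

lemma gluef_avg (N : ℕ) {g : S → ℝ}
    (hd : DependsOn g {x | x ∈ box N ∨ ∃ k < 8 * N, x = bv N k}) (σ : S) :
    ∑ U ∈ (box N).powerset, g (flp U σ) =
      ∑ U ∈ (box N).powerset, g (flp U (gluefExt N fun i => σ (bv N i))) := by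
  classical
  set τ := gluefExt N fun i => σ (bv N i)
  rw [← gib_sum_flp (box N) g (U := (box N).filter fun x => σ x ≠ τ x)
    (Finset.filter_subset _ _) τ]
  refine Finset.sum_congr rfl fun U _ => hd fun x hx => ?_
  have : σ x = flp ((box N).filter fun x => σ x ≠ τ x) τ x := by
    rcases hx with hx | ⟨k, hk, rfl⟩
    · simp only [flp, Finset.mem_filter, hx, true_and]
      rcases Int.units_eq_one_or (σ x) with h | h <;>
        rcases Int.units_eq_one_or (τ x) with h' | h' <;> simp [h, h']
    · simp only [flp, Finset.mem_filter, bv_not_mem hk, false_and, if_false]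
      exact (gluef_ext N (fun i => σ (bv N i)) ⟨k, hk⟩).symm
  simp only [flp] at this ⊢
  rw [this]

lemma gluef_red (N : ℕ) {K : W} (hK : ∀ e ∈ touch (box N), K e = 0) {ρ : Measure S}
    (h : Gibbs K ρ) {g : S → ℝ} (hg : Measurable g)
    (hd : DependsOn g {x | x ∈ box N ∨ ∃ k < 8 * N, x = bv N k}) :
    ∫ σ, g σ ∂ρ = ∑ η, ring N ρ η *
      ((∑ U ∈ (box N).powerset, g (flp U (gluefExt N η))) / 2 ^ (box N).card) := by
  have := h.1
  obtain ⟨C, hC⟩ := gluef_bdd (box N ∪ (Finset.range (8 * N)).image (bv N)) (g := g)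
    (hd.mono fun x hx => by
      rcases hx with hx | ⟨k, hk, rfl⟩
      · simp [hx]
      · simp only [Finset.coe_union, Set.mem_union, Finset.coe_image]
        exact Or.inr ⟨k, by simpa using hk, rfl⟩)
  have h0 : ∀ σ, en K (touch (box N)) σ = 0 := fun σ =>
    Finset.sum_eq_zero fun e he => by rw [hK e he, zero_mul]
  rw [h.avg (box N) hg C hC]
  simp only [h0, Real.exp_zero, mul_one, Finset.sum_const, Finset.card_powerset, nsmul_eq_mul,
    Nat.cast_pow, Nat.cast_ofNat]
  rw [show (fun σ => (∑ U ∈ (box N).powerset, g (flp U σ)) / 2 ^ (box N).card) = fun σ =>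
    (∑ U ∈ (box N).powerset, g (flp U (gluefExt N fun i => σ (bv N i)))) / 2 ^ (box N).card from
    funext fun σ => by rw [gluef_avg N hd σ]]
  let F : (Fin (8 * N) → ℤˣ) → ℝ := fun η =>
    (∑ U ∈ (box N).powerset, g (flp U (gluefExt N η))) / 2 ^ (box N).card
  have hm : Measurable F := Measurable.of_discrete
  have e := integral_map (μ := ρ) (gluef_mphi N).aemeasurable hm.aestronglyMeasurable
  refine e.symm.trans ?_
  rw [integral_fintype Integrable.of_finite]
  refine Finset.sum_congr rfl fun η _ => ?_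
  rw [smul_eq_mul, map_measureReal_apply (gluef_mphi N) (measurableSet_singleton _)]
  congr 2
  ext σ; simp [funext_iff]

/-- Gluing the inside of the box to a state whose couplings vanish on the edges touching it. -/
theorem glue_formula (N : ℕ) {K : W} (hK : ∀ e ∈ touch (box N), K e = 0) {ρ : Measure S}
    (h : Gibbs K ρ) {g : S → ℝ} (hg : Measurable g)
    (hd : DependsOn g {x | x ∈ box N ∨ ∃ k < 8 * N, x = bv N k}) :
    ∫ σ, g σ ∂ρ = 2 ^ (8 * N) * ∑ η, ring N ρ η *
      ∫ σ in {σ : S | ∀ i : Fin (8 * N), σ (bv N i) = η i}, g σ ∂unif := by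
  rw [gluef_red N hK h hg hd, Finset.mul_sum]
  refine Finset.sum_congr rfl fun η _ => ?_
  have hd' : DependsOn (Set.indicator {σ : S | ∀ i : Fin (8 * N), σ (bv N i) = η i} g)
      {x | x ∈ box N ∨ ∃ k < 8 * N, x = bv N k} := by
    intro σ τ hστ
    have : ∀ i : Fin (8 * N), σ (bv N i) = τ (bv N i) := fun i => hστ _ (Or.inr ⟨i, i.2, rfl⟩)
    simp only [Set.indicator, Set.mem_ofPred_eq, this, hd hστ]
    congr
  rw [← integral_indicator (gluef_meas N η), gluef_red N (K := 0) (fun _ _ => rfl) gibbs_unif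
    (hg.indicator (gluef_meas N η)) hd', Finset.sum_eq_single η]
  · have : ∀ U ∈ (box N).powerset,
        Set.indicator {σ : S | ∀ i : Fin (8 * N), σ (bv N i) = η i} g (flp U (gluefExt N η)) =
          g (flp U (gluefExt N η)) := fun U hU => Set.indicator_of_mem (fun i => by
      have : bv N i ∉ U := fun h => bv_not_mem i.2 (Finset.mem_powerset.1 hU h)
      simp [flp, this, gluef_ext]) _
    rw [Finset.sum_congr rfl this, ring, ring, gluef_unif]
    field_simp
    simp [← mul_pow]
  · intro ζ _ hζ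
    rw [Finset.sum_eq_zero, zero_div, mul_zero]
    intro U hU
    refine Set.indicator_of_notMem (fun h => hζ (funext fun i => ?_)) _
    have : bv N i ∉ U := fun h => bv_not_mem i.2 (Finset.mem_powerset.1 hU h)
    simpa [flp, this, gluef_ext] using h i
  · simp

lemma gluef_m (N : ℕ) (K : W) (η : Fin (8 * N) → ℤˣ) : Measurable fun σ : S =>
    Set.indicator {σ : S | ∀ i : Fin (8 * N), σ (bv N i) = η i} (1 : S → ℝ) σ *
      Real.exp (en K (touch (box N)) σ) :=
  ((measurable_one.indicator (gluef_meas N η)) :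
    Measurable (Set.indicator _ (1 : S → ℝ))).mul (measurable_en K (touch (box N))).exp

lemma gluef_ring (N : ℕ) (K : W) (η : Fin (8 * N) → ℤˣ) :
    ring N (tilt K (touch (box N)) unif) η =
      ∫ σ, Set.indicator {σ : S | ∀ i : Fin (8 * N), σ (bv N i) = η i} (1 : S → ℝ) σ *
        Real.exp (en K (touch (box N)) σ) ∂unif := by
  rw [ring, ← integral_indicator_one (gluef_meas N η), integral_tilt]

/-- Flipping ring spins is the same as reversing the couplings of the ports. -/
theorem ring_flip (N : ℕ) (K : W) (I : Finset (Fin (8 * N))) (η : Fin (8 * N) → ℤˣ) :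
    ring N (tilt K (touch (box N)) unif) (fl I η) =
      ∫ σ in {σ : S | ∀ i : Fin (8 * N), σ (bv N i) = η i},
        Real.exp (-2 * en K (I.image fun i : Fin (8 * N) => port N i) σ) *
          Real.exp (en K (touch (box N)) σ) ∂unif := by
  set U := I.image fun i : Fin (8 * N) => bv N i with hU
  have hmem : ∀ i : Fin (8 * N), bv N i ∈ U ↔ i ∈ I := fun i => by
    simp only [hU, Finset.mem_image]
    exact ⟨fun ⟨j, hj, h⟩ => by rwa [← Fin.ext (bv_inj j.2 i.2 h)], fun h => ⟨i, h, rfl⟩⟩
  have hout : ∀ x ∈ U, x ∉ box N := fun x hx => by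
    obtain ⟨i, -, rfl⟩ := Finset.mem_image.1 hx
    exact bv_not_mem i.2
  have h1 := gibbs_unif.integral_flp U (gluef_m N K (fl I η))
  have h0 : ∀ σ, en 0 (cob U) σ = 0 := fun σ => by simp [en]
  simp only [h0, mul_zero, Real.exp_zero, mul_one] at h1
  rw [gluef_ring, ← integral_indicator (gluef_meas N η)]
  refine h1.symm.trans ?_
  congr 1; funext σ
  have e1 : (flp U σ ∈ {σ : S | ∀ i : Fin (8 * N), σ (bv N i) = fl I η i}) ↔
      σ ∈ {σ : S | ∀ i : Fin (8 * N), σ (bv N i) = η i} := by
    refine forall_congr' fun i => ?_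
    simp only [flp, fl, hmem]
    split_ifs <;> simp
  by_cases hσ : σ ∈ {σ : S | ∀ i : Fin (8 * N), σ (bv N i) = η i}
  · rw [Set.indicator_of_mem (e1.2 hσ), Set.indicator_of_mem hσ, Pi.one_apply, one_mul,
      ← Real.exp_add]
    congr 1
    have hsub : (I.image fun i : Fin (8 * N) => port N i) ⊆ touch (box N) := fun e he => by
      obtain ⟨i, -, rfl⟩ := Finset.mem_image.1 he
      exact cob_subset_touch subset_rfl (port_mem_cob i.2)
    have hc : ∀ e ∈ touch (box N), e ∈ cob U ↔ e ∈ I.image fun i : Fin (8 * N) => port N i := by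
      intro e he
      have key : ∀ i : Fin (8 * N), port N i ∈ cob U ↔ i ∈ I := fun i => by
        obtain ⟨u, hu, h | h⟩ := port_ends i.2 <;> rw [mem_cob, h.1, h.2, hmem] <;>
          have := fun hh => hout u hh hu <;> tauto
      constructor
      · intro h
        have : e ∈ cob (box N) := by
          rw [mem_cob] at h ⊢
          rw [mem_touch] at he
          have a := hout e.1; have b := hout (tip e)
          tauto
        obtain ⟨k, hk, rfl⟩ := exists_port this
        exact Finset.mem_image.2 ⟨⟨k, hk⟩, (key ⟨k, hk⟩).1 h, rfl⟩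
      · intro h
        obtain ⟨i, hi, rfl⟩ := Finset.mem_image.1 h
        exact (key i).2 hi
    rw [← en_cut K hsub]
    simp only [en, Finset.mul_sum, ← Finset.sum_add_distrib]
    refine Finset.sum_congr rfl fun e he => ?_
    rw [bond_flp]
    simp only [cut, hc e he]
    split_ifs <;> ring
  · rw [Set.indicator_of_notMem (fun h => hσ (e1.1 h)), Set.indicator_of_notMem hσ, zero_mul]

theorem ring_pos (N : ℕ) (K : W) (η : Fin (8 * N) → ℤˣ) :
    0 < ring N (tilt K (touch (box N)) unif) η := by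
  have := (gibbs_unif.tilt K (touch (box N))).1
  refine ENNReal.toReal_pos (fun h => ?_) (measure_ne_top _ _)
  have h1 : unif ≪ tilt K (touch (box N)) unif :=
    withDensity_absolutelyContinuous' (measurable_en _ _).exp.ennreal_ofReal.aemeasurable
      (Eventually.of_forall fun σ => (ENNReal.ofReal_pos.2 (Real.exp_pos _)).ne')
  have h2 := gluef_unif N η
  rw [Measure.real, h1 h, ENNReal.toReal_zero] at h2
  exact absurd h2 (by positivity)

theorem ring_neg (N : ℕ) (K : W) (η : Fin (8 * N) → ℤˣ) :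
    ring N (tilt K (touch (box N)) unif) (-η) = ring N (tilt K (touch (box N)) unif) η := by
  have hm : Measurable fun σ : S => -σ := measurable_pi_lambda _ fun x =>
    (Measurable.of_discrete (f := fun u : ℤˣ => -u)).comp (measurable_pi_apply x)
  rw [gluef_ring, gluef_ring]
  conv_lhs => rw [← unif_neg]
  rw [integral_map hm.aemeasurable (gluef_m N K (-η)).aestronglyMeasurable]
  congr 1; funext σ
  simp [Set.indicator, en, bond, sp_neg]

end Pool.Agent.MP_c70b3b_mp
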