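import Pool.Agent.MP_c70b3b_mp.OddDet
import Pool.Agent.MP_c70b3b_mp.Approx

open MeasureTheory ProbabilityTheory Filter Topology
open scoped symmDiff ENNReal

namespace Pool.Agent.MP_c70b3b_mp

lemma odd_meas (κ : Kernel W S) [IsMarkovKernel κ] (A : Finset V) :
    Measurable fun w => ∫ σ, chr A σ ∂κ w :=
  ((measurable_chr A).stronglyMeasurable.integral_kernel (κ := κ)).measurable

lemma odd_abs (κ : Kernel W S) [IsMarkovKernel κ] (A : Finset V) (w : W) :
    |∫ σ, chr A σ ∂κ w| ≤ 1 := by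
  have h := norm_integral_le_of_norm_le_const (μ := κ w) (f := chr A) (C := 1)
    (Eventually.of_forall fun σ => by rw [Real.norm_eq_abs, abs_chr])
  simpa using h

lemma odd_chr_shS (A : Finset V) (z : V) (σ : S) :
    chr A (shS z σ) = chr (A.image (· + z)) σ := by
  unfold chr
  rw [Finset.prod_image (fun x _ y _ h => add_right_cancel h)]
  rfl

lemma odd_blk {ι : Type} [Fintype ι] [DecidableEq ι] (B : ι → Finset V)
    (hB : ∀ i j, i ≠ j → Disjoint (B i) (B j)) (s : ι → ℤˣ) {i : ι} {x : V} (hx : x ∈ B i) :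
    blk B s x = s i := by
  unfold blk
  rw [Finset.prod_eq_single i]
  · simp [hx]
  · intro j _ hj
    rw [if_neg (Finset.disjoint_left.1 (hB i j (Ne.symm hj)) hx)]
  · simp

lemma odd_term {β : ℝ} {k : ℤ} {κ : Kernel W S} (h : CovGibbs β k κ) (A : Finset V)
    {φ : W → ℝ} (hφ : Measurable φ) (z : V) (g : S)
    (hg : ∀ w, φ (shW (k • z) (gauge g w)) = φ (shW (k • z) w)) :
    ∫ w, φ (shW (k • z) w) * ∫ σ, chr (A.image (· + k • z)) σ ∂κ (gauge g w) ∂P
      = ∫ w, φ w * ∫ σ, chr A σ ∂κ w ∂P := by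
  have := h.markov
  have m1 : Measurable fun w => φ (shW (k • z) w) * ∫ σ, chr (A.image (· + k • z)) σ ∂κ w :=
    (hφ.comp (measurable_shW _)).mul (odd_meas κ _)
  have m2 : Measurable fun w => φ w * ∫ σ, chr A σ ∂κ w := hφ.mul (odd_meas κ _)
  have e1 := integral_map (μ := P) (φ := gauge g) (measurable_gauge g).aemeasurable
    (f := fun w => φ (shW (k • z) w) * ∫ σ, chr (A.image (· + k • z)) σ ∂κ w)
    m1.aestronglyMeasurable
  rw [(mp_gauge g).map_eq] at e1
  have e2 := integral_map (μ := P) (φ := shW (k • z)) (measurable_shW _).aemeasurable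
    (f := fun w => φ w * ∫ σ, chr A σ ∂κ w) m2.aestronglyMeasurable
  rw [(mp_shW _).map_eq] at e2
  simp only [hg] at e1
  rw [← e1, e2]
  refine integral_congr_ae ?_
  filter_upwards [h.cov z] with w hw
  rw [hw, integral_map (measurable_shS _).aemeasurable (measurable_chr A).aestronglyMeasurable]
  simp only [odd_chr_shS]

lemma odd_num {c : ℝ} (hc : 0 < c) (c0 : ℕ) : ∃ n : ℕ, 0 < n ∧
    (n : ℝ) ^ 2 * (c / 4) + 2 ^ (8 * (c0 * n)) *
      Real.exp ((n : ℝ) ^ 2 * (c / 4) ^ 2 / 2 - c / 4 * ((n : ℝ) ^ 2 * (c / 4))) / (c / 4)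
      < (n : ℝ) ^ 2 * (c / 2) := by
  obtain ⟨n, hn⟩ := exists_nat_gt (256 * c0 / c ^ 2 + 4 / c)
  have h1 : (0 : ℝ) ≤ 256 * c0 / c ^ 2 := by positivity
  have h2 : (0 : ℝ) < 4 / c := by positivity
  have hn0 : (0 : ℝ) < n := by linarith
  refine ⟨n, by exact_mod_cast hn0, ?_⟩
  have h3 : 256 * (c0 : ℝ) ≤ n * c ^ 2 := by
    have : 256 * (c0 : ℝ) / c ^ 2 ≤ n := by linarith
    rwa [div_le_iff₀ (by positivity)] at this
  have h4 : 4 < n * c := by
    have : 4 / c < n := by linarith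
    rwa [div_lt_iff₀ hc] at this
  have h5 : (2 : ℝ) ^ (8 * (c0 * n)) ≤ Real.exp (8 * (c0 * n)) := by
    have h6 : (2 : ℝ) ≤ Real.exp 1 := by linarith [Real.add_one_le_exp (1 : ℝ)]
    calc (2 : ℝ) ^ (8 * (c0 * n)) ≤ Real.exp 1 ^ (8 * (c0 * n)) :=
          pow_le_pow_left₀ (by norm_num) h6 _
      _ = Real.exp (8 * (c0 * n)) := by rw [← Real.exp_nat_mul]; push_cast; ring_nf
  have h7 : (2 : ℝ) ^ (8 * (c0 * n)) *
      Real.exp ((n : ℝ) ^ 2 * (c / 4) ^ 2 / 2 - c / 4 * ((n : ℝ) ^ 2 * (c / 4))) ≤ 1 := by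
    refine (mul_le_mul_of_nonneg_right h5 (Real.exp_pos _).le).trans ?_
    rw [← Real.exp_add, Real.exp_le_one_iff]
    nlinarith [mul_le_mul_of_nonneg_left h3 hn0.le]
  have h8 : (2 : ℝ) ^ (8 * (c0 * n)) *
      Real.exp ((n : ℝ) ^ 2 * (c / 4) ^ 2 / 2 - c / 4 * ((n : ℝ) ^ 2 * (c / 4))) / (c / 4)
      < (n : ℝ) ^ 2 * (c / 4) := by
    rw [div_lt_iff₀ (by positivity)]
    nlinarith
  linarith

theorem odd_zero {β : ℝ} {k : ℤ} (hk : 0 < k) {κ : Kernel W S} (h : CovGibbs β k κ)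
    (A : Finset V) (hA : Odd A.card) : ∀ᵐ w ∂P, ∫ σ, chr A σ ∂κ w = 0 := by
  have := h.markov
  have hm := odd_meas κ A
  have hint : Integrable (fun w => |∫ σ, chr A σ ∂κ w|) P :=
    integrable_of_bdd hm.abs 1 fun w => by rw [abs_abs]; exact odd_abs κ A w
  have h0 : 0 ≤ ∫ w, |∫ σ, chr A σ ∂κ w| ∂P := integral_nonneg fun w => abs_nonneg _
  rcases h0.eq_or_lt with hc | hc
  · have := (integral_eq_zero_iff_of_nonneg (fun w => abs_nonneg _) hint).1 hc.symm
    filter_upwards [this] with w hw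
    exact abs_eq_zero.1 hw
  exfalso
  set c := ∫ w, |∫ σ, chr A σ ∂κ w| ∂P with hcdef
  obtain ⟨B, φ, hφ, hdep, hφ1, hI⟩ := exists_sign hm (odd_abs κ A) (half_pos hc)
  have hφa : ∀ w, |φ w| ≤ 1 := fun w => by rcases hφ1 w with h1 | h1 <;> simp [h1]
  set V0 : Finset V := A ∪ B.image (·.1) ∪ B.image tip with hV0
  obtain ⟨c0, hgrid⟩ := exists_grid hk V0
  obtain ⟨n, hn, hnum⟩ := odd_num hc c0
  obtain ⟨z, hz1, hz2⟩ := hgrid n hn
  set Bl : Fin n × Fin n → Finset V := fun i => V0.image (· + k • z i) with hBl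
  set Al : Fin n × Fin n → Finset V := fun i => A.image (· + k • z i) with hAl
  have hdis : ∀ i j, i ≠ j → Disjoint (Bl i) (Bl j) := by
    intro i j hij
    rw [Finset.disjoint_left]
    intro x hx hx'
    obtain ⟨a, ha, rfl⟩ := Finset.mem_image.1 hx
    obtain ⟨b, hb, hab⟩ := Finset.mem_image.1 hx'
    exact hz1 i j hij a ha b hb hab.symm
  have hbox : ∀ i, Bl i ⊆ box (c0 * n) := by
    intro i x hx
    obtain ⟨a, ha, rfl⟩ := Finset.mem_image.1 hx
    exact hz2 i a ha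
  have hAB : ∀ i, Al i ⊆ Bl i := fun i =>
    Finset.image_subset_image (Finset.subset_union_left.trans Finset.subset_union_left)
  have hodd : ∀ i, Odd (Al i).card := fun i => by
    rw [hAl, Finset.card_image_of_injective _ (add_left_injective _)]
    exact hA
  have hg : ∀ (s : Fin n × Fin n → ℤˣ) i w,
      φ (shW (k • z i) (gauge (blk Bl s) w)) = φ (shW (k • z i) w) := by
    intro s i w
    refine hdep fun e he => ?_
    have he' : e ∈ B := he
    have h1 : e.1 + k • z i ∈ Bl i := Finset.mem_image_of_mem _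
      (Finset.mem_union_left _ (Finset.mem_union_right _ (Finset.mem_image_of_mem _ he')))
    have h2 : tip e + k • z i ∈ Bl i := Finset.mem_image_of_mem _
      (Finset.mem_union_right _ (Finset.mem_image_of_mem _ he'))
    have h3 : bond (blk Bl s) (shE (k • z i) e) = 1 := by
      rw [bond, tip_shE, odd_blk Bl hdis s h2]
      change sp (blk Bl s (e.1 + k • z i)) * _ = 1
      rw [odd_blk Bl hdis s h1, sp_mul_self]
    change bond (blk Bl s) (shE (k • z i) e) * w (shE (k • z i) e) = w (shE (k • z i) e)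
    rw [h3, one_mul]
  have hgib : ∀ᵐ w ∂P, ∀ s : Fin n × Fin n → ℤˣ,
      Gibbs (gauge (blk Bl s) (β • w)) (κ (gauge (blk Bl s) w)) := by
    rw [ae_all_iff]
    intro s
    filter_upwards [(mp_gauge (blk Bl s)).quasiMeasurePreserving.ae h.gibbs] with w hw
    have : β • gauge (blk Bl s) w = gauge (blk Bl s) (β • w) := by
      funext e; simp only [gauge, Pi.smul_apply, smul_eq_mul]; ring
    rwa [this] at hw
  have hcard : (Fintype.card (Fin n × Fin n) : ℝ) = (n : ℝ) ^ 2 := by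
    simp [sq]
  have hi : ∀ (s : Fin n × Fin n → ℤˣ) i, Integrable (fun w => φ (shW (k • z i) w) *
      ∫ σ, chr (Al i) σ ∂κ (gauge (blk Bl s) w)) P := by
    intro s i
    refine integrable_of_bdd ((hφ.comp (measurable_shW _)).mul
      ((odd_meas κ _).comp (measurable_gauge _))) 1 fun w => ?_
    rw [abs_mul]
    exact mul_le_one₀ (hφa _) (abs_nonneg _) (odd_abs κ _ _)
  have hle : ∫ w, (∑ s : Fin n × Fin n → ℤˣ, ∑ i, φ (shW (k • z i) w) *
      ∫ σ, chr (Al i) σ ∂κ (gauge (blk Bl s) w)) / 2 ^ Fintype.card (Fin n × Fin n) ∂P ≤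
      ∫ _w, ((n : ℝ) ^ 2 * (c / 4) + 2 ^ (8 * (c0 * n)) *
        Real.exp ((n : ℝ) ^ 2 * (c / 4) ^ 2 / 2 - c / 4 * ((n : ℝ) ^ 2 * (c / 4))) / (c / 4)) ∂P := by
    refine integral_mono_ae ?_ (integrable_const _) ?_
    · exact (integrable_finsetSum _ fun s _ => integrable_finsetSum _ fun i _ => hi s i).div_const _
    · filter_upwards [hgib] with w hw
      have := odd_det (c0 * n) Bl Al hdis hbox hAB hodd (fun i => φ (shW (k • z i) w))
        (fun i => hφa _) (β • w) (fun s => κ (gauge (blk Bl s) w)) (fun s => inferInstance) hw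
        ((n : ℝ) ^ 2 * (c / 4)) (c / 4) (by positivity)
      rwa [hcard] at this
  rw [integral_div, integral_finsetSum _ fun s _ => integrable_finsetSum _ fun i _ => hi s i] at hle
  have hs : ∀ s : Fin n × Fin n → ℤˣ, ∫ w, ∑ i, φ (shW (k • z i) w) *
      ∫ σ, chr (Al i) σ ∂κ (gauge (blk Bl s) w) ∂P
      = (n : ℝ) ^ 2 * ∫ w, φ w * ∫ σ, chr A σ ∂κ w ∂P := by
    intro s
    rw [integral_finsetSum _ fun i _ => hi s i,
      Finset.sum_congr rfl fun i _ => odd_term h A hφ (z i) (blk Bl s) (hg s i)]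
    rw [Finset.sum_const, Finset.card_univ, nsmul_eq_mul, hcard]
  simp only [hs, Finset.sum_const, Finset.card_univ, nsmul_eq_mul, integral_const,
    probReal_univ, smul_eq_mul, one_mul] at hle
  have hc2 : (Fintype.card (Fin n × Fin n → ℤˣ) : ℝ) = 2 ^ Fintype.card (Fin n × Fin n) := by
    rw [Fintype.card_fun, Fintype.card_units_int]; push_cast; rfl
  rw [hc2, mul_div_cancel_left₀ _ (by positivity)] at hle
  have hI' : c / 2 ≤ ∫ w, φ w * ∫ σ, chr A σ ∂κ w ∂P := by linarith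
  have := mul_le_mul_of_nonneg_left hI' (sq_nonneg (n : ℝ))
  linarith

end Pool.Agent.MP_c70b3b_mp
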