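import Pool.Agent.MP_c70b3b_mp.BK
import Pool.Agent.MP_c70b3b_mp.Gib

open MeasureTheory ProbabilityTheory Filter Topology
open scoped symmDiff ENNReal

namespace Pool.Agent.MP_c70b3b_mp

lemma pair_flp_mul (U : Finset V) (σ τ : S) : flp U σ * τ = flp U (σ * τ) := by
  funext x; simp only [Pi.mul_apply, flp]; split_ifs <;> simp

theorem pair_uniq {β : ℝ} {k : ℤ} (hk : 0 < k) {κ κ' : Kernel W S} (h : CovGibbs β k κ)
    (h' : CovGibbs β k κ') : ∀ᵐ w ∂P, ∀ᵐ p ∂(κ w).prod (κ' w), UniqAll (p.1 * p.2) := by
  have := h.markov; have := h'.markov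
  let η : Kernel W S := (κ ×ₖ κ').map fun p : S × S => p.1 * p.2
  have hηm : IsMarkovKernel η := Kernel.IsMarkovKernel.map _ measurable_mul2
  have hη : ∀ w, η w = ((κ w).prod (κ' w)).map fun p : S × S => p.1 * p.2 := fun w => by
    simp only [η]
    rw [Kernel.map_apply _ measurable_mul2, Kernel.prod_apply]
  have hcov : ∀ z : V, ∀ᵐ w ∂P, η (shW (k • z) w) = (η w).map (shS (k • z)) := fun z => by
    filter_upwards [h.cov z, h'.cov z] with w hw hw'
    rw [hη, hη, hw, hw', Measure.map_prod_map _ _ (measurable_shS _) (measurable_shS _),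
      Measure.map_map measurable_mul2 ((measurable_shS _).prodMap (measurable_shS _)),
      Measure.map_map (measurable_shS _) measurable_mul2]
    rfl
  have hac : ∀ x : V, ∀ᵐ w ∂P, (η w).map (flp {x}) ≪ η w := fun x => by
    filter_upwards [h.gibbs] with w hw
    have h1 : (η w).map (flp {x}) =
        (((κ w).map (flp {x})).prod (κ' w)).map fun p : S × S => p.1 * p.2 := by
      conv_rhs => rw [← Measure.map_id (μ := κ' w)]
      rw [hη, Measure.map_prod_map _ _ (measurable_flp _) measurable_id,
        Measure.map_map measurable_mul2 ((measurable_flp _).prodMap measurable_id),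
        Measure.map_map (measurable_flp _) measurable_mul2]
      congr 1; funext p
      exact (pair_flp_mul _ _ _).symm
    rw [h1, hη]
    exact ((hw.ac {x}).prod Measure.AbsolutelyContinuous.rfl).map measurable_mul2
  have hQ : ∀ A : Set S, MeasurableSet A → (η ∘ₘ P) A = ∫⁻ w, η w A ∂P := fun A hA =>
    Measure.bind_apply hA η.aemeasurable
  have key := bk hk (η ∘ₘ P)
    (fun z => by
      ext A hA
      rw [Measure.map_apply (measurable_shS _) hA, hQ _ hA, hQ _ (measurable_shS _ hA),
        ← (mp_shW (k • z)).lintegral_comp (η.measurable_coe hA)]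
      refine lintegral_congr_ae ?_
      filter_upwards [hcov z] with w hw
      rw [hw, Measure.map_apply (measurable_shS _) hA])
    (fun x => by
      refine Measure.AbsolutelyContinuous.mk fun A hA h0 => ?_
      rw [hQ _ hA, lintegral_eq_zero_iff (η.measurable_coe hA)] at h0
      rw [Measure.map_apply (measurable_flp _) hA, hQ _ (measurable_flp _ hA),
        lintegral_eq_zero_iff (η.measurable_coe (measurable_flp _ hA))]
      filter_upwards [h0, hac x] with w hw hw'
      have h2 := hw' hw
      rwa [Measure.map_apply (measurable_flp _) hA] at h2)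
  filter_upwards [Measure.ae_ae_of_ae_comp key] with w hw
  rw [hη] at hw
  exact ae_of_ae_map measurable_mul2.aemeasurable hw

end Pool.Agent.MP_c70b3b_mp
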