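import Pool.Agent.MP_c70b3b_mp.TowerDef
import Pool.Agent.MP_c70b3b_mp.Dual
import Pool.Agent.MP_c70b3b_mp.Gib

open MeasureTheory ProbabilityTheory Filter Topology
open scoped symmDiff ENNReal

namespace Pool.Agent.MP_c70b3b_mp

noncomputable def pth (p q : V) : Finset E := (exists_dual_path p q).choose

lemma fbd_pth (p q r : V) : fbd (pth p q) r = dl p r + dl q r :=
  (exists_dual_path p q).choose_spec r

noncomputable def DD (K : W) (ρ ρ' : Measure S) (l m : V × Bool) : ℝ :=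
  |kc K ρ (cor l).1 (cor m).1 (pth (cor l).2 (cor m).2) -
    kc K ρ' (cor l).1 (cor m).1 (pth (cor l).2 (cor m).2)|

lemma towerloc_en (K : W) {U : Finset V} {G G' : Finset E} (hU : cob U = G ∆ G') (σ : S) :
    en K G (flp U σ) + en K (cob U) σ = en K G' σ := by
  have e1 : en K G (flp U σ) =
      ∑ e ∈ G ∪ G', if e ∈ G then K e * (if e ∈ G' then bond σ e else -bond σ e) else 0 := by
    rw [← Finset.sum_filter, Finset.filter_mem_eq_inter, Finset.union_inter_cancel_left]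
    refine Finset.sum_congr rfl fun e he => ?_
    rw [bond_flp, hU]
    by_cases h : e ∈ G' <;> simp [Finset.mem_symmDiff, h, he]
  have e2 : ∀ F : Finset E, F ⊆ G ∪ G' →
      en K F σ = ∑ e ∈ G ∪ G', if e ∈ F then K e * bond σ e else 0 := fun F hF => by
    rw [← Finset.sum_filter, Finset.filter_mem_eq_inter, Finset.inter_eq_right.2 hF]
    rfl
  rw [e1, hU, e2 G' Finset.subset_union_right,
    e2 (G ∆ G') (fun e he => by
      rw [Finset.mem_symmDiff] at he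
      rw [Finset.mem_union]
      tauto), ← Finset.sum_add_distrib]
  refine Finset.sum_congr rfl fun e _ => ?_
  by_cases h : e ∈ G <;> by_cases h' : e ∈ G' <;> simp [Finset.mem_symmDiff, h, h']

lemma towerloc_flp {K : W} {ρ : Measure S} (h : Gibbs K ρ) (x y : V) {U : Finset V}
    {G G' : Finset E} (hU : cob U = G ∆ G') :
    kc K ρ x y G' = ((if x ∈ U then -1 else 1) * (if y ∈ U then -1 else 1)) * kc K ρ x y G := by
  have hm : Measurable fun σ : S => sp (σ x) * sp (σ y) * Real.exp (-2 * en K G (flp U σ)) :=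
    ((measurable_sp x).mul (measurable_sp y)).mul
      (((measurable_en K G).comp (measurable_flp U)).const_mul _).exp
  have := h.integral_flp U hm
  simp only [flp_flp, mul_assoc, ← Real.exp_add, ← mul_add, towerloc_en K hU] at this
  unfold kc
  simp only [mul_assoc]
  rw [← this, ← integral_const_mul, ← integral_const_mul]
  refine integral_congr_ae (Eventually.of_forall fun σ => ?_)
  simp only [sp_flp]
  split_ifs <;> ring

theorem abs_kc_indep {K : W} {ρ ρ' : Measure S} (h : Gibbs K ρ) (h' : Gibbs K ρ') (x y : V)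
    {G G' : Finset E} (hG : ∀ r, fbd G r = fbd G' r) :
    |kc K ρ x y G - kc K ρ' x y G| = |kc K ρ x y G' - kc K ρ' x y G'| := by
  have h2 : ∀ a : ZMod 2, a + a = 0 := by decide
  obtain ⟨U, hU⟩ := exists_cob (G ∆ G') fun p => by rw [fbd_symmDiff, hG, h2]
  rw [towerloc_flp h x y hU, towerloc_flp h' x y hU, ← mul_sub, abs_mul]
  split_ifs <;> simp

lemma towerloc_DD {K : W} {ρ ρ' : Measure S} (h : Gibbs K ρ) (h' : Gibbs K ρ') {l m : V × Bool}
    {x p : V} (hl : cor l = (x, p)) {G : Finset E}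
    (hG : ∀ r, fbd G r = dl p r + dl (cor m).2 r) :
    DD K ρ ρ' l m = |kc K ρ x (cor m).1 G - kc K ρ' x (cor m).1 G| := by
  unfold DD
  rw [hl]
  exact abs_kc_indep h h' _ _ fun r => by rw [fbd_pth, hG]

lemma towerloc_int (K : W) (ρ : Measure S) [IsFiniteMeasure ρ] (x y : V) (G : Finset E) :
    Integrable (fun σ : S => sp (σ x) * sp (σ y) * Real.exp (-2 * en K G σ)) ρ := by
  refine integrable_of_bdd (((measurable_sp x).mul (measurable_sp y)).mul
    ((measurable_en K G).const_mul _).exp) (Real.exp (2 * ∑ e ∈ G, |K e|)) fun σ => ?_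
  rw [abs_mul, abs_mul, abs_sp, abs_sp, one_mul, one_mul, abs_of_pos (Real.exp_pos _)]
  have := abs_le.1 (abs_en_le K G σ)
  exact Real.exp_le_exp.2 (by linarith [this.1])

lemma towerloc_exp (K : W) (G : Finset E) (e : E) (σ : S) :
    Real.exp (-2 * en K (G ∆ {e}) σ) = Real.exp (-2 * en K G σ) *
      (Real.cosh (2 * K e) - (if e ∈ G then -1 else 1) * Real.sinh (2 * K e) * bond σ e) := by
  have key : ∀ t b : ℝ, (b = 1 ∨ b = -1) →
      Real.exp (-2 * (t * b)) = Real.cosh (2 * t) - Real.sinh (2 * t) * b := by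
    rintro t b (rfl | rfl)
    · rw [mul_one, mul_one, Real.cosh_sub_sinh]; congr 1; ring
    · rw [mul_neg_one (Real.sinh _), sub_neg_eq_add, Real.cosh_add_sinh]; congr 1; ring
  split_ifs with he
  · have e1 : G ∆ {e} = G.erase e := by
      ext a
      by_cases ha : a = e <;> simp [Finset.mem_symmDiff, ha, he]
    have e2 : en K (G.erase e) σ = en K G σ + K e * (-bond σ e) := by
      unfold en
      rw [← Finset.add_sum_erase G _ he]
      ring
    rw [e1, e2, mul_add, Real.exp_add, key _ _ (by rcases bond_cases σ e with h | h <;> simp [h])]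
    ring
  · have e1 : G ∆ {e} = insert e G := by
      ext a
      by_cases ha : a = e <;> simp [Finset.mem_symmDiff, ha, he]
    have e2 : en K (insert e G) σ = en K G σ + K e * bond σ e := by
      unfold en
      rw [Finset.sum_insert he]
      ring
    rw [e1, e2, mul_add, Real.exp_add, key _ _ (bond_cases σ e)]
    ring

lemma towerloc_edge (K : W) (ρ : Measure S) [IsFiniteMeasure ρ] (G : Finset E) (e : E)
    {u v : V} (huv : Ends e u v) (z : V) :
    kc K ρ u z (G ∆ {e}) = Real.cosh (2 * K e) * kc K ρ u z G -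
      (if e ∈ G then -1 else 1) * Real.sinh (2 * K e) * kc K ρ v z G := by
  unfold kc
  rw [← integral_const_mul, ← integral_const_mul,
    ← integral_sub ((towerloc_int K ρ u z G).const_mul _) ((towerloc_int K ρ v z G).const_mul _)]
  refine integral_congr_ae (Eventually.of_forall fun σ => ?_)
  have hb : sp (σ u) * bond σ e = sp (σ v) := by
    have := sp_mul_self (σ u)
    rcases huv with ⟨h1, h2⟩ | ⟨h1, h2⟩
    · rw [bond, h1, h2, ← mul_assoc, this, one_mul]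
    · rw [bond, h1, h2, mul_left_comm, this, mul_one]
  simp only [towerloc_exp]
  rw [← hb]
  ring

/-- The four links at a gate, seen from `m`. -/
lemma towerloc_four {K : W} {ρ ρ' : Measure S} (h : Gibbs K ρ) (h' : Gibbs K ρ') (g : V)
    (m : V × Bool) {G : Finset E} (hG : ∀ r, fbd G r = dl (fA (gate g)) r + dl (cor m).2 r) :
    ∃ A B C D s : ℝ, |s| = |Real.sinh (2 * K (gate g))| ∧
      C = Real.cosh (2 * K (gate g)) * A - s * B ∧ D = Real.cosh (2 * K (gate g)) * B - s * A ∧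
      A = kc K ρ (gate g).1 (cor m).1 G - kc K ρ' (gate g).1 (cor m).1 G ∧
      B = kc K ρ (tip (gate g)) (cor m).1 G - kc K ρ' (tip (gate g)) (cor m).1 G ∧
      C = kc K ρ (gate g).1 (cor m).1 (G ∆ {gate g}) -
        kc K ρ' (gate g).1 (cor m).1 (G ∆ {gate g}) ∧
      D = kc K ρ (tip (gate g)) (cor m).1 (G ∆ {gate g}) -
        kc K ρ' (tip (gate g)) (cor m).1 (G ∆ {gate g}) ∧
      DD K ρ ρ' (aO g) m = |B| ∧ DD K ρ ρ' (aI g) m = |C| ∧
      ((sg g = 1 ∧ DD K ρ ρ' (bO g) m = |A| ∧ DD K ρ ρ' (bI g) m = |D|) ∨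
        (sg g = -1 ∧ DD K ρ ρ' (bO g) m = |D| ∧ DD K ρ ρ' (bI g) m = |A|)) := by
  have := h.1
  have := h'.1
  have h2 : ∀ a b c : ZMod 2, a + c + (a + b) = b + c := by decide
  have hG' : ∀ r, fbd (G ∆ {gate g}) r = dl (fB (gate g)) r + dl (cor m).2 r := fun r => by
    rw [fbd_symmDiff, hG, fbd_singleton, h2]
  refine ⟨_, _, _, _, (if gate g ∈ G then -1 else 1) * Real.sinh (2 * K (gate g)), ?_, ?_, ?_,
    rfl, rfl, rfl, rfl, towerloc_DD h h' (cor_aO g) hG, towerloc_DD h h' (cor_aI g) hG', ?_⟩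
  · split_ifs <;> simp
  · rw [towerloc_edge K ρ G _ (Or.inl ⟨rfl, rfl⟩), towerloc_edge K ρ' G _ (Or.inl ⟨rfl, rfl⟩)]
    ring
  · rw [towerloc_edge K ρ G _ (Or.inr ⟨rfl, rfl⟩), towerloc_edge K ρ' G _ (Or.inr ⟨rfl, rfl⟩)]
    ring
  · by_cases hg : (g.1 + g.2) % 2 = 0
    · have hb := (gate_snd g).2 hg
      exact Or.inl ⟨by simp [sg, hg], towerloc_DD h h' (by rw [cor_bO, hb]; rfl) hG,
        towerloc_DD h h' (by rw [cor_bI, hb]; rfl) hG'⟩
    · have hb : (gate g).2 = true := by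
        by_contra hn
        exact hg ((gate_snd g).1 (by simpa using hn))
      exact Or.inr ⟨by simp [sg, hg], towerloc_DD h h' (by rw [cor_bO, hb]; rfl) hG',
        towerloc_DD h h' (by rw [cor_bI, hb]; rfl) hG⟩

lemma towerloc_alg {c s A B C D : ℝ} (hc : c ≠ 0) (hs : s ≠ 0) (hcs : c ^ 2 - s ^ 2 = 1)
    (hC : C = c * A - s * B) (hD : D = c * B - s * A) :
    (B = 0 → |D| = |s| * |A|) ∧ (C = 0 → |A| = |s| * |D|) ∧ (A = 0 → |C| = |s| * |B|) ∧
      (D = 0 → |B| = |s| * |C|) ∧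
      (A = 0 ∧ B = 0 ∨ A = 0 ∧ C = 0 ∨ A = 0 ∧ D = 0 ∨ B = 0 ∧ C = 0 ∨ B = 0 ∧ D = 0 ∨
        C = 0 ∧ D = 0 → A = 0 ∧ B = 0 ∧ C = 0 ∧ D = 0) := by
  have iA : A = c * C + s * D := by rw [hC, hD]; linear_combination (-A) * hcs
  have iB : B = c * D + s * C := by rw [hC, hD]; linear_combination (-B) * hcs
  have fin : A = 0 → B = 0 → A = 0 ∧ B = 0 ∧ C = 0 ∧ D = 0 := fun a b => by
    simp [hC, hD, a, b]
  refine ⟨fun b => ?_, fun b => ?_, fun b => ?_, fun b => ?_, ?_⟩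
  · rw [hD, b, mul_zero, zero_sub, abs_neg, abs_mul]
  · rw [iA, b, mul_zero, zero_add, abs_mul]
  · rw [hC, b, mul_zero, zero_sub, abs_neg, abs_mul]
  · rw [iB, b, mul_zero, zero_add, abs_mul]
  · rintro (⟨a, b⟩ | ⟨a, b⟩ | ⟨a, b⟩ | ⟨a, b⟩ | ⟨a, b⟩ | ⟨a, b⟩)
    · exact fin a b
    · refine fin a ?_
      rw [a, b] at hC
      simpa [hs] using hC
    · refine fin a ?_
      rw [a, b] at hD
      simpa [hc] using hD
    · refine fin ?_ a
      rw [a, b] at hC
      simpa [hc] using hC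
    · refine fin ?_ a
      rw [a, b] at hD
      simpa [hs] using hD
    · exact fin (by rw [iA, a, b]; ring) (by rw [iB, a, b]; ring)

lemma towerloc_cor {g : V} {l : V × Bool} (hl : Lk g l) :
    ((cor l).1 = (gate g).1 ∨ (cor l).1 = tip (gate g)) ∧
      ((cor l).2 = fA (gate g) ∨ (cor l).2 = fB (gate g)) := by
  rcases hl with rfl | rfl | rfl | rfl
  · rw [cor_aO]; simp
  · rw [cor_aI]; simp
  · rw [cor_bO]; split_ifs <;> simp
  · rw [cor_bI]; split_ifs <;> simp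

theorem locRel {β : ℝ} {w : W} (hw : ∀ e, β * w e ≠ 0) {ρ ρ' : Measure S}
    [IsProbabilityMeasure ρ] [IsProbabilityMeasure ρ'] (h : Gibbs (β • w) ρ)
    (h' : Gibbs (β • w) ρ') (hE : ∀ e, ∫ σ, bond σ e ∂ρ = ∫ σ, bond σ e ∂ρ') :
    LocRel (fun g => ls β (w (gate g))) (DD (β • w) ρ ρ') := by
  have hK : ∀ e, (β • w) e = β * w e := fun e => rfl
  have hsh : ∀ e, Real.sinh (2 * (β • w) e) ≠ 0 := fun e => by
    rw [hK, Ne, Real.sinh_eq_zero]
    exact mul_ne_zero two_ne_zero (hw e)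
  have hL : ∀ g, Real.exp (ls β (w (gate g))) = |Real.sinh (2 * (β • w) (gate g))| := fun g =>
    Real.exp_log (abs_pos.2 (hsh _))
  have main : ∀ (g : V) (m : V × Bool) (G : Finset E),
      (∀ r, fbd G r = dl (fA (gate g)) r + dl (cor m).2 r) → ∃ A B C D : ℝ,
      ((B = 0 → |D| = Real.exp (ls β (w (gate g))) * |A|) ∧
        (C = 0 → |A| = Real.exp (ls β (w (gate g))) * |D|) ∧
        (A = 0 → |C| = Real.exp (ls β (w (gate g))) * |B|) ∧
        (D = 0 → |B| = Real.exp (ls β (w (gate g))) * |C|) ∧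
        (A = 0 ∧ B = 0 ∨ A = 0 ∧ C = 0 ∨ A = 0 ∧ D = 0 ∨ B = 0 ∧ C = 0 ∨ B = 0 ∧ D = 0 ∨
          C = 0 ∧ D = 0 → A = 0 ∧ B = 0 ∧ C = 0 ∧ D = 0)) ∧
      A = kc (β • w) ρ (gate g).1 (cor m).1 G - kc (β • w) ρ' (gate g).1 (cor m).1 G ∧
      B = kc (β • w) ρ (tip (gate g)) (cor m).1 G - kc (β • w) ρ' (tip (gate g)) (cor m).1 G ∧
      C = kc (β • w) ρ (gate g).1 (cor m).1 (G ∆ {gate g}) -
        kc (β • w) ρ' (gate g).1 (cor m).1 (G ∆ {gate g}) ∧
      D = kc (β • w) ρ (tip (gate g)) (cor m).1 (G ∆ {gate g}) -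
        kc (β • w) ρ' (tip (gate g)) (cor m).1 (G ∆ {gate g}) ∧
      DD (β • w) ρ ρ' (aO g) m = |B| ∧ DD (β • w) ρ ρ' (aI g) m = |C| ∧
      ((sg g = 1 ∧ DD (β • w) ρ ρ' (bO g) m = |A| ∧ DD (β • w) ρ ρ' (bI g) m = |D|) ∨
        (sg g = -1 ∧ DD (β • w) ρ ρ' (bO g) m = |D| ∧ DD (β • w) ρ ρ' (bI g) m = |A|)) := by
    intro g m G hG
    obtain ⟨A, B, C, D, s, hs, hC, hD, rest⟩ := towerloc_four h h' g m hG
    refine ⟨A, B, C, D, ?_, rest⟩
    rw [hL, ← hs]
    refine towerloc_alg (Real.cosh_pos _).ne' ?_ ?_ hC hD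
    · rw [← abs_pos, hs, abs_pos]; exact hsh _
    · rw [← sq_abs s, hs, sq_abs, Real.cosh_sq]; ring
  have inv : ∀ {L a b : ℝ}, a = Real.exp L * b → b = Real.exp (-L) * a := fun {L a b} e => by
    rw [e, ← mul_assoc, ← Real.exp_add, neg_add_cancel, Real.exp_zero, one_mul]
  have all : ∀ {g : V} {m : V × Bool} {A B C D : ℝ}, A = 0 ∧ B = 0 ∧ C = 0 ∧ D = 0 →
      DD (β • w) ρ ρ' (aO g) m = |B| → DD (β • w) ρ ρ' (aI g) m = |C| →
      ((sg g = 1 ∧ DD (β • w) ρ ρ' (bO g) m = |A| ∧ DD (β • w) ρ ρ' (bI g) m = |D|) ∨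
        (sg g = -1 ∧ DD (β • w) ρ ρ' (bO g) m = |D| ∧ DD (β • w) ρ ρ' (bI g) m = |A|)) →
      ∀ l, Lk g l → DD (β • w) ρ ρ' l m = 0 := by
    rintro g m A B C D ⟨rfl, rfl, rfl, rfl⟩ e1 e2 (⟨-, e3, e4⟩ | ⟨-, e3, e4⟩) l
      (rfl | rfl | rfl | rfl) <;> simp [e1, e2, e3, e4]
  refine ⟨fun l m => ?_, fun g m l l' hl hl' hne z z' => ?_, fun g m z => ?_, fun g m z => ?_,
    fun g m z => ?_, fun g m z => ?_, fun g l l' hl hl' => ?_⟩
  · have hc : ∀ (ν : Measure S) (x y : V) (G : Finset E),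
        kc (β • w) ν x y G = kc (β • w) ν y x G := fun ν x y G => by
      unfold kc
      refine integral_congr_ae (Eventually.of_forall fun σ => ?_)
      ring
    unfold DD
    rw [hc ρ, hc ρ']
    exact abs_kc_indep h h' _ _ fun r => by rw [fbd_pth, fbd_pth, add_comm]
  · obtain ⟨A, B, C, D, ⟨-, -, -, -, t⟩, -, -, -, -, e1, e2, e34⟩ := main g m _ (fbd_pth _ _)
    refine all (t ?_) e1 e2 e34
    rcases e34 with ⟨-, e3, e4⟩ | ⟨-, e3, e4⟩ <;> rcases hl with rfl | rfl | rfl | rfl <;>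
      rcases hl' with rfl | rfl | rfl | rfl <;>
      first
        | exact absurd rfl hne
        | (simp only [e1, e2, e3, e4, abs_eq_zero] at z z'; tauto)
  · obtain ⟨A, B, C, D, ⟨t1, t2, t3, t4, -⟩, -, -, -, -, e1, e2, ⟨s, e3, e4⟩ | ⟨s, e3, e4⟩⟩ :=
      main g m _ (fbd_pth _ _) <;> rw [e1, abs_eq_zero] at z <;> rw [e3, e4, s]
    · simpa using inv (t1 z)
    · simpa using t1 z
  · obtain ⟨A, B, C, D, ⟨t1, t2, t3, t4, -⟩, -, -, -, -, e1, e2, ⟨s, e3, e4⟩ | ⟨s, e3, e4⟩⟩ :=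
      main g m _ (fbd_pth _ _) <;> rw [e2, abs_eq_zero] at z <;> rw [e3, e4, s]
    · simpa using t2 z
    · simpa using inv (t2 z)
  · obtain ⟨A, B, C, D, ⟨t1, t2, t3, t4, -⟩, -, -, -, -, e1, e2, ⟨s, e3, e4⟩ | ⟨s, e3, e4⟩⟩ :=
      main g m _ (fbd_pth _ _) <;> rw [e3, abs_eq_zero] at z <;> rw [e1, e2, s]
    · simpa using inv (t3 z)
    · simpa using t4 z
  · obtain ⟨A, B, C, D, ⟨t1, t2, t3, t4, -⟩, -, -, -, -, e1, e2, ⟨s, e3, e4⟩ | ⟨s, e3, e4⟩⟩ :=
      main g m _ (fbd_pth _ _) <;> rw [e4, abs_eq_zero] at z <;> rw [e1, e2, s]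
    · simpa using t4 z
    · simpa using inv (t3 z)
  · have h0 : ∀ u v : V, (u = (gate g).1 ∨ u = tip (gate g)) →
        (v = (gate g).1 ∨ v = tip (gate g)) →
        kc (β • w) ρ u v ∅ - kc (β • w) ρ' u v ∅ = 0 := by
      have hb := hE (gate g)
      simp only [bond] at hb
      rintro u v (rfl | rfl) (rfl | rfl) <;>
        simp only [kc, en, Finset.sum_empty, mul_zero, Real.exp_zero, mul_one, sp_mul_self]
      · simp
      · rw [hb, sub_self]
      · simp only [fun σ : S => mul_comm (sp (σ (tip (gate g)))) (sp (σ (gate g).1))]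
        rw [hb, sub_self]
      · simp
    have h2 : ∀ a : ZMod 2, 0 = a + a := by decide
    obtain ⟨hx, hq | hq⟩ := towerloc_cor hl'
    · obtain ⟨A, B, C, D, ⟨-, -, -, -, t⟩, a, b, -, -, e1, e2, e34⟩ := main g l' ∅
        fun r => by rw [hq, ← h2]; rfl
      exact all (t (Or.inl ⟨a.trans (h0 _ _ (Or.inl rfl) hx), b.trans (h0 _ _ (Or.inr rfl) hx)⟩))
        e1 e2 e34 l hl
    · obtain ⟨A, B, C, D, ⟨-, -, -, -, t⟩, -, -, a, b, e1, e2, e34⟩ := main g l' {gate g}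
        fun r => by rw [hq, fbd_singleton]
      rw [symmDiff_self, Finset.bot_eq_empty] at a b
      exact all (t (Or.inr (Or.inr (Or.inr (Or.inr (Or.inr
        ⟨a.trans (h0 _ _ (Or.inl rfl) hx), b.trans (h0 _ _ (Or.inr rfl) hx)⟩)))))) e1 e2 e34 l hl

theorem kceq_of_DD {K : W} {ρ ρ' : Measure S} (h : Gibbs K ρ) (h' : Gibbs K ρ')
    (hD : ∀ l m, DD K ρ ρ' l m = 0) : KCeq K ρ ρ' := by
  intro x p y q G hx hy hG
  obtain ⟨l, hl⟩ := cor_surj hx
  obtain ⟨m, hm⟩ := cor_surj hy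
  have := towerloc_DD h h' (m := m) hl (G := G) (by rw [hm]; exact hG)
  rw [hD, hm] at this
  exact sub_eq_zero.1 (abs_eq_zero.1 this.symm)

end Pool.Agent.MP_c70b3b_mp
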