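import Pool.Agent.MP_c70b3b_mp.TowerAbs
import Pool.Agent.MP_c70b3b_mp.TowerLoc
import Pool.Agent.MP_c70b3b_mp.Edge

open MeasureTheory ProbabilityTheory Filter Topology
open scoped symmDiff ENNReal

namespace Pool.Agent.MP_c70b3b_mp

lemma tower_shE_inj (z : V) : Function.Injective (shE z) := by
  rintro ⟨a, b⟩ ⟨c, d⟩ h
  simp only [shE, Prod.mk.injEq, add_left_inj] at h
  exact Prod.ext h.1 h.2

lemma tower_en_shift (β : ℝ) (z : V) (w : W) (G : Finset E) (σ : S) :
    en (β • shW z w) G (shS z σ) = en (β • w) (G.image (shE z)) σ := by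
  unfold en
  rw [Finset.sum_image fun a _ b _ h => tower_shE_inj z h]
  refine Finset.sum_congr rfl fun e _ => ?_
  rw [bond_shS]; rfl

lemma tower_meas_int (K : W) (x y : V) (G : Finset E) :
    Measurable fun σ : S => sp (σ x) * sp (σ y) * Real.exp (-2 * en K G σ) :=
  ((measurable_sp x).mul (measurable_sp y)).mul
    (Real.measurable_exp.comp ((measurable_en K G).const_mul _))

lemma tower_kc_shift (β : ℝ) (z : V) (w : W) (ρ : Measure S) (x y : V) (G : Finset E) :
    kc (β • shW z w) (ρ.map (shS z)) x y G =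
      kc (β • w) ρ (x + z) (y + z) (G.image (shE z)) := by
  unfold kc
  rw [integral_map (measurable_shS z).aemeasurable (tower_meas_int _ x y G).aestronglyMeasurable]
  refine integral_congr_ae (Eventually.of_forall fun σ => ?_)
  simp only [tower_en_shift]; rfl

lemma tower_dl_shift (a z r : V) : dl (a + z) r = dl a (r - z) := by
  unfold dl
  by_cases h : a + z = r
  · rw [if_pos h, if_pos (by rw [← h]; abel)]
  · rw [if_neg h, if_neg fun h' => h (by rw [h']; abel)]

lemma tower_fbd_shift (z : V) (G : Finset E) (r : V) :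
    fbd (G.image (shE z)) r = fbd G (r - z) := by
  have hB : ∀ e : E, fB (shE z e) = fB e + z := by
    rintro ⟨x, _ | _⟩ <;> simp [fB, shE] <;> abel
  have hA : ∀ e : E, fA (shE z e) = fA e + z := fun e => rfl
  unfold fbd
  rw [Finset.sum_image fun a _ b _ h => tower_shE_inj z h]
  simp only [hA, hB, tower_dl_shift]

lemma tower_meas_kc (β : ℝ) (κ : Kernel W S) [IsMarkovKernel κ] (x y : V) (G : Finset E) :
    Measurable fun w => kc (β • w) (κ w) x y G := by
  have hf : Measurable fun p : W × S =>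
      sp (p.2 x) * sp (p.2 y) * Real.exp (-2 * en (β • p.1) G p.2) :=
    (((measurable_sp x).comp measurable_snd).mul ((measurable_sp y).comp measurable_snd)).mul
      (Real.measurable_exp.comp ((measurable_en2 β G).const_mul _))
  exact (hf.stronglyMeasurable.integral_kernel_prod_right' (κ := κ)).measurable

lemma tower_ne {β : ℝ} (hβ : β ≠ 0) : ∀ᵐ w ∂P, ∀ e, β * w e ≠ 0 := by
  refine ae_all_iff.2 fun e => ?_
  have := nullSingletonClass_gaussianReal (μ := 0) (v := 1) one_ne_zero
  have h1 : ∀ᵐ t ∂(gaussianReal 0 1), t ≠ (0 : ℝ) := by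
    simp [ae_iff]
  filter_upwards [(mp_eval e).quasiMeasurePreserving.ae h1] with w hw
  exact mul_ne_zero hβ hw

theorem kc_eq {β : ℝ} (hβ : 0 < β) {k : ℤ} (hk : 0 < k) {κ κ' : Kernel W S}
    (h : CovGibbs β k κ) (h' : CovGibbs β k κ') : ∀ᵐ w ∂P, KCeq (β • w) (κ w) (κ' w) := by
  have := h.markov; have := h'.markov
  have key := tower_abs hβ.ne' hk (fun w => DD (β • w) (κ w) (κ' w))
    (fun l m => ((tower_meas_kc β κ _ _ _).sub (tower_meas_kc β κ' _ _ _)).abs)
    (fun w l m => abs_nonneg _)
    (by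
      filter_upwards [h.gibbs, h'.gibbs, tower_ne hβ.ne',
        ae_all_iff.2 fun e => edge_eq hβ hk h h' e] with w hw hw' hne hE
      exact locRel hne hw hw' hE)
    (fun z l m => by
      filter_upwards [h.gibbs, h'.gibbs, h.cov z, h'.cov z] with w hw hw' hc hc'
      simp only [DD, hc, hc', tower_kc_shift, cor_shift]
      refine abs_kc_indep hw hw' _ _ fun r => ?_
      rw [tower_fbd_shift, fbd_pth, fbd_pth, tower_dl_shift, tower_dl_shift])
  filter_upwards [key, h.gibbs, h'.gibbs] with w hD hw hw'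
  exact kceq_of_DD hw hw' hD

end Pool.Agent.MP_c70b3b_mp
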