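import Pool.Agent.MP_c70b3b_mp.Setup
import Pool.Agent.MP_c70b3b_mp.Odd
import Pool.Agent.MP_c70b3b_mp.Tower
import Pool.Agent.MP_c70b3b_mp.Pair
import Pool.Agent.MP_c70b3b_mp.Glue

open MeasureTheory ProbabilityTheory Filter Topology
open scoped symmDiff ENNReal

namespace Pool.Agent.MP_c70b3b_mp

theorem cov_unique {β : ℝ} (hβ : 0 ≤ β) {k : ℤ} (hk : 0 < k) {κ κ' : Kernel W S}
    (h : CovGibbs β k κ) (h' : CovGibbs β k κ') : ∀ᵐ w ∂P, κ w = κ' w := by
  have := h.markov; have := h'.markov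
  rcases hβ.eq_or_lt with rfl | hβ
  · filter_upwards [h.gibbs, h'.gibbs] with w hw hw'
    have key : ∀ ρ : Measure S, Gibbs ((0 : ℝ) • w) ρ → ∀ A : Finset V, A.Nonempty →
        ∫ σ, chr A σ ∂ρ = 0 := by
      rintro ρ hρ A ⟨x, hx⟩
      have h1 := hρ.integral_flp {x} (measurable_chr A)
      simp only [chr_flp, Finset.inter_singleton_of_mem hx, Finset.card_singleton, pow_one, en,
        zero_smul, Pi.zero_apply, zero_mul, Finset.sum_const_zero, mul_zero, Real.exp_zero,
        mul_one, neg_mul, one_mul, integral_neg] at h1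
      linarith
    refine ext_chr fun A => ?_
    rcases A.eq_empty_or_nonempty with rfl | hA
    · simp [chr]
    · rw [key _ hw A hA, key _ hw' A hA]
  · filter_upwards [h.gibbs, h'.gibbs, kc_eq hβ hk h h', pair_uniq hk h h, pair_uniq hk h h',
      ae_all_iff.2 fun A : {A : Finset V // Odd A.card} => odd_zero hk h A.1 A.2,
      ae_all_iff.2 fun A : {A : Finset V // Odd A.card} => odd_zero hk h' A.1 A.2]
      with w hw hw' hkc u1 u2 o1 o2
    refine ext_chr fun A => ?_
    rcases Nat.even_or_odd A.card with hA | hA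
    · exact even_eq hw hw' hkc u1 u2 A hA
    · rw [o1 ⟨A, hA⟩, o2 ⟨A, hA⟩]

theorem periodic_unique {β : ℝ} (hβ : 0 ≤ β) {ν ν' : Measure (W × S)} (h : IsEA β ν)
    (h' : IsEA β ν') (p : IsPeriodic ν) (p' : IsPeriodic ν') : ν = ν' := by
  obtain ⟨k, hk, p⟩ := p
  obtain ⟨k', hk', p'⟩ := p'
  obtain ⟨κ, hκ, rfl⟩ := exists_kernel (k := k * k') h fun z => by rw [mul_smul]; exact p _
  obtain ⟨κ', hκ', rfl⟩ := exists_kernel (k := k * k') h' fun z => by
    rw [mul_comm, mul_smul]; exact p' _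
  have := hκ.markov; have := hκ'.markov
  exact Measure.compProd_congr (cov_unique hβ (mul_pos hk hk') hκ hκ')

end Pool.Agent.MP_c70b3b_mp
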