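import Pool.Agent.MP_c70b3b_mp.Dual
import Pool.Agent.MP_c70b3b_mp.BKdet

open MeasureTheory ProbabilityTheory Filter Topology
open scoped symmDiff ENNReal

namespace Pool.Agent.MP_c70b3b_mp

lemma nc_corner {e : E} {v : V} (h : e.1 = v ∨ tip e = v) : Corner v (fA e) := by
  rcases e with ⟨x, _ | _⟩ <;> rcases h with rfl | rfl <;> simp [Corner, fA, tip]

lemma nc_free {C : Finset E} {Φ : Finset V} (hΦ : ∀ e, e ∈ C ↔ ¬ (fA e ∈ Φ ↔ fB e ∈ Φ)) {v : V}
    (hv : ∀ e ∈ C, e.1 ≠ v ∧ tip e ≠ v) {p : V} (hp : Corner v p) : p ∈ Φ ↔ v ∈ Φ := by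
  have h1 : v ∈ Φ ↔ v - (1, 0) ∈ Φ := not_not.1 fun h => (hv (v, true) ((hΦ _).2 h)).1 rfl
  have h2 : v ∈ Φ ↔ v - (0, 1) ∈ Φ := not_not.1 fun h => (hv (v, false) ((hΦ _).2 h)).1 rfl
  have h3 : v - (1, 0) ∈ Φ ↔ v - (1, 0) - (0, 1) ∈ Φ := not_not.1 fun h =>
    (hv (v - (1, 0), false) ((hΦ _).2 h)).2 (by simp [tip])
  have h4 : v - (1, 0) - (0, 1) = v - (1, 1) := by
    rw [sub_sub]; rfl
  rcases hp with rfl | rfl | rfl | rfl
  · rfl
  · exact h1.symm
  · exact h2.symm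
  · rw [← h4, ← h3, ← h1]

lemma nc_port {N : ℕ} {e : E} {w : V} (he : e ∈ touch (box N)) (h : e.1 = w ∨ tip e = w)
    (hw : w ∉ box N) : ∃ k < 8 * N, e = port N k ∧ w = bv N k := by
  have hc : e ∈ cob (box N) := by
    rw [mem_touch] at he
    rw [mem_cob]
    rcases h with rfl | rfl <;> tauto
  obtain ⟨k, hk, rfl⟩ := exists_port hc
  refine ⟨k, hk, rfl, ?_⟩
  obtain ⟨u, hu, ⟨h1, h2⟩ | ⟨h1, h2⟩⟩ := port_ends hk <;> rw [h1, h2] at h <;>
    rcases h with rfl | rfl <;> first | rfl | exact absurd hu hw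

lemma nc_port_end {N k : ℕ} (hk : k < 8 * N) :
    (port N k).1 = bv N k ∨ tip (port N k) = bv N k := by
  obtain ⟨u, -, h | h⟩ := port_ends hk
  · exact Or.inl h.1
  · exact Or.inr h.2

lemma nc_port_touch {N k : ℕ} (hk : k < 8 * N) : port N k ∈ touch (box N) :=
  (Finset.mem_filter.1 (port_mem_cob hk)).1

lemma nc_inside {N a c : ℕ} (ha : a < 8 * N) (hc : c < 8 * N) (hac : a ≠ c) {C : Finset E}
    (hC : ∀ e ∈ C, e ∈ touch (box N)) (hv : ∀ v, vbd C v = dl (bv N a) v + dl (bv N c) v)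
    {k : ℕ} (hk : k < 8 * N) : port N k ∈ C ↔ k = a ∨ k = c := by
  have h1 : vbd C (bv N k) = dualInd C (port N k) := by
    rw [dual_ind_sum, vbd]
    refine Finset.sum_congr rfl fun e he => ?_
    split_ifs with h
    · subst h
      have h2 := tip_ne (port N k)
      rcases nc_port_end hk with h3 | h3
      · rw [h3] at h2
        simp [dl, h3, h2]
      · rw [h3] at h2
        simp [dl, h3, h2.symm]
    · have h2 : ¬ (e.1 = bv N k ∨ tip e = bv N k) := fun h2 => by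
        obtain ⟨l, hl, h3, h4⟩ := nc_port (hC e he) h2 (bv_not_mem hk)
        exact h (by rw [h3, bv_inj hk hl h4])
      rw [not_or] at h2
      simp [dl, h2.1, h2.2]
  rw [← dual_ind_one, ← h1, hv]
  have e1 : bv N a = bv N k ↔ k = a := ⟨fun h => (bv_inj ha hk h).symm, fun h => by rw [h]⟩
  have e2 : bv N c = bv N k ↔ k = c := ⟨fun h => (bv_inj hc hk h).symm, fun h => by rw [h]⟩
  simp only [dl, e1, e2]
  by_cases h2 : k = a <;> by_cases h3 : k = c
  · exact absurd (h2.symm.trans h3) hac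
  · simp [h2, hac]
  · simp [h3, hac.symm]
  · simp [h2, h3]

lemma nc_rf {N k : ℕ} (hk : k < 8 * N) {C : Finset E} {Φ : Finset V}
    (hΦ : ∀ e, e ∈ C ↔ ¬ (fA e ∈ Φ ↔ fB e ∈ Φ)) :
    port N k ∈ C ↔ ¬ (rf N k ∈ Φ ↔ rf N (k + 1) ∈ Φ) := by
  rw [hΦ]
  rcases port_faces hk with ⟨h1, h2⟩ | ⟨h1, h2⟩ <;> rw [h1, h2]
  rw [iff_comm (a := rf N k ∈ Φ)]

lemma nc_parity {N a b c d : ℕ} (hab : a < b) (hbc : b < c) (hcd : c < d) (hd : d < 8 * N)
    {C : Finset E} {Φ : Finset V} (hΦ : ∀ e, e ∈ C ↔ ¬ (fA e ∈ Φ ↔ fB e ∈ Φ))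
    (hp : ∀ k < 8 * N, port N k ∈ C ↔ k = a ∨ k = c) :
    ¬ (rf N (b + 1) ∈ Φ ↔ rf N (d + 1) ∈ Φ) := by
  have key : ∀ m n, m ≤ n → n ≤ 8 * N → (∀ k, m ≤ k → k < n → k ≠ a ∧ k ≠ c) →
      (rf N m ∈ Φ ↔ rf N n ∈ Φ) := by
    intro m n hmn
    induction n, hmn using Nat.le_induction with
    | base => exact fun _ _ => Iff.rfl
    | succ n hmn ih =>
      intro h1 h2
      refine (ih (by omega) fun k h3 h4 => h2 k h3 (by omega)).trans (not_not.1 fun h => ?_)
      have h3 := (hp n (by omega)).1 ((nc_rf (by omega) hΦ).2 h)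
      have h4 := h2 n hmn (by omega)
      omega
  have h1 := key (b + 1) c (by omega) (by omega) fun k _ _ => by omega
  have h2 := key (c + 1) (d + 1) (by omega) (by omega) fun k _ _ => by omega
  have h3 := (nc_rf (by omega) hΦ).1 ((hp c (by omega)).2 (Or.inr rfl))
  rw [h1, ← h2]
  exact h3

lemma nc_zero {C C' : Finset E} {x y : V} (h : ∀ v, vbd C v = dl x v + dl y v)
    (h' : ∀ v, vbd C' v = dl x v + dl y v) (v : V) : vbd (C ∆ C') v = 0 := by
  have h2 : ∀ z : ZMod 2, z + z = 0 := by decide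
  rw [vbd_symmDiff, h, h', h2]

lemma nc_hor {N : ℕ} {x y : ℤ} {v w : V} (hv : v = (x, y)) (hw : w = (x + 1, y))
    (h : y = -(N : ℤ) - 1 ∨ y = N) : Conn (touch (box N) : Set E)ᶜ Set.univ v w := by
  subst hv hw
  refine Relation.ReflTransGen.single ⟨trivial, trivial, ((x, y), false), ?_,
    Or.inl ⟨rfl, by simp [tip]⟩⟩
  simp only [Set.mem_compl_iff, Finset.mem_coe, mem_touch, mem_box, tip, Bool.false_eq_true,
    if_false, Prod.fst_add, Prod.snd_add]
  omega

lemma nc_ver {N : ℕ} {x y : ℤ} {v w : V} (hv : v = (x, y)) (hw : w = (x, y + 1))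
    (h : x = -(N : ℤ) - 1 ∨ x = N) : Conn (touch (box N) : Set E)ᶜ Set.univ v w := by
  subst hv hw
  refine Relation.ReflTransGen.single ⟨trivial, trivial, ((x, y), true), ?_,
    Or.inl ⟨rfl, by simp [tip]⟩⟩
  simp only [Set.mem_compl_iff, Finset.mem_coe, mem_touch, mem_box, tip, if_true,
    Prod.fst_add, Prod.snd_add]
  omega

lemma nc_step {N k : ℕ} (hk : k + 1 < 8 * N) :
    Conn (touch (box N) : Set E)ᶜ Set.univ (bv N k) (bv N (k + 1)) := by
  unfold bv
  split_ifs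
  all_goals first
    | omega
    | exact nc_hor rfl (by rw [Prod.mk.injEq]; omega) (by omega)
    | exact nc_ver rfl (by rw [Prod.mk.injEq]; omega) (by omega)
    | exact (nc_hor rfl (by rw [Prod.mk.injEq]; omega) (by omega)).symm
    | exact (nc_ver rfl (by rw [Prod.mk.injEq]; omega) (by omega)).symm
    | exact (nc_hor rfl rfl (by omega)).trans
        (nc_ver rfl (by rw [Prod.mk.injEq]; omega) (by omega))
    | exact (nc_ver rfl rfl (by omega)).trans
        (nc_hor rfl (by rw [Prod.mk.injEq]; omega) (by omega)).symm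
    | exact Conn.symm ((nc_ver rfl rfl (by omega)).trans
        (nc_hor rfl (by rw [Prod.mk.injEq]; omega) (by omega)))

lemma nc_ring {N a c : ℕ} (hac : a ≤ c) (hc : c < 8 * N) :
    Conn (touch (box N) : Set E)ᶜ Set.univ (bv N a) (bv N c) := by
  induction c, hac using Nat.le_induction with
  | base => exact Relation.ReflTransGen.refl
  | succ n _ ih => exact (ih (by omega)).trans (nc_step hc)

lemma nc_mem {G : Set E} {O : Set V} {x y : V} (h : Conn G O x y) (hxy : x ≠ y) : y ∈ O := by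
  cases h with
  | refl => exact absurd rfl hxy
  | tail _ h => exact h.2.1

theorem nc_out {N a b c d : ℕ} (hab : a < b) (hbc : b < c) (hcd : c < d) (hd : d < 8 * N)
    {O O' : Set V} (hO : Disjoint O O') (h1 : ∀ x ∈ O, x ∉ box N) (h2 : ∀ x ∈ O', x ∉ box N)
    (hb : bv N b ∈ O') (hac : Conn Set.univ O (bv N a) (bv N c))
    (hbd : Conn Set.univ O' (bv N b) (bv N d)) : False := by
  have ha : a < 8 * N := by omega
  have hc : c < 8 * N := by omega
  have hne : bv N a ≠ bv N c := fun h => by have := bv_inj ha hc h; omega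
  have hin : Conn (touch (box N) : Set E) ((box N : Set V) ∪ O) (bv N a) (bv N c) := by
    obtain ⟨u, hu, h3⟩ := port_ends ha
    obtain ⟨w, hw, h4⟩ := port_ends hc
    exact ((Relation.ReflTransGen.single ⟨Or.inr (nc_mem hac.symm hne.symm), Or.inl hu, _,
      nc_port_touch ha, h3⟩).trans ((conn_box N hu hw).mono le_rfl Set.subset_union_left)).tail
      ⟨Or.inl hw, Or.inr (nc_mem hac hne), _, nc_port_touch hc, h4.symm.imp And.symm And.symm |>.imp
        And.symm And.symm⟩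
  obtain ⟨C, hC, hv⟩ := chain_of_conn hac
  obtain ⟨C', hC', hv'⟩ := chain_of_conn hin
  obtain ⟨Φ, hΦ⟩ := exists_faces _ (nc_zero hv hv')
  have hfree : ∀ v ∈ O', ∀ e ∈ C ∆ C', e.1 ≠ v ∧ tip e ≠ v := fun v hv e he => by
    have h3 : ∀ u ∈ (box N : Set V) ∪ O, u ≠ v := by
      rintro u (hu | hu) rfl
      · exact h2 u hv hu
      · exact Set.disjoint_left.1 hO hu hv
    rcases Finset.mem_symmDiff.1 he with h | h
    · exact ⟨h3 _ (Or.inr (hC e h.1).2.1), h3 _ (Or.inr (hC e h.1).2.2)⟩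
    · exact ⟨h3 _ (hC' e h.1).2.1, h3 _ (hC' e h.1).2.2⟩
  have hconst : ∀ v, Conn Set.univ O' (bv N b) v → (bv N b ∈ Φ ↔ v ∈ Φ) := fun v h => by
    induction h with
    | refl => rfl
    | tail _ h ih =>
      obtain ⟨h3, h4, e, -, h5⟩ := h
      rw [ih, ← nc_free hΦ (hfree _ h3) (nc_corner (e := e) (h5.imp And.left And.right)),
        nc_free hΦ (hfree _ h4) (nc_corner (e := e) (h5.symm.imp And.left And.right))]
  refine nc_parity hab hbc hcd hd hΦ (fun k hk => ?_) ?_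
  · rw [← nc_inside ha hc (by omega) (fun e he => (hC' e he).1) hv' hk, Finset.mem_symmDiff]
    have h3 : port N k ∉ C := fun h => by
      rcases mem_touch.1 (nc_port_touch hk) with h4 | h4
      · exact h1 _ (hC _ h).2.1 h4
      · exact h1 _ (hC _ h).2.2 h4
    tauto
  · rw [nc_free hΦ (hfree _ hb) (corner_rf (by omega)).2,
      nc_free hΦ (hfree _ (bkdet_mem hbd hb)) (corner_rf hd).2]
    exact hconst _ hbd

theorem nc_in {N a b c d : ℕ} (hab : a < b) (hbc : b < c) (hcd : c < d) (hd : d < 8 * N)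
    {O O' : Set V} (hO : Disjoint O O') (hb : bv N b ∈ O')
    (hac : Conn (touch (box N) : Set E) O (bv N a) (bv N c))
    (hbd : Conn (touch (box N) : Set E) O' (bv N b) (bv N d)) : False := by
  have ha : a < 8 * N := by omega
  have hc : c < 8 * N := by omega
  obtain ⟨C, hC, hv⟩ := chain_of_conn hac
  obtain ⟨C', hC', hv'⟩ := chain_of_conn (nc_ring (by omega : a ≤ c) hc)
  obtain ⟨Φ, hΦ⟩ := exists_faces _ (nc_zero hv hv')
  have hfree : ∀ v ∈ O', v ∈ box N → ∀ e ∈ C ∆ C', e.1 ≠ v ∧ tip e ≠ v := fun v hv hv2 e he => by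
    rcases Finset.mem_symmDiff.1 he with h | h
    · exact ⟨fun h3 => Set.disjoint_left.1 hO (hC e h.1).2.1 (h3 ▸ hv),
        fun h3 => Set.disjoint_left.1 hO (hC e h.1).2.2 (h3 ▸ hv)⟩
    · exact ⟨fun h3 => (hC' e h.1).1 (mem_touch.2 (Or.inl (h3 ▸ hv2))),
        fun h3 => (hC' e h.1).1 (mem_touch.2 (Or.inr (h3 ▸ hv2)))⟩
  have huniq : ∀ v, v ∉ box N → ∀ e ∈ touch (box N), ∀ e' ∈ touch (box N),
      (e.1 = v ∨ tip e = v) → (e'.1 = v ∨ tip e' = v) → e = e' := fun v h e he e' he' h3 h4 => by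
    obtain ⟨k, hk, h5, h6⟩ := nc_port he h3 h
    obtain ⟨l, hl, h7, h8⟩ := nc_port he' h4 h
    rw [h5, h7, bv_inj hk hl (h6.symm.trans h8)]
  have hconst : ∀ v, Conn (touch (box N) : Set E) O' (bv N b) v → ∀ e ∈ touch (box N),
      (e.1 = v ∨ tip e = v) → (fA (port N b) ∈ Φ ↔ fA e ∈ Φ) := fun v h => by
    induction h with
    | refl =>
      intro e he h3
      rw [huniq _ (bv_not_mem (by omega)) e he _ (nc_port_touch (by omega)) h3
        (nc_port_end (by omega))]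
    | @tail u w _ h ih =>
      obtain ⟨-, h4, e, he, h5⟩ := h
      intro e' he' h6
      rw [ih e he (h5.imp And.left And.right)]
      by_cases hw : w ∈ box N
      · rw [nc_free hΦ (hfree _ h4 hw) (nc_corner h6),
          nc_free hΦ (hfree _ h4 hw) (nc_corner (e := e) (h5.symm.imp And.left And.right))]
      · rw [huniq w hw e he e' he' (h5.symm.imp And.left And.right) h6]
  have hp : ∀ k < 8 * N, port N k ∈ C ∆ C' ↔ k = a ∨ k = c := fun k hk => by
    rw [← nc_inside ha hc (by omega) (fun e he => (hC e he).1) hv hk, Finset.mem_symmDiff]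
    have h3 : port N k ∉ C' := fun h => (hC' _ h).1 (nc_port_touch hk)
    tauto
  have hfa : ∀ k < 8 * N, k ≠ a → k ≠ c → (rf N (k + 1) ∈ Φ ↔ fA (port N k) ∈ Φ) :=
    fun k hk h3 h4 => by
      have h5 : rf N k ∈ Φ ↔ rf N (k + 1) ∈ Φ := not_not.1 fun h => by
        have := (hp k hk).1 ((nc_rf hk hΦ).2 h)
        omega
      rcases port_faces hk with ⟨h6, -⟩ | ⟨-, h6⟩ <;> rw [h6]
      exact h5.symm
  refine nc_parity hab hbc hcd hd hΦ hp ?_
  rw [hfa b (by omega) (by omega) (by omega), hfa d hd (by omega) (by omega)]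
  exact hconst _ hbd _ (nc_port_touch hd) (nc_port_end hd)

end Pool.Agent.MP_c70b3b_mp
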