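import Pool.Agent.MP_c70b3b_mp.Gib
import Pool.Agent.MP_c70b3b_mp.Ring

open MeasureTheory ProbabilityTheory Filter Topology
open scoped symmDiff ENNReal

namespace Pool.Agent.MP_c70b3b_mp

/-- The gauge field equal to `s i` on the block `B i`. -/
def blk {ι : Type} [Fintype ι] (B : ι → Finset V) (s : ι → ℤˣ) : S :=
  fun x => ∏ i, if x ∈ B i then s i else 1

/-- The finite volume average of a character. -/
noncomputable def oddAv (K : W) (L A : Finset V) (σ : S) : ℝ :=
  (∑ U ∈ L.powerset, chr A (flp U σ) * Real.exp (en K (touch L) (flp U σ))) /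
    (∑ U ∈ L.powerset, Real.exp (en K (touch L) (flp U σ)))

lemma odddet_abs (K : W) (L A : Finset V) (σ : S) : |oddAv K L A σ| ≤ 1 := by
  have hpos : 0 < ∑ U ∈ L.powerset, Real.exp (en K (touch L) (flp U σ)) :=
    Finset.sum_pos (fun _ _ => Real.exp_pos _) ⟨∅, Finset.empty_mem_powerset L⟩
  rw [oddAv, abs_div, abs_of_pos hpos, div_le_one hpos]
  refine (Finset.abs_sum_le_sum_abs _ _).trans (le_of_eq (Finset.sum_congr rfl fun U _ => ?_))
  rw [abs_mul, abs_chr, one_mul, abs_of_pos (Real.exp_pos _)]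

lemma odddet_gauge (g : S) (K : W) (L A : Finset V) (σ : S) :
    oddAv (gauge g K) L A σ = chr A g * oddAv K L A (g * σ) := by
  have h1 : ∀ U : Finset V, flp U (g * σ) = g * flp U σ := fun U => by
    funext x
    simp only [flp, Pi.mul_apply]
    split_ifs <;> simp
  have h2 : ∀ τ : S, en (gauge g K) (touch L) τ = en K (touch L) (g * τ) := fun τ =>
    Finset.sum_congr rfl fun e _ => by rw [gauge, bond_mul]; ring
  have h3 : chr A g * chr A g = 1 := by
    rw [chr, ← Finset.prod_mul_distrib]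
    exact Finset.prod_eq_one fun x _ => sp_mul_self _
  simp only [oddAv, h1, h2, chr_mul]
  rw [← mul_div_assoc, Finset.mul_sum]
  refine congrArg (· / _) (Finset.sum_congr rfl fun U _ => ?_)
  rw [← mul_assoc, ← mul_assoc, h3, one_mul]

lemma odddet_flp (K : W) (L A : Finset V) (σ : S) {U' : Finset V} (hU : U' ⊆ L) :
    oddAv K L A (flp U' σ) = oddAv K L A σ := by
  have key : ∀ f : S → ℝ, ∑ U ∈ L.powerset, f (flp U (flp U' σ)) =
      ∑ U ∈ L.powerset, f (flp U σ) := fun f => by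
    have hm : ∀ U ∈ L.powerset, U ∆ U' ∈ L.powerset := fun U h =>
      Finset.mem_powerset.2 (symmDiff_le_sup.trans (sup_le (Finset.mem_powerset.1 h) hU))
    exact Finset.sum_nbij' (· ∆ U') (· ∆ U') hm hm (fun U _ => symmDiff_symmDiff_cancel_right _ _)
      (fun U _ => symmDiff_symmDiff_cancel_right _ _) fun U _ => by rw [flp_flp']
  rw [oddAv, oddAv, key fun τ => chr A τ * Real.exp (en K (touch L) τ),
    key fun τ => Real.exp (en K (touch L) τ)]

lemma odddet_ring (K : W) {N : ℕ} {A : Finset V} (hA : A ⊆ box N) {σ σ' : S}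
    (h : ∀ k < 8 * N, σ (bv N k) = σ' (bv N k)) :
    oddAv K (box N) A σ = oddAv K (box N) A σ' := by
  obtain ⟨τ, hτ⟩ : ∃ τ, τ = flp ((box N).filter fun x => σ x ≠ σ' x) σ := ⟨_, rfl⟩
  have h1 : ∀ x ∈ box N, τ x = σ' x := fun x hx => by
    rw [hτ, flp]
    by_cases e : σ x = σ' x
    · rw [if_neg (by simp [e]), e]
    · rw [if_pos (Finset.mem_filter.2 ⟨hx, e⟩)]
      rcases Int.units_eq_one_or (σ x) with e1 | e1 <;>
        rcases Int.units_eq_one_or (σ' x) with e2 | e2 <;> simp_all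
  have h2 : ∀ k < 8 * N, τ (bv N k) = σ' (bv N k) := fun k hk => by
    rw [hτ, flp, if_neg fun e => bv_not_mem hk (Finset.mem_filter.1 e).1, h k hk]
  have h3 : ∀ e ∈ touch (box N), τ e.1 = σ' e.1 ∧ τ (tip e) = σ' (tip e) := fun e he => by
    by_cases hc : e ∈ cob (box N)
    · obtain ⟨k, hk, rfl⟩ := exists_port hc
      obtain ⟨u, hu, e1 | e1⟩ := port_ends hk
      · rw [e1.1, e1.2]
        exact ⟨h2 k hk, h1 u hu⟩
      · rw [e1.1, e1.2]
        exact ⟨h1 u hu, h2 k hk⟩
    · rw [mem_cob, not_not] at hc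
      rw [mem_touch] at he
      exact ⟨h1 _ (by tauto), h1 _ (by tauto)⟩
  have h4 : ∀ U, chr A (flp U τ) = chr A (flp U σ') := fun U =>
    Finset.prod_congr rfl fun x hx => by rw [sp_flp, sp_flp, h1 x (hA hx)]
  have h5 : ∀ U, en K (touch (box N)) (flp U τ) = en K (touch (box N)) (flp U σ') := fun U =>
    Finset.sum_congr rfl fun e he => by
      rw [bond_flp, bond_flp, bond, bond, (h3 e he).1, (h3 e he).2]
  rw [← odddet_flp K (box N) A σ (Finset.filter_subset (fun x => σ x ≠ σ' x) _), ← hτ]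
  simp only [oddAv, h4, h5]

lemma odddet_cosh {ι : Type} [Fintype ι] [DecidableEq ι] (c : ι → ℝ) (hc : ∀ i, |c i| ≤ 1)
    (l : ℝ) : ∑ s : ι → ℤˣ, Real.exp (l * ∑ i, sp (s i) * c i) ≤
      2 ^ Fintype.card ι * Real.exp (Fintype.card ι * l ^ 2 / 2) := by
  have h1 : ∑ s : ι → ℤˣ, Real.exp (l * ∑ i, sp (s i) * c i) =
      ∏ i, ∑ u : ℤˣ, Real.exp (l * (sp u * c i)) := by
    rw [Finset.prod_univ_sum, Fintype.piFinset_univ]
    exact Finset.sum_congr rfl fun s _ => by rw [Finset.mul_sum, Real.exp_sum]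
  have h2 : ∀ i, ∑ u : ℤˣ, Real.exp (l * (sp u * c i)) ≤ 2 * Real.exp (l ^ 2 / 2) := fun i => by
    have e1 := Real.cosh_le_exp_half_sq (l * c i)
    have e2 : Real.exp ((l * c i) ^ 2 / 2) ≤ Real.exp (l ^ 2 / 2) := by
      have := sq_le_one_iff_abs_le_one (c i) |>.2 (hc i)
      exact Real.exp_le_exp.2 (by rw [mul_pow]; nlinarith [sq_nonneg l])
    rw [Real.cosh_eq] at e1
    rw [UnitsInt.univ, Finset.sum_pair (by decide), sp_neg, sp_one, one_mul, neg_one_mul, mul_neg]
    linarith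
  rw [h1]
  refine (Finset.prod_le_prod (fun i _ => Finset.sum_nonneg fun _ _ => (Real.exp_pos _).le)
    fun i _ => h2 i).trans (le_of_eq ?_)
  rw [Finset.prod_const, Finset.card_univ, mul_pow, ← Real.exp_nat_mul, mul_div_assoc]

theorem odd_det {ι : Type} [Fintype ι] [DecidableEq ι] (N : ℕ) (B A : ι → Finset V)
    (hB : ∀ i j, i ≠ j → Disjoint (B i) (B j)) (hbox : ∀ i, B i ⊆ box N) (hA : ∀ i, A i ⊆ B i)
    (hodd : ∀ i, Odd (A i).card) (a : ι → ℝ) (ha : ∀ i, |a i| ≤ 1) (K : W)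
    (ρ : (ι → ℤˣ) → Measure S) (hp : ∀ s, IsProbabilityMeasure (ρ s))
    (hρ : ∀ s, Gibbs (gauge (blk B s) K) (ρ s)) (t l : ℝ) (hl : 0 < l) :
    (∑ s, ∑ i, a i * ∫ σ, chr (A i) σ ∂ρ s) / 2 ^ Fintype.card ι ≤
      t + 2 ^ (8 * N) * Real.exp (Fintype.card ι * l ^ 2 / 2 - l * t) / l := by
  classical
  obtain ⟨res, hres⟩ : ∃ res : S → Fin (8 * N) → ℤˣ, res = fun σ k => σ (bv N k) := ⟨_, rfl⟩
  have hm : Measurable res := hres ▸ measurable_pi_lambda _ fun k => measurable_pi_apply _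
  obtain ⟨b, hb1, hb2⟩ : ∃ b : ι → (Fin (8 * N) → ℤˣ) → ℝ, (∀ i η, |b i η| ≤ 1) ∧
      ∀ i σ, oddAv K (box N) (A i) σ = b i (res σ) :=
    ⟨fun i η => oddAv K (box N) (A i) (Function.invFun res η), fun _ _ => odddet_abs _ _ _ _,
      fun i σ => odddet_ring K ((hA i).trans (hbox i)) fun k hk => by
        have h := congrFun (Function.invFun_eq (f := res) ⟨σ, rfl⟩) ⟨k, hk⟩
        rw [hres] at h ⊢
        exact h.symm⟩
  have h1 : ∀ s i, chr (A i) (blk B s) = sp (s i) := fun s i => by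
    have e : ∀ x ∈ A i, sp (blk B s x) = sp (s i) := fun x hx => by
      rw [blk, Finset.prod_eq_single i (fun j _ hj => if_neg fun h =>
        Finset.disjoint_left.1 (hB j i hj) h (hA i hx)) (by simp), if_pos (hA i hx)]
    rw [chr, Finset.prod_congr rfl e, Finset.prod_const]
    rcases sp_cases (s i) with h | h <;> rw [h]
    exacts [one_pow _, (hodd i).neg_one_pow]
  have h2 : ∀ s σ, res (blk B s * σ) = res σ := fun s σ => by
    funext k
    rw [hres]
    change blk B s _ * _ = _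
    rw [blk, Finset.prod_eq_one fun j _ => if_neg fun h => bv_not_mem k.2 (hbox j h), one_mul]
  have h3 : ∀ s i, a i * ∫ σ, chr (A i) σ ∂ρ s = ∫ σ, sp (s i) * (a i * b i (res σ)) ∂ρ s :=
    fun s i => by
      rw [(hρ s).avg (box N) (measurable_chr (A i)) 1 fun σ => (abs_chr _ σ).le,
        ← integral_const_mul]
      refine integral_congr_ae (Eventually.of_forall fun σ => ?_)
      change a i * oddAv (gauge (blk B s) K) (box N) (A i) σ = _
      rw [odddet_gauge, h1, hb2, h2]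
      ring
  have hc : ∀ η i, |a i * b i η| ≤ 1 := fun η i => by
    rw [abs_mul]
    exact mul_le_one₀ (ha i) (abs_nonneg _) (hb1 i η)
  have h4 : ∀ s, ∑ i, a i * ∫ σ, chr (A i) σ ∂ρ s ≤
      t + (∑ η : Fin (8 * N) → ℤˣ, Real.exp (l * ∑ i, sp (s i) * (a i * b i η))) *
        Real.exp (-(l * t)) / l := fun s => by
    have := hp s
    have hi : ∀ i ∈ Finset.univ, Integrable (fun σ => sp (s i) * (a i * b i (res σ))) (ρ s) :=
      fun i _ => integrable_of_bdd
        ((Measurable.of_discrete (f := fun η => sp (s i) * (a i * b i η))).comp hm) 1 fun σ => by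
          rw [abs_mul, abs_sp, one_mul]
          exact hc _ i
    simp only [h3]
    rw [← integral_finsetSum _ hi]
    refine (integral_mono (integrable_finsetSum _ hi) (integrable_const _) fun σ => ?_).trans
      (le_of_eq (by rw [integral_const, probReal_univ, one_smul]))
    have e1 := Finset.single_le_sum (f := fun η : Fin (8 * N) → ℤˣ =>
      Real.exp (l * ∑ i, sp (s i) * (a i * b i η))) (fun _ _ => (Real.exp_pos _).le)
      (Finset.mem_univ (res σ))
    have e2 := Real.add_one_le_exp (l * ∑ i, sp (s i) * (a i * b i (res σ)) + -(l * t))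
    rw [Real.exp_add] at e2
    have e3 := mul_le_mul_of_nonneg_right e1 (Real.exp_pos (-(l * t))).le
    change ∑ i, sp (s i) * (a i * b i (res σ)) ≤ _
    rw [← sub_le_iff_le_add', le_div_iff₀ hl]
    linarith
  have h5 : ∑ s : ι → ℤˣ, ∑ η : Fin (8 * N) → ℤˣ, Real.exp (l * ∑ i, sp (s i) * (a i * b i η)) ≤
      2 ^ (8 * N) * (2 ^ Fintype.card ι * Real.exp (Fintype.card ι * l ^ 2 / 2)) := by
    rw [Finset.sum_comm]
    refine (Finset.sum_le_sum fun η _ => odddet_cosh _ (hc η) l).trans (le_of_eq ?_)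
    simp [Fintype.card_units_int]
  have h6 : (0 : ℝ) < 2 ^ Fintype.card ι := by positivity
  rw [div_le_iff₀ h6]
  refine (Finset.sum_le_sum fun s _ => h4 s).trans ?_
  rw [Finset.sum_add_distrib, ← Finset.sum_div, ← Finset.sum_mul, sub_eq_add_neg, Real.exp_add,
    add_mul]
  refine add_le_add (le_of_eq (by simp [Fintype.card_units_int, mul_comm])) ?_
  refine (div_le_div_of_nonneg_right (mul_le_mul_of_nonneg_right h5 (Real.exp_pos _).le)
    hl.le).trans (le_of_eq (by ring))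

end Pool.Agent.MP_c70b3b_mp
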