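import Pool.Agent.MP_c70b3b_mp.Basic

open MeasureTheory ProbabilityTheory Filter Topology
open scoped symmDiff ENNReal

namespace Pool.Agent.MP_c70b3b_mp

lemma rw_meas_ls (β : ℝ) : Measurable (ls β) := by
  unfold ls
  exact Real.measurable_log.comp
    ((Real.continuous_sinh.comp (by fun_prop)).abs.measurable)

lemma rw_fiber {β : ℝ} (hβ : β ≠ 0) (c : ℝ) : {x : ℝ | ls β x = c}.Countable := by
  have hsub : {x : ℝ | ls β x = c} ⊆
      {0, Real.arsinh (Real.exp c) / (2 * β), Real.arsinh (-Real.exp c) / (2 * β)} := by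
    intro x hx
    simp only [Set.mem_ofPred_eq, ls] at hx
    by_cases h0 : x = 0
    · simp [h0]
    have hs : Real.sinh (2 * (β * x)) ≠ 0 := by
      rw [Real.sinh_ne_zero]; positivity
    have h1 : |Real.sinh (2 * (β * x))| = Real.exp c := by
      rw [← hx, Real.exp_log (abs_pos.mpr hs)]
    rcases abs_eq (Real.exp_pos c).le |>.mp h1 with h | h
    · right; left
      rw [← h, Real.arsinh_sinh]; field_simp
    · right; right
      rw [Set.mem_singleton_iff, ← h, Real.arsinh_sinh]; field_simp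
  exact (Set.toFinite _).countable.mono hsub

/-- The characteristic function of one step. -/
noncomputable def rwPsi (β t : ℝ) : ℂ := charFun ((gaussianReal 0 1).map (ls β)) t

lemma rw_psi_lt {β : ℝ} (hβ : β ≠ 0) {t : ℝ} (ht : t ≠ 0) : ‖rwPsi β t‖ < 1 := by
  have hint : rwPsi β t = ∫ x, Complex.exp (t * (ls β x : ℝ) * Complex.I) ∂(gaussianReal 0 1) := by
    rw [rwPsi, charFun_apply_real, integral_map (rw_meas_ls β).aemeasurable]
    exact (by fun_prop : Continuous fun x : ℝ =>
      Complex.exp (t * x * Complex.I)).aestronglyMeasurable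
  have hle : ∀ᵐ x ∂(gaussianReal 0 1),
      ‖Complex.exp (t * (ls β x : ℝ) * Complex.I)‖ ≤ 1 := by
    refine Eventually.of_forall fun x => le_of_eq ?_
    rw [← Complex.ofReal_mul]; exact Complex.norm_exp_ofReal_mul_I _
  rcases ae_eq_const_or_norm_integral_lt_of_norm_le_const hle with h | h
  · exfalso
    set c := ⨍ x, Complex.exp (t * (ls β x : ℝ) * Complex.I) ∂(gaussianReal 0 1)
    have hc : {x : ℝ | Complex.exp (t * (ls β x : ℝ) * Complex.I) = c}.Countable := by
      have h1 : (Complex.exp ⁻¹' {c}).Countable := (Set.countable_singleton c).preimage_cexp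
      have h2 : ((fun y : ℝ => (t * y * Complex.I : ℂ)) ⁻¹' (Complex.exp ⁻¹' {c})).Countable := by
        refine h1.preimage_of_injOn fun y _ z _ hyz => ?_
        have h3 : (t : ℂ) ≠ 0 := by exact_mod_cast ht
        have h4 := mul_left_cancel₀ h3 (mul_right_cancel₀ Complex.I_ne_zero hyz)
        exact_mod_cast h4
      refine (h2.biUnion fun y _ => rw_fiber hβ y).mono fun x hx => ?_
      simp only [Set.mem_iUnion]
      exact ⟨ls β x, hx, rfl⟩
    have := nullSingletonClass_gaussianReal (μ := 0) (v := 1) one_ne_zero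
    have h0 := hc.measure_zero (gaussianReal 0 1)
    have h1 : ∀ᵐ x ∂(gaussianReal 0 1), False := by
      filter_upwards [h, measure_eq_zero_iff_ae_notMem.mp h0] with x hx hx'
      exact hx' hx
    exact (ae_neBot.mpr (IsProbabilityMeasure.ne_zero _)).ne (eventually_false_iff_eq_bot.mp h1)
  · rw [hint]; simpa using h

lemma rw_char (β : ℝ) (F : Finset E) (a : E → ℝ) (ha : ∀ e ∈ F, a e = 1 ∨ a e = -1) (t : ℝ) :
    ‖charFun (P.map fun w => ∑ e ∈ F, a e * ls β (w e)) t‖ = ‖rwPsi β t‖ ^ F.card := by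
  have hm : ∀ e, Measurable fun x : ℝ => a e * ls β x := fun e => (rw_meas_ls β).const_mul _
  have hind : iIndepFun (fun (e : E) (w : W) => a e * ls β (w e)) P :=
    iIndep_P.comp (fun e x => a e * ls β x) hm
  have hm' : ∀ e ∈ F, AEMeasurable (fun w : W => a e * ls β (w e)) P :=
    fun e _ => ((hm e).comp (measurable_pi_apply e)).aemeasurable
  rw [(hind.restrict F).charFun_map_fun_finsetSum_eq_prod hm', Finset.prod_apply, norm_prod,
    ← Finset.prod_const]
  refine Finset.prod_congr rfl fun e he => ?_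
  have h1 : P.map (fun w : W => a e * ls β (w e)) =
      ((gaussianReal 0 1).map (ls β)).map (fun y => a e * y) := by
    rw [← (mp_eval e).map_eq, Measure.map_map (rw_meas_ls β) (measurable_pi_apply e),
      Measure.map_map (measurable_const_mul _) ((rw_meas_ls β).comp (measurable_pi_apply e))]
    rfl
  rw [h1, charFun_map_mul]
  rcases ha e he with h | h
  · rw [h, one_mul]; rfl
  · rw [h, neg_one_mul, charFun_neg, Complex.norm_conj]; rfl

lemma rw_gauss (μ : Measure ℝ) [IsProbabilityMeasure μ] :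
    ∫ x, Real.exp (-(x ^ 2 / 2)) ∂μ ≤ ∫ t, ‖charFun μ t‖ ∂(gaussianReal 0 1) := by
  have h1 : ∀ x : ℝ, ((Real.exp (-(x ^ 2 / 2)) : ℝ) : ℂ) =
      ∫ t : ℝ, Complex.exp (x * t * Complex.I) ∂(gaussianReal 0 1) := fun x => by
    rw [← charFun_apply_real, charFun_gaussianReal]; push_cast; congr 1; simp
  have hi : Integrable (Function.uncurry fun (x t : ℝ) => Complex.exp (x * t * Complex.I))
      (μ.prod (gaussianReal 0 1)) := by
    refine Integrable.of_bound (C := 1) ?_ (Eventually.of_forall fun p => le_of_eq ?_)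
    · exact (by fun_prop : Continuous fun p : ℝ × ℝ =>
        Complex.exp (p.1 * p.2 * Complex.I)).aestronglyMeasurable
    · show ‖Complex.exp (p.1 * p.2 * Complex.I)‖ = 1
      rw [← Complex.ofReal_mul]; exact Complex.norm_exp_ofReal_mul_I _
  have h2 : ((∫ x, Real.exp (-(x ^ 2 / 2)) ∂μ : ℝ) : ℂ) =
      ∫ t, charFun μ t ∂(gaussianReal 0 1) := by
    rw [← integral_complex_ofReal]
    refine (integral_congr_ae (Eventually.of_forall fun x => h1 x)).trans ?_
    rw [integral_integral_swap hi]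
    refine integral_congr_ae (Eventually.of_forall fun t => ?_)
    simp only [charFun_apply_real, mul_comm (t : ℂ)]
  calc ∫ x, Real.exp (-(x ^ 2 / 2)) ∂μ ≤ ‖((∫ x, Real.exp (-(x ^ 2 / 2)) ∂μ : ℝ) : ℂ)‖ := by
        rw [Complex.norm_real]; exact Real.le_norm_self _
    _ ≤ _ := by rw [h2]; exact norm_integral_le_integral_norm _

lemma rw_markov (μ : Measure ℝ) [IsProbabilityMeasure μ] (M : ℝ) :
    μ.real {x | |x| ≤ M} ≤ Real.exp (M ^ 2 / 2) * ∫ x, Real.exp (-(x ^ 2 / 2)) ∂μ := by
  have hm : MeasurableSet {x : ℝ | |x| ≤ M} := measurableSet_le (by fun_prop) measurable_const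
  rw [← integral_const_mul, ← integral_indicator_one hm]
  refine integral_mono ((integrable_const 1).indicator hm) ?_ fun x => ?_
  · refine Integrable.const_mul (Integrable.of_bound (C := 1) ?_
      (Eventually.of_forall fun x => ?_)) _
    · exact (by fun_prop : Continuous fun x : ℝ => Real.exp (-(x ^ 2 / 2))).aestronglyMeasurable
    · rw [Real.norm_eq_abs, abs_of_pos (Real.exp_pos _), Real.exp_le_one_iff]
      have := sq_nonneg x; linarith
  · by_cases hx : |x| ≤ M
    · rw [Set.indicator_of_mem (show x ∈ {x : ℝ | |x| ≤ M} from hx), ← Real.exp_add]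
      have h2 : x ^ 2 ≤ M ^ 2 := by
        rw [← sq_abs x]; exact pow_le_pow_left₀ (abs_nonneg x) hx 2
      exact Real.one_le_exp (by linarith)
    · rw [Set.indicator_of_notMem (show x ∉ {x : ℝ | |x| ≤ M} from hx)]
      positivity

lemma rw_lim {β : ℝ} (hβ : β ≠ 0) :
    Tendsto (fun n : ℕ => ∫ t, ‖rwPsi β t‖ ^ n ∂(gaussianReal 0 1)) atTop (𝓝 0) := by
  have : IsProbabilityMeasure ((gaussianReal 0 1).map (ls β)) :=
    Measure.isProbabilityMeasure_map (rw_meas_ls β).aemeasurable
  have h := tendsto_integral_of_dominated_convergence (μ := gaussianReal 0 1)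
    (F := fun (n : ℕ) t => ‖rwPsi β t‖ ^ n) (f := fun _ => (0 : ℝ)) (fun _ => 1)
    (fun n => ((measurable_charFun.norm).pow_const n).aestronglyMeasurable) (integrable_const 1)
    (fun n => Eventually.of_forall fun t => by
      rw [norm_pow, norm_norm]
      exact pow_le_one₀ (norm_nonneg _) (norm_charFun_le_one t)) ?_
  · simpa using h
  · have := nullSingletonClass_gaussianReal (μ := 0) (v := 1) one_ne_zero
    have h0 : (gaussianReal 0 1) {0} = 0 := measure_singleton _
    filter_upwards [measure_eq_zero_iff_ae_notMem.mp h0] with t ht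
    exact tendsto_pow_atTop_nhds_zero_of_lt_one (norm_nonneg _) (rw_psi_lt hβ ht)

lemma rw_meas_sum (β : ℝ) (F : Finset E) (a : E → ℝ) :
    Measurable fun w : W => ∑ e ∈ F, a e * ls β (w e) :=
  Finset.measurable_sum _ fun e _ => ((rw_meas_ls β).comp (measurable_pi_apply e)).const_mul _

theorem anticonc {β : ℝ} (hβ : β ≠ 0) (F : ℕ → Finset E) (hF : ∀ n, n ≤ (F n).card)
    (a : ℕ → E → ℝ) (ha : ∀ n, ∀ e ∈ F n, a n e = 1 ∨ a n e = -1) (M : ℝ) :
    Tendsto (fun n => P {w | |∑ e ∈ F n, a n e * ls β (w e)| ≤ M}) atTop (𝓝 0) := by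
  have : IsProbabilityMeasure ((gaussianReal 0 1).map (ls β)) :=
    Measure.isProbabilityMeasure_map (rw_meas_ls β).aemeasurable
  have hle : ∀ t, ‖rwPsi β t‖ ≤ 1 := fun t => norm_charFun_le_one t
  have hint : ∀ n : ℕ, Integrable (fun t => ‖rwPsi β t‖ ^ n) (gaussianReal 0 1) := fun n =>
    Integrable.of_bound (C := 1) ((measurable_charFun.norm).pow_const n).aestronglyMeasurable
      (Eventually.of_forall fun t => by
        rw [norm_pow, norm_norm]; exact pow_le_one₀ (norm_nonneg _) (hle t))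
  have key : ∀ n, P.real {w | |∑ e ∈ F n, a n e * ls β (w e)| ≤ M} ≤
      Real.exp (M ^ 2 / 2) * ∫ t, ‖rwPsi β t‖ ^ n ∂(gaussianReal 0 1) := fun n => by
    have hm := rw_meas_sum β (F n) (a n)
    have : IsProbabilityMeasure (P.map fun w => ∑ e ∈ F n, a n e * ls β (w e)) :=
      Measure.isProbabilityMeasure_map hm.aemeasurable
    have h1 := rw_markov (P.map fun w => ∑ e ∈ F n, a n e * ls β (w e)) M
    rw [map_measureReal_apply hm (measurableSet_le (by fun_prop) measurable_const)] at h1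
    refine h1.trans (mul_le_mul_of_nonneg_left ((rw_gauss _).trans ?_) (Real.exp_pos _).le)
    simp only [rw_char β (F n) (a n) (ha n)]
    exact integral_mono (hint _) (hint _) fun t =>
      pow_le_pow_of_le_one (norm_nonneg _) (hle t) (hF n)
  have h2 : Tendsto (fun n => P.real {w | |∑ e ∈ F n, a n e * ls β (w e)| ≤ M}) atTop (𝓝 0) := by
    refine squeeze_zero (fun n => measureReal_nonneg) key ?_
    simpa using (rw_lim hβ).const_mul (Real.exp (M ^ 2 / 2))
  have h3 := ENNReal.tendsto_ofReal h2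
  simpa [ofReal_measureReal] using h3

theorem rw_zero {β : ℝ} (hβ : β ≠ 0) (F : ℕ → Finset E) (hF : ∀ n, n ≤ (F n).card)
    (a : ℕ → E → ℝ) (ha : ∀ n, ∀ e ∈ F n, a n e = 1 ∨ a n e = -1) {lam : W → ℝ}
    (hm : Measurable lam) (h0 : ∀ w, 0 ≤ lam w) (T : ℕ → W → W)
    (hT : ∀ n, MeasurePreserving (T n) P P)
    (hrec : ∀ n, ∀ᵐ w ∂P, lam (T n w) = lam w * Real.exp (∑ e ∈ F n, a n e * ls β (w e))) :
    ∀ᵐ w ∂P, lam w = 0 := by
  have hB : ∀ R : ℕ, MeasurableSet {w | (R : ℝ) < |Real.log (lam w)|} := fun R =>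
    measurableSet_lt measurable_const (Real.measurable_log.comp hm).abs
  have hlim : Tendsto (fun R : ℕ => P {w | (R : ℝ) < |Real.log (lam w)|}) atTop (𝓝 0) := by
    have h := tendsto_measure_iInter_atTop (μ := P)
      (s := fun R : ℕ => {w | (R : ℝ) < |Real.log (lam w)|})
      (fun R => (hB R).nullMeasurableSet)
      (fun R R' hR w (hw : (R' : ℝ) < _) =>
        show (R : ℝ) < _ from lt_of_le_of_lt (Nat.cast_le.mpr hR) hw) ⟨0, measure_ne_top _ _⟩
    have he : (⋂ R : ℕ, {w | (R : ℝ) < |Real.log (lam w)|}) = ∅ := by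
      refine Set.eq_empty_of_forall_notMem fun w hw => ?_
      obtain ⟨R, hR⟩ := exists_nat_gt |Real.log (lam w)|
      exact lt_asymm hR (Set.mem_iInter.mp hw R)
    rw [he, measure_empty] at h
    exact h
  have hbound : ∀ R : ℕ, P {w | lam w ≠ 0} ≤
      P {w | (R : ℝ) < |Real.log (lam w)|} + P {w | (R : ℝ) < |Real.log (lam w)|} := fun R => by
    have h1 : ∀ n, P {w | lam w ≠ 0} ≤
        (P {w | (R : ℝ) < |Real.log (lam w)|} + P {w | (R : ℝ) < |Real.log (lam w)|}) +
          P {w | |∑ e ∈ F n, a n e * ls β (w e)| ≤ 2 * R} := fun n => by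
      have h2 : {w | lam w ≠ 0} ≤ᵐ[P] (({w | (R : ℝ) < |Real.log (lam w)|} ∪
          T n ⁻¹' {w | (R : ℝ) < |Real.log (lam w)|} ∪
          {w | |∑ e ∈ F n, a n e * ls β (w e)| ≤ 2 * R} : Set W)) := by
        filter_upwards [hrec n] with w hw hne
        by_contra hcon
        have hc : ¬ (w ∈ ({w | (R : ℝ) < |Real.log (lam w)|} ∪
          T n ⁻¹' {w | (R : ℝ) < |Real.log (lam w)|} ∪
          {w | |∑ e ∈ F n, a n e * ls β (w e)| ≤ 2 * R} : Set W)) := hcon
        simp only [Set.mem_union, Set.mem_ofPred_eq, Set.mem_preimage, not_or, not_lt] at hc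
        obtain ⟨⟨c1, c2⟩, c3⟩ := hc
        rw [hw, Real.log_mul hne (Real.exp_pos _).ne', Real.log_exp] at c2
        apply c3
        rw [abs_le] at c1 c2 ⊢
        constructor <;> linarith [c1.1, c1.2, c2.1, c2.2]
      refine (measure_mono_ae h2).trans ((measure_union_le _ _).trans ?_)
      gcongr
      refine (measure_union_le _ _).trans ?_
      rw [(hT n).measure_preimage (hB R).nullMeasurableSet]
    have h3 := (anticonc hβ F hF a ha (2 * R)).const_add
      (P {w | (R : ℝ) < |Real.log (lam w)|} + P {w | (R : ℝ) < |Real.log (lam w)|})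
    rw [add_zero] at h3
    exact ge_of_tendsto' h3 h1
  have h4 := hlim.add hlim
  rw [add_zero] at h4
  have h5 := ge_of_tendsto' h4 hbound
  have _ := h0
  exact ae_iff.mpr (nonpos_iff_eq_zero.mp h5)

end Pool.Agent.MP_c70b3b_mp
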