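import Pool.Agent.MP_c70b3b_mp.Approx

open MeasureTheory ProbabilityTheory Filter Topology
open scoped symmDiff ENNReal

namespace Pool.Agent.MP_c70b3b_mp

/-- Move the couplings `e i`, `i ∈ T`, by `δ φ i`. -/
noncomputable def mv {ι : Type} (e : ι → E) (φ : ι → W → ℝ) (δ : ℝ) (T : Finset ι) (w : W) : W :=
  w + ∑ i ∈ T, Pi.single (e i) (δ * φ i w)

structure Blocks {ι : Type} (e : ι → E) (B : ι → Finset E) (φ : ι → W → ℝ) : Prop where
  disj : ∀ i j, i ≠ j → Disjoint (B i) (B j)
  mem : ∀ i, e i ∈ B i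
  meas : ∀ i, Measurable (φ i)
  dep : ∀ i, DependsOn (φ i) (B i : Set E)
  sgn : ∀ i w, φ i w = 1 ∨ φ i w = -1

variable {ι : Type} [DecidableEq ι] {e : ι → E} {B : ι → Finset E} {φ : ι → W → ℝ}

/-- The Cameron-Martin density. -/
noncomputable def tiltD (x : E) (a : ℝ) (w : W) : ℝ≥0∞ :=
  ENNReal.ofReal (Real.exp (a * w x - a ^ 2 / 2))

/-- One half of the density of a single move. -/
noncomputable def tiltH (x : E) (ψ : W → ℝ) (δ s : ℝ) (w : W) : ℝ≥0∞ :=
  if ψ (w - Pi.single x (δ * s)) = s then tiltD x (δ * s) w else 0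

/-- The density of a single move. -/
noncomputable def tiltQ (x : E) (ψ : W → ℝ) (δ : ℝ) (w : W) : ℝ≥0∞ :=
  tiltH x ψ δ 1 w + tiltH x ψ δ (-1) w

/-- A single move. -/
noncomputable def tiltS (x : E) (ψ : W → ℝ) (δ : ℝ) (w : W) : W := w + Pi.single x (δ * ψ w)

theorem tilt_mD (x : E) (a : ℝ) : Measurable (tiltD x a) := by
  unfold tiltD
  fun_prop

theorem tilt_mH (x : E) {ψ : W → ℝ} (hψ : Measurable ψ) (δ s : ℝ) :
    Measurable (tiltH x ψ δ s) :=
  Measurable.ite (measurableSet_eq_fun (hψ.comp (measurable_id.sub_const _)) measurable_const)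
    (tilt_mD _ _) measurable_const

theorem tilt_mQ (x : E) {ψ : W → ℝ} (hψ : Measurable ψ) (δ : ℝ) : Measurable (tiltQ x ψ δ) :=
  (tilt_mH x hψ δ 1).add (tilt_mH x hψ δ (-1))

theorem tilt_msingle (x : E) {g : W → ℝ} (hg : Measurable g) :
    Measurable fun w => (Pi.single x (g w) : W) := by
  refine measurable_pi_lambda _ fun y => ?_
  by_cases h : y = x
  · subst h; simpa using hg
  · simp [Pi.single_eq_of_ne h]

theorem tilt_mS (x : E) {ψ : W → ℝ} (hψ : Measurable ψ) (δ : ℝ) : Measurable (tiltS x ψ δ) :=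
  measurable_id.add (tilt_msingle x (hψ.const_mul δ))

theorem tilt_shift (x : E) (a : ℝ) {F : W → ℝ≥0∞} (hF : Measurable F) :
    ∫⁻ w, F (w + Pi.single x a) ∂P = ∫⁻ w, tiltD x a w * F w ∂P := by
  rw [← lintegral_map hF (measurable_add_const _), shift_formula]
  exact lintegral_withDensity_eq_lintegral_mul _ (tilt_mD x a) hF

theorem tilt_step (x : E) {ψ : W → ℝ} (hψ : Measurable ψ) (hs : ∀ w, ψ w = 1 ∨ ψ w = -1) (δ : ℝ)
    {F : W → ℝ≥0∞} (hF : Measurable F) :
    ∫⁻ w, F (tiltS x ψ δ w) ∂P = ∫⁻ w, F w * tiltQ x ψ δ w ∂P := by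
  let G : ℝ → W → ℝ≥0∞ := fun s w => if ψ (w - Pi.single x (δ * s)) = s then F w else 0
  have hG : ∀ s, Measurable (G s) := fun s =>
    Measurable.ite (measurableSet_eq_fun (hψ.comp (measurable_id.sub_const _)) measurable_const)
      hF measurable_const
  have e1 : ∀ w, F (tiltS x ψ δ w) =
      G 1 (w + Pi.single x (δ * 1)) + G (-1) (w + Pi.single x (δ * (-1))) := by
    intro w
    simp only [G, add_sub_cancel_right, tiltS]
    rcases hs w with h | h
    · rw [h, if_pos rfl, if_neg (by norm_num), add_zero]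
    · rw [h, if_neg (by norm_num), if_pos rfl, zero_add]
  have e2 : ∀ s w, tiltD x (δ * s) w * G s w = F w * tiltH x ψ δ s w := by
    intro s w
    simp only [G, tiltH]
    split_ifs
    · exact mul_comm _ _
    · simp
  simp only [e1]
  have m1 : Measurable fun w : W => G 1 (w + Pi.single x (δ * 1)) :=
    (hG 1).comp (measurable_add_const _)
  have m2 : Measurable fun w => F w * tiltH x ψ δ 1 w := hF.mul (tilt_mH x hψ δ 1)
  rw [lintegral_add_left m1, tilt_shift x _ (hG 1), tilt_shift x _ (hG (-1))]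
  simp only [e2, tiltQ, mul_add]
  rw [lintegral_add_left m2]

theorem tilt_intD (x : E) (a : ℝ) : ∫⁻ w, tiltD x a w ∂P = 1 := by
  simpa using (tilt_shift x a (F := fun _ => 1) measurable_const).symm

theorem tilt_intD2 (x : E) (a : ℝ) :
    ∫⁻ w, tiltD x a w ^ 2 ∂P = ENNReal.ofReal (Real.exp (a ^ 2)) := by
  have e1 : ∀ w, tiltD x a w ^ 2 = ENNReal.ofReal (Real.exp (a ^ 2)) * tiltD x (2 * a) w := by
    intro w
    rw [tiltD, tiltD, ← ENNReal.ofReal_pow (Real.exp_pos _).le,
      ← ENNReal.ofReal_mul (Real.exp_pos _).le, ← Real.exp_add, ← Real.exp_nat_mul]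
    congr 2
    push_cast
    ring
  simp only [e1]
  rw [lintegral_const_mul _ (tilt_mD _ _), tilt_intD, mul_one]

theorem tilt_intQ (x : E) {ψ : W → ℝ} (hψ : Measurable ψ) (hs : ∀ w, ψ w = 1 ∨ ψ w = -1)
    (δ : ℝ) : ∫⁻ w, tiltQ x ψ δ w ∂P = 1 := by
  simpa using (tilt_step x hψ hs δ (F := fun _ => 1) measurable_const).symm

theorem tilt_intQ2 (x : E) (ψ : W → ℝ) (δ : ℝ) :
    ∫⁻ w, tiltQ x ψ δ w ^ 2 ∂P ≤ ENNReal.ofReal (4 * Real.exp (δ ^ 2)) := by
  have h1 : ∀ s w, tiltH x ψ δ s w ≤ tiltD x (δ * s) w := by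
    intro s w
    unfold tiltH
    split_ifs <;> simp
  have h2 : ∀ w, tiltQ x ψ δ w ^ 2 ≤
      2 * (tiltD x (δ * 1) w ^ 2 + tiltD x (δ * (-1)) w ^ 2) := by
    intro w
    have h3 := ENNReal.rpow_add_le_mul_rpow_add_rpow (tiltD x (δ * 1) w) (tiltD x (δ * (-1)) w)
      (p := 2) (by norm_num)
    norm_num at h3
    refine le_trans (pow_le_pow_left' (add_le_add (h1 1 w) (h1 (-1) w)) 2) ?_
    simpa using h3
  refine (lintegral_mono h2).trans_eq ?_
  have m1 : Measurable fun w => tiltD x (δ * 1) w ^ 2 + tiltD x (δ * (-1)) w ^ 2 :=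
    ((tilt_mD _ _).pow_const 2).add ((tilt_mD _ _).pow_const 2)
  rw [lintegral_const_mul _ m1, lintegral_add_left ((tilt_mD _ _).pow_const 2), tilt_intD2, tilt_intD2,
    ENNReal.ofReal_mul (by norm_num)]
  simp only [mul_one, mul_neg, neg_sq, ENNReal.ofReal_ofNat]
  ring

theorem tilt_depQ {x : E} {ψ : W → ℝ} {A : Set E} (hx : x ∈ A) (hψ : DependsOn ψ A) (δ : ℝ) :
    DependsOn (tiltQ x ψ δ) A := by
  intro w w' h
  have h1 : ∀ s, tiltH x ψ δ s w = tiltH x ψ δ s w' := by
    intro s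
    have h2 : ψ (w - Pi.single x (δ * s)) = ψ (w' - Pi.single x (δ * s)) :=
      hψ fun y hy => by simp only [Pi.sub_apply, h y hy]
    simp only [tiltH, tiltD, h2, h x hx]
  simp only [tiltQ, h1]

theorem tilt_indep {A A' : Finset E} (hd : Disjoint A A') {F G : W → ℝ≥0∞} (hF : Measurable F)
    (hG : Measurable G) (dF : DependsOn F (A : Set E)) (dG : DependsOn G (A' : Set E)) :
    ∫⁻ w, F w * G w ∂P = (∫⁻ w, F w ∂P) * ∫⁻ w, G w ∂P := by
  have ext : ∀ C : Finset E, Measurable
      fun (x : C → ℝ) (y : E) => if h : y ∈ C then x ⟨y, h⟩ else 0 := by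
    intro C
    refine measurable_pi_lambda _ fun y => ?_
    by_cases h : y ∈ C
    · simpa [h] using measurable_pi_apply _
    · simp [h]
  have h1 := (iIndep_P.indepFun_finset A A' hd fun y => measurable_pi_apply y).comp
    (hF.comp (ext A)) (hG.comp (ext A'))
  have h2 : IndepFun F G P := by
    convert h1 using 1
    · funext w
      exact dF fun y hy => by simp [Finset.mem_coe.1 hy]
    · funext w
      exact dG fun y hy => by simp [Finset.mem_coe.1 hy]
  exact lintegral_mul_eq_lintegral_mul_lintegral_of_indepFun hF hG h2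

theorem tilt_prod (h : Blocks e B φ) {F : ι → W → ℝ≥0∞} (hF : ∀ j, Measurable (F j))
    (dF : ∀ j, DependsOn (F j) (B j : Set E)) (J : Finset ι) :
    ∫⁻ w, ∏ j ∈ J, F j w ∂P = ∏ j ∈ J, ∫⁻ w, F j w ∂P := by
  induction J using Finset.induction_on with
  | empty => simp
  | insert k J hk ih =>
    simp only [Finset.prod_insert hk]
    rw [tilt_indep (A := B k) (A' := J.biUnion B) _ (hF k)
      (Finset.measurable_prod _ fun j _ => hF j) (dF k), ih]
    · intro w w' hw
      refine Finset.prod_congr rfl fun j hj => dF j fun y hy => hw y ?_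
      exact Finset.mem_coe.2 (Finset.mem_biUnion.2 ⟨j, hj, hy⟩)
    · exact (Finset.disjoint_biUnion_right _ _ _).2 fun j hj =>
        h.disj k j fun hkj => hk (hkj ▸ hj)

omit [DecidableEq ι] in
theorem tilt_ne (h : Blocks e B φ) {i j : ι} (hij : i ≠ j) {y : E} (hy : y ∈ B j) : y ≠ e i := by
  rintro rfl
  exact Finset.disjoint_left.1 (h.disj i j hij) (h.mem i) hy

theorem tilt_insert (h : Blocks e B φ) (δ : ℝ) {T : Finset ι} {j : ι} (hj : j ∉ T) (w : W) :
    mv e φ δ (insert j T) w = tiltS (e j) (φ j) δ (mv e φ δ T w) := by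
  have h1 : φ j (mv e φ δ T w) = φ j w := by
    refine h.dep j fun y hy => ?_
    simp only [mv, Pi.add_apply, Finset.sum_apply, add_eq_left]
    refine Finset.sum_eq_zero fun i hi => Pi.single_eq_of_ne ?_ _
    exact tilt_ne h (fun hij : i = j => hj (hij ▸ hi)) hy
  rw [tiltS, h1, mv, mv, Finset.sum_insert hj]
  abel

theorem measurable_mv (h : Blocks e B φ) (δ : ℝ) (T : Finset ι) : Measurable (mv e φ δ T) := by
  exact measurable_id.add
    (Finset.measurable_sum _ fun i _ => tilt_msingle _ ((h.meas i).const_mul δ))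

theorem mv_qmp (h : Blocks e B φ) (δ : ℝ) (T : Finset ι) :
    Measure.QuasiMeasurePreserving (mv e φ δ T) P P := by
  induction T using Finset.induction_on with
  | empty =>
    have : mv e φ δ ∅ = id := by funext w; simp [mv]
    rw [this]
    exact Measure.QuasiMeasurePreserving.id P
  | insert j T hj ih =>
    have h1 : Measure.QuasiMeasurePreserving (tiltS (e j) (φ j) δ) P P := by
      have hm := tilt_mS (e j) (h.meas j) δ
      refine ⟨hm, Measure.AbsolutelyContinuous.mk fun s hs h0 => ?_⟩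
      have hI : Measurable (s.indicator (1 : W → ℝ≥0∞)) := measurable_one.indicator hs
      rw [← lintegral_indicator_one hs, lintegral_map hI hm,
        tilt_step _ (h.meas j) (h.sgn j) δ hI]
      refine lintegral_eq_zero_of_ae_eq_zero ?_
      filter_upwards [measure_eq_zero_iff_ae_notMem.1 h0] with w hw
      simp [hw]
    have : mv e φ δ (insert j T) = tiltS (e j) (φ j) δ ∘ mv e φ δ T :=
      funext (tilt_insert h δ hj)
    rw [this]
    exact h1.comp ih

theorem tilt_sum (h : Blocks e B φ) (δ : ℝ) (a b : ℝ≥0∞) (J : Finset ι) {i : ι} (hi : i ∉ J)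
    {F : W → ℝ≥0∞} (hF : Measurable F) :
    ∑ T ∈ J.powerset, b ^ T.card * a ^ (J.card - T.card) *
        ∫⁻ w, F (mv e φ δ (insert i T) w) ∂P =
      ∫⁻ w, F w * (tiltQ (e i) (φ i) δ w * ∏ j ∈ J, (a + b * tiltQ (e j) (φ j) δ w)) ∂P := by
  have mQ : ∀ j, Measurable (tiltQ (e j) (φ j) δ) := fun j => tilt_mQ _ (h.meas j) δ
  induction J using Finset.induction_on generalizing F with
  | empty =>
    simp only [Finset.powerset_empty, Finset.sum_singleton, Finset.card_empty, pow_zero,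
      Nat.sub_zero, one_mul, Finset.prod_empty, mul_one]
    rw [← tilt_step _ (h.meas i) (h.sgn i) δ hF]
    refine lintegral_congr fun w => ?_
    rw [tilt_insert h δ (Finset.notMem_empty i)]
    simp [mv]
  | insert k J hk ih =>
    have hiJ : i ∉ J := fun h1 => hi (Finset.mem_insert_of_mem h1)
    have hik : k ≠ i := fun h1 => hi (h1 ▸ Finset.mem_insert_self _ _)
    have hS := tilt_mS (e k) (h.meas k) δ
    set U : W → ℝ≥0∞ := fun w =>
      tiltQ (e i) (φ i) δ w * ∏ j ∈ J, (a + b * tiltQ (e j) (φ j) δ w) with hU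
    have mU : Measurable U :=
      (mQ i).mul (Finset.measurable_prod _ fun j _ => ((mQ j).const_mul b).const_add a)
    have hQS : ∀ j, k ≠ j → ∀ w,
        tiltQ (e j) (φ j) δ (tiltS (e k) (φ k) δ w) = tiltQ (e j) (φ j) δ w := by
      intro j hkj w
      refine tilt_depQ (Finset.mem_coe.2 (h.mem j)) (h.dep j) δ fun y hy => ?_
      simp [tiltS, Pi.single_eq_of_ne (tilt_ne h hkj hy)]
    have hUS : ∀ w, U (tiltS (e k) (φ k) δ w) = U w := by
      intro w
      simp only [hU]
      rw [hQS i hik]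
      congr 1
      exact Finset.prod_congr rfl fun j hj => by rw [hQS j fun hkj => hk (hkj ▸ hj)]
    have mFU : Measurable fun w => F w * U w := hF.mul mU
    have mFUQ : Measurable fun w => F w * U w * tiltQ (e k) (φ k) δ w := mFU.mul (mQ k)
    have mFS : Measurable fun w => F (tiltS (e k) (φ k) δ w) := hF.comp hS
    have e1 : ∑ T ∈ J.powerset, b ^ T.card * a ^ ((insert k J).card - T.card) *
        ∫⁻ w, F (mv e φ δ (insert i T) w) ∂P = a * ∫⁻ w, F w * U w ∂P := by
      rw [← ih hiJ hF, Finset.mul_sum]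
      refine Finset.sum_congr rfl fun T hT => ?_
      have := Finset.card_le_card (Finset.mem_powerset.1 hT)
      rw [Finset.card_insert_of_notMem hk, Nat.sub_add_comm this, pow_succ]
      ring
    have e2 : ∑ T ∈ J.powerset, b ^ (insert k T).card * a ^ ((insert k J).card - (insert k T).card) *
        ∫⁻ w, F (mv e φ δ (insert i (insert k T)) w) ∂P =
        b * ∫⁻ w, F w * U w * tiltQ (e k) (φ k) δ w ∂P := by
      rw [← tilt_step _ (h.meas k) (h.sgn k) δ mFU]
      simp only [hUS]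
      rw [← ih hiJ mFS, Finset.mul_sum]
      refine Finset.sum_congr rfl fun T hT => ?_
      have hkT : k ∉ T := fun h1 => hk (Finset.mem_powerset.1 hT h1)
      have hkT' : k ∉ insert i T := by simp [hik, hkT]
      rw [Finset.card_insert_of_notMem hk, Finset.card_insert_of_notMem hkT,
        Nat.add_sub_add_right, pow_succ, Finset.insert_comm]
      simp only [tilt_insert h δ hkT']
      ring
    rw [Finset.sum_powerset_insert hk, e1, e2, ← lintegral_const_mul _ mFU,
      ← lintegral_const_mul _ mFUQ, ← lintegral_add_left (mFU.const_mul a)]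
    refine lintegral_congr fun w => ?_
    simp only [hU, Finset.prod_insert hk]
    ring

theorem tilt_sq (h : Blocks e B φ) (δ : ℝ) {p : ℝ} (hp0 : 0 ≤ p) (hp1 : p ≤ 1) (J : Finset ι)
    {i : ι} (hi : i ∉ J) :
    ∫⁻ w, (tiltQ (e i) (φ i) δ w * ∏ j ∈ J, (ENNReal.ofReal (1 - p) +
        ENNReal.ofReal p * tiltQ (e j) (φ j) δ w)) ^ 2 ∂P ≤
      ENNReal.ofReal ((4 * Real.exp (δ ^ 2)) *
        Real.exp (J.card * p ^ 2 * (4 * Real.exp (δ ^ 2)))) := by
  have mQ : ∀ j, Measurable (tiltQ (e j) (φ j) δ) := fun j => tilt_mQ _ (h.meas j) δ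
  have dQ : ∀ j, DependsOn (tiltQ (e j) (φ j) δ) (B j : Set E) := fun j =>
    tilt_depQ (Finset.mem_coe.2 (h.mem j)) (h.dep j) δ
  set a := ENNReal.ofReal (1 - p) with ha
  set b := ENNReal.ofReal p with hb
  set c : ℝ := 4 * Real.exp (δ ^ 2) with hc
  have hc0 : 0 ≤ c := by positivity
  have hab : a + b = 1 := by
    rw [ha, hb, ← ENNReal.ofReal_add (by linarith) hp0]; simp
  let F : ι → W → ℝ≥0∞ := fun j w =>
    if j = i then tiltQ (e i) (φ i) δ w ^ 2 else (a + b * tiltQ (e j) (φ j) δ w) ^ 2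
  have mF : ∀ j, Measurable (F j) := by
    intro j
    by_cases hj : j = i
    · simpa [F, hj] using (mQ i).pow_const 2
    · simpa [F, hj] using (((mQ j).const_mul b).const_add a).pow_const 2
  have dF : ∀ j, DependsOn (F j) (B j : Set E) := by
    intro j w w' hw
    by_cases hj : j = i
    · subst hj
      simp only [F, if_true, dQ j hw]
    · simp only [F, if_neg hj, dQ j hw]
  have hne : ∀ j ∈ J, j ≠ i := fun j hj hji => hi (hji ▸ hj)
  have e1 : ∀ w, (tiltQ (e i) (φ i) δ w * ∏ j ∈ J, (a + b * tiltQ (e j) (φ j) δ w)) ^ 2 =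
      ∏ j ∈ insert i J, F j w := by
    intro w
    rw [Finset.prod_insert hi, mul_pow, ← Finset.prod_pow]
    simp only [F, if_true]
    congr 1
    exact Finset.prod_congr rfl fun j hj => (if_neg (hne j hj)).symm
  have e2 : ∀ j ∈ J, ∫⁻ w, F j w ∂P ≤ ENNReal.ofReal (Real.exp (p ^ 2 * c)) := by
    intro j hj
    have e3 : ∀ w, F j w = a ^ 2 + (2 * a * b * tiltQ (e j) (φ j) δ w +
        b ^ 2 * tiltQ (e j) (φ j) δ w ^ 2) := by
      intro w
      simp only [F, if_neg (hne j hj)]
      ring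
    simp only [e3]
    rw [lintegral_add_left measurable_const, lintegral_add_left ((mQ j).const_mul _),
      lintegral_const_mul _ (mQ j), lintegral_const_mul _ ((mQ j).pow_const 2),
      tilt_intQ _ (h.meas j) (h.sgn j), lintegral_const, measure_univ]
    calc _ ≤ (a + b) ^ 2 + b ^ 2 * ENNReal.ofReal c := by
          have h1 := mul_le_mul_right (tilt_intQ2 (e j) (φ j) δ) (b ^ 2)
          calc _ ≤ a ^ 2 * 1 + (2 * a * b * 1 + b ^ 2 * ENNReal.ofReal c) + b ^ 2 :=
                le_add_right (add_le_add le_rfl (add_le_add le_rfl h1))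
            _ = _ := by ring
      _ = ENNReal.ofReal (p ^ 2 * c + 1) := by
          rw [hab, one_pow, hb, ← ENNReal.ofReal_pow hp0, ← ENNReal.ofReal_mul (by positivity),
            ENNReal.ofReal_add (by positivity) zero_le_one, ENNReal.ofReal_one, add_comm]
      _ ≤ _ := ENNReal.ofReal_le_ofReal (Real.add_one_le_exp _)
  simp only [e1]
  rw [tilt_prod h mF dF, Finset.prod_insert hi, ENNReal.ofReal_mul hc0]
  refine mul_le_mul' ?_ ?_
  · simpa only [F, if_true] using tilt_intQ2 (e i) (φ i) δ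
  · refine (Finset.prod_le_prod' e2).trans_eq ?_
    rw [Finset.prod_const, ← ENNReal.ofReal_pow (Real.exp_pos _).le, ← Real.exp_nat_mul,
      mul_assoc]

theorem mv_bound (h : Blocks e B φ) (δ : ℝ) {p : ℝ} (hp0 : 0 ≤ p) (hp1 : p ≤ 1) (J : Finset ι)
    {i : ι} (hi : i ∉ J) {f : W → ℝ} (hf : Measurable f) (h0 : ∀ w, 0 ≤ f w) (h2 : ∀ w, f w ≤ 2)
    {l : ℝ} (hl : 0 < l) :
    ∑ T ∈ J.powerset, p ^ T.card * (1 - p) ^ (J.card - T.card) *
        ∫ w, f (mv e φ δ (insert i T) w) ∂P ≤
      l * ∫ w, f w ∂P + 2 * (4 * Real.exp (δ ^ 2)) *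
        Real.exp (J.card * p ^ 2 * (4 * Real.exp (δ ^ 2))) / l := by
  have hp2 : 0 ≤ 1 - p := by linarith
  have conv : ∀ g : W → W, Measurable g → ENNReal.ofReal (∫ w, f (g w) ∂P) =
      ∫⁻ w, ENNReal.ofReal (f (g w)) ∂P := fun g hg =>
    ofReal_integral_eq_lintegral_ofReal
      (Integrable.of_bound (hf.comp hg).aestronglyMeasurable 2 (ae_of_all _ fun w => by
        rw [Real.norm_of_nonneg (h0 _)]; exact h2 _)) (ae_of_all _ fun w => h0 _)
  have hI : 0 ≤ ∫ w, f w ∂P := integral_nonneg h0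
  have hF : Measurable fun w => ENNReal.ofReal (f w) := hf.ennreal_ofReal
  have hL0 : ENNReal.ofReal l ≠ 0 := (ENNReal.ofReal_pos.2 hl).ne'
  have pt : ∀ (x : ℝ) (U : ℝ≥0∞), x ≤ 2 → ENNReal.ofReal x * U ≤
      ENNReal.ofReal l * ENNReal.ofReal x + 2 * (ENNReal.ofReal l)⁻¹ * U ^ 2 := by
    intro x U hx
    rcases le_total U (ENNReal.ofReal l) with h1 | h1
    · exact le_add_right (by rw [mul_comm]; exact mul_le_mul_left h1 _)
    · refine le_add_left ?_
      have h3 : ENNReal.ofReal x ≤ 2 := by simpa using ENNReal.ofReal_le_ofReal hx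
      calc _ ≤ 2 * U := mul_le_mul_left h3 _
        _ = 2 * (ENNReal.ofReal l)⁻¹ * (ENNReal.ofReal l * U) := by
          rw [mul_assoc 2, ← mul_assoc _ _ U, ENNReal.inv_mul_cancel hL0 ENNReal.ofReal_ne_top,
            one_mul]
        _ ≤ _ := by
          rw [pow_two]
          exact mul_le_mul_right (mul_le_mul_left h1 _) _
  have mQ : ∀ j, Measurable (tiltQ (e j) (φ j) δ) := fun j => tilt_mQ _ (h.meas j) δ
  rw [← ENNReal.ofReal_le_ofReal_iff (by positivity), ENNReal.ofReal_sum_of_nonneg fun T _ =>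
    mul_nonneg (by positivity) (integral_nonneg fun w => h0 _)]
  calc _ = ∑ T ∈ J.powerset, ENNReal.ofReal p ^ T.card *
          ENNReal.ofReal (1 - p) ^ (J.card - T.card) *
          ∫⁻ w, ENNReal.ofReal (f (mv e φ δ (insert i T) w)) ∂P := by
        refine Finset.sum_congr rfl fun T _ => ?_
        rw [ENNReal.ofReal_mul (by positivity), ENNReal.ofReal_mul (by positivity),
          ENNReal.ofReal_pow hp0, ENNReal.ofReal_pow hp2, conv _ (measurable_mv h δ _)]
    _ = _ := tilt_sum h δ _ _ J hi hF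
    _ ≤ _ := lintegral_mono fun w => pt _ _ (h2 w)
    _ ≤ ENNReal.ofReal l * ENNReal.ofReal (∫ w, f w ∂P) + 2 * (ENNReal.ofReal l)⁻¹ *
        ENNReal.ofReal ((4 * Real.exp (δ ^ 2)) *
          Real.exp (J.card * p ^ 2 * (4 * Real.exp (δ ^ 2)))) := by
        have m1 : Measurable fun w => (tiltQ (e i) (φ i) δ w * ∏ j ∈ J, (ENNReal.ofReal (1 - p) +
            ENNReal.ofReal p * tiltQ (e j) (φ j) δ w)) ^ 2 :=
          ((mQ i).mul (Finset.measurable_prod _ fun j _ =>
            ((mQ j).const_mul _).const_add _)).pow_const 2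
        rw [lintegral_add_left (hF.const_mul _), lintegral_const_mul _ hF,
          lintegral_const_mul _ m1, conv (fun w => w) measurable_id]
        exact add_le_add le_rfl (mul_le_mul_right (tilt_sq h δ hp0 hp1 J hi) _)
    _ = _ := by
        rw [ENNReal.ofReal_add (by positivity) (by positivity), ENNReal.ofReal_mul hl.le,
          ENNReal.ofReal_div_of_pos hl, mul_assoc (2 : ℝ), ENNReal.ofReal_mul zero_le_two,
          ENNReal.ofReal_ofNat, div_eq_mul_inv]
        ring

end Pool.Agent.MP_c70b3b_mp
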