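import Pool.Agent.MP_c70b3b_mp.TowerDef
import Pool.Agent.MP_c70b3b_mp.RW

open MeasureTheory ProbabilityTheory Filter Topology
open scoped symmDiff ENNReal

namespace Pool.Agent.MP_c70b3b_mp

/-- All correlations between links of `g` and links of `g + d` vanish. -/
def towerAbsV (D : V × Bool → V × Bool → ℝ) (d : V) : Prop :=
  ∀ g l m, Lk g l → Lk (g + d) m → D l m = 0

lemma towerAbs_aI (g : V) : Lk (g - (1, 0)) (aI g) := Or.inl rfl
lemma towerAbs_bI (g : V) : Lk (g - (0, 1)) (bI g) := Or.inr (Or.inr (Or.inl rfl))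
lemma towerAbs_aO_eq (g : V) : aO g = aI (g + (1, 0)) := by simp [aO, aI]
lemma towerAbs_bO_eq (g : V) : bO g = bI (g + (0, 1)) := by simp [bO, bI]
lemma towerAbs_aO (g : V) : Lk (g + (1, 0)) (aO g) := Or.inr (Or.inl (towerAbs_aO_eq g))
lemma towerAbs_bO (g : V) : Lk (g + (0, 1)) (bO g) :=
  Or.inr (Or.inr (Or.inr (towerAbs_bO_eq g)))
lemma towerAbs_lk1 (g : V) : Lk g (aO g) := Or.inl rfl
lemma towerAbs_lk2 (g : V) : Lk g (aI g) := Or.inr (Or.inl rfl)
lemma towerAbs_lk3 (g : V) : Lk g (bO g) := Or.inr (Or.inr (Or.inl rfl))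
lemma towerAbs_lk4 (g : V) : Lk g (bI g) := Or.inr (Or.inr (Or.inr rfl))

section det

variable {L : V → ℝ} {D : V × Bool → V × Bool → ℝ}

lemma towerAbs_zero (h : LocRel L D) : towerAbsV D 0 := fun g l m hl hm =>
  h.base g l m hl (by simpa using hm)

lemma towerAbs_neg (h : LocRel L D) {d : V} (hd : towerAbsV D d) : towerAbsV D (-d) := by
  intro g l m hl hm
  rw [h.symm]
  exact hd (g + -d) m l hm (by simpa using hl)

/-- Two vanishing links of `g` of different direction kill all links of `g` (right slot). -/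
lemma towerAbs_two (h : LocRel L D) {g : V} {l m1 m2 : V × Bool} (h1 : Lk g m1) (h2 : Lk g m2)
    (hne : m1.2 ≠ m2.2) (e1 : D l m1 = 0) (e2 : D l m2 = 0) {m : V × Bool} (hm : Lk g m) :
    D l m = 0 := by
  rw [h.symm] at e1 e2 ⊢
  exact h.two g l m1 m2 h1 h2 (fun e => hne (by rw [e])) e1 e2 m hm

lemma towerAbs_off (h : LocRel L D) {d s t : V} (hs : s = (1, 0) ∨ s = (-1, 0))
    (ht : t = (0, 1) ∨ t = (0, -1)) (h1 : towerAbsV D (d + s)) (h2 : towerAbsV D (d + t)) :
    towerAbsV D d := by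
  intro g l m hl hm
  have ha : ∃ m1, Lk (g + d) m1 ∧ m1.2 = false ∧ Lk (g + (d + s)) m1 := by
    rcases hs with rfl | rfl
    · exact ⟨aO (g + d), towerAbs_lk1 _, rfl, by rw [← add_assoc]; exact towerAbs_aO _⟩
    · refine ⟨aI (g + d), towerAbs_lk2 _, rfl, ?_⟩
      have : g + (d + (-1, 0)) = g + d - (1, 0) := by ext <;> simp <;> ring
      rw [this]; exact towerAbs_aI _
  have hb : ∃ m1, Lk (g + d) m1 ∧ m1.2 = true ∧ Lk (g + (d + t)) m1 := by
    rcases ht with rfl | rfl
    · exact ⟨bO (g + d), towerAbs_lk3 _, rfl, by rw [← add_assoc]; exact towerAbs_bO _⟩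
    · refine ⟨bI (g + d), towerAbs_lk4 _, rfl, ?_⟩
      have : g + (d + (0, -1)) = g + d - (0, 1) := by ext <;> simp <;> ring
      rw [this]; exact towerAbs_bI _
  obtain ⟨m1, a1, a2, a3⟩ := ha
  obtain ⟨m2, b1, b2, b3⟩ := hb
  exact towerAbs_two h a1 b1 (by simp [a2, b2]) (h1 g l m1 hl a3) (h2 g l m2 hl b3) hm

lemma towerAbs_x1 {d : V} (hd : towerAbsV D (d - (1, 0))) (g : V) {m : V × Bool}
    (hm : Lk (g + d) m) : D (aO g) m = 0 :=
  hd (g + (1, 0)) _ m (towerAbs_aO g) (by
    have : g + (1, 0) + (d - (1, 0)) = g + d := by abel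
    rwa [this])

lemma towerAbs_x2 {d : V} (hd : towerAbsV D (d - (1, 0))) (g : V) {l : V × Bool}
    (hl : Lk g l) : D l (aI (g + d)) = 0 :=
  hd g l _ hl (by rw [← add_sub_assoc]; exact towerAbs_aI _)

lemma towerAbs_y1 {d : V} (hd : towerAbsV D (d - (0, 1))) (g : V) {m : V × Bool}
    (hm : Lk (g + d) m) : D (bO g) m = 0 :=
  hd (g + (0, 1)) _ m (towerAbs_bO g) (by
    have : g + (0, 1) + (d - (0, 1)) = g + d := by abel
    rwa [this])

lemma towerAbs_y2 {d : V} (hd : towerAbsV D (d - (0, 1))) (g : V) {l : V × Bool}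
    (hl : Lk g l) : D l (bI (g + d)) = 0 :=
  hd g l _ hl (by rw [← add_sub_assoc]; exact towerAbs_bI _)

lemma towerAbs_xrec (h : LocRel L D) {d : V} (hd : towerAbsV D (d - (1, 0))) (g : V) :
    D (bI (g + (0, 1))) (bI (g + (0, 1) + d)) =
      D (bI g) (bI (g + d)) * Real.exp (-(sg g * L g) + sg (g + d) * L (g + d)) := by
  have e : g + (0, 1) + d = g + d + (0, 1) := by abel
  rw [e, ← towerAbs_bO_eq, ← towerAbs_bO_eq,
    h.r1 g _ (towerAbs_x1 hd g (towerAbs_lk3 _)), h.symm (bI g) (bO (g + d)),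
    h.r2 (g + d) _ (by rw [h.symm]; exact towerAbs_x2 hd g (towerAbs_lk4 _)),
    h.symm (bI (g + d)) (bI g), Real.exp_add]
  ring

lemma towerAbs_yrec (h : LocRel L D) {d : V} (hd : towerAbsV D (d - (0, 1))) (g : V) :
    D (aI (g + (1, 0))) (aI (g + (1, 0) + d)) =
      D (aI g) (aI (g + d)) * Real.exp (-(sg g * L g) + sg (g + d) * L (g + d)) := by
  have e : g + (1, 0) + d = g + d + (1, 0) := by abel
  rw [e, ← towerAbs_aO_eq, ← towerAbs_aO_eq,
    h.r3 g _ (towerAbs_y1 hd g (towerAbs_lk1 _)), h.symm (aI g) (aO (g + d)),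
    h.r4 (g + d) _ (by rw [h.symm]; exact towerAbs_y2 hd g (towerAbs_lk2 _)),
    h.symm (aI (g + d)) (aI g), Real.exp_add]
  ring

lemma towerAbs_xfin (h : LocRel L D) {d : V} (hd : towerAbsV D (d - (1, 0)))
    (hz : ∀ g, D (bI g) (bI (g + d)) = 0) : towerAbsV D d := by
  intro g l m hl hm
  have h1 : D (bI g) m = 0 := towerAbs_two h (towerAbs_lk4 (g + d)) (towerAbs_lk2 (g + d))
    (by simp [aI, bI]) (hz g) (towerAbs_x2 hd g (towerAbs_lk4 _)) hm
  exact h.two g m (bI g) (aO g) (towerAbs_lk4 _) (towerAbs_lk1 _) (by simp [aO, bI]) h1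
    (towerAbs_x1 hd g hm) l hl

lemma towerAbs_yfin (h : LocRel L D) {d : V} (hd : towerAbsV D (d - (0, 1)))
    (hz : ∀ g, D (aI g) (aI (g + d)) = 0) : towerAbsV D d := by
  intro g l m hl hm
  have h1 : D (aI g) m = 0 := towerAbs_two h (towerAbs_lk2 (g + d)) (towerAbs_lk4 (g + d))
    (by simp [aI, bI]) (hz g) (towerAbs_y2 hd g (towerAbs_lk2 _)) hm
  exact h.two g m (aI g) (bO g) (towerAbs_lk2 _) (towerAbs_lk3 _) (by simp [aI, bO]) h1
    (towerAbs_y1 hd g hm) l hl

lemma towerAbs_iter {lam c : V → ℝ} {u : V} (h : ∀ g, lam (g + u) = lam g * Real.exp (c g))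
    (g : V) (n : ℕ) :
    lam (g + n • u) = lam g * Real.exp (∑ j ∈ Finset.range n, c (g + j • u)) := by
  induction n with
  | zero => simp
  | succ n ih =>
    rw [succ_nsmul, ← add_assoc, h, ih, Finset.sum_range_succ, Real.exp_add, mul_assoc]

end det

lemma towerAbs_sg (g : V) : sg g = 1 ∨ sg g = -1 := by
  unfold sg; split_ifs <;> simp

/-- The random walk argument along the direction `u`. -/
lemma towerAbs_walk {β : ℝ} (hβ : β ≠ 0) {k : ℤ} (hk : 0 < k)
    (D : W → V × Bool → V × Bool → ℝ)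
    (hm : ∀ l m, Measurable fun w => D w l m) (h0 : ∀ w l m, 0 ≤ D w l m)
    (hcov : ∀ (z : V) (l m : V × Bool), ∀ᵐ w ∂P, D (shW (k • z) w) l m =
      D w (l.1 + msh (k • z), l.2) (m.1 + msh (k • z), m.2))
    (lk : V → V × Bool) (hlk : ∀ g s, lk (g + s) = ((lk g).1 + s, (lk g).2))
    (u d : V) (z : ℕ → V) (hz : ∀ n, msh (k • z n) = (2 * k.toNat * n) • u)
    (hinj : ∀ i j : ℕ, (i • u = j • u → i = j) ∧ i • u ≠ d + j • u)
    (hrec : ∀ᵐ w ∂P, ∀ g, D w (lk (g + u)) (lk (g + u + d)) = D w (lk g) (lk (g + d)) *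
      Real.exp (-(sg g * ls β (w (gate g))) + sg (g + d) * ls β (w (gate (g + d))))) :
    ∀ᵐ w ∂P, ∀ g, D w (lk g) (lk (g + d)) = 0 := by
  classical
  rw [ae_all_iff]
  intro g
  let pt : ℕ × Bool → V := fun p => if p.2 then g + p.1 • u + d else g + p.1 • u
  have hpt : Function.Injective pt := by
    rintro ⟨i, b⟩ ⟨j, c⟩ h
    cases b <;> cases c <;> simp only [pt, Bool.false_eq_true, if_false, if_true] at h
    · rw [(hinj i j).1 (add_left_cancel h)]
    · refine absurd ?_ (hinj i j).2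
      rw [add_assoc] at h
      rw [add_left_cancel h, add_comm]
    · refine absurd ?_ (hinj j i).2
      rw [add_assoc] at h
      rw [← add_left_cancel h, add_comm]
    · rw [(hinj i j).1 (add_left_cancel (add_right_cancel h))]
  have hq : Function.Injective (fun p => gate (pt p)) := gate_inj.comp hpt
  let q : E → ℕ × Bool := Function.invFun fun p => gate (pt p)
  have hqq : ∀ p, q (gate (pt p)) = p := Function.leftInverse_invFun hq
  let a : E → ℝ := fun e => if (q e).2 then sg (pt (q e)) else -sg (pt (q e))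
  let F : ℕ → Finset E := fun n =>
    (Finset.range (2 * k.toNat * n) ×ˢ (Finset.univ : Finset Bool)).image fun p => gate (pt p)
  refine rw_zero hβ F (fun n => ?_) (fun _ => a) (fun n e _ => ?_) (hm _ _) (fun w => h0 w _ _)
    (fun n => shW (k • z n)) (fun n => mp_shW _) (fun n => ?_)
  · simp only [F]
    rw [Finset.card_image_of_injective _ hq, Finset.card_product, Finset.card_range]
    have : 1 ≤ k.toNat := by omega
    simp only [Finset.card_univ, Fintype.card_bool]
    nlinarith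
  · simp only [a]
    split_ifs
    · exact towerAbs_sg _
    · rcases towerAbs_sg (pt (q e)) with h | h <;> simp [h]
  · filter_upwards [hrec, hcov (z n) (lk g) (lk (g + d))] with w h1 h2
    rw [h2, ← hlk, ← hlk, hz]
    have h3 := towerAbs_iter (lam := fun g => D w (lk g) (lk (g + d))) h1 g (2 * k.toNat * n)
    have e : g + d + (2 * k.toNat * n) • u = g + (2 * k.toNat * n) • u + d := by abel
    rw [e, h3]
    congr 2
    simp only [F]
    rw [Finset.sum_image fun p _ p' _ h => hq h, Finset.sum_product]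
    refine Finset.sum_congr rfl fun j _ => ?_
    simp only [Fintype.univ_bool, a, hqq]
    rw [Finset.sum_pair (by simp)]
    simp only [pt, Bool.false_eq_true, if_false, if_true]
    ring

theorem tower_abs {β : ℝ} (hβ : β ≠ 0) {k : ℤ} (hk : 0 < k) (D : W → V × Bool → V × Bool → ℝ)
    (hm : ∀ l m, Measurable fun w => D w l m) (h0 : ∀ w l m, 0 ≤ D w l m)
    (hloc : ∀ᵐ w ∂P, LocRel (fun g => ls β (w (gate g))) (D w))
    (hcov : ∀ (z : V) (l m : V × Bool), ∀ᵐ w ∂P, D (shW (k • z) w) l m =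
      D w (l.1 + msh (k • z), l.2) (m.1 + msh (k • z), m.2)) :
    ∀ᵐ w ∂P, ∀ l m, D w l m = 0 := by
  have hkk : ((k.toNat : ℕ) : ℤ) = k := Int.toNat_of_nonneg hk.le
  have hx : ∀ x : ℤ, 0 < x → (∀ᵐ w ∂P, towerAbsV (D w) ((x, 0) - (1, 0))) →
      ∀ᵐ w ∂P, towerAbsV (D w) (x, 0) := by
    intro x hx hd
    have hw := towerAbs_walk hβ hk D hm h0 hcov bI (fun g s => by
        simp only [bI, Prod.mk.injEq, and_true]; abel) (0, 1) (x, 0)
      (fun n => (-(n : ℤ), (n : ℤ))) (fun n => by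
        ext <;> simp [msh, hkk] <;> ring) (fun i j => by
        constructor
        · intro h; simpa using h
        · intro h
          have := congrArg Prod.fst h
          simp at this; omega) (by
        filter_upwards [hloc, hd] with w h1 h2 g using towerAbs_xrec h1 h2 g)
    filter_upwards [hloc, hd, hw] with w h1 h2 h3 using towerAbs_xfin h1 h2 h3
  have hy : ∀ y : ℤ, 0 < y → (∀ᵐ w ∂P, towerAbsV (D w) ((0, y) - (0, 1))) →
      ∀ᵐ w ∂P, towerAbsV (D w) (0, y) := by
    intro y hy hd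
    have hw := towerAbs_walk hβ hk D hm h0 hcov aI (fun g s => by
        simp only [aI, Prod.mk.injEq, and_true]; abel) (1, 0) (0, y)
      (fun n => ((n : ℤ), (n : ℤ))) (fun n => by
        ext <;> simp [msh, hkk] <;> ring) (fun i j => by
        constructor
        · intro h; simpa using h
        · intro h
          have := congrArg Prod.snd h
          simp at this; omega) (by
        filter_upwards [hloc, hd] with w h1 h2 g using towerAbs_yrec h1 h2 g)
    filter_upwards [hloc, hd, hw] with w h1 h2 h3 using towerAbs_yfin h1 h2 h3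
  have hneg : ∀ d : V, (∀ᵐ w ∂P, towerAbsV (D w) d) → ∀ᵐ w ∂P, towerAbsV (D w) (-d) := by
    intro d hd
    filter_upwards [hloc, hd] with w h1 h2 using towerAbs_neg h1 h2
  have key : ∀ n : ℕ, ∀ x y : ℤ, x.natAbs + y.natAbs ≤ n →
      ∀ᵐ w ∂P, towerAbsV (D w) (x, y) := by
    intro n
    induction n with
    | zero =>
      intro x y h
      have h1 : x = 0 := by omega
      have h2 : y = 0 := by omega
      subst h1 h2
      filter_upwards [hloc] with w hw using towerAbs_zero hw
    | succ n ih =>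
      intro x y h
      by_cases hy0 : y = 0
      · subst hy0
        rcases lt_trichotomy x 0 with hx0 | rfl | hx0
        · have := hneg _ (hx (-x) (by omega) (by
            simpa using ih (-x - 1) 0 (by omega)))
          simpa using this
        · exact ih 0 0 (by simp)
        · exact hx x hx0 (by simpa using ih (x - 1) 0 (by omega))
      by_cases hx0 : x = 0
      · subst hx0
        rcases lt_or_gt_of_ne hy0 with hy1 | hy1
        · have := hneg _ (hy (-y) (by omega) (by
            simpa using ih 0 (-y - 1) (by omega)))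
          simpa using this
        · exact hy y hy1 (by simpa using ih 0 (y - 1) (by omega))
      have hs : ∃ s : ℤ, (s = 1 ∨ s = -1) ∧ (x + s).natAbs < x.natAbs := by
        rcases lt_or_gt_of_ne hx0 with h1 | h1
        · exact ⟨1, Or.inl rfl, by omega⟩
        · exact ⟨-1, Or.inr rfl, by omega⟩
      have ht : ∃ t : ℤ, (t = 1 ∨ t = -1) ∧ (y + t).natAbs < y.natAbs := by
        rcases lt_or_gt_of_ne hy0 with h1 | h1
        · exact ⟨1, Or.inl rfl, by omega⟩
        · exact ⟨-1, Or.inr rfl, by omega⟩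
      obtain ⟨s, hs, hs'⟩ := hs
      obtain ⟨t, ht, ht'⟩ := ht
      filter_upwards [hloc, ih (x + s) y (by omega), ih x (y + t) (by omega)] with w h1 h2 h3
      refine towerAbs_off h1 (s := (s, 0)) (t := (0, t)) ?_ ?_ (by simpa using h2)
        (by simpa using h3)
      · rcases hs with rfl | rfl <;> simp
      · rcases ht with rfl | rfl <;> simp
  have hall : ∀ᵐ w ∂P, ∀ d : V, towerAbsV (D w) d :=
    ae_all_iff.2 fun d => key _ d.1 d.2 le_rfl
  have hlk : ∀ l : V × Bool, Lk l.1 l := by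
    rintro ⟨g, _ | _⟩
    · exact towerAbs_lk1 g
    · exact towerAbs_lk3 g
  filter_upwards [hall] with w hw l m
  exact hw (m.1 - l.1) l.1 l m (hlk l) (by simpa using hlk m)

end Pool.Agent.MP_c70b3b_mp
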