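import Pool.Agent.MP_c70b3b_mp.Basic

open MeasureTheory ProbabilityTheory Filter Topology
open scoped symmDiff ENNReal

namespace Pool.Agent.MP_c70b3b_mp

/-- Links of the medial lattice: `(g, false)` joins `g` to `g + (1,0)`, `(g, true)` joins `g`
to `g + (0,1)`. -/
def aO (g : V) : V × Bool := (g, false)
def aI (g : V) : V × Bool := (g - (1, 0), false)
def bO (g : V) : V × Bool := (g, true)
def bI (g : V) : V × Bool := (g - (0, 1), true)

def Lk (g : V) (l : V × Bool) : Prop := l = aO g ∨ l = aI g ∨ l = bO g ∨ l = bI g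

def sg (g : V) : ℝ := if (g.1 + g.2) % 2 = 0 then 1 else -1

/-- Medial shift induced by the lattice shift `z`. -/
def msh (z : V) : V := (z.1 + z.2, z.2 - z.1)

structure LocRel (L : V → ℝ) (D : V × Bool → V × Bool → ℝ) : Prop where
  symm : ∀ l m, D l m = D m l
  two : ∀ g m l l', Lk g l → Lk g l' → l ≠ l' → D l m = 0 → D l' m = 0 →
    ∀ l'', Lk g l'' → D l'' m = 0
  r1 : ∀ g m, D (aO g) m = 0 → D (bO g) m = Real.exp (-(sg g * L g)) * D (bI g) m
  r2 : ∀ g m, D (aI g) m = 0 → D (bO g) m = Real.exp (sg g * L g) * D (bI g) m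
  r3 : ∀ g m, D (bO g) m = 0 → D (aO g) m = Real.exp (-(sg g * L g)) * D (aI g) m
  r4 : ∀ g m, D (bI g) m = 0 → D (aO g) m = Real.exp (sg g * L g) * D (aI g) m
  base : ∀ g l l', Lk g l → Lk g l' → D l l' = 0

/-- The corner (vertex, face) carried by a link. -/
def cor (l : V × Bool) : V × V :=
  if l.2 then
    (if (gate l.1).2 then (tip (gate l.1), fB (gate l.1)) else ((gate l.1).1, fA (gate l.1)))
  else (tip (gate l.1), fA (gate l.1))

lemma gate_inj : Function.Injective gate := by
  rintro ⟨a, b⟩ ⟨c, d⟩ h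
  unfold gate at h
  split_ifs at h <;> simp only [Prod.mk.injEq, Bool.true_eq_false, Bool.false_eq_true, and_false,
    and_true] at h ⊢ <;> omega

lemma gate_msh (g z : V) : gate (g + msh z) = shE z (gate g) := by
  rcases g with ⟨a, b⟩; rcases z with ⟨c, d⟩
  simp only [gate, msh, shE, Prod.mk_add_mk]
  split_ifs <;> simp only [Prod.mk_add_mk, Prod.mk.injEq, and_true] <;> omega

lemma gate_snd (g : V) : (gate g).2 = false ↔ (g.1 + g.2) % 2 = 0 := by
  unfold gate; split_ifs with h <;> simp [h]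

lemma cor_aO (g : V) : cor (aO g) = (tip (gate g), fA (gate g)) := rfl

lemma cor_aI (g : V) : cor (aI g) = ((gate g).1, fB (gate g)) := by
  rcases g with ⟨a, b⟩
  simp only [cor, aI, gate, tip, fA, fB, Prod.mk_sub_mk, Bool.false_eq_true, if_false]
  split_ifs <;> simp_all [Prod.ext_iff] <;> omega

lemma cor_bO (g : V) : cor (bO g) =
    if (gate g).2 then (tip (gate g), fB (gate g)) else ((gate g).1, fA (gate g)) := rfl

lemma cor_bI (g : V) : cor (bI g) =
    if (gate g).2 then ((gate g).1, fA (gate g)) else (tip (gate g), fB (gate g)) := by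
  rcases g with ⟨a, b⟩
  simp only [cor, bI, gate, tip, fA, fB, Prod.mk_sub_mk, if_true]
  split_ifs <;> simp_all [Prod.ext_iff] <;> omega

lemma cor_shift (l : V × Bool) (z : V) :
    cor (l.1 + msh z, l.2) = ((cor l).1 + z, (cor l).2 + z) := by
  have hB : ∀ e : E, fB (shE z e) = fB e + z := by
    rintro ⟨x, _ | _⟩ <;> simp [fB, shE] <;> abel
  have hA : ∀ e : E, fA (shE z e) = fA e + z := fun e => rfl
  have h1 : ∀ e : E, (shE z e).1 = e.1 + z := fun e => rfl
  have h2 : ∀ e : E, (shE z e).2 = e.2 := fun e => rfl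
  simp only [cor, gate_msh, tip_shE, hA, hB, h1, h2]
  split_ifs <;> rfl

lemma cor_surj {x p : V} (h : Corner x p) : ∃ l, cor l = (x, p) := by
  rcases x with ⟨a, b⟩
  rcases h with rfl | rfl | rfl | rfl
  · refine ⟨bO (a + b, b - a), ?_⟩
    have : (a + b + (b - a)) % 2 = 0 := by omega
    simp [cor_bO, gate, this, fA]; omega
  · refine ⟨aO (a - 1 + b, b - (a - 1)), ?_⟩
    have : (a - 1 + b + (b - (a - 1))) % 2 = 0 := by omega
    simp [cor_aO, gate, this, fA, tip]; omega
  · refine ⟨aI (a + b, b - a), ?_⟩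
    have : (a + b + (b - a)) % 2 = 0 := by omega
    simp [cor_aI, gate, this, fB]; omega
  · refine ⟨bI (a - 1 + b, b - (a - 1)), ?_⟩
    have : (a - 1 + b + (b - (a - 1))) % 2 = 0 := by omega
    simp [cor_bI, gate, this, fB, tip]; omega

end Pool.Agent.MP_c70b3b_mp
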